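import Pool.Agent.H3.GWS

namespace Pool.Agent.H3.BCPoly

open Finset Pool.Agent.H3.GWS

/-- indicator of the admissible pairs of sizes -/
noncomputable def phi (p q : ℕ) : ℂ := if q ≤ 7 ∧ p + q ≤ 12 then 1 else 0

noncomputable def F (WA : Fin 7 → ℂ) (WB : Fin 8 → ℂ) : ℂ :=
  ∑ JA ∈ (univ : Finset (Fin 7)).powerset,
    (∑ JB ∈ (univ : Finset (Fin 8)).powerset, phi JA.card JB.card * ∏ i ∈ JB, WB i) * ∏ i ∈ JA, WA i

noncomputable def G (x y : ℂ) : ℂ :=
  ∑ q ∈ range 9, (Nat.choose 8 q : ℂ) *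
    ((∑ p ∈ range 8, (Nat.choose 7 p : ℂ) * (phi p q * x ^ p)) * y ^ q)

noncomputable def R (s t : ℂ) : ℂ :=
  ∑ i ∈ range 8, ∑ j ∈ range 8,
    (if 3 ≤ i + j then ((Nat.choose 7 i * Nat.choose 8 (j + 1) : ℕ) : ℂ) else 0) * (s ^ i * t ^ j)

lemma G_eq (s t : ℂ) (hs : s ≠ 0) (ht : t ≠ 0) :
    G s⁻¹ t⁻¹ * (s ^ 7 * t ^ 7) = 28 * ((2 * s + t) * (3 * s + 2 * t)) + R s t := by
  simp only [G, R, phi, Finset.sum_range_succ, Finset.sum_range_zero]
  norm_num [Nat.choose]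
  field_simp
  ring

lemma R_bound (s t : ℂ) (m : ℝ) (hs : ‖s‖ ≤ m) (ht : ‖t‖ ≤ m) (hm : m ≤ 1) :
    ‖R s t‖ ≤ 32768 * m ^ 3 := by
  have hm0 : 0 ≤ m := (norm_nonneg _).trans hs
  have h1 : ‖R s t‖ ≤ ∑ i ∈ range 8, ∑ j ∈ range 8,
      ((Nat.choose 7 i * Nat.choose 8 (j + 1) : ℕ) : ℝ) * m ^ 3 := by
    refine (norm_sum_le _ _).trans (Finset.sum_le_sum fun i _ => ?_)
    refine (norm_sum_le _ _).trans (Finset.sum_le_sum fun j _ => ?_)
    split_ifs with h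
    · rw [norm_mul, Complex.norm_natCast, norm_mul, norm_pow, norm_pow]
      refine mul_le_mul_of_nonneg_left ?_ (by positivity)
      calc ‖s‖ ^ i * ‖t‖ ^ j ≤ m ^ i * m ^ j := by gcongr
        _ = m ^ (i + j) := by rw [pow_add]
        _ ≤ m ^ 3 := pow_le_pow_of_le_one hm0 hm h
    · simp only [zero_mul, norm_zero]; positivity
  refine h1.trans ?_
  simp only [← Finset.sum_mul]
  refine mul_le_mul_of_nonneg_right ?_ (by positivity)
  simp only [Finset.sum_range_succ, Finset.sum_range_zero]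
  norm_num [Nat.choose]

lemma inv_re (x : ℂ) (c : ℝ) (hc : 0 < c) (hx : x.re < -c) :
    c * ‖x⁻¹‖ ^ 2 ≤ -(x⁻¹).re ∧ c * ‖x⁻¹‖ ≤ 1 := by
  have hx0 : x ≠ 0 := fun h => by rw [h] at hx; simp at hx; linarith
  have hn : 0 < ‖x‖ := norm_pos_iff.2 hx0
  have h1 : c ≤ ‖x‖ := by
    have := Complex.abs_re_le_norm x
    have h2 := neg_abs_le x.re
    linarith
  constructor
  · rw [Complex.inv_re, norm_inv, Complex.normSq_eq_norm_sq, inv_pow, ← neg_div, ← div_eq_mul_inv]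
    gcongr
    linarith
  · rw [norm_inv, ← div_eq_mul_inv, div_le_one hn]
    exact h1

lemma G_ne (x y : ℂ) (hx : x.re < -(6000 : ℝ)) (hy : y.re < -(6000 : ℝ)) : G x y ≠ 0 := by
  have hx0 : x ≠ 0 := fun h => by rw [h] at hx; simp at hx; linarith
  have hy0 : y ≠ 0 := fun h => by rw [h] at hy; simp at hy; linarith
  obtain ⟨a1, a2⟩ := inv_re x 6000 (by norm_num) hx
  obtain ⟨b1, b2⟩ := inv_re y 6000 (by norm_num) hy
  have e := G_eq x⁻¹ y⁻¹ (inv_ne_zero hx0) (inv_ne_zero hy0)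
  rw [inv_inv, inv_inv] at e
  have hs0 : 0 < ‖x⁻¹‖ := norm_pos_iff.2 (inv_ne_zero hx0)
  generalize x⁻¹ = s at *
  generalize y⁻¹ = t at *
  intro h0
  rw [h0, zero_mul] at e
  set m := max ‖s‖ ‖t‖ with hm
  have hsm : ‖s‖ ≤ m := le_max_left _ _
  have htm : ‖t‖ ≤ m := le_max_right _ _
  have hm0 : 0 < m := lt_of_lt_of_le hs0 hsm
  have hm1 : m ≤ 1 := max_le (by linarith [norm_nonneg s]) (by linarith [norm_nonneg t])
  have hR := R_bound s t m hsm htm hm1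
  have hsq : m ^ 2 ≤ ‖s‖ ^ 2 + ‖t‖ ^ 2 := by
    rcases max_choice ‖s‖ ‖t‖ with h | h <;> rw [hm, h] <;> nlinarith [sq_nonneg ‖s‖, sq_nonneg ‖t‖]
  have hL1 : 6000 * m ^ 2 ≤ ‖2 * s + t‖ := by
    have h1 := Complex.abs_re_le_norm (2 * s + t)
    have h2 := neg_abs_le (2 * s + t).re
    have h3 : (2 * s + t).re = 2 * s.re + t.re := by simp
    nlinarith [sq_nonneg ‖s‖, sq_nonneg ‖t‖]
  have hL2 : 6000 * m ^ 2 ≤ ‖3 * s + 2 * t‖ := by
    have h1 := Complex.abs_re_le_norm (3 * s + 2 * t)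
    have h2 := neg_abs_le (3 * s + 2 * t).re
    have h3 : (3 * s + 2 * t).re = 3 * s.re + 2 * t.re := by simp
    nlinarith [sq_nonneg ‖s‖, sq_nonneg ‖t‖]
  have hs' : ‖s‖ ≤ 2 * ‖2 * s + t‖ + ‖3 * s + 2 * t‖ := by
    have : s = 2 * (2 * s + t) - (3 * s + 2 * t) := by ring
    calc ‖s‖ = ‖2 * (2 * s + t) - (3 * s + 2 * t)‖ := by rw [← this]
      _ ≤ ‖2 * (2 * s + t)‖ + ‖3 * s + 2 * t‖ := norm_sub_le _ _
      _ = _ := by rw [norm_mul]; simp
  have ht' : ‖t‖ ≤ 3 * ‖2 * s + t‖ + 2 * ‖3 * s + 2 * t‖ := by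
    have : t = 2 * (3 * s + 2 * t) - 3 * (2 * s + t) := by ring
    calc ‖t‖ = ‖2 * (3 * s + 2 * t) - 3 * (2 * s + t)‖ := by rw [← this]
      _ ≤ ‖2 * (3 * s + 2 * t)‖ + ‖3 * (2 * s + t)‖ := norm_sub_le _ _
      _ = _ := by rw [norm_mul, norm_mul]; simp; ring
  have hm' : m ≤ 3 * ‖2 * s + t‖ + 2 * ‖3 * s + 2 * t‖ :=
    max_le (by linarith [norm_nonneg (2 * s + t), norm_nonneg (3 * s + 2 * t)]) ht'
  have hRe : ‖R s t‖ = 28 * (‖2 * s + t‖ * ‖3 * s + 2 * t‖) := by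
    have : R s t = -(28 * ((2 * s + t) * (3 * s + 2 * t))) := by linear_combination -e
    rw [this, norm_neg, norm_mul, norm_mul]; simp
  generalize ‖2 * s + t‖ = u at *
  generalize ‖3 * s + 2 * t‖ = v at *
  have hm3 : 0 < m ^ 3 := by positivity
  have hm2 : 0 < m ^ 2 := by positivity
  have key : 1200 * m ^ 3 ≤ u * v := by
    rcases le_total u v with h | h
    · have : m ≤ 5 * v := by linarith
      nlinarith
    · have : m ≤ 5 * u := by linarith
      nlinarith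
  linarith

theorem F_ne (WA : Fin 7 → ℂ) (WB : Fin 8 → ℂ) (hA : ∀ i, (WA i).re < -(6000 : ℝ))
    (hB : ∀ i, (WB i).re < -(6000 : ℝ)) : F WA WB ≠ 0 := by
  unfold F
  refine gws' 6000 WA univ
    (fun p => ∑ JB ∈ (univ : Finset (Fin 8)).powerset, phi p JB.card * ∏ i ∈ JB, WB i)
    (fun x hx => ?_) (fun i _ => hA i)
  have := gws' 6000 WB univ
    (fun q => ∑ p ∈ range 8, (Nat.choose 7 p : ℂ) * (phi p q * x ^ p))
    (fun y hy => by simpa [G] using G_ne x y hx hy) (fun i _ => hB i)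
  intro h0
  apply this
  rw [← h0]
  simp only [card_univ, Fintype.card_fin, Finset.sum_mul, Finset.mul_sum]
  rw [Finset.sum_comm]
  refine Finset.sum_congr rfl fun p _ => Finset.sum_congr rfl fun J _ => by ring

noncomputable def x0 : ℂ := ⟨-3 / 5, -40⟩
noncomputable def y0 : ℂ := ⟨-3 / 5, 20⟩
noncomputable def A0 : ℂ := ⟨262087429156560914248054776/244140625, -2088879905734807056016864/9765625⟩
noncomputable def B0 : ℂ := ⟨-200757661952356256570948/48828125, -50658917920030131899264/1953125⟩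

noncomputable def cf (p : ℕ) : ℂ := ∑ q ∈ range 9, (Nat.choose 8 q : ℂ) * (phi p q * y0 ^ q)

lemma AB : ∑ p ∈ range 7, (Nat.choose 6 p : ℂ) * (cf p * x0 ^ p) = A0 ∧
    ∑ p ∈ range 7, (Nat.choose 6 p : ℂ) * (cf (p + 1) * x0 ^ p) = B0 := by
  have hx1 : x0 ^ 1 = ⟨-3 / 5, -40⟩ := by simp [x0]
  have hy1 : y0 ^ 1 = ⟨-3 / 5, 20⟩ := by simp [y0]
  have hx2 : x0 ^ 2 = ⟨-39991/25, 48/1⟩ := by
    rw [pow_succ, hx1]; apply Complex.ext <;> simp [x0] <;> norm_num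
  have hx3 : x0 ^ 3 = ⟨359973/125, 319784/5⟩ := by
    rw [pow_succ, hx2]; apply Complex.ext <;> simp [x0] <;> norm_num
  have hx4 : x0 ^ 4 = ⟨1597840081/625, -3839136/25⟩ := by
    rw [pow_succ, hx3]; apply Complex.ext <;> simp [x0] <;> norm_num
  have hx5 : x0 ^ 5 = ⟨-23989200243/3125, -2554240648/25⟩ := by
    rw [pow_succ, hx4]; apply Complex.ext <;> simp [x0] <;> norm_num
  have hx6 : x0 ^ 6 = ⟨-63784048599271/15625, 230227211664/625⟩ := by
    rw [pow_succ, hx5]; apply Complex.ext <;> simp [x0] <;> norm_num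
  have hy2 : y0 ^ 2 = ⟨-9991/25, -24/1⟩ := by
    rw [pow_succ, hy1]; apply Complex.ext <;> simp [y0] <;> norm_num
  have hy3 : y0 ^ 3 = ⟨89973/125, -39892/5⟩ := by
    rw [pow_succ, hy2]; apply Complex.ext <;> simp [y0] <;> norm_num
  have hy4 : y0 ^ 4 = ⟨99460081/625, 479568/25⟩ := by
    rw [pow_succ, hy3]; apply Complex.ext <;> simp [y0] <;> norm_num
  have hy5 : y0 ^ 5 = ⟨-1497300243/3125, 79280324/25⟩ := by
    rw [pow_succ, hy4]; apply Complex.ext <;> simp [y0] <;> norm_num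
  have hy6 : y0 ^ 6 = ⟨-986512149271/15625, -7178405832/625⟩ := by
    rw [pow_succ, hy5]; apply Complex.ext <;> simp [y0] <;> norm_num
  have hy7 : y0 ^ 7 = ⟨20905551027813/78125, -3924513379588/3125⟩ := by
    rw [pow_succ, hy6]; apply Complex.ext <;> simp [y0] <;> norm_num
  constructor
  · simp only [cf, phi, Finset.sum_range_succ, Finset.sum_range_zero, hx1, hx2, hx3, hx4, hx5, hx6,
      hy1, hy2, hy3, hy4, hy5, hy6, hy7]
    norm_num [Nat.choose, Complex.ext_iff, A0]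
  · simp only [cf, phi, Finset.sum_range_succ, Finset.sum_range_zero, hx1, hx2, hx3, hx4, hx5, hx6,
      hy1, hy2, hy3, hy4, hy5, hy6, hy7]
    norm_num [Nat.choose, Complex.ext_iff, B0]

theorem F_zero : ∃ (WA : Fin 7 → ℂ) (WB : Fin 8 → ℂ), (∀ i, (WA i).re < -(1 / 2 : ℝ)) ∧
    (∀ i, (WB i).re < -(1 / 2 : ℝ)) ∧ F WA WB = 0 := by
  have hB : B0 ≠ 0 := by
    intro h
    have := congrArg Complex.re h
    norm_num [B0] at this
  refine ⟨fun i => if i = 0 then -A0 / B0 else x0, fun _ => y0, ?_, ?_, ?_⟩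
  · intro i
    by_cases h : i = 0
    · simp only [h, if_true]
      rw [Complex.div_re]
      norm_num [A0, B0, Complex.normSq_apply]
    · simp only [h, if_false]; norm_num [x0]
  · intro i; norm_num [y0]
  · unfold F
    have hu : (univ : Finset (Fin 7)) = insert 0 (univ.erase 0) := by decide
    have hc : ∀ p : ℕ, ∑ JB ∈ (univ : Finset (Fin 8)).powerset, phi p JB.card * ∏ _i ∈ JB, y0
        = cf p := by
      intro p
      rw [sum_const_eval y0 univ (fun q => phi p q)]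
      simp [cf]
    simp only [hc]
    rw [hu, sum_insert_pow _ cf 0 _ (by simp)]
    have hp : ∀ J ∈ ((univ : Finset (Fin 7)).erase 0).powerset,
        (cf J.card + (if (0 : Fin 7) = 0 then -A0 / B0 else x0) * cf (J.card + 1)) *
          ∏ i ∈ J, (if i = 0 then -A0 / B0 else x0) =
        (cf J.card + (-A0 / B0) * cf (J.card + 1)) * ∏ _i ∈ J, x0 := by
      intro J hJ
      rw [if_pos rfl]
      congr 1
      refine Finset.prod_congr rfl fun i hi => ?_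
      have := mem_powerset.1 hJ hi
      rw [if_neg (mem_erase.1 this).1]
    rw [Finset.sum_congr rfl hp,
      sum_const_eval x0 _ (fun p => cf p + (-A0 / B0) * cf (p + 1))]
    have hcard : ((univ : Finset (Fin 7)).erase 0).card = 6 := by decide
    rw [hcard]
    obtain ⟨h1, h2⟩ := AB
    have : ∑ m ∈ range (6 + 1), (Nat.choose 6 m : ℂ) * ((cf m + (-A0 / B0) * cf (m + 1)) * x0 ^ m)
        = A0 + (-A0 / B0) * B0 := by
      rw [← h1, ← h2, Finset.mul_sum, ← Finset.sum_add_distrib]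
      refine Finset.sum_congr rfl fun m _ => ?_
      rw [h1, h2]; ring
    rw [this]
    field_simp
    ring

end Pool.Agent.H3.BCPoly
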