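import Mathlib

set_option autoImplicit false

namespace Pool.Agent.H3.CoreDefs

/-- Distance-regular: connected, and the numbers of neighbours of `v` one step closer to and one
step farther from `u` depend only on the distance from `u` to `v`. -/
def IsDistanceRegular {V : Type} (G : SimpleGraph V) : Prop :=
  G.Connected ∧ ∃ b c : ℕ → ℕ, ∀ u v : V,
    {w | G.Adj v w ∧ G.dist u w + 1 = G.dist u v}.ncard = c (G.dist u v) ∧
    {w | G.Adj v w ∧ G.dist u w = G.dist u v + 1}.ncard = b (G.dist u v)

/-- A core: every endomorphism is an automorphism. -/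
def IsCore {V : Type} (G : SimpleGraph V) : Prop :=
  ∀ f : G →g G, ∃ φ : G ≃g G, ∀ v, φ v = f v

/-- The subgraph induced on `s` is a core of `G`: it is a core and `G` maps to it. -/
def IsCoreOf {V : Type} (G : SimpleGraph V) (s : Set V) : Prop :=
  IsCore (G.induce s) ∧ Nonempty (G →g G.induce s)

end Pool.Agent.H3.CoreDefs
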