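import Mathlib

set_option autoImplicit false

namespace Pool.Agent.H3.DblCover

open Finset

def o (x : ZMod 4) : ℤ := if x = 1 ∨ x = 3 then 1 else 0

def t (x : ZMod 4) : ℤ := if x = 2 then 1 else 0

def mk (a b : ℤ) : DualNumber ℤ := TrivSqZeroExt.inl a + TrivSqZeroExt.inr b

lemma fst_mk (a b : ℤ) : TrivSqZeroExt.fst (mk a b) = a := by simp [mk]

lemma snd_mk (a b : ℤ) : TrivSqZeroExt.snd (mk a b) = b := by simp [mk]

def chi : ZMod 4 →* DualNumber ℤ where
  toFun x := mk (o x) (t x)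
  map_one' := by
    ext
    · rw [fst_mk, TrivSqZeroExt.fst_one]
      decide
    · rw [snd_mk, TrivSqZeroExt.snd_one]
      decide
  map_mul' x y := by
    ext
    · rw [TrivSqZeroExt.fst_mul, fst_mk, fst_mk, fst_mk]
      revert x y; decide
    · rw [DualNumber.snd_mul, fst_mk, fst_mk, snd_mk, snd_mk, snd_mk]
      revert x y; decide

lemma fst_chi (x : ZMod 4) : TrivSqZeroExt.fst (chi x) = o x := fst_mk _ _

lemma snd_chi (x : ZMod 4) : TrivSqZeroExt.snd (chi x) = t x := snd_mk _ _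

def w (x : ZMod 4) : ℤ := o x + 2 * t x

lemma w_sum {ι : Type*} (s : Finset ι) (x : ι → ZMod 4) : w (∑ i ∈ s, x i) ≤ ∑ i ∈ s, w (x i) := by
  classical
  have h : ∀ a b : ZMod 4, w (a + b) ≤ w a + w b := by decide
  induction s using Finset.induction_on with
  | empty => simp only [sum_empty]; decide
  | insert a s ha ih =>
    rw [sum_insert ha, sum_insert ha]
    exact le_trans (h _ _) (by omega)

def Phi (n : ℕ) : Finset (Fin n → ZMod 4) := univ.filter fun f => ∑ x, f x = 1

lemma fib_shift {n : ℕ} (A : Finset (Fin n)) (a b : Fin n) (ha : a ∈ A) (hb : b ∉ A)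
    (c : ZMod 4) : ((Phi n).filter fun f => ∑ x ∈ A, f x = c).card =
      ((Phi n).filter fun f => ∑ x ∈ A, f x = c + 1).card := by
  let e : Fin n → ZMod 4 := fun x => (if x = a then 1 else 0) - (if x = b then 1 else 0)
  have e1 : ∑ x, e x = 0 := by simp [e, sum_sub_distrib]
  have e2 : ∑ x ∈ A, e x = 1 := by simp [e, sum_sub_distrib, ha, hb]
  refine card_bij' (fun f _ => f + e) (fun f _ => f - e) ?_ ?_ ?_ ?_
  · intro f hf
    simp only [Phi, mem_filter, mem_univ, true_and, Pi.add_apply, sum_add_distrib] at hf ⊢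
    rw [e1, e2, hf.1, hf.2]
    simp
  · intro f hf
    simp only [Phi, mem_filter, mem_univ, true_and, Pi.sub_apply, sum_sub_distrib] at hf ⊢
    rw [e1, e2, hf.1, hf.2]
    simp
  · intro f _; simp
  · intro f _; simp

lemma sum_chi {n : ℕ} (A : Finset (Fin n)) (h1 : A.Nonempty) (h2 : A ≠ univ) :
    ∃ N : ℤ, ((Phi n).card : ℤ) = 4 * N ∧
      ∑ f ∈ Phi n, chi (∑ x ∈ A, f x) = mk (2 * N) N := by
  obtain ⟨a, ha⟩ := h1
  obtain ⟨b, hb⟩ : ∃ b, b ∉ A := by
    by_contra h
    push Not at h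
    exact h2 (eq_univ_iff_forall.mpr h)
  have s0 := fib_shift A a b ha hb 0
  have s1 := fib_shift A a b ha hb 1
  have s2 := fib_shift A a b ha hb 2
  rw [show (0 : ZMod 4) + 1 = 1 from rfl] at s0
  rw [show (1 : ZMod 4) + 1 = 2 from rfl] at s1
  rw [show (2 : ZMod 4) + 1 = 3 from rfl] at s2
  have key : ∀ g : ZMod 4 → ℤ, ∑ f ∈ Phi n, g (∑ x ∈ A, f x) =
      ((Phi n).filter fun f => ∑ x ∈ A, f x = 0).card * (g 0 + g 1 + g 2 + g 3) := by
    intro g
    rw [← sum_fiberwise_of_maps_to (s := Phi n) (t := (univ : Finset (ZMod 4)))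
      (g := fun f => ∑ x ∈ A, f x) (fun _ _ => mem_univ _)]
    have : ∀ c : ZMod 4, ∑ f ∈ (Phi n).filter (fun f => ∑ x ∈ A, f x = c), g (∑ x ∈ A, f x) =
        ((Phi n).filter fun f => ∑ x ∈ A, f x = c).card * g c := by
      intro c
      rw [sum_congr rfl fun f hf => by rw [(mem_filter.mp hf).2]]
      simp
    rw [sum_congr rfl fun c _ => this c,
      show (univ : Finset (ZMod 4)) = {0, 1, 2, 3} from by decide,
      sum_insert (by decide), sum_insert (by decide), sum_insert (by decide), sum_singleton,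
      ← s2, ← s1, ← s0]
    ring
  refine ⟨((Phi n).filter fun f => ∑ x ∈ A, f x = 0).card, ?_, ?_⟩
  · have := key fun _ => 1
    simp only [sum_const, nsmul_eq_mul, mul_one] at this
    linarith
  · ext
    · rw [TrivSqZeroExt.fst_sum, fst_mk]
      simp only [fst_chi]
      have := key o
      rw [show o 0 + o 1 + o 2 + o 3 = 2 from by decide] at this
      exact this.trans (mul_comm _ _)
    · rw [TrivSqZeroExt.snd_sum, snd_mk]
      simp only [snd_chi]
      have := key t
      rw [show t 0 + t 1 + t 2 + t 3 = 1 from by decide] at this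
      exact this.trans (mul_one _)

lemma dual_pow (N : ℤ) (d : ℕ) : TrivSqZeroExt.fst (mk (2 * N) N ^ d) = (2 * N) ^ d ∧
    2 * TrivSqZeroExt.snd (mk (2 * N) N ^ d) = d * (2 * N) ^ d := by
  induction d with
  | zero => simp
  | succ d ih =>
    rw [pow_succ, TrivSqZeroExt.fst_mul, DualNumber.snd_mul, ih.1, fst_mk, snd_mk]
    refine ⟨by rw [pow_succ], ?_⟩
    push_cast
    linear_combination (2 * N) * ih.2

theorem bound (n d m : ℕ) (hd : 1 ≤ d) (B : Fin m → Fin d → Finset (Fin n))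
    (h1 : ∀ j i, (B j i).Nonempty) (h2 : ∀ j i, B j i ≠ univ)
    (hc : ∀ x : Fin d → Fin n, (univ.filter fun j => ∀ i, x i ∈ B j i).card = 2) (hn : 1 ≤ n) :
    2 ^ (d + 1) ≤ (d + 1) * m := by
  have hP : 0 < (Phi n).card := by
    refine card_pos.mpr ⟨fun x => if x = ⟨0, by omega⟩ then 1 else 0, ?_⟩
    simp [Phi]
  obtain ⟨j0, -⟩ := card_pos.mp (show 0 < (univ.filter fun j =>
    ∀ i, (fun _ => (⟨0, by omega⟩ : Fin n)) i ∈ B j i).card by rw [hc]; norm_num)
  obtain ⟨N, hN, -⟩ := sum_chi (B j0 ⟨0, by omega⟩) (h1 _ _) (h2 _ _)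
  have hN0 : 0 < N := by omega
  have e1 : ∀ j, ∑ F ∈ Fintype.piFinset (fun _ : Fin d => Phi n),
      w (∏ i, ∑ x ∈ B j i, F i x) = (d + 1) * (2 * N) ^ d := by
    intro j
    have h3 : ∑ F ∈ Fintype.piFinset (fun _ : Fin d => Phi n),
        chi (∏ i, ∑ x ∈ B j i, F i x) = mk (2 * N) N ^ d := by
      simp only [map_prod]
      rw [← prod_univ_sum (fun _ : Fin d => Phi n) (fun i f => chi (∑ x ∈ B j i, f x))]
      rw [prod_congr rfl (g := fun _ => mk (2 * N) N)]
      · simp
      · intro i _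
        obtain ⟨N', hN', h⟩ := sum_chi (B j i) (h1 _ _) (h2 _ _)
        have : N' = N := by omega
        rw [h, this]
    have h4 := congrArg TrivSqZeroExt.fst h3
    have h5 := congrArg TrivSqZeroExt.snd h3
    rw [TrivSqZeroExt.fst_sum, (dual_pow N d).1] at h4
    rw [TrivSqZeroExt.snd_sum] at h5
    simp only [fst_chi] at h4
    simp only [snd_chi] at h5
    have h6 := (dual_pow N d).2
    rw [← h5] at h6
    simp only [w, sum_add_distrib, ← mul_sum]
    have h7 : ∑ F ∈ Fintype.piFinset (fun _ : Fin d => Phi n),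
        o (∏ i, ∑ x ∈ B j i, F i x) = (2 * N) ^ d := h4
    have h8 : 2 * ∑ F ∈ Fintype.piFinset (fun _ : Fin d => Phi n),
        t (∏ i, ∑ x ∈ B j i, F i x) = d * (2 * N) ^ d := h6
    rw [h7, h8]
    ring
  have e2 : ∀ F ∈ Fintype.piFinset (fun _ : Fin d => Phi n),
      (2 : ℤ) ≤ ∑ j, w (∏ i, ∑ x ∈ B j i, F i x) := by
    intro F hF
    refine le_trans ?_ (w_sum _ _)
    have h3 : ∑ j, ∏ i, ∑ x ∈ B j i, F i x = 2 := by
      have h4 : ∀ j, ∏ i, ∑ x ∈ B j i, F i x =
          ∑ y : Fin d → Fin n, if ∀ i, y i ∈ B j i then ∏ i, F i (y i) else 0 := by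
        intro j
        rw [prod_univ_sum, ← sum_filter]
        refine sum_congr ?_ fun _ _ => rfl
        ext y
        simp
      rw [sum_congr rfl fun j _ => h4 j, sum_comm]
      have h5 : ∀ y : Fin d → Fin n,
          ∑ j, (if ∀ i, y i ∈ B j i then ∏ i, F i (y i) else 0) = 2 * ∏ i, F i (y i) := by
        intro y
        rw [← sum_filter, sum_const, hc]
        simp
      rw [sum_congr rfl fun y _ => h5 y, ← mul_sum]
      have h6 : ∑ y : Fin d → Fin n, ∏ i, F i (y i) = ∏ i, ∑ x, F i x := by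
        rw [prod_univ_sum]
        simp
      rw [h6, prod_congr rfl (g := fun _ => 1), prod_const_one, mul_one]
      intro i _
      exact (mem_filter.mp (Fintype.mem_piFinset.mp hF i)).2
    rw [h3]
    decide
  have e3 := sum_le_sum e2
  rw [sum_comm, sum_congr rfl fun j _ => e1 j] at e3
  simp only [sum_const, Fintype.card_piFinset, prod_const, card_univ, Fintype.card_fin,
    nsmul_eq_mul] at e3
  push_cast at e3
  rw [hN, show (4 * N) ^ d = 2 ^ d * (2 * N) ^ d by rw [← mul_pow]; congr 1; ring] at e3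
  have hpos : 0 < (2 * N) ^ d := by positivity
  have : (2 : ℤ) ^ (d + 1) ≤ (d + 1) * m := by
    refine le_of_mul_le_mul_right ?_ hpos
    rw [pow_succ]
    linarith
  exact_mod_cast this

end Pool.Agent.H3.DblCover
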