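import Pool.Agent.H3.CoreDefs

set_option autoImplicit false

namespace Pool.Agent.H3.Doob

open Pool.Agent.H3.CoreDefs

theorem iso_of_surj {V : Type} [Finite V] (G : SimpleGraph V) (f : G →g G)
    (hf : Function.Surjective f) : ∃ φ : G ≃g G, ∀ v, φ v = f v := by
  have hb : Function.Bijective f := Finite.surjective_iff_bijective.1 hf
  let e : Equiv.Perm V := Equiv.ofBijective f hb
  have hpow : ∀ (n : ℕ) (a b : V), G.Adj a b → G.Adj ((e ^ n) a) ((e ^ n) b) := by
    intro n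
    induction n with
    | zero => intro a b h; simpa using h
    | succ n ih =>
      intro a b h
      rw [pow_succ', Equiv.Perm.mul_apply, Equiv.Perm.mul_apply]
      exact f.map_rel (ih a b h)
  refine ⟨⟨e, fun {a b} => ⟨fun h => ?_, fun h => f.map_rel h⟩⟩, fun v => rfl⟩
  have h0 : 0 < orderOf e := orderOf_pos e
  have h1 := hpow (orderOf e - 1) _ _ h
  rw [← Equiv.Perm.mul_apply, ← Equiv.Perm.mul_apply, ← pow_succ,
    Nat.sub_add_cancel h0, pow_orderOf_eq_one] at h1
  simpa using h1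

theorem exists_core {V : Type} [Finite V] (G : SimpleGraph V) : ∃ s, IsCoreOf G s := by
  classical
  have hex : ∃ n, ∃ s : Set V, s.ncard = n ∧ Nonempty (G →g G.induce s) :=
    ⟨_, Set.univ, rfl, ⟨⟨fun v => ⟨v, trivial⟩, fun h => h⟩⟩⟩
  obtain ⟨s, hs, ⟨g⟩⟩ := Nat.find_spec hex
  refine ⟨s, fun f => iso_of_surj _ f ?_, ⟨g⟩⟩
  let t : Set V := Set.range (fun x : s => (f x : V))
  have hts : t ⊆ s := by
    rintro _ ⟨x, rfl⟩
    exact (f x).2
  have h1 : Nat.find hex ≤ t.ncard := Nat.find_min' hex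
    ⟨t, rfl, ⟨⟨fun v => ⟨f (g v), ⟨g v, rfl⟩⟩, fun h => f.map_rel (g.map_rel h)⟩⟩⟩
  have h2 : t = s := Set.eq_of_subset_of_ncard_le hts (hs ▸ h1)
  intro y
  have : (y : V) ∈ t := h2.symm.subset y.2
  obtain ⟨x, hx⟩ := this
  exact ⟨x, Subtype.ext hx⟩

theorem dist_eq {V : Type} (G : SimpleGraph V) (u : V) (ρ : V → ℕ) (h0 : ρ u = 0)
    (h1 : ∀ v, ρ v = 0 → v = u) (h2 : ∀ v w, G.Adj v w → ρ w ≤ ρ v + 1)
    (h3 : ∀ v, 0 < ρ v → ∃ w, G.Adj w v ∧ ρ w + 1 = ρ v) (v : V) :
    G.Reachable u v ∧ G.dist u v = ρ v := by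
  have ex : ∀ n v, ρ v = n → ∃ p : G.Walk u v, p.length = n := by
    intro n
    induction n with
    | zero =>
      intro v hv
      obtain rfl := h1 v hv
      exact ⟨.nil, rfl⟩
    | succ n ih =>
      intro v hv
      obtain ⟨w, hw, e⟩ := h3 v (by omega)
      obtain ⟨p, hp⟩ := ih w (by omega)
      exact ⟨p.concat hw, by simp [hp]⟩
  have lb : ∀ (a b : V) (p : G.Walk a b), ρ b ≤ ρ a + p.length := by
    intro a b p
    induction p with
    | nil => simp
    | cons h p ih =>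
      have := h2 _ _ h
      simp only [SimpleGraph.Walk.length_cons]
      omega
  obtain ⟨p, hp⟩ := ex _ v rfl
  refine ⟨⟨p⟩, le_antisymm (hp ▸ G.dist_le p) ?_⟩
  obtain ⟨q, hq⟩ := SimpleGraph.Reachable.exists_walk_length_eq_dist ⟨p⟩
  have := lb _ _ q
  omega

abbrev V := ZMod 4 × ZMod 4 × ZMod 4 × ZMod 4

def sh (a b : ZMod 4) : ℕ :=
  if a = 0 ∧ b = 0 then 0
  else if (a = 0 ∧ b ≠ 2) ∨ (b = 0 ∧ a ≠ 2) ∨ (a = b ∧ a ≠ 2) then 1 else 2

def del (x : V) : ℕ := sh x.1 x.2.1 + sh x.2.2.1 x.2.2.2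

theorem del_neg : ∀ x : V, del (-x) = del x := by decide +kernel

theorem del_zero : ∀ x : V, del x = 0 → x = 0 := by decide +kernel

def S : Finset V := {(1,0,0,0), (3,0,0,0), (0,1,0,0), (0,3,0,0), (1,1,0,0), (3,3,0,0),
  (0,0,1,0), (0,0,3,0), (0,0,0,1), (0,0,0,3), (0,0,1,1), (0,0,3,3)}

theorem mem_S : ∀ x : V, del x = 1 ↔ x ∈ S := by decide +kernel

def G : SimpleGraph V where
  Adj u v := del (v - u) = 1
  symm := ⟨fun u v h => by rw [← neg_sub, del_neg]; exact h⟩
  loopless := ⟨fun u h => by rw [sub_self] at h; revert h; decide⟩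

theorem step : ∀ x : V, ∀ s ∈ S, del (x + s) ≤ del x + 1 := by decide +kernel

theorem down : ∀ x : V, 0 < del x → ∃ s ∈ S, del (x - s) + 1 = del x := by decide +kernel

theorem cnt : ∀ x : V, (S.filter (fun s => del (x + s) + 1 = del x)).card = del x ∧
    (S.filter (fun s => del (x + s) = del x + 1)).card = 12 - 3 * del x := by decide +kernel

theorem dist_G (u v : V) : G.Reachable u v ∧ G.dist u v = del (v - u) := by
  apply dist_eq G u (fun v => del (v - u))
  · simp only [sub_self]; decide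
  · intro v hv
    exact sub_eq_zero.1 (del_zero _ hv)
  · intro v w h
    have := step (v - u) (w - v) ((mem_S _).1 h)
    rwa [show v - u + (w - v) = w - u by abel] at this
  · intro v hv
    obtain ⟨s, hs, e⟩ := down _ hv
    refine ⟨v - s, ?_, ?_⟩
    · show del (v - (v - s)) = 1
      rw [sub_sub_cancel]; exact (mem_S _).2 hs
    · rwa [show v - s - u = v - u - s by abel]

theorem ncard_eq (u v : V) (P : ℕ → Prop) [DecidablePred P] :
    {w | G.Adj v w ∧ P (G.dist u w)}.ncard = (S.filter (fun s => P (del (v - u + s)))).card := by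
  rw [← Set.ncard_coe_finset]
  symm
  apply Set.ncard_congr (fun s _ => v + s)
  · intro s hs
    simp only [Finset.coe_filter, Set.mem_ofPred_eq] at hs ⊢
    refine ⟨?_, ?_⟩
    · show del (v + s - v) = 1
      rw [add_sub_cancel_left]; exact (mem_S _).2 hs.1
    · rw [(dist_G u _).2, show v + s - u = v - u + s by abel]; exact hs.2
  · intro a b _ _ h
    exact add_left_cancel h
  · intro w hw
    refine ⟨w - v, ?_, by abel⟩
    simp only [Finset.coe_filter, Set.mem_ofPred_eq] at hw ⊢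
    refine ⟨(mem_S _).1 hw.1, ?_⟩
    have := hw.2
    rwa [(dist_G u _).2, show w - u = v - u + (w - v) by abel] at this

theorem drg : IsDistanceRegular G := by
  refine ⟨⟨fun u v => (dist_G u v).1⟩, fun i => 12 - 3 * i, fun i => i, fun u v => ?_⟩
  rw [ncard_eq u v (fun d => d + 1 = G.dist u v), ncard_eq u v (fun d => d = G.dist u v + 1),
    (dist_G u v).2]
  exact cnt (v - u)

theorem noK4' : ∀ s ∈ S, ∀ t ∈ S, ∀ r ∈ S, t - s ∈ S → r - s ∈ S → r - t ∈ S → False := by
  decide +kernel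

theorem noK4 (a b c d : V) (h1 : G.Adj a b) (h2 : G.Adj a c) (h3 : G.Adj a d) (h4 : G.Adj b c)
    (h5 : G.Adj b d) (h6 : G.Adj c d) : False := by
  apply noK4' (b - a) ((mem_S _).1 h1) (c - a) ((mem_S _).1 h2) (d - a) ((mem_S _).1 h3)
  · rw [sub_sub_sub_cancel_right]; exact (mem_S _).1 h4
  · rw [sub_sub_sub_cancel_right]; exact (mem_S _).1 h5
  · rw [sub_sub_sub_cancel_right]; exact (mem_S _).1 h6

def fold (x : V) : V := (x.1 + x.2.2.1, x.2.1 + x.2.2.2, 0, 0)

theorem fold_S : ∀ s ∈ S, fold s ∈ S := by decide +kernel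

def foldHom : G →g G where
  toFun := fold
  map_rel' := fun {a b} h => by
    have e : fold b - fold a = fold (b - a) := by
      simp only [fold, Prod.mk_sub_mk, Prod.fst_sub, Prod.snd_sub, sub_self]
      congr 1
      · abel
      · congr 1; abel
    show del (fold b - fold a) = 1
    rw [e]
    exact (mem_S _).2 (fold_S _ ((mem_S _).1 h))

theorem not_iso (s : Set V) (h : IsCoreOf G s) : ¬ Nonempty (G ≃g G.induce s) := by
  rintro ⟨e⟩
  obtain ⟨φ, hφ⟩ := h.1 ((e.toHom.comp foldHom).comp e.symm.toHom)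
  have h1 := hφ (e (1, 0, 0, 0))
  have h2 := hφ (e (0, 0, 1, 0))
  have h3 : φ (e (1, 0, 0, 0)) = φ (e (0, 0, 1, 0)) := by
    rw [h1, h2]
    show e (fold (e.symm (e _))) = e (fold (e.symm (e _)))
    rw [e.symm_apply_apply, e.symm_apply_apply]
    rfl
  have h4 := e.injective (φ.injective h3)
  revert h4
  decide

theorem not_top (s : Set V) (h : IsCoreOf G s) : G.induce s ≠ ⊤ := by
  intro ht
  obtain ⟨f⟩ := h.2
  have dia : ∀ p a b q : V, G.Adj p a → G.Adj p b → G.Adj a b → G.Adj a q → G.Adj b q →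
      f p = f q := by
    intro p a b q h1 h2 h3 h4 h5
    by_contra hne
    have h7 : ∀ x y : s, x ≠ y → (G.induce s).Adj x y := by
      rw [ht]; exact fun x y h => h
    have h6 : (G.induce s).Adj (f p) (f q) := h7 _ _ hne
    exact noK4 (f p) (f a) (f b) (f q) (f.map_rel h1) (f.map_rel h2) h6 (f.map_rel h3)
      (f.map_rel h4) (f.map_rel h5)
  have adj : ∀ u v : V, del (v - u) = 1 → G.Adj u v := fun u v h => h
  have e1 := dia (0,0,0,0) (1,0,0,0) (1,1,0,0) (2,1,0,0) (adj _ _ (by decide)) (adj _ _ (by decide))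
    (adj _ _ (by decide)) (adj _ _ (by decide)) (adj _ _ (by decide))
  have e2 := dia (2,1,0,0) (2,2,0,0) (3,2,0,0) (3,3,0,0) (adj _ _ (by decide)) (adj _ _ (by decide))
    (adj _ _ (by decide)) (adj _ _ (by decide)) (adj _ _ (by decide))
  have e3 := f.map_rel (adj (0,0,0,0) (3,3,0,0) (by decide))
  rw [e1, e2] at e3
  exact (G.induce s).irrefl e3

end Pool.Agent.H3.Doob
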