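import Mathlib

set_option autoImplicit false

namespace Pool.Agent.H3.EnergyArith

open Finset

theorem pade {t : ℝ} (ht : 0 < t) : Real.log t ≤ (t - 1) * (t + 5) / (4 * t + 2) := by
  let h : ℝ → ℝ := fun t => (t - 1) * (t + 5) / (4 * t + 2) - Real.log t
  have hd : ∀ s : ℝ, 0 < s → HasDerivAt h ((s - 1) ^ 3 / (s * (2 * s + 1) ^ 2)) s := by
    intro s hs
    have h1 : HasDerivAt (fun t : ℝ => (t - 1) * (t + 5)) (1 * (s + 5) + (s - 1) * 1) s :=
      ((hasDerivAt_id s).sub_const 1).mul ((hasDerivAt_id s).add_const 5)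
    have h2 : HasDerivAt (fun t : ℝ => 4 * t + 2) (4 * 1) s :=
      ((hasDerivAt_id s).const_mul 4).add_const 2
    have h3 := (h1.div h2 (by positivity)).sub (Real.hasDerivAt_log hs.ne')
    refine h3.congr_deriv ?_
    field_simp
    ring
  have h1 : h 1 = 0 := by simp [h]
  suffices 0 ≤ h t by simp only [h] at this; linarith
  rcases le_total 1 t with h2 | h2
  · have : MonotoneOn h (Set.Ici 1) := by
      refine monotoneOn_of_deriv_nonneg (convex_Ici 1) (fun s hs => ?_) (fun s hs => ?_)
        fun s hs => ?_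
      · exact (hd s (lt_of_lt_of_le one_pos hs)).continuousAt.continuousWithinAt
      · rw [interior_Ici] at hs
        exact (hd s (lt_trans one_pos hs)).differentiableAt.differentiableWithinAt
      · rw [interior_Ici] at hs
        have h3 : 1 < s := hs
        rw [(hd s (lt_trans one_pos hs)).deriv]
        have : 0 < s - 1 := by linarith
        positivity
    exact h1 ▸ this (Set.mem_Ici.2 le_rfl) h2 h2
  · have : AntitoneOn h (Set.Ioc 0 1) := by
      refine antitoneOn_of_deriv_nonpos (convex_Ioc 0 1) (fun s hs => ?_) (fun s hs => ?_)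
        fun s hs => ?_
      · exact (hd s hs.1).continuousAt.continuousWithinAt
      · rw [interior_Ioc] at hs
        exact (hd s hs.1).differentiableAt.differentiableWithinAt
      · rw [interior_Ioc] at hs
        rw [(hd s hs.1).deriv]
        have h3 := hs.1
        refine div_nonpos_of_nonpos_of_nonneg ?_ (by positivity)
        have : s - 1 ≤ 0 := by linarith [hs.2]
        exact Odd.pow_nonpos (by decide) this
    exact h1 ▸ this ⟨ht, h2⟩ ⟨one_pos, le_rfl⟩ h2

theorem gain {t M : ℝ} (ht : 0 < t) (hM : t ≤ M) :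
    3 * (t - 1) ^ 2 ≤ (4 * M + 2) * (t - 1 - Real.log t) := by
  have h1 := pade ht
  rw [le_div_iff₀ (by positivity)] at h1
  have h2 := Real.log_le_sub_one_of_pos ht
  nlinarith [mul_nonneg (sub_nonneg.2 hM) (sub_nonneg.2 h2)]

theorem log_le (c : ℕ) {t : ℝ} (ht : 0 < t) :
    Real.log t ≤ c * 0.6931471808 + t / 2 ^ c - 1 := by
  have h1 := Real.log_le_sub_one_of_pos (show 0 < t / 2 ^ c by positivity)
  rw [Real.log_div ht.ne' (by positivity), Real.log_pow] at h1
  have h2 := Real.log_two_lt_d9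
  have : (c : ℝ) * Real.log 2 ≤ c * 0.6931471808 := by gcongr
  linarith

theorem arith (δ r a : ℕ) (b R : ℝ) (hδ : 1 ≤ δ) (hr : 2 ≤ r) (hb : 0 ≤ b) (h1 : 2 * b + a < r)
    (h2 : (r : ℝ) - a ≤ (δ + r + 1) * b)
    (h3 : δ * (r - b) - r + 3 * b + 2 * a ≤ R) (h4 : δ * (r - 2 * b) + a + 2 * b - b ^ 2 ≤ R)
    (h5 : 3 * R < (4 * (δ + b) + 2) * (Real.log (δ + b) - a - b))
    (h6 : 3 * R < (4 * (r + 1) + 2) * (Real.log (δ + b) - a - b)) : False := by
  have hδ' : (1 : ℝ) ≤ δ := by exact_mod_cast hδ
  have hr' : (2 : ℝ) ≤ r := by exact_mod_cast hr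
  have ha' : (0 : ℝ) ≤ a := by positivity
  have ha : (a : ℝ) = 0 ∨ (1 : ℝ) ≤ a := by
    rcases Nat.eq_zero_or_pos a with h | h
    · left; simp [h]
    · right; exact_mod_cast h
  have hl : (0 : ℝ) < δ + b := by linarith
  set L := Real.log (δ + b) with hL
  rcases le_or_gt (δ + b : ℝ) (r + 1) with hc | hc
  · have hp := pade hl
    rw [le_div_iff₀ (by positivity), ← hL] at hp
    have hab : 0 ≤ (a : ℝ) * (δ + b) := by positivity
    rcases (by omega : δ = 1 ∨ δ = 2 ∨ δ = 3 ∨ 4 ≤ δ) with rfl | rfl | rfl | h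
    · push_cast at *; nlinarith
    · push_cast at *
      rcases ha with ha | ha
      · have : 1 / 5 ≤ b := by nlinarith
        nlinarith
      · nlinarith
    · push_cast at *
      rcases ha with ha | ha
      · have hb' : 0 < b := by nlinarith
        have : 3 ≤ r := by
          by_contra h
          obtain rfl : r = 2 := by omega
          push_cast at hc; linarith
        have : (3 : ℝ) ≤ r := by exact_mod_cast this
        nlinarith
      · nlinarith
    · have h' : (4 : ℝ) ≤ δ := by exact_mod_cast h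
      nlinarith [mul_nonneg (sub_nonneg.2 hδ') (sub_nonneg.2 hc),
        mul_nonneg (sub_nonneg.2 hδ') (sub_nonneg.2 h'), mul_nonneg hb (sub_nonneg.2 h')]
  · have l2 := log_le 2 hl
    have l3 := log_le 3 hl
    rw [← hL] at l2 l3
    push_cast at l2 l3
    have har : 0 ≤ (a : ℝ) * r := by positivity
    rcases (by omega : δ ≤ 2 ∨ δ = 3 ∨ δ = 4 ∨ 5 ≤ δ) with h | rfl | rfl | h
    · have h' : (δ : ℝ) ≤ 2 := by exact_mod_cast h
      linarith
    · rcases (by omega : r = 2 ∨ r = 3 ∨ 4 ≤ r) with rfl | rfl | h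
      · push_cast at *
        rcases ha with ha | ha
        · rcases le_total b 0.4 with h | h <;> nlinarith
        · nlinarith
      · push_cast at *; nlinarith
      · have h' : (4 : ℝ) ≤ r := by exact_mod_cast h
        push_cast at *; linarith
    · rcases (by omega : r = 2 ∨ 3 ≤ r) with rfl | h
      · push_cast at *
        rcases ha with ha | ha <;> nlinarith
      · have h' : (3 : ℝ) ≤ r := by exact_mod_cast h
        push_cast at *
        nlinarith [mul_nonneg hb (sub_nonneg.2 h'),
          mul_le_mul_of_nonneg_left l2 (show (0 : ℝ) ≤ 4 * (r + 1) + 2 by positivity)]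
    · have h' : (5 : ℝ) ≤ δ := by exact_mod_cast h
      have hb2 : 0 ≤ r - 2 * b := by linarith
      have k := mul_le_mul_of_nonneg_left l3 (show (0 : ℝ) ≤ 4 * (r + 1) + 2 by positivity)
      nlinarith [mul_nonneg hb (sub_nonneg.2 hr'), mul_nonneg hb2 (sub_nonneg.2 h'),
        mul_nonneg (sub_nonneg.2 hr') (sub_nonneg.2 h'), mul_nonneg hb (sub_nonneg.2 h')]

end Pool.Agent.H3.EnergyArith
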