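import Mathlib

set_option autoImplicit false

namespace Pool.Agent.H3.Flip

open Finset

section alg
variable {V : Type} [Fintype V] [DecidableEq V]

def T (X Y Z : V → V → ℤ) : ℤ := ∑ v, ∑ x, ∑ y, X v x * Y v y * Z x y

omit [DecidableEq V] in
lemma T12 (X Y Z : V → V → ℤ) (hZ : ∀ x y, Z x y = Z y x) : T X Y Z = T Y X Z := by
  unfold T
  refine sum_congr rfl fun v _ => ?_
  rw [sum_comm]
  exact sum_congr rfl fun x _ => sum_congr rfl fun y _ => by rw [hZ]; ring

omit [DecidableEq V] in
lemma T23 (X Y Z : V → V → ℤ) (hX : ∀ x y, X x y = X y x) : T X Y Z = T X Z Y := by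
  unfold T
  rw [sum_comm]
  exact sum_congr rfl fun v _ => sum_congr rfl fun x _ => sum_congr rfl fun y _ => by
    rw [hX]; ring

def dl (x y : V) : ℤ := if x = y then 1 else 0

variable {be ro : V → V → ℤ} {b r : ℤ}
  (sb : ∀ x y, be x y = be y x) (sr : ∀ x y, ro x y = ro y x)
  (hc : ∀ x y, (be x y = 0 ∧ ro x y = 0) ∨ (x ≠ y ∧ be x y = 1 ∧ ro x y = 0) ∨
    (x ≠ y ∧ be x y = 0 ∧ ro x y = 1))
  (db : ∀ x, ∑ y, be x y = b) (dr : ∀ x, ∑ y, ro x y = r)
  (hf : ∀ v, ∑ x, ∑ y, (dl v x + be v x + ro v x) * (dl v y + be v y + ro v y) * ro x y + 2 ≤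
    ∑ x, ∑ y, (dl v x + be v x + ro v x) * (dl v y + be v y + ro v y) * be x y)

lemma sum_dl (v : V) (f : V → ℤ) : ∑ x, dl v x * f x = f v := by
  simp [dl]

omit [Fintype V] in
include hc in
lemma rng (x y : V) : 0 ≤ dl x y ∧ 0 ≤ be x y ∧ 0 ≤ ro x y ∧ dl x y + be x y + ro x y ≤ 1 := by
  simp only [dl]
  rcases hc x y with h | h | h <;> by_cases e : x = y <;> simp_all

include sr hc db dr hf in
lemma bound1 (v : V) : (b + r + 1) * (2 * r - b) + 2 ≤ Fintype.card V * r := by
  have h := hf v
  set nu : V → ℤ := fun x => dl v x + be v x + ro v x with hnu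
  have n01 : ∀ x, 0 ≤ nu x ∧ nu x ≤ 1 := by
    intro x
    have := rng hc v x
    simp only [hnu]
    omega
  have ns : ∑ x, nu x = b + r + 1 := by
    simp only [hnu, sum_add_distrib, db, dr]
    simp [dl]
    ring
  have h1 : ∑ x, ∑ y, nu x * nu y * be x y ≤ (b + r + 1) * b := by
    rw [← ns, sum_mul]
    refine sum_le_sum fun x _ => ?_
    rw [← db x, mul_sum]
    refine sum_le_sum fun y _ => ?_
    have := n01 x; have := n01 y
    have : 0 ≤ be x y := by have := rng hc x y; omega
    have : 0 ≤ nu x * be x y := mul_nonneg (n01 x).1 this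
    nlinarith
  have h2 : ∑ x, ∑ y, (nu x * ro x y + nu y * ro x y - ro x y) ≤
      ∑ x, ∑ y, nu x * nu y * ro x y := by
    refine sum_le_sum fun x _ => sum_le_sum fun y _ => ?_
    have := n01 x; have := n01 y
    have : 0 ≤ ro x y := by have := rng hc x y; omega
    have : 0 ≤ (1 - nu x) * (1 - nu y) * ro x y := by
      apply mul_nonneg (mul_nonneg _ _) <;> omega
    nlinarith
  have h3 : ∑ x, ∑ y, nu x * ro x y = (b + r + 1) * r := by
    simp only [← mul_sum, dr]
    rw [← sum_mul, ns]
  have h4 : ∑ x, ∑ y, nu y * ro x y = (b + r + 1) * r := by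
    rw [sum_comm, ← h3]
    exact sum_congr rfl fun x _ => sum_congr rfl fun y _ => by rw [sr]
  simp only [sum_sub_distrib, sum_add_distrib, h3, h4, dr, sum_const, card_univ,
    nsmul_eq_mul] at h2
  change ∑ x, ∑ y, nu x * nu y * ro x y + 2 ≤ ∑ x, ∑ y, nu x * nu y * be x y at h
  nlinarith

include sb sr hc db dr hf in
lemma bound2 [Nonempty V] (hbr : b + 1 ≤ r) :
    r * (2 * r + 4 + b - b ^ 2) ≤ 2 * Fintype.card V := by
  set n : ℤ := (Fintype.card V : ℤ) with hn
  have hn0 : 0 < n := by have := Fintype.card_pos (α := V); omega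
  have z1 : ∀ x, be x x = 0 := fun x => by rcases hc x x with h | h | h <;> simp_all
  have z2 : ∀ x, ro x x = 0 := fun x => by rcases hc x x with h | h | h <;> simp_all
  have hb0 : 0 ≤ b := by
    rw [← db (Classical.arbitrary V)]
    exact sum_nonneg fun y _ => (rng hc _ y).2.1
  have ex : ∀ (Z : V → V → ℤ) (d : ℤ), (∀ x y, Z x y = Z y x) → (∀ x, Z x x = 0) →
      (∀ v x, (be v x + ro v x) * Z v x = Z v x) → (∀ x, ∑ y, Z x y = d) →
      ∑ v, ∑ x, ∑ y, (dl v x + be v x + ro v x) * (dl v y + be v y + ro v y) * Z x y =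
        n * (2 * d) + (T be be Z + T be ro Z + T ro be Z + T ro ro Z) := by
    intro Z d s0 z0 a0 d0
    have e1 : ∀ v, ∑ x, ∑ y, (dl v x + be v x + ro v x) * (dl v y + be v y + ro v y) * Z x y =
        2 * d + ∑ x, ∑ y, (be v x * be v y * Z x y + be v x * ro v y * Z x y +
          ro v x * be v y * Z x y + ro v x * ro v y * Z x y) := by
      intro v
      have e2 : ∀ x y, (dl v x + be v x + ro v x) * (dl v y + be v y + ro v y) * Z x y =
          dl v x * (dl v y * Z x y) + dl v x * ((be v y + ro v y) * Z x y) +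
          dl v y * ((be v x + ro v x) * Z x y) + (be v x * be v y * Z x y +
          be v x * ro v y * Z x y + ro v x * be v y * Z x y + ro v x * ro v y * Z x y) := by
        intro x y; ring
      simp only [e2]
      rw [sum_congr rfl fun x _ => sum_add_distrib, sum_add_distrib]
      congr 1
      simp only [sum_add_distrib, ← mul_sum, sum_dl, z0, a0, d0]
      simp only [s0 _ v, a0, d0]
      ring
    simp only [e1, sum_add_distrib, T, sum_const, card_univ, nsmul_eq_mul, hn]
  have f1 := sum_le_sum (s := univ) fun v _ => hf v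
  rw [sum_add_distrib, ex ro r sr z2 (fun v x => by rcases hc v x with h | h | h <;> simp [h]) dr,
    ex be b sb z1 (fun v x => by rcases hc v x with h | h | h <;> simp [h]) db] at f1
  simp only [sum_const, card_univ, nsmul_eq_mul, ← hn] at f1
  rw [T12 ro be be sb, T23 be ro be sb, T12 be ro ro sr, T23 ro be ro sr] at f1
  let om : V → V → ℤ := fun x y => 1 - dl x y - be x y - ro x y
  have f2 : T be be om + T be be be + T be be ro = n * (b * b - b) := by
    have : ∀ v, ∑ x, ∑ y, (be v x * be v y * om x y + be v x * be v y * be x y +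
        be v x * be v y * ro x y) = b * b - b := by
      intro v
      have e2 : ∀ x y, be v x * be v y * om x y + be v x * be v y * be x y +
          be v x * be v y * ro x y = be v x * be v y - dl x y * (be v x * be v y) := by
        intro x y; simp only [om]; ring
      have e3 : ∀ x, be v x * be v x = be v x := fun x => by
        rcases hc v x with h | h | h <;> simp [h]
      simp only [e2, sum_sub_distrib, sum_dl, e3, ← mul_sum, ← sum_mul, db]
    simp only [T, ← sum_add_distrib, this, sum_const, card_univ, nsmul_eq_mul, hn]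
  have g0 : ∀ u w, ∑ x, (dl u x + be u x) * (dl w x + be w x) ≤
      (b + 1) * dl u w + r * (be u w + ro u w) + om u w * ∑ x, be u x * be w x := by
    intro u w
    have g1 : ∑ x, (dl u x + be u x) * (dl w x + be w x) ≤ b + 1 := by
      have : ∑ x, (dl u x + be u x) = b + 1 := by
        rw [sum_add_distrib, db]; simp [dl]; ring
      rw [← this]
      refine sum_le_sum fun x _ => ?_
      have a1 : 0 ≤ dl u x + be u x := by have := rng hc u x; omega
      have a2 : dl w x + be w x ≤ 1 := by have := rng hc w x; omega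
      nlinarith
    by_cases e : u = w
    · subst e
      simpa [om, dl, z1, z2] using g1
    · rcases hc u w with h | h | h
      · have e2 : ∀ x, (dl u x + be u x) * (dl w x + be w x) =
            dl u x * dl w x + dl u x * be w x + dl w x * be u x + be u x * be w x := by
          intro x; ring
        simp only [e2, sum_add_distrib, sum_dl, sb w u]
        simp [om, dl, e, Ne.symm e, h]
      · have d0 : dl u w = 0 := if_neg e
        simp only [om]
        rw [d0, h.2.1, h.2.2]
        linarith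
      · have d0 : dl u w = 0 := if_neg e
        simp only [om]
        rw [d0, h.2.1, h.2.2]
        linarith
  have f3 : ∀ v, 2 * (r * (b + 1)) ≤ 2 * n + r * ∑ u, ∑ w, ro v u * ro v w * (be u w + ro u w) +
      ∑ u, ∑ w, ro v u * ro v w * (om u w * ∑ x, be u x * be w x) := by
    intro v
    have m1 : ∑ x, (3 * (∑ u, ro v u * (dl u x + be u x)) -
        (∑ u, ro v u * (dl u x + be u x)) * (∑ u, ro v u * (dl u x + be u x))) ≤ ∑ _x : V, (2 : ℤ) := by
      refine sum_le_sum fun x _ => ?_
      generalize (∑ u, ro v u * (dl u x + be u x)) = m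
      rcases le_or_gt m 1 with h | h <;> nlinarith
    have m2 : ∑ x, ∑ u, ro v u * (dl u x + be u x) = r * (b + 1) := by
      rw [sum_comm]
      have : ∀ u, ∑ x, (dl u x + be u x) = b + 1 := by
        intro u; rw [sum_add_distrib, db]; simp [dl]; ring
      simp only [← mul_sum, this, ← sum_mul, dr]
    have m3 : ∑ x, (∑ u, ro v u * (dl u x + be u x)) * (∑ u, ro v u * (dl u x + be u x)) =
        ∑ u, ∑ w, ro v u * ro v w * ∑ x, (dl u x + be u x) * (dl w x + be w x) := by
      simp only [sum_mul_sum]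
      rw [sum_comm]
      refine sum_congr rfl fun u _ => ?_
      rw [sum_comm]
      refine sum_congr rfl fun w _ => ?_
      rw [mul_sum]
      exact sum_congr rfl fun x _ => by ring
    have m4 : ∑ u, ∑ w, ro v u * ro v w * ∑ x, (dl u x + be u x) * (dl w x + be w x) ≤
        ∑ u, ∑ w, (dl u w * ((b + 1) * (ro v u * ro v w)) + r * (ro v u * ro v w * (be u w + ro u w))
          + ro v u * ro v w * (om u w * ∑ x, be u x * be w x)) := by
      refine sum_le_sum fun u _ => sum_le_sum fun w _ => ?_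
      have a1 : 0 ≤ ro v u := (rng hc v u).2.2.1
      have a2 : 0 ≤ ro v w := (rng hc v w).2.2.1
      have := mul_le_mul_of_nonneg_left (g0 u w) (mul_nonneg a1 a2)
      linarith
    have e3 : ∀ x, ro v x * ro v x = ro v x := fun x => by
      rcases hc v x with h | h | h <;> simp [h]
    simp only [sum_add_distrib, sum_dl, e3, ← mul_sum, dr] at m4
    simp only [sum_sub_distrib, ← mul_sum, m2, m3, sum_const, card_univ, nsmul_eq_mul, ← hn] at m1
    linarith
  have f4 := sum_le_sum (s := univ) fun v _ => f3 v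
  have f5 : ∑ v, ∑ u, ∑ w, ro v u * ro v w * (om u w * ∑ x, be u x * be w x) ≤
      r * T be be om := by
    have e1 : T be be om = ∑ u, ∑ w, om u w * ∑ x, be u x * be w x := by
      unfold T
      rw [sum_comm]
      refine sum_congr rfl fun u _ => ?_
      rw [sum_comm]
      refine sum_congr rfl fun w _ => ?_
      rw [mul_sum]
      exact sum_congr rfl fun x _ => by rw [sb x u, sb x w]; ring
    rw [e1, sum_comm, mul_sum]
    refine sum_le_sum fun u _ => ?_
    rw [sum_comm, mul_sum]
    refine sum_le_sum fun w _ => ?_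
    rw [← sum_mul]
    refine mul_le_mul_of_nonneg_right ?_ (mul_nonneg ?_ (sum_nonneg fun x _ => ?_))
    · rw [← dr u]
      refine sum_le_sum fun v _ => ?_
      rw [sr v u]
      rcases hc u v with h | h | h <;> rcases hc v w with h' | h' | h' <;> simp [h, h']
    · have := rng hc u w; simp only [om]; omega
    · rcases hc u x with h | h | h <;> rcases hc w x with h' | h' | h' <;> simp [h, h']
  have f6 : ∑ v, ∑ u, ∑ w, ro v u * ro v w * (be u w + ro u w) = T ro ro be + T ro ro ro := by
    simp only [T, mul_add, sum_add_distrib]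
  simp only [sum_add_distrib, ← mul_sum, f6, sum_const, card_univ, nsmul_eq_mul, ← hn] at f4
  have f7 : T be be om + T ro ro be + T ro ro ro ≤ n * (b * b + b - 2 * r - 2) := by linarith
  have f8 := mul_le_mul_of_nonneg_left f7 (show 0 ≤ r by omega)
  refine le_of_mul_le_mul_left ?_ hn0
  nlinarith

end alg

/-- number of edges of `X` with both ends in `S` -/
noncomputable def edgesIn {V : Type} (X : SimpleGraph V) (S : Set V) : ℕ :=
  {e | e ∈ X.edgeSet ∧ ∀ x ∈ e, x ∈ S}.ncard

/-- `B` (blue) and `R` (red) form a `(b,r)`-flip graph -/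
def IsFlip {V : Type} (B R : SimpleGraph V) (b r : ℕ) : Prop :=
  (∀ x y, ¬ (B.Adj x y ∧ R.Adj x y)) ∧ (∀ v, (B.neighborSet v).ncard = b) ∧
  (∀ v, (R.neighborSet v).ncard = r) ∧
  ∀ v, edgesIn R {x | x = v ∨ B.Adj v x ∨ R.Adj v x} <
    edgesIn B {x | x = v ∨ B.Adj v x ∨ R.Adj v x}

open Classical in
lemma two_edges {V : Type} [Fintype V] (X : SimpleGraph V) (S : Set V) :
    2 * (edgesIn X S : ℤ) = ∑ x, ∑ y, (if x ∈ S then 1 else 0) * (if y ∈ S then 1 else 0) *
      (if X.Adj x y then 1 else 0 : ℤ) := by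
  let Y : SimpleGraph V := ⟨fun x y => X.Adj x y ∧ x ∈ S ∧ y ∈ S,
    ⟨fun x y h => ⟨h.1.symm, h.2.2, h.2.1⟩⟩, ⟨fun x h => X.irrefl h.1⟩⟩
  have e1 : {e | e ∈ X.edgeSet ∧ ∀ x ∈ e, x ∈ S} = Y.edgeSet := by
    ext e
    induction e using Sym2.ind with
    | _ x y => simp [Y]
  have e2 := Y.sum_degrees_eq_twice_card_edges
  have e3 : edgesIn X S = Y.edgeFinset.card := by
    rw [edgesIn, e1, ← Set.ncard_coe_finset, SimpleGraph.coe_edgeFinset]
  rw [e3]
  have e4 : (2 * (Y.edgeFinset.card : ℤ)) = ∑ x, (Y.degree x : ℤ) := by exact_mod_cast e2.symm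
  rw [e4]
  refine sum_congr rfl fun x _ => ?_
  rw [← SimpleGraph.card_neighborFinset_eq_degree, SimpleGraph.neighborFinset_eq_filter,
    card_filter]
  push_cast
  refine sum_congr rfl fun y _ => ?_
  by_cases h1 : x ∈ S <;> by_cases h2 : y ∈ S <;> by_cases h3 : X.Adj x y <;> simp [Y, h1, h2, h3]

open Classical in
lemma deg_sum {V : Type} [Fintype V] (X : SimpleGraph V) (v : V) :
    ∑ y, (if X.Adj v y then 1 else 0 : ℤ) = (X.neighborSet v).ncard := by
  rw [Set.ncard_eq_toFinset_card', ← SimpleGraph.neighborFinset_def,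
    SimpleGraph.neighborFinset_eq_filter, card_filter]
  push_cast
  rfl

theorem bounds {V : Type} [Fintype V] [Nonempty V] (B R : SimpleGraph V) (b r : ℕ) (hbr : b < r)
    (h : IsFlip B R b r) :
    ((b : ℤ) + r + 1) * (2 * r - b) + 2 ≤ Fintype.card V * r ∧
      (r : ℤ) * (2 * r + 4 + b - b ^ 2) ≤ 2 * Fintype.card V := by
  classical
  obtain ⟨h1, h2, h3, h4⟩ := h
  have sb : ∀ x y, (if B.Adj x y then 1 else 0 : ℤ) = if B.Adj y x then 1 else 0 :=
    fun x y => by simp only [B.adj_comm]
  have sr : ∀ x y, (if R.Adj x y then 1 else 0 : ℤ) = if R.Adj y x then 1 else 0 :=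
    fun x y => by simp only [R.adj_comm]
  have hc : ∀ x y, ((if B.Adj x y then 1 else 0 : ℤ) = 0 ∧ (if R.Adj x y then 1 else 0 : ℤ) = 0) ∨
      (x ≠ y ∧ (if B.Adj x y then 1 else 0 : ℤ) = 1 ∧ (if R.Adj x y then 1 else 0 : ℤ) = 0) ∨
      (x ≠ y ∧ (if B.Adj x y then 1 else 0 : ℤ) = 0 ∧ (if R.Adj x y then 1 else 0 : ℤ) = 1) := by
    intro x y
    by_cases a1 : B.Adj x y <;> by_cases a2 : R.Adj x y
    · exact absurd ⟨a1, a2⟩ (h1 x y)
    · simp [a1, a2, a1.ne]
    · simp [a1, a2, a2.ne]
    · simp [a1, a2]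
  have db : ∀ x, ∑ y, (if B.Adj x y then 1 else 0 : ℤ) = b := fun x => by rw [deg_sum, h2]
  have dr : ∀ x, ∑ y, (if R.Adj x y then 1 else 0 : ℤ) = r := fun x => by rw [deg_sum, h3]
  have nu : ∀ v x, dl v x + (if B.Adj v x then 1 else 0 : ℤ) + (if R.Adj v x then 1 else 0 : ℤ) =
      if x ∈ {x | x = v ∨ B.Adj v x ∨ R.Adj v x} then 1 else 0 := by
    intro v x
    by_cases e : v = x
    · subst e; simp [dl]
    · have := h1 v x
      by_cases a1 : B.Adj v x <;> by_cases a2 : R.Adj v x <;> simp_all [dl, Ne.symm e]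
  have hf : ∀ v, ∑ x, ∑ y,
      (dl v x + (if B.Adj v x then 1 else 0 : ℤ) + (if R.Adj v x then 1 else 0 : ℤ)) *
      (dl v y + (if B.Adj v y then 1 else 0 : ℤ) + (if R.Adj v y then 1 else 0 : ℤ)) *
      (if R.Adj x y then 1 else 0 : ℤ) + 2 ≤ ∑ x, ∑ y,
      (dl v x + (if B.Adj v x then 1 else 0 : ℤ) + (if R.Adj v x then 1 else 0 : ℤ)) *
      (dl v y + (if B.Adj v y then 1 else 0 : ℤ) + (if R.Adj v y then 1 else 0 : ℤ)) *
      (if B.Adj x y then 1 else 0 : ℤ) := by
    intro v
    have a1 := two_edges R {x | x = v ∨ B.Adj v x ∨ R.Adj v x}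
    have a2 := two_edges B {x | x = v ∨ B.Adj v x ∨ R.Adj v x}
    have a3 := h4 v
    simp only [nu]
    convert (show 2 * (edgesIn R {x | x = v ∨ B.Adj v x ∨ R.Adj v x} : ℤ) + 2 ≤
      2 * (edgesIn B {x | x = v ∨ B.Adj v x ∨ R.Adj v x} : ℤ) by omega) using 2
    · convert a1.symm
    · convert a2.symm
  exact ⟨bound1 sr hc db dr hf (Classical.arbitrary V), bound2 sb sr hc db dr hf (by omega)⟩

def cB (b r : ℕ) : SimpleGraph (Fin (r + 1) × ZMod (b + 1)) where
  Adj p q := p.1 = q.1 ∧ p.2 ≠ q.2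
  symm := ⟨fun _ _ h => ⟨h.1.symm, h.2.symm⟩⟩
  loopless := ⟨fun _ h => h.2 rfl⟩

def cR (b r : ℕ) : SimpleGraph (Fin (r + 1) × ZMod (b + 1)) where
  Adj p q := (p.1 < q.1 ∧ q.2 = p.2 + 1) ∨ (q.1 < p.1 ∧ p.2 = q.2 + 1)
  symm := ⟨fun _ _ h => h.symm⟩
  loopless := ⟨fun _ h => by rcases h with h | h <;> exact lt_irrefl _ h.1⟩

theorem construct (b r : ℕ) (hb : 1 ≤ b) (h : r < (b + 1).choose 2) :
    IsFlip (cB b r) (cR b r) b r := by
  classical
  have : Fact (1 < b + 1) := ⟨by omega⟩
  have nR : ∀ v, ((cR b r).neighborSet v).ncard = r := by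
    rintro ⟨i, x⟩
    have e : (cR b r).neighborSet (i, x) =
        (fun j => (j, if i < j then x + 1 else x - 1)) '' ({i}ᶜ : Set (Fin (r + 1))) := by
      ext ⟨j, y⟩
      simp only [SimpleGraph.mem_neighborSet, cR, Set.mem_image, Set.mem_compl_iff,
        Set.mem_singleton_iff, Prod.mk.injEq]
      constructor
      · rintro (⟨h1, h2⟩ | ⟨h1, h2⟩)
        · exact ⟨j, h1.ne', rfl, by rw [if_pos h1, h2]⟩
        · exact ⟨j, h1.ne, rfl, by rw [if_neg h1.not_gt, h2]; simp⟩
      · rintro ⟨k, h1, rfl, h2⟩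
        rcases lt_or_gt_of_ne h1 with h3 | h3
        · right; rw [if_neg h3.not_gt] at h2; exact ⟨h3, by rw [← h2]; simp⟩
        · left; rw [if_pos h3] at h2; exact ⟨h3, h2.symm⟩
    rw [e, Set.ncard_image_of_injective _ (fun j k h => (Prod.mk.inj h).1), Set.ncard_compl]
    simp
  refine ⟨?_, ?_, nR, ?_⟩
  · rintro p q ⟨h1, h2 | h2⟩
    · exact h2.1.ne h1.1
    · exact h2.1.ne' h1.1
  · rintro ⟨i, x⟩
    have e : (cB b r).neighborSet (i, x) = (fun y => (i, y)) '' ({x}ᶜ : Set (ZMod (b + 1))) := by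
      ext ⟨j, y⟩
      simp only [SimpleGraph.mem_neighborSet, cB, Set.mem_image, Set.mem_compl_iff,
        Set.mem_singleton_iff, Prod.mk.injEq]
      constructor
      · rintro ⟨rfl, h2⟩
        exact ⟨y, h2.symm, rfl, rfl⟩
      · rintro ⟨z, h1, rfl, rfl⟩
        exact ⟨rfl, Ne.symm h1⟩
    rw [e, Set.ncard_image_of_injective _ (fun j k h => (Prod.mk.inj h).2), Set.ncard_compl]
    simp
  · intro v
    have a1 : edgesIn (cR b r) {x | x = v ∨ (cB b r).Adj v x ∨ (cR b r).Adj v x} ≤ r := by
      refine le_trans (Set.ncard_le_ncard (t := (fun u => s(v, u)) '' (cR b r).neighborSet v)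
        ?_) (le_trans (Set.ncard_image_le) (nR v).le)
      intro e
      induction e using Sym2.ind with
      | _ p q =>
        rintro ⟨h1, h2⟩
        have hp := h2 p (Sym2.mem_mk_left _ _)
        have hq := h2 q (Sym2.mem_mk_right _ _)
        rw [SimpleGraph.mem_edgeSet] at h1
        rcases hp with rfl | hp
        · exact ⟨q, h1, rfl⟩
        rcases hq with rfl | hq
        · exact ⟨p, h1.symm, Sym2.eq_swap⟩
        exfalso
        obtain ⟨i, x⟩ := v
        obtain ⟨j, y⟩ := p
        obtain ⟨k, z⟩ := q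
        simp only [cB, cR] at h1 hp hq
        have one : (1 : ZMod (b + 1)) ≠ 0 := one_ne_zero
        rcases h1 with ⟨c1, c2⟩ | ⟨c1, c2⟩ <;>
          rcases hp with ⟨d1, d2⟩ | ⟨d1, d2⟩ | ⟨d1, d2⟩ <;>
          rcases hq with ⟨e1, e2⟩ | ⟨e1, e2⟩ | ⟨e1, e2⟩ <;>
          first
          | omega
          | exact d2 (by linear_combination c2 - e2)
          | exact d2 (by linear_combination e2 - c2)
          | exact e2 (by linear_combination c2 - d2)
          | exact e2 (by linear_combination d2 - c2)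
          | exact one (by linear_combination e2 - c2 - d2)
          | exact one (by linear_combination d2 - c2 - e2)
          | exact one (by linear_combination c2 - d2 - e2)
    have a2 : (b + 1).choose 2 ≤
        edgesIn (cB b r) {x | x = v ∨ (cB b r).Adj v x ∨ (cR b r).Adj v x} := by
      have e1 : (⊤ : SimpleGraph (ZMod (b + 1))).edgeSet.ncard = (b + 1).choose 2 := by
        rw [← SimpleGraph.coe_edgeFinset, Set.ncard_coe_finset,
          SimpleGraph.card_edgeFinset_top_eq_card_choose_two, ZMod.card]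
      have inj : Function.Injective (Sym2.map fun y : ZMod (b + 1) => (v.1, y)) :=
        Sym2.map.injective fun j k h => (Prod.mk.inj h).2
      rw [← e1, ← Set.ncard_image_of_injective _ inj]
      refine Set.ncard_le_ncard ?_
      rintro _ ⟨e, he, rfl⟩
      induction e using Sym2.ind with
      | _ y z =>
        have hne : y ≠ z := by simpa using he
        have mem : ∀ w, (v.1, w) ∈ {x | x = v ∨ (cB b r).Adj v x ∨ (cR b r).Adj v x} := by
          intro w
          by_cases e : w = v.2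
          · left; rw [e]
          · right; left; exact ⟨rfl, Ne.symm e⟩
        refine ⟨⟨rfl, hne⟩, fun x hx => ?_⟩
        rw [Sym2.map_mk, Sym2.mem_iff] at hx
        rcases hx with rfl | rfl <;> exact mem _
    omega

end Pool.Agent.H3.Flip
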