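import Mathlib
import Pool.Agent.H3.Flip

set_option autoImplicit false

namespace Pool.Agent.H3.Flip

open Finset

section alg
variable {V : Type} [Fintype V] [DecidableEq V]
variable {be ro : V → V → ℤ} {b r : ℤ}
  (sb : ∀ x y, be x y = be y x) (sr : ∀ x y, ro x y = ro y x)
  (hc : ∀ x y, (be x y = 0 ∧ ro x y = 0) ∨ (x ≠ y ∧ be x y = 1 ∧ ro x y = 0) ∨
    (x ≠ y ∧ be x y = 0 ∧ ro x y = 1))
  (db : ∀ x, ∑ y, be x y = b) (dr : ∀ x, ∑ y, ro x y = r)
  (hf : ∀ v, ∑ x, ∑ y, (dl v x + be v x + ro v x) * (dl v y + be v y + ro v y) * ro x y + 2 ≤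
    ∑ x, ∑ y, (dl v x + be v x + ro v x) * (dl v y + be v y + ro v y) * be x y)

include sb sr hc db dr hf in
lemma tight (he : 2 * r + 2 = b * b + b) (v x y : V) :
    be v x * be v y * (1 - dl x y - be x y - ro x y) + ro v x * ro v y * (be x y + ro x y) = 0 := by
  set n : ℤ := (Fintype.card V : ℤ) with hn
  have z1 : ∀ x, be x x = 0 := fun x => by rcases hc x x with h | h | h <;> simp_all
  have z2 : ∀ x, ro x x = 0 := fun x => by rcases hc x x with h | h | h <;> simp_all
  have ex : ∀ (Z : V → V → ℤ) (d : ℤ), (∀ x y, Z x y = Z y x) → (∀ x, Z x x = 0) →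
      (∀ v x, (be v x + ro v x) * Z v x = Z v x) → (∀ x, ∑ y, Z x y = d) →
      ∑ v, ∑ x, ∑ y, (dl v x + be v x + ro v x) * (dl v y + be v y + ro v y) * Z x y =
        n * (2 * d) + (T be be Z + T be ro Z + T ro be Z + T ro ro Z) := by
    intro Z d s0 z0 a0 d0
    have e1 : ∀ v, ∑ x, ∑ y, (dl v x + be v x + ro v x) * (dl v y + be v y + ro v y) * Z x y =
        2 * d + ∑ x, ∑ y, (be v x * be v y * Z x y + be v x * ro v y * Z x y +
          ro v x * be v y * Z x y + ro v x * ro v y * Z x y) := by
      intro v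
      have e2 : ∀ x y, (dl v x + be v x + ro v x) * (dl v y + be v y + ro v y) * Z x y =
          dl v x * (dl v y * Z x y) + dl v x * ((be v y + ro v y) * Z x y) +
          dl v y * ((be v x + ro v x) * Z x y) + (be v x * be v y * Z x y +
          be v x * ro v y * Z x y + ro v x * be v y * Z x y + ro v x * ro v y * Z x y) := by
        intro x y; ring
      simp only [e2]
      rw [sum_congr rfl fun x _ => sum_add_distrib, sum_add_distrib]
      congr 1
      simp only [sum_add_distrib, ← mul_sum, sum_dl, z0, a0, d0]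
      simp only [s0 _ v, a0, d0]
      ring
    simp only [e1, sum_add_distrib, T, sum_const, card_univ, nsmul_eq_mul, hn]
  have f1 := sum_le_sum (s := univ) fun v _ => hf v
  rw [sum_add_distrib, ex ro r sr z2 (fun v x => by rcases hc v x with h | h | h <;> simp [h]) dr,
    ex be b sb z1 (fun v x => by rcases hc v x with h | h | h <;> simp [h]) db] at f1
  simp only [sum_const, card_univ, nsmul_eq_mul, ← hn] at f1
  rw [T12 ro be be sb, T23 be ro be sb, T12 be ro ro sr, T23 ro be ro sr] at f1
  let om : V → V → ℤ := fun x y => 1 - dl x y - be x y - ro x y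
  have f2 : T be be om + T be be be + T be be ro = n * (b * b - b) := by
    have : ∀ v, ∑ x, ∑ y, (be v x * be v y * om x y + be v x * be v y * be x y +
        be v x * be v y * ro x y) = b * b - b := by
      intro v
      have e2 : ∀ x y, be v x * be v y * om x y + be v x * be v y * be x y +
          be v x * be v y * ro x y = be v x * be v y - dl x y * (be v x * be v y) := by
        intro x y; simp only [om]; ring
      have e3 : ∀ x, be v x * be v x = be v x := fun x => by
        rcases hc v x with h | h | h <;> simp [h]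
      simp only [e2, sum_sub_distrib, sum_dl, e3, ← mul_sum, ← sum_mul, db]
    simp only [T, ← sum_add_distrib, this, sum_const, card_univ, nsmul_eq_mul, hn]
  have f7 : T be be om + T ro ro be + T ro ro ro ≤ 0 := by
    have : n * (2 * r + 2) = n * (b * b + b) := by rw [he]
    linarith
  let g : V → V → V → ℤ := fun v x y =>
    be v x * be v y * (1 - dl x y - be x y - ro x y) + ro v x * ro v y * (be x y + ro x y)
  have g0 : ∀ v x y, 0 ≤ g v x y := by
    intro v x y
    have a1 := rng hc v x
    have a2 := rng hc v y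
    have a3 := rng hc x y
    exact add_nonneg (mul_nonneg (mul_nonneg a1.2.1 a2.2.1) (by omega))
      (mul_nonneg (mul_nonneg a1.2.2.1 a2.2.2.1) (by omega))
  have g1 : ∑ v, ∑ x, ∑ y, g v x y ≤ 0 := by
    refine le_trans (le_of_eq ?_) f7
    simp only [g, T, om, mul_add, sum_add_distrib, add_assoc]
  have g2 : g v x y ≤ ∑ y, g v x y := single_le_sum (fun y _ => g0 v x y) (mem_univ y)
  have g3 : ∑ y, g v x y ≤ ∑ x, ∑ y, g v x y :=
    single_le_sum (f := fun x => ∑ y, g v x y) (fun x _ => sum_nonneg fun y _ => g0 v x y)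
      (mem_univ x)
  have g4 : ∑ x, ∑ y, g v x y ≤ ∑ v, ∑ x, ∑ y, g v x y :=
    single_le_sum (f := fun v => ∑ x, ∑ y, g v x y)
      (fun v _ => sum_nonneg fun x _ => sum_nonneg fun y _ => g0 v x y) (mem_univ v)
  have := g0 v x y
  show g v x y = 0
  omega

end alg

open Classical in
lemma structure_bound {V : Type} [Fintype V] [Nonempty V] (B R : SimpleGraph V) (b r : ℕ)
    (hb : 3 ≤ b) (hbr : b < r) (h1 : ∀ x y, ¬ (B.Adj x y ∧ R.Adj x y))
    (hB : ∀ v, (univ.filter (B.Adj v)).card = b) (hR : ∀ v, (univ.filter (R.Adj v)).card = r)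
    (hO : ∀ v x y, B.Adj v x → B.Adj v y → x ≠ y → B.Adj x y ∨ R.Adj x y)
    (hC : ∀ v x y, R.Adj v x → R.Adj v y → ¬ B.Adj x y ∧ ¬ R.Adj x y) :
    (r + 1) * (b + 1) ≤ Fintype.card V := by
  have F2 : ∀ a c e e', B.Adj a c → B.Adj a e → B.Adj a e' → e ≠ c → e' ≠ c → e ≠ e' →
      ¬ B.Adj c e → B.Adj c e' := by
    intro a c e e' ac ae ae' ec e'c ee' n1
    by_contra n2
    have F1 : ((univ.filter (B.Adj c)).filter fun d => d ≠ a ∧ ¬ B.Adj a d).card ≤ 1 := by
      refine card_le_one.mpr fun d hd d' hd' => ?_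
      simp only [mem_filter, mem_univ, true_and] at hd hd'
      by_contra hne
      have r1 := (hO c a d ac.symm hd.1 hd.2.1.symm).resolve_left hd.2.2
      have r2 := (hO c a d' ac.symm hd'.1 hd'.2.1.symm).resolve_left hd'.2.2
      have := hC a d d' r1 r2
      rcases hO c d d' hd.1 hd'.1 hne with h | h
      · exact this.1 h
      · exact this.2 h
    have s1 : univ.filter (B.Adj c) ⊆ insert a ((((univ.filter (B.Adj a)).erase c).erase e).erase e')
        ∪ (univ.filter (B.Adj c)).filter fun d => d ≠ a ∧ ¬ B.Adj a d := by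
      intro d hd
      simp only [mem_filter, mem_univ, true_and, mem_union, mem_insert, mem_erase] at hd ⊢
      by_cases q1 : d = a
      · exact Or.inl (Or.inl q1)
      by_cases q2 : B.Adj a d
      · exact Or.inl (Or.inr ⟨fun q => n2 (q ▸ hd), fun q => n1 (q ▸ hd), hd.ne', q2⟩)
      · exact Or.inr ⟨hd, q1, q2⟩
    have s2 := card_le_card s1
    have s3 := card_union_le (insert a ((((univ.filter (B.Adj a)).erase c).erase e).erase e'))
      ((univ.filter (B.Adj c)).filter fun d => d ≠ a ∧ ¬ B.Adj a d)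
    have s4 := card_insert_le a ((((univ.filter (B.Adj a)).erase c).erase e).erase e')
    rw [card_erase_of_mem (by simp [ae', e'c, ee'.symm]), card_erase_of_mem (by simp [ae, ec]),
      card_erase_of_mem (by simp [ac]), hB] at s4
    rw [hB] at s2
    omega
  have S : ∀ x u y z, R.Adj x u → B.Adj x y → B.Adj u y → B.Adj x z → B.Adj u z := by
    intro x u y z xu xy uy xz
    have nux : ¬ B.Adj u x := fun h => h1 x u ⟨h.symm, xu⟩
    have step : ∀ a w, B.Adj x a → B.Adj u a → B.Adj x w → B.Adj a w → B.Adj u w := by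
      intro a w xa ua xw aw
      refine F2 a u x w ua.symm xa.symm aw xu.ne ?_ xw.ne nux
      rintro rfl
      exact h1 _ _ ⟨xw, xu⟩
    by_cases e : z = y
    · exact e ▸ uy
    by_cases yz : B.Adj y z
    · exact step y z xy uy xz yz
    obtain ⟨w, hw, hw'⟩ := exists_mem_notMem_of_card_lt_card (s := ({y, z} : Finset V))
      (t := univ.filter (B.Adj x)) (by rw [hB]; have := card_le_two (a := y) (b := z); omega)
    simp only [mem_filter, mem_univ, true_and, mem_insert, mem_singleton, not_or] at hw hw'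
    have yw : B.Adj y w := F2 x y z w xy xz hw e hw'.1 (Ne.symm hw'.2) yz
    have uw := step y w xy uy hw yw
    have zw : B.Adj z w := F2 x z y w xz xy hw (Ne.symm e) hw'.2 (Ne.symm hw'.1) fun h => yz h.symm
    exact step w z hw uw xz zw.symm
  have D : ∀ v u u' w, R.Adj v u → R.Adj v u' → u ≠ u' → (w = u ∨ B.Adj u w) →
      (w = u' ∨ B.Adj u' w) → False := by
    intro v u u' w a1 a2 hne b1 b2
    have := hC v u u' a1 a2
    rcases b1 with rfl | b1 <;> rcases b2 with rfl | b2
    · exact hne rfl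
    · exact this.1 b2.symm
    · exact this.1 b1
    · rcases hO w u u' b1.symm b2.symm hne with h | h
      · exact this.1 h
      · exact this.2 h
  have cP : ∀ u, (insert u (univ.filter (B.Adj u))).card = b + 1 := fun u => by
    rw [card_insert_of_notMem (by simp), hB]
  by_cases hcase : ∃ v, ∀ u y, R.Adj v u → B.Adj v y → ¬ B.Adj u y
  · obtain ⟨v, hv⟩ := hcase
    have E : ∀ u w, R.Adj v u → (w = v ∨ B.Adj v w) → (w = u ∨ B.Adj u w) → False := by
      intro u w a1 b1 b2
      rcases b1 with rfl | b1 <;> rcases b2 with rfl | b2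
      · exact R.irrefl a1
      · exact h1 _ _ ⟨b2.symm, a1⟩
      · exact h1 _ _ ⟨b1, a1⟩
      · exact hv u w a1 b1 b2
    have c1 := card_biUnion (s := insert v (univ.filter (R.Adj v)))
      (t := fun u => insert u (univ.filter (B.Adj u))) (by
        intro u hu u' hu' hne
        simp only [coe_insert, coe_filter, mem_univ, true_and, Set.mem_insert_iff,
          Set.mem_ofPred_eq] at hu hu'
        refine disjoint_left.mpr fun w w1 w2 => ?_
        simp only [mem_insert, mem_filter, mem_univ, true_and] at w1 w2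
        rcases hu with rfl | hu <;> rcases hu' with rfl | hu'
        · exact hne rfl
        · exact E u' w hu' w1 w2
        · exact E u w hu w2 w1
        · exact D v u u' w hu hu' hne w1 w2)
    have c2 := card_le_univ ((insert v (univ.filter (R.Adj v))).biUnion
      fun u => insert u (univ.filter (B.Adj u)))
    rw [c1, sum_congr rfl fun u _ => cP u, sum_const, card_insert_of_notMem (by simp), hR] at c2
    exact c2
  · push Not at hcase
    choose p q h2 h3 h4 using hcase
    obtain ⟨v⟩ := (inferInstance : Nonempty V)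
    have G : ∀ u u', R.Adj v u → R.Adj v u' → ¬ (p u = u' ∨ B.Adj u' (p u)) := by
      rintro u u' a1 a2 (e | e)
      · exact (hC v u u' a1 a2).2 (e ▸ h2 u)
      · exact (hC v u u' a1 a2).1 (S (p u) u (q u) u' (h2 u).symm (h4 u) (h3 u) e.symm)
    have c1 := card_biUnion (s := univ.filter (R.Adj v))
      (t := fun u => insert (p u) (insert u (univ.filter (B.Adj u)))) (by
        intro u hu u' hu' hne
        simp only [coe_filter, mem_univ, true_and, Set.mem_ofPred_eq] at hu hu'
        refine disjoint_left.mpr fun w w1 w2 => ?_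
        simp only [mem_insert, mem_filter, mem_univ, true_and] at w1 w2
        rcases w1 with rfl | w1 <;> rcases w2 with e | w2
        · refine D v u u' (q u) hu hu' hne (Or.inr (h3 u)) (Or.inr ?_)
          exact S (p u') u' (q u') (q u) (h2 u').symm (h4 u') (h3 u') (e ▸ h4 u)
        · exact G u u' hu hu' w2
        · exact G u' u hu' hu (e ▸ w1)
        · exact D v u u' w hu hu' hne w1 w2)
    have c2 := card_le_univ ((univ.filter (R.Adj v)).biUnion
      fun u => insert (p u) (insert u (univ.filter (B.Adj u))))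
    have cQ : ∀ u, (insert (p u) (insert u (univ.filter (B.Adj u)))).card = b + 2 := fun u => by
      rw [card_insert_of_notMem, cP]
      simp only [mem_insert, mem_filter, mem_univ, true_and, not_or]
      exact ⟨(h2 u).ne', fun h => h1 _ _ ⟨h, h2 u⟩⟩
    rw [c1, sum_congr rfl fun u _ => cQ u, sum_const, hR, smul_eq_mul] at c2
    nlinarith

theorem extremal {V : Type} [Fintype V] [Nonempty V] (B R : SimpleGraph V) (b r : ℕ) (hb : 3 ≤ b)
    (he : 2 * r + 2 = b * b + b) (h : IsFlip B R b r) : (r + 1) * (b + 1) ≤ Fintype.card V := by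
  classical
  obtain ⟨h1, h2, h3, h4⟩ := h
  have sb : ∀ x y, (if B.Adj x y then 1 else 0 : ℤ) = if B.Adj y x then 1 else 0 :=
    fun x y => by simp only [B.adj_comm]
  have sr : ∀ x y, (if R.Adj x y then 1 else 0 : ℤ) = if R.Adj y x then 1 else 0 :=
    fun x y => by simp only [R.adj_comm]
  have hc : ∀ x y, ((if B.Adj x y then 1 else 0 : ℤ) = 0 ∧ (if R.Adj x y then 1 else 0 : ℤ) = 0) ∨
      (x ≠ y ∧ (if B.Adj x y then 1 else 0 : ℤ) = 1 ∧ (if R.Adj x y then 1 else 0 : ℤ) = 0) ∨
      (x ≠ y ∧ (if B.Adj x y then 1 else 0 : ℤ) = 0 ∧ (if R.Adj x y then 1 else 0 : ℤ) = 1) := by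
    intro x y
    by_cases a1 : B.Adj x y <;> by_cases a2 : R.Adj x y
    · exact absurd ⟨a1, a2⟩ (h1 x y)
    · simp [a1, a2, a1.ne]
    · simp [a1, a2, a2.ne]
    · simp [a1, a2]
  have db : ∀ x, ∑ y, (if B.Adj x y then 1 else 0 : ℤ) = b := fun x => by rw [deg_sum, h2]
  have dr : ∀ x, ∑ y, (if R.Adj x y then 1 else 0 : ℤ) = r := fun x => by rw [deg_sum, h3]
  have nu : ∀ v x, dl v x + (if B.Adj v x then 1 else 0 : ℤ) + (if R.Adj v x then 1 else 0 : ℤ) =
      if x ∈ {x | x = v ∨ B.Adj v x ∨ R.Adj v x} then 1 else 0 := by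
    intro v x
    by_cases e : v = x
    · subst e; simp [dl]
    · have := h1 v x
      by_cases a1 : B.Adj v x <;> by_cases a2 : R.Adj v x <;> simp_all [dl, Ne.symm e]
  have hf : ∀ v, ∑ x, ∑ y,
      (dl v x + (if B.Adj v x then 1 else 0 : ℤ) + (if R.Adj v x then 1 else 0 : ℤ)) *
      (dl v y + (if B.Adj v y then 1 else 0 : ℤ) + (if R.Adj v y then 1 else 0 : ℤ)) *
      (if R.Adj x y then 1 else 0 : ℤ) + 2 ≤ ∑ x, ∑ y,
      (dl v x + (if B.Adj v x then 1 else 0 : ℤ) + (if R.Adj v x then 1 else 0 : ℤ)) *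
      (dl v y + (if B.Adj v y then 1 else 0 : ℤ) + (if R.Adj v y then 1 else 0 : ℤ)) *
      (if B.Adj x y then 1 else 0 : ℤ) := by
    intro v
    have a1 := two_edges R {x | x = v ∨ B.Adj v x ∨ R.Adj v x}
    have a2 := two_edges B {x | x = v ∨ B.Adj v x ∨ R.Adj v x}
    have a3 := h4 v
    simp only [nu]
    convert (show 2 * (edgesIn R {x | x = v ∨ B.Adj v x ∨ R.Adj v x} : ℤ) + 2 ≤
      2 * (edgesIn B {x | x = v ∨ B.Adj v x ∨ R.Adj v x} : ℤ) by omega) using 2
    · convert a1.symm
    · convert a2.symm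
  have ht := tight sb sr hc db dr hf (by exact_mod_cast he)
  have cd : ∀ (X : SimpleGraph V) (v : V),
      (univ.filter (X.Adj v)).card = (X.neighborSet v).ncard := by
    intro X v
    rw [← Set.ncard_coe_finset]
    congr 1
    ext x
    simp
  refine structure_bound B R b r hb (by nlinarith) h1 (fun v => ?_) (fun v => ?_) ?_ ?_
  · convert (cd B v).trans (h2 v)
  · convert (cd R v).trans (h3 v)
  · intro v x y a1 a2 hne
    have := ht v x y
    have n1 : ¬ R.Adj v x := fun h => h1 _ _ ⟨a1, h⟩
    by_contra hn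
    rw [not_or] at hn
    simp [a1, a2, n1, dl, hne, hn.1, hn.2] at this
  · intro v x y a1 a2
    have := ht v x y
    have n1 : ¬ B.Adj v x := fun h => h1 _ _ ⟨h, a1⟩
    have n2 := h1 x y
    by_cases c1 : B.Adj x y <;> by_cases c2 : R.Adj x y <;> simp_all

end Pool.Agent.H3.Flip
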