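import Mathlib

set_option autoImplicit false

namespace Pool.Agent.H3.FlowDefs

open Classical in
/-- The flow polynomial `∑_{A ⊆ E} (-1)^(|E|-|A|) q^(|A|-|V|+c(A))` of a finite simple graph. -/
noncomputable def flowPoly {V : Type} [Fintype V] (G : SimpleGraph V) (q : ℝ) : ℝ :=
  ∑ A ∈ G.edgeFinset.powerset, (-1) ^ (G.edgeFinset.card - A.card) *
    q ^ ((A.card : ℤ) - Fintype.card V +
      Nat.card (SimpleGraph.fromEdgeSet (A : Set (Sym2 V))).ConnectedComponent)

/-- At least four vertices, and deleting at most two vertices leaves a connected graph. -/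
def ThreeConnected {V : Type} [Fintype V] (G : SimpleGraph V) : Prop :=
  4 ≤ Fintype.card V ∧ ∀ S : Finset V, S.card ≤ 2 → (G.induce (S : Set V)ᶜ).Connected

end Pool.Agent.H3.FlowDefs
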