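import Pool.Agent.H3.FlowVal
import Pool.Agent.H3.FlowDefs

set_option autoImplicit false

namespace Pool.Agent.H3.FlowProof

open Finset Pool.Agent.H3.Potts Pool.Agent.H3.FlowDefs


def EL : List (Fin 11 × Fin 11) := [(0, 1), (1, 2), (0, 3), (1, 3), (0, 4), (1, 4), (3, 4), (0, 5), (2, 6), (5, 6), (0, 7), (1, 7), (2, 7), (5, 7), (1, 8), (3, 8), (4, 8), (6, 8), (1, 9), (2, 9), (6, 9), (7, 9), (0, 10), (5, 10), (6, 10), (7, 10)]

def G : SimpleGraph (Fin 11) where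
  Adj a b := Nat.testBit 292192223793799729917687311326047418 (11 * a.val + b.val) = true
  symm := ⟨by decide +kernel⟩
  loopless := ⟨by decide +kernel⟩

instance : DecidableRel G.Adj := fun a b => 
  inferInstanceAs (Decidable (Nat.testBit 292192223793799729917687311326047418 (11 * a.val + b.val) = true))

def E : Finset (Sym2 (Fin 11)) := (EL.map fun e => s(e.1, e.2)).toFinset

theorem nodup : (EL.map fun e => s(e.1, e.2)).Nodup := by decide +kernel

theorem edges {i : Fintype G.edgeSet} : @SimpleGraph.edgeFinset _ G i = E := by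
  ext e
  induction e using Sym2.ind with
  | _ a b =>
    have : ∀ a b, G.Adj a b ↔ ∃ e ∈ EL, (e.1 = a ∧ e.2 = b) ∨ (e.1 = b ∧ e.2 = a) := by
      decide +kernel
    rw [SimpleGraph.mem_edgeFinset, SimpleGraph.mem_edgeSet, this]
    simp only [E, List.mem_toFinset, List.mem_map, Sym2.eq_iff]

theorem card_E : E.card = 26 := by
  rw [E, List.toFinset_card_of_nodup nodup]; rfl

theorem Z_eq (y x : ℝ) : ∑ A ∈ E.powerset, (y - 1) ^ A.card * x ^ Nat.card
    (SimpleGraph.fromEdgeSet (A : Set (Sym2 (Fin 11)))).ConnectedComponent =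
      R y 1 x 1 l 0 (fun _ => 0) 0 := by
  refine expansion l (by decide) E (fun k y σ τ => ?_) y x
  have h : ∀ τ : Fin 11 → Fin k, ∏ e ∈ E, (if (e.map τ).IsDiag then y else 1) =
      (EL.map fun e => if τ e.1 = τ e.2 then y else 1).prod := by
    intro τ
    rw [E, List.prod_toFinset _ nodup, List.map_map]
    congr 1
    exact List.map_congr_left fun e _ => if_congr (by simp) rfl rfl
  refine Eq.trans ?_ (h τ).symm
  simp only [l, EL, Wt, List.map, List.prod_cons, List.prod_nil, mul_one, one_mul, mul_assoc]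
  rfl

theorem root : ∃ q : ℝ, 1 < q ∧ q < 2 ∧ flowPoly G q = 0 := by
  let g : ℝ → ℝ := fun q => ∑ A ∈ E.powerset, (1 - q - 1) ^ A.card * q ^ Nat.card
    (SimpleGraph.fromEdgeSet (A : Set (Sym2 (Fin 11)))).ConnectedComponent
  have hg : Continuous g := by fun_prop
  have h1 : g (3 / 2) ≤ 0 := by
    have := R_int l 3 2 (-1) (by norm_num)
    have h : ((R (-1 : ℤ) 2 3 2 l 0 (fun _ => 0) 0 : ℤ) : ℝ) ≤ 0 := by
      exact_mod_cast not_lt.1 v1
    rw [← this] at h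
    simp only [g, Z_eq]
    have e : (1 - 3 / 2 : ℝ) = ((-1 : ℤ) : ℝ) / ((2 : ℤ) : ℝ) := by norm_num
    have e' : (3 / 2 : ℝ) = ((3 : ℤ) : ℝ) / ((2 : ℤ) : ℝ) := by norm_num
    rw [e, e']
    exact nonpos_of_mul_nonpos_left h (by positivity)
  have h2 : 0 ≤ g (99 / 50) := by
    have := R_int l 99 50 (-49) (by norm_num)
    have h : (0 : ℝ) < ((R (-49 : ℤ) 50 99 50 l 0 (fun _ => 0) 0 : ℤ) : ℝ) := by
      exact_mod_cast v2
    rw [← this] at h
    simp only [g, Z_eq]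
    have e : (1 - 99 / 50 : ℝ) = ((-49 : ℤ) : ℝ) / ((50 : ℤ) : ℝ) := by norm_num
    have e' : (99 / 50 : ℝ) = ((99 : ℤ) : ℝ) / ((50 : ℤ) : ℝ) := by norm_num
    rw [e, e']
    exact nonneg_of_mul_nonneg_left h.le (by positivity)
  obtain ⟨q, ⟨q1, q2⟩, hq⟩ := intermediate_value_Icc (show (3 / 2 : ℝ) ≤ 99 / 50 by norm_num)
    hg.continuousOn ⟨h1, h2⟩
  refine ⟨q, by linarith, by linarith, ?_⟩
  have hq0 : q ≠ 0 := by linarith
  have : flowPoly G q = q ^ (-11 : ℤ) * g q := by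
    unfold flowPoly
    rw [edges, card_E, mul_sum]
    refine sum_congr rfl fun A hA => ?_
    have hc : A.card ≤ 26 := card_E ▸ card_le_card (mem_powerset.1 hA)
    have : (-1 : ℝ) ^ (26 - A.card) = (-1) ^ A.card := by
      have h3 : (-1 : ℝ) ^ (26 - A.card) * (-1) ^ A.card = 1 := by
        rw [← pow_add, Nat.sub_add_cancel hc]; norm_num
      rcases neg_one_pow_eq_or ℝ A.card with h | h <;> rw [h] at h3 ⊢ <;> linarith
    rw [this, show 1 - q - 1 = -1 * q by ring, mul_pow, Fintype.card_fin, sub_eq_add_neg,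
      zpow_add₀ hq0, zpow_add₀ hq0, zpow_natCast, zpow_natCast]
    push_cast
    ring
  rw [this, hq, mul_zero]

set_option synthInstance.maxSize 100000 in
theorem near : ∀ a b : Fin 12, ∃ r : Fin 11, (r.val ≠ a ∧ r.val ≠ b) ∧
    ∀ v : Fin 11, (v.val ≠ a ∧ v.val ≠ b) → ∃ w : Fin 11, (w.val ≠ a ∧ w.val ≠ b) ∧
    (r = w ∨ G.Adj r w) ∧ ∃ w' : Fin 11, (w'.val ≠ a ∧ w'.val ≠ b) ∧ (w = w' ∨ G.Adj w w') ∧
      (w' = v ∨ G.Adj w' v) := by decide +kernel

theorem three : ThreeConnected G := by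
  refine ⟨by simp, fun S hS => ?_⟩
  obtain ⟨a, b, hab⟩ : ∃ a b : Fin 12, ∀ x : Fin 11,
      x ∈ (S : Set (Fin 11))ᶜ ↔ (x.val ≠ a ∧ x.val ≠ b) := by
    rcases (by omega : S.card = 0 ∨ S.card = 1 ∨ S.card = 2) with h | h | h
    · rw [card_eq_zero.1 h]
      exact ⟨11, 11, fun x => by simp; omega⟩
    · obtain ⟨a, rfl⟩ := card_eq_one.1 h
      exact ⟨a.castSucc, a.castSucc, fun x => by simp [Fin.ext_iff]⟩
    · obtain ⟨a, b, -, rfl⟩ := card_eq_two.1 h
      exact ⟨a.castSucc, b.castSucc, fun x => by simp [Fin.ext_iff]⟩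
  obtain ⟨r, hr, h⟩ := near a b
  have st : ∀ u v : ↥(S : Set (Fin 11))ᶜ, (u.1 = v.1 ∨ G.Adj u.1 v.1) →
      (G.induce (S : Set (Fin 11))ᶜ).Reachable u v := by
    rintro u v (e | e)
    · rw [Subtype.ext e]
    · exact SimpleGraph.Adj.reachable e
  refine (SimpleGraph.connected_iff_exists_forall_reachable _).2 ⟨⟨r, (hab r).2 hr⟩, fun v => ?_⟩
  obtain ⟨w, hw, e1, w', hw', e2, e3⟩ := h v.1 ((hab _).1 v.2)
  exact ((st _ ⟨w, (hab _).2 hw⟩ e1).trans (st _ ⟨w', (hab _).2 hw'⟩ e2)).trans (st _ _ e3)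

theorem odd : Odd (G.degree 1) := by decide +kernel

end Pool.Agent.H3.FlowProof
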