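import Pool.Agent.H3.Potts

set_option autoImplicit false

namespace Pool.Agent.H3.FlowProof

open Pool.Agent.H3.Potts

def l : List (Bool × List ℕ) := [(true, []), (true, [0]), (true, [1]), (true, [0, 1]), (true, [0, 1, 3]), (true, [0]), (true, [2, 5]), (true, [0, 1, 2, 5]), (false, [1, 3, 4, 6]), (false, [1, 2, 6, 7]), (false, [0, 5, 6, 7])]

theorem v1 : 0 < R (-1 : ℤ) 2 3 2 l 0 (fun _ => 0) 0 → False := by decide +kernel

theorem v2 : 0 < R (-49 : ℤ) 50 99 50 l 0 (fun _ => 0) 0 := by decide +kernel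

end Pool.Agent.H3.FlowProof
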