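import Mathlib

set_option autoImplicit false

namespace Pool.Agent.H3.FoldDefs

variable {V : Type} (G : SimpleGraph V) (side : V → Bool)

/-- `side` is a bipartition of `G`: `V₁` is the `false` side and `V₂` the `true` side. -/
def IsBigraph : Prop := ∀ x y, G.Adj x y → side x ≠ side y

/-- The edges `(v, w)` with `v ∈ V₁`, `w ∈ V₂`. -/
def edges : Set (V × V) := {e | side e.1 = false ∧ side e.2 = true ∧ G.Adj e.1 e.2}

/-- Automorphisms preserving both sides. -/
def IsAut (φ : Equiv.Perm V) : Prop :=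
  (∀ x y, G.Adj (φ x) (φ y) ↔ G.Adj x y) ∧ ∀ x, side (φ x) = side x

/-- An involution whose fixed vertices disconnect the graph. -/
def IsCutInvolution (φ : Equiv.Perm V) : Prop :=
  IsAut G side φ ∧ φ * φ = 1 ∧ φ ≠ 1 ∧ ¬ (G.induce {x | φ x ≠ x}).Connected

/-- A fold: `L` is a union of components of `G - Fix φ`, and `L, Fix φ, φ L` partition `V`. -/
def IsFold (φ : Equiv.Perm V) (L : Set V) : Prop :=
  IsCutInvolution G side φ ∧ L ⊆ {x | φ x ≠ x} ∧
    (∀ x y : {x | φ x ≠ x}, (G.induce {x | φ x ≠ x}).Reachable x y → x.1 ∈ L → y.1 ∈ L) ∧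
    Disjoint L (φ '' L) ∧ L ∪ {x | φ x = x} ∪ φ '' L = Set.univ

open Classical in
/-- The left-folding map. -/
noncomputable def foldMap (φ : Equiv.Perm V) (L : Set V) (v : V) : V := if v ∈ L then v else φ v

/-- One step of a cut-percolating sequence. -/
def Step (F F' : Set (V × V)) : Prop :=
  ∃ φ L, IsFold G side φ L ∧
    F' = {e | e ∈ edges G side ∧ (foldMap φ L e.1, foldMap φ L e.2) ∈ F}

def CutPercolating : Prop :=
  ∃ e ∈ edges G side, Relation.ReflTransGen (Step G side) {e} (edges G side)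

/-- The group generated by the cut-involutions that extend to a fold. -/
def foldGroup : Subgroup (Equiv.Perm V) := Subgroup.closure {φ | ∃ L, IsFold G side φ L}

def FoldEdgeTransitive : Prop :=
  (edges G side).Nonempty ∧
    ∀ e ∈ edges G side, ∀ e' ∈ edges G side, ∃ γ ∈ foldGroup G side, (γ e.1, γ e.2) = e'

end Pool.Agent.H3.FoldDefs
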