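import Mathlib

set_option autoImplicit false

namespace Pool.Agent.H3.Furstenberg

open MvPowerSeries

abbrev M2 := MvPowerSeries (Fin 2) ℚ

noncomputable def dg (n : ℕ) : Fin 2 →₀ ℕ := Finsupp.single 0 n + Finsupp.single 1 n

@[simp] theorem dg0 (n : ℕ) : dg n 0 = n := by simp [dg]
@[simp] theorem dg1 (n : ℕ) : dg n 1 = n := by simp [dg]

theorem ext2 {a b : Fin 2 →₀ ℕ} (h0 : a 0 = b 0) (h1 : a 1 = b 1) : a = b := by
  ext i
  fin_cases i
  · exact h0
  · exact h1

theorem hs : PowerSeries.HasSubst (X 0 * X 1 : M2) :=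
  PowerSeries.HasSubst.of_constantCoeff_zero (by simp)

/-- The substitution `x ↦ x y`. -/
noncomputable def σ : PowerSeries ℚ →+* M2 := (PowerSeries.substAlgHom hs).toRingHom

theorem σ_X : σ PowerSeries.X = X 0 * X 1 := PowerSeries.substAlgHom_X hs

theorem σ_C (c : ℚ) : σ (PowerSeries.C c) = C c := (PowerSeries.substAlgHom hs).commutes c

theorem coeff_σ (f : PowerSeries ℚ) (m : Fin 2 →₀ ℕ) :
    coeff m (σ f) = if m 0 = m 1 then PowerSeries.coeff (m 0) f else 0 := by
  have e : σ f = PowerSeries.subst (X 0 * X 1 : M2) f :=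
    congrFun (PowerSeries.coe_substAlgHom hs) f
  have hp : ∀ d : ℕ, coeff m ((X 0 * X 1 : M2) ^ d) = if m = dg d then 1 else 0 := by
    intro d
    rw [mul_pow, X_pow_eq, X_pow_eq, monomial_mul_monomial, coeff_monomial, one_mul]
    rfl
  rw [e, PowerSeries.coeff_subst hs, finsum_eq_single _ (m 0)]
  · rw [hp]
    by_cases h : m 0 = m 1
    · rw [if_pos h, if_pos (ext2 (by simp) (by simp [h]))]; simp
    · rw [if_neg h, if_neg (fun e => h (by rw [e]; simp))]; simp
  · intro d hd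
    rw [hp, if_neg (fun e => hd (by rw [e]; simp))]; simp

def Ge (ε k : ℤ) (R : M2) : Prop := ∀ m : Fin 2 →₀ ℕ, ε * ((m 1 : ℤ) - m 0) < k → coeff m R = 0

theorem Ge.add {ε k : ℤ} {R S : M2} (h1 : Ge ε k R) (h2 : Ge ε k S) : Ge ε k (R + S) :=
  fun m hm => by rw [map_add, h1 m hm, h2 m hm, add_zero]

theorem Ge.neg {ε k : ℤ} {R : M2} (h1 : Ge ε k R) : Ge ε k (-R) :=
  fun m hm => by rw [map_neg, h1 m hm, neg_zero]

theorem Ge.mono {ε k l : ℤ} {R : M2} (h1 : Ge ε k R) (h : l ≤ k) : Ge ε l R :=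
  fun m hm => h1 m (by omega)

theorem Ge.mul {ε k l : ℤ} {R S : M2} (h1 : Ge ε k R) (h2 : Ge ε l S) : Ge ε (k + l) (R * S) := by
  intro m hm
  rw [coeff_mul]
  refine Finset.sum_eq_zero fun p hp => ?_
  rw [Finset.HasAntidiagonal.mem_antidiagonal] at hp
  subst hp
  simp only [Finsupp.add_apply, Nat.cast_add] at hm
  by_cases h : ε * ((p.1 1 : ℤ) - p.1 0) < k
  · rw [h1 _ h, zero_mul]
  · rw [h2 _ (by linarith), mul_zero]

theorem Ge_σ (ε : ℤ) (f : PowerSeries ℚ) : Ge ε 0 (σ f) := by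
  intro m hm
  rw [coeff_σ, if_neg]
  intro h
  simp [h] at hm

theorem Ge_one (ε : ℤ) : Ge ε 0 1 := by simpa using Ge_σ ε 1

theorem Ge_X1 (ε : ℤ) : Ge ε ε (X 1) := by
  intro m hm
  rw [coeff_X, if_neg]
  rintro rfl
  simp at hm

theorem Ge_X0 : Ge (-1) 1 (X 0) := by
  intro m hm
  rw [coeff_X, if_neg]
  rintro rfl
  simp at hm

theorem Ge.inv {ε : ℤ} {u v : M2} (hu : Ge ε 0 u) (h : u * v = 1) : Ge ε 0 v := by
  have h0 : coeff 0 u ≠ 0 := by
    intro e
    have := congrArg constantCoeff h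
    rw [map_mul, ← coeff_zero_eq_constantCoeff_apply u, e] at this
    simp at this
  intro m
  induction m using WellFoundedLT.induction with
  | ind m ih =>
    intro hm
    have hm0 : m ≠ 0 := by rintro rfl; simp at hm
    have e := congrArg (coeff m) h
    rw [coeff_mul, coeff_one, if_neg hm0, Finset.sum_eq_single (0, m)] at e
    · exact (mul_eq_zero.1 e).resolve_left h0
    · intro p hp hne
      rw [Finset.HasAntidiagonal.mem_antidiagonal] at hp
      by_cases h1 : ε * ((p.1 1 : ℤ) - p.1 0) < 0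
      · rw [hu _ h1, zero_mul]
      · have hlt : p.2 < m := by
          refine lt_of_le_of_ne (hp ▸ le_add_self) fun e => hne ?_
          have : p.1 = 0 := by rw [e] at hp; simpa using hp
          exact Prod.ext this e
        rw [ih _ hlt, mul_zero]
        subst hp
        simp only [Finsupp.add_apply, Nat.cast_add] at hm
        linarith
    · simp

theorem Ge.diag {ε : ℤ} {R : M2} (h : Ge ε 1 R) (n : ℕ) : coeff (dg n) R = 0 :=
  h _ (by simp)

noncomputable def Ψ : Polynomial (PowerSeries ℚ) →+* M2 := Polynomial.eval₂RingHom σ (X 1)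

@[simp] theorem Ψ_C (f : PowerSeries ℚ) : Ψ (Polynomial.C f) = σ f := by simp [Ψ]
@[simp] theorem Ψ_X : Ψ Polynomial.X = X 1 := by simp [Ψ]

theorem Ge_Ψ (q : Polynomial (PowerSeries ℚ)) : Ge 1 0 (Ψ q) := by
  induction q using Polynomial.induction_on with
  | C a => rw [Ψ_C]; exact Ge_σ _ _
  | add p q hp hq => rw [map_add]; exact hp.add hq
  | monomial n a ih =>
    rw [pow_succ, ← mul_assoc, map_mul, Ψ_X]
    exact (ih.mul (Ge_X1 1)).mono (by norm_num)

def IsPoly (R : M2) : Prop := ∃ p : MvPolynomial (Fin 2) ℚ, (p : M2) = R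

theorem IsPoly.add {R S : M2} (h1 : IsPoly R) (h2 : IsPoly S) : IsPoly (R + S) := by
  obtain ⟨p, rfl⟩ := h1
  obtain ⟨q, rfl⟩ := h2
  exact ⟨p + q, MvPolynomial.coe_add _ _⟩

theorem IsPoly.mul {R S : M2} (h1 : IsPoly R) (h2 : IsPoly S) : IsPoly (R * S) := by
  obtain ⟨p, rfl⟩ := h1
  obtain ⟨q, rfl⟩ := h2
  exact ⟨p * q, MvPolynomial.coe_mul _ _⟩

theorem isPoly_X (i : Fin 2) : IsPoly (X i) := ⟨MvPolynomial.X i, MvPolynomial.coe_X i⟩
theorem isPoly_C (c : ℚ) : IsPoly (C c) := ⟨MvPolynomial.C c, MvPolynomial.coe_C c⟩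
theorem isPoly_one : IsPoly 1 := by simpa using isPoly_C 1

theorem isPoly_σ (r : Polynomial ℚ) : IsPoly (σ (r : PowerSeries ℚ)) := by
  induction r using Polynomial.induction_on with
  | C a => rw [Polynomial.coe_C, σ_C]; exact isPoly_C a
  | add p q hp hq => rw [Polynomial.coe_add, map_add]; exact hp.add hq
  | monomial n a ih =>
    rw [pow_succ, ← mul_assoc, Polynomial.coe_mul, map_mul, Polynomial.coe_X, σ_X]
    exact ih.mul ((isPoly_X 0).mul (isPoly_X 1))

noncomputable abbrev ι : Polynomial ℚ →+* PowerSeries ℚ := Polynomial.coeToPowerSeries.ringHom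

theorem isPoly_Ψ (q : Polynomial (Polynomial ℚ)) : IsPoly (Ψ (q.map ι)) := by
  induction q using Polynomial.induction_on with
  | C a => rw [Polynomial.map_C, Ψ_C]; exact isPoly_σ a
  | add p q hp hq => rw [Polynomial.map_add, map_add]; exact hp.add hq
  | monomial n a ih =>
    rw [pow_succ, ← mul_assoc, Polynomial.map_mul, map_mul, Polynomial.map_X, Ψ_X]
    exact ih.mul (isPoly_X 1)

def IsRat (R : M2) : Prop := ∃ Q : M2, IsPoly Q ∧ constantCoeff Q ≠ 0 ∧ IsPoly (R * Q)

theorem IsPoly.isRat {R : M2} (h : IsPoly R) : IsRat R :=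
  ⟨1, isPoly_one, by simp, by simpa using h⟩

theorem IsRat.add {R S : M2} (h1 : IsRat R) (h2 : IsRat S) : IsRat (R + S) := by
  obtain ⟨P, p1, p2, p3⟩ := h1
  obtain ⟨Q, q1, q2, q3⟩ := h2
  refine ⟨P * Q, p1.mul q1, by simp [p2, q2], ?_⟩
  rw [show (R + S) * (P * Q) = R * P * Q + S * Q * P by ring]
  exact (p3.mul q1).add (q3.mul p1)

theorem IsRat.mul {R S : M2} (h1 : IsRat R) (h2 : IsRat S) : IsRat (R * S) := by
  obtain ⟨P, p1, p2, p3⟩ := h1
  obtain ⟨Q, q1, q2, q3⟩ := h2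
  refine ⟨P * Q, p1.mul q1, by simp [p2, q2], ?_⟩
  rw [show (R * S) * (P * Q) = (R * P) * (S * Q) by ring]
  exact p3.mul q3

theorem cc_σ (f : PowerSeries ℚ) : constantCoeff (σ f) = PowerSeries.constantCoeff f := by
  rw [← coeff_zero_eq_constantCoeff_apply, coeff_σ]
  simp

/-- Furstenberg's construction in the unramified case. -/
theorem furst (a w : Polynomial ℚ) (k : Polynomial (Polynomial ℚ)) (g : PowerSeries ℚ)
    (hw : w.coeff 0 ≠ 0)
    (h : ((Polynomial.C a + Polynomial.C w * Polynomial.X + k * Polynomial.X ^ 2).map ι).eval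
      (PowerSeries.X * g) = 0) :
    ∃ A B : M2, Ge 1 1 A ∧ Ge (-1) 1 B ∧ IsRat (σ (PowerSeries.X * g) + A + B) := by
  set Q := Polynomial.C a + Polynomial.C w * Polynomial.X + k * Polynomial.X ^ 2 with hQ
  obtain ⟨u, hu⟩ := Polynomial.dvd_iff_isRoot.2 h
  have ha : a.coeff 0 = 0 := by
    have := congrArg PowerSeries.constantCoeff h
    rw [← PowerSeries.coeff_zero_eq_constantCoeff_apply] at this
    simpa [hQ, pow_two] using this
  obtain ⟨r, hr⟩ := Polynomial.X_dvd_iff.2 ha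
  set T : M2 := X 0 * σ g with hT
  have e1 : Ψ (Polynomial.X - Polynomial.C (PowerSeries.X * g)) = X 1 * (1 - T) := by
    rw [map_sub, Ψ_X, Ψ_C, map_mul, σ_X, hT]; ring
  have e2 : Ψ (Q.map ι) = X 1 * (X 0 * σ (r : PowerSeries ℚ) + σ (w : PowerSeries ℚ) +
      Ψ (k.map ι) * X 1) := by
    simp only [hQ, hr, Polynomial.map_add, Polynomial.map_mul, Polynomial.map_pow, Polynomial.map_C,
      Polynomial.map_X, map_add, map_mul, map_pow, Ψ_C, Ψ_X,
      Polynomial.coeToPowerSeries.ringHom_apply, Polynomial.coe_X, σ_X]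
    ring
  have hX : (X 1 : M2) ≠ 0 := fun e => by
    have := congrArg (coeff (Finsupp.single 1 1)) e
    simp [coeff_X] at this
  have e3 : (1 - T) * Ψ u = X 0 * σ (r : PowerSeries ℚ) + σ (w : PowerSeries ℚ) +
      Ψ (k.map ι) * X 1 := by
    apply mul_left_cancel₀ hX
    rw [← e2, hu, map_mul, e1]; ring
  have c0 : constantCoeff ((1 - T) * Ψ u) ≠ 0 := by
    rw [e3]
    simpa [cc_σ] using hw
  have c1 : constantCoeff (1 - T) ≠ 0 := fun e => c0 (by rw [map_mul, e, zero_mul])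
  have c2 : constantCoeff (Ψ u) ≠ 0 := fun e => c0 (by rw [map_mul, e, mul_zero])
  have i1 := MvPowerSeries.mul_inv_cancel _ c1
  have i2 := MvPowerSeries.mul_inv_cancel _ c2
  have gT : Ge (-1) 1 T := by simpa using Ge_X0.mul (Ge_σ (-1) g)
  have gS : Ge (-1) 0 (1 - T)⁻¹ := by
    refine Ge.inv ?_ i1
    rw [sub_eq_add_neg]
    exact (Ge_one _).add (gT.neg.mono (by norm_num))
  have gv : Ge 1 0 (Ψ u)⁻¹ := (Ge_Ψ u).inv i2
  have e4 : Ψ ((Polynomial.derivative Q).map ι) =
      Ψ u + X 1 * (1 - T) * Ψ (Polynomial.derivative u) := by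
    rw [← Polynomial.derivative_map, hu, Polynomial.derivative_mul, map_add, Ψ.map_mul, Ψ.map_mul,
      e1, Polynomial.derivative_X_sub_C, map_one, one_mul]
  refine ⟨X 1 + X 1 * X 1 * Ψ (Polynomial.derivative u) * (Ψ u)⁻¹, X 1 * T * T * (1 - T)⁻¹,
    (Ge_X1 1).add (((((Ge_X1 1).mul (Ge_X1 1)).mul (Ge_Ψ _)).mul gv).mono (by norm_num)),
    ((((Ge_X1 (-1)).mul gT).mul gT).mul gS).mono (by norm_num), (1 - T) * Ψ u, ?_, c0, ?_⟩
  · rw [e3]
    exact (((isPoly_X 0).mul (isPoly_σ r)).add (isPoly_σ w)).add ((isPoly_Ψ k).mul (isPoly_X 1))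
  · have e5 : σ (PowerSeries.X * g) = X 1 * T := by rw [map_mul, σ_X, hT]; ring
    have : (σ (PowerSeries.X * g) + (X 1 + X 1 * X 1 * Ψ (Polynomial.derivative u) * (Ψ u)⁻¹) +
        X 1 * T * T * (1 - T)⁻¹) * ((1 - T) * Ψ u) = X 1 * Ψ ((Polynomial.derivative Q).map ι) := by
      rw [e4, e5]
      linear_combination (X 1 * T * T * Ψ u) * i1 +
        (X 1 * X 1 * Ψ (Polynomial.derivative u) * (1 - T)) * i2
    rw [this]
    exact (isPoly_X 1).mul (isPoly_Ψ _)

theorem exists_simple (F : PowerSeries ℚ) (p : Polynomial (Polynomial ℚ)) (hp : p ≠ 0)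
    (h : Polynomial.eval₂ ι F p = 0) :
    ∃ q : Polynomial (Polynomial ℚ), Polynomial.eval₂ ι F q = 0 ∧
      Polynomial.eval₂ ι F (Polynomial.derivative q) ≠ 0 := by
  induction hn : p.natDegree using Nat.strong_induction_on generalizing p with
  | _ n ih =>
    by_cases h1 : Polynomial.eval₂ ι F (Polynomial.derivative p) = 0
    · have h0 : p.natDegree ≠ 0 := by
        intro e
        rw [Polynomial.eq_C_of_natDegree_eq_zero e, Polynomial.eval₂_C] at h
        apply hp
        have h' : p.coeff 0 = 0 := Polynomial.coe_eq_zero_iff.1 h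
        rw [Polynomial.eq_C_of_natDegree_eq_zero e, h', map_zero]
      refine ih _ (hn ▸ Polynomial.natDegree_derivative_lt h0) _ (fun e => h0 ?_) h1 rfl
      exact Polynomial.derivative_eq_zero.1 e
    · exact ⟨p, h, h1⟩

theorem diag_rat (F : PowerSeries ℚ) (p : Polynomial (Polynomial ℚ)) (hp : p ≠ 0)
    (h : Polynomial.eval₂ ι F p = 0) :
    ∃ R : M2, IsRat R ∧ ∀ n, coeff (dg n) R = PowerSeries.coeff n F := by
  obtain ⟨q, h0, h1⟩ := exists_simple F p hp h
  set N := (Polynomial.eval₂ ι F (Polynomial.derivative q)).order.toNat with hN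
  set U := PowerSeries.trunc (N + 1) F with hU
  obtain ⟨g, hg⟩ : ∃ g, F = (U : PowerSeries ℚ) + PowerSeries.X ^ (N + 1) * g :=
    ⟨_, by rw [add_comm]; exact PowerSeries.eq_X_pow_mul_shift_add_trunc (N + 1) F⟩
  have ev : ∀ s : Polynomial (Polynomial ℚ), ((s.eval U : Polynomial ℚ) : PowerSeries ℚ) =
      (s.map ι).eval (U : PowerSeries ℚ) := fun s => by
    rw [Polynomial.eval_map]
    exact (Polynomial.eval₂_at_apply ι U).symm
  have d1 : PowerSeries.X ^ (N + 1) ∣ Polynomial.eval₂ ι F (Polynomial.derivative q) -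
      (((Polynomial.derivative q).eval U : Polynomial ℚ) : PowerSeries ℚ) := by
    rw [ev, ← Polynomial.eval_map]
    refine dvd_trans ⟨g, ?_⟩ (Polynomial.sub_dvd_eval_sub F (U : PowerSeries ℚ) _)
    rw [sub_eq_iff_eq_add, add_comm]; exact hg
  have cf : ∀ m ≤ N, ((Polynomial.derivative q).eval U).coeff m =
      PowerSeries.coeff m (Polynomial.eval₂ ι F (Polynomial.derivative q)) := by
    intro m hm
    have := PowerSeries.X_pow_dvd_iff.1 d1 m (by omega)
    rw [map_sub, Polynomial.coeff_coe] at this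
    exact (sub_eq_zero.1 this).symm
  obtain ⟨w, hw⟩ : Polynomial.X ^ N ∣ (Polynomial.derivative q).eval U :=
    Polynomial.X_pow_dvd_iff.2 fun m hm => by
      rw [cf m hm.le]
      exact PowerSeries.coeff_of_lt_order_toNat m hm
  have hw0 : w.coeff 0 ≠ 0 := by
    have := cf N le_rfl
    rw [hw, Polynomial.coeff_X_pow_mul', if_pos le_rfl, Nat.sub_self] at this
    rw [this]
    exact PowerSeries.coeff_order h1
  obtain ⟨k, hk⟩ := (q.map Polynomial.C).binomExpansion (Polynomial.C U)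
    (Polynomial.C (Polynomial.X ^ N) * Polynomial.X)
  rw [Polynomial.derivative_map, Polynomial.eval_map_apply, Polynomial.eval_map_apply, hw] at hk
  let E : Polynomial (Polynomial ℚ) →+* PowerSeries ℚ :=
    Polynomial.eval₂RingHom ι (PowerSeries.X * g)
  have hE := congrArg E hk
  have l1 : E (Polynomial.eval (Polynomial.C U + Polynomial.C (Polynomial.X ^ N) * Polynomial.X)
      (q.map Polynomial.C)) = 0 := by
    rw [Polynomial.eval_map, Polynomial.hom_eval₂]
    have a1 : E.comp Polynomial.C = ι := RingHom.ext fun x => by simp [E]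
    have a2 : E (Polynomial.C U + Polynomial.C (Polynomial.X ^ N) * Polynomial.X) = F := by
      rw [hg]
      simp only [map_add, map_mul, map_pow, E, Polynomial.coe_eval₂RingHom, Polynomial.eval₂_C,
        Polynomial.eval₂_X, Polynomial.coeToPowerSeries.ringHom_apply, Polynomial.coe_X]
      ring
    rw [a1, a2, h0]
  rw [l1] at hE
  simp only [map_add, map_mul, map_pow, E, Polynomial.coe_eval₂RingHom, Polynomial.eval₂_C,
    Polynomial.eval₂_X, Polynomial.coeToPowerSeries.ringHom_apply, Polynomial.coe_X] at hE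
  obtain ⟨a, ha⟩ : Polynomial.X ^ (2 * N) ∣ q.eval U := by
    rw [Polynomial.X_pow_dvd_iff]
    intro m hm
    rw [← Polynomial.coeff_coe]
    refine PowerSeries.X_pow_dvd_iff.1 ⟨-((w : PowerSeries ℚ) * (PowerSeries.X * g) +
      Polynomial.eval₂ ι (PowerSeries.X * g) k * (PowerSeries.X * g) ^ 2), ?_⟩ m hm
    linear_combination -hE
  obtain ⟨A, B, hA, hB, hR⟩ := furst a w k g hw0 (by
    rw [ha, Polynomial.coe_mul, Polynomial.coe_pow, Polynomial.coe_X] at hE
    apply mul_left_cancel₀ (pow_ne_zero (2 * N) (PowerSeries.X_ne_zero (R := ℚ)))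
    rw [Polynomial.eval_map]
    simp only [Polynomial.eval₂_add, Polynomial.eval₂_mul, Polynomial.eval₂_pow,
      Polynomial.eval₂_C, Polynomial.eval₂_X, Polynomial.coeToPowerSeries.ringHom_apply]
    linear_combination -hE)
  refine ⟨σ (U : PowerSeries ℚ) + σ (PowerSeries.X ^ N) * (σ (PowerSeries.X * g) + A + B),
    (isPoly_σ U).isRat.add (IsRat.mul ?_ hR), fun n => ?_⟩
  · have := (isPoly_σ (Polynomial.X ^ N)).isRat
    rwa [Polynomial.coe_pow, Polynomial.coe_X] at this
  · have e : σ (U : PowerSeries ℚ) + σ (PowerSeries.X ^ N) * (σ (PowerSeries.X * g) + A + B) =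
        σ F + σ (PowerSeries.X ^ N) * A + σ (PowerSeries.X ^ N) * B := by
      conv_rhs => rw [hg]
      simp only [map_add, map_mul, map_pow]
      ring
    rw [e, map_add, map_add, (((Ge_σ 1 _).mul hA).mono (by norm_num)).diag,
      (((Ge_σ (-1) _).mul hB).mono (by norm_num)).diag, coeff_σ]
    simp

end Pool.Agent.H3.Furstenberg
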