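import Mathlib

/-! A Grace-Walsh-Szego coincidence theorem for the half plane `Re z < -κ`. -/

namespace Pool.Agent.H3.GWS

open Polynomial Finset

lemma key_pos (κ : ℝ) (z ζ r : ℂ) (hz : z.re < -κ) (hζ : ζ.re < -κ) (hr : -κ ≤ r.re) :
    0 < (((starRingEnd ℂ) (-κ - ζ) + (-κ - z)) * ((ζ - r) / (z - r))).re := by
  have hb : (z - r).re < 0 := by simp; linarith
  have hne : z - r ≠ 0 := fun h => by rw [h] at hb; simp at hb
  have hn : 0 < Complex.normSq (z - r) := Complex.normSq_pos.2 hne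
  rw [← mul_div_assoc, Complex.div_re]
  rw [← add_div]
  apply div_pos _ hn
  simp only [Complex.mul_re, Complex.mul_im, Complex.add_re, Complex.add_im, Complex.conj_re,
    Complex.conj_im, Complex.sub_re, Complex.sub_im, Complex.neg_re, Complex.neg_im,
    Complex.ofReal_re, Complex.ofReal_im]
  obtain ⟨a, ha⟩ : ∃ a, a = -κ - ζ.re := ⟨_, rfl⟩
  obtain ⟨x, hx⟩ : ∃ x, x = -κ - z.re := ⟨_, rfl⟩
  obtain ⟨s, hs⟩ : ∃ s, s = r.re + κ := ⟨_, rfl⟩
  have e1 : ζ.re = -κ - a := by linarith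
  have e2 : z.re = -κ - x := by linarith
  have e3 : r.re = s - κ := by linarith
  have ha0 : 0 < a := by linarith
  have hx0 : 0 < x := by linarith
  have hs0 : 0 ≤ s := by linarith
  rw [e1, e2, e3]
  have h1 : 0 ≤ x * ((a + s) ^ 2 + (ζ.im - r.im) ^ 2) := by positivity
  have h2 : 0 < a * ((x + s) ^ 2 + (z.im - r.im) ^ 2) := by positivity
  have h3 : 0 ≤ s * ((a - x) ^ 2 + (ζ.im - z.im) ^ 2) := by positivity
  nlinarith [h1, h2, h3]

lemma laguerre (κ : ℝ) (p : ℂ[X]) (n : ℕ) (hn : 0 < n) (hd : p.natDegree ≤ n)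
    (hp : ∀ z : ℂ, z.re < -κ → p.eval z ≠ 0) (z ζ : ℂ) (hz : z.re < -κ) (hζ : ζ.re < -κ) :
    (n : ℂ) * p.eval z + (ζ - z) * p.derivative.eval z ≠ 0 := by
  have hs : p.Splits := IsAlgClosed.splits p
  have hpz := hp z hz
  have hp0 : p ≠ 0 := fun h => by rw [h] at hpz; simp at hpz
  rw [hs.eval_derivative_eq_eval_mul_sum hpz]
  have hroot : ∀ r ∈ p.roots, -κ ≤ r.re := by
    intro r hr
    by_contra h
    push Not at h
    exact hp r h ((mem_roots hp0).1 hr)
  set u : ℂ := (starRingEnd ℂ) (-κ - ζ) + (-κ - z) with hu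
  have hure : 0 < u.re := by simp [hu]; linarith
  have main : ∀ m : Multiset ℂ, (∀ r ∈ m, -κ ≤ r.re) →
      0 ≤ (u * ((m.card : ℂ) + (ζ - z) * (m.map fun r => 1 / (z - r)).sum)).re ∧
      (m ≠ 0 → 0 < (u * ((m.card : ℂ) + (ζ - z) * (m.map fun r => 1 / (z - r)).sum)).re) := by
    intro m
    induction m using Multiset.induction_on with
    | empty => intro _; simp
    | cons r m ih =>
      intro h
      have hr := h r (Multiset.mem_cons_self _ _)
      have ih' := (ih fun x hx => h x (Multiset.mem_cons_of_mem hx)).1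
      have hb : (z - r).re < 0 := by simp; linarith
      have hne : z - r ≠ 0 := fun h => by rw [h] at hb; simp at hb
      have hk := key_pos κ z ζ r hz hζ hr
      have e : u * ((((r ::ₘ m).card : ℕ) : ℂ) + (ζ - z) * ((r ::ₘ m).map fun r => 1 / (z - r)).sum)
          = u * ((ζ - r) / (z - r)) +
            u * ((m.card : ℂ) + (ζ - z) * (m.map fun r => 1 / (z - r)).sum) := by
        simp only [Multiset.card_cons, Multiset.map_cons, Multiset.sum_cons]
        push_cast
        field_simp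
        ring
      rw [e, Complex.add_re]
      constructor
      · linarith
      · intro _; linarith
  have hcard : p.roots.card ≤ n := (card_roots' p).trans hd
  obtain ⟨h1, h2⟩ := main p.roots hroot
  intro h0
  have h3 : (n : ℂ) + (ζ - z) * (p.roots.map fun r => 1 / (z - r)).sum = 0 := by
    apply mul_left_cancel₀ hpz
    linear_combination h0
  have h4 : u * ((p.roots.card : ℂ) + (ζ - z) * (p.roots.map fun r => 1 / (z - r)).sum)
      = -(u * (((n : ℝ) - (p.roots.card : ℝ) : ℝ) : ℂ)) := by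
    push_cast
    linear_combination u * h3
  rw [h4] at h1 h2
  simp only [Complex.neg_re, Complex.mul_re, Complex.ofReal_re, Complex.ofReal_im, mul_zero,
    sub_zero] at h1 h2
  have hc : (p.roots.card : ℝ) ≤ n := by exact_mod_cast hcard
  by_cases hm : p.roots = 0
  · rw [hm] at h1
    simp only [Multiset.card_zero, Nat.cast_zero, sub_zero] at h1
    have : (0 : ℝ) < n := by exact_mod_cast hn
    nlinarith
  · have := h2 hm
    nlinarith

/-- `Q k c = ∑ j, C(k,j) c_j X^j`. -/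
noncomputable def Q : ℕ → (ℕ → ℂ) → ℂ[X]
  | 0, c => C (c 0)
  | k + 1, c => Q k c + X * Q k (fun j => c (j + 1))

lemma Q_deg : ∀ (k : ℕ) (c : ℕ → ℂ), (Q k c).natDegree ≤ k
  | 0, c => by simp [Q]
  | k + 1, c => by
    rw [Q]
    refine (natDegree_add_le _ _).trans (max_le ((Q_deg k c).trans (by omega)) ?_)
    refine natDegree_mul_le.trans ?_
    have := Q_deg k (fun j => c (j + 1))
    have h2 : (X : ℂ[X]).natDegree ≤ 1 := natDegree_X_le
    omega

lemma Q_der : ∀ (k : ℕ) (c : ℕ → ℂ),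
    derivative (Q (k + 1) c) = ((k : ℂ[X]) + 1) * Q k (fun j => c (j + 1))
  | 0, c => by simp [Q]
  | k + 1, c => by
    have h1 := Q_der k c
    have h2 := Q_der k (fun j => c (j + 1))
    rw [show Q (k + 1 + 1) c = Q (k + 1) c + X * Q (k + 1) (fun j => c (j + 1)) from rfl]
    rw [derivative_add, derivative_mul, derivative_X, h1, h2]
    rw [show Q (k + 1) (fun j => c (j + 1)) =
      Q k (fun j => c (j + 1)) + X * Q k (fun j => c (j + 1 + 1)) from rfl]
    push_cast
    ring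

lemma Q_lin (ζ : ℂ) : ∀ (k : ℕ) (c : ℕ → ℂ),
    Q k (fun j => c j + ζ * c (j + 1)) = Q k c + C ζ * Q k (fun j => c (j + 1))
  | 0, c => by simp [Q]
  | k + 1, c => by
    have h1 := Q_lin ζ k c
    have h2 := Q_lin ζ k (fun j => c (j + 1))
    simp only [Q]
    rw [h1, h2]
    ring

lemma step (κ : ℝ) (k : ℕ) (c : ℕ → ℂ) (h : ∀ z : ℂ, z.re < -κ → (Q (k + 1) c).eval z ≠ 0)
    (ζ : ℂ) (hζ : ζ.re < -κ) (z : ℂ) (hz : z.re < -κ) :
    (Q k (fun j => c j + ζ * c (j + 1))).eval z ≠ 0 := by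
  have hl := laguerre κ (Q (k + 1) c) (k + 1) (by omega) (Q_deg _ _) h z ζ hz hζ
  rw [Q_der] at hl
  rw [Q_lin]
  intro h0
  apply hl
  simp only [Q, eval_add, eval_mul, eval_X, eval_C, eval_natCast, eval_one] at h0 ⊢
  push_cast
  linear_combination ((k : ℂ) + 1) * h0

lemma sum_insert_pow {ι : Type*} [DecidableEq ι] (W : ι → ℂ) (c : ℕ → ℂ) (a : ι) (s : Finset ι)
    (ha : a ∉ s) :
    ∑ J ∈ (insert a s).powerset, c J.card * ∏ i ∈ J, W i =
      ∑ J ∈ s.powerset, (c J.card + W a * c (J.card + 1)) * ∏ i ∈ J, W i := by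
  rw [Finset.sum_powerset_insert ha, ← Finset.sum_add_distrib]
  refine Finset.sum_congr rfl fun J hJ => ?_
  have : a ∉ J := fun h => ha (mem_powerset.1 hJ h)
  rw [card_insert_of_notMem this, prod_insert this]
  ring

theorem gws {ι : Type*} [DecidableEq ι] (κ : ℝ) (W : ι → ℂ) (s : Finset ι) :
    ∀ c : ℕ → ℂ, (∀ z : ℂ, z.re < -κ → (Q s.card c).eval z ≠ 0) → (∀ i ∈ s, (W i).re < -κ) →
      ∑ J ∈ s.powerset, c J.card * ∏ i ∈ J, W i ≠ 0 := by
  induction s using Finset.induction_on with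
  | empty =>
    intro c h _
    have := h ((-κ - 1 : ℝ) : ℂ) (by simp)
    simpa [Q] using this
  | insert a s ha ih =>
    intro c h hW
    rw [sum_insert_pow W c a s ha]
    rw [card_insert_of_notMem ha] at h
    exact ih (fun j => c j + W a * c (j + 1))
      (step κ _ c h (W a) (hW a (mem_insert_self _ _))) fun i hi => hW i (mem_insert_of_mem hi)

lemma Q_eval {ι : Type*} [DecidableEq ι] (z : ℂ) (s : Finset ι) :
    ∀ c : ℕ → ℂ, (Q s.card c).eval z = ∑ J ∈ s.powerset, c J.card * ∏ _i ∈ J, z := by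
  induction s using Finset.induction_on with
  | empty => intro c; simp [Q]
  | insert a s ha ih =>
    intro c
    rw [sum_insert_pow (fun _ => z) c a s ha, card_insert_of_notMem ha,
      ← ih (fun j => c j + z * c (j + 1)), Q_lin]
    simp [Q]

/-- Coincidence theorem in subset form. -/
theorem gws' {ι : Type*} [DecidableEq ι] (κ : ℝ) (W : ι → ℂ) (s : Finset ι) (c : ℕ → ℂ)
    (h : ∀ z : ℂ, z.re < -κ →
      ∑ m ∈ range (s.card + 1), (s.card.choose m : ℂ) * (c m * z ^ m) ≠ 0)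
    (hW : ∀ i ∈ s, (W i).re < -κ) :
    ∑ J ∈ s.powerset, c J.card * ∏ i ∈ J, W i ≠ 0 := by
  refine gws κ W s c (fun z hz => ?_) hW
  rw [Q_eval]
  simp only [prod_const]
  rw [Finset.sum_powerset_apply_card (fun m => c m * z ^ m)]
  simpa [nsmul_eq_mul] using h z hz

lemma sum_const_eval {ι : Type*} [DecidableEq ι] (z : ℂ) (s : Finset ι) (c : ℕ → ℂ) :
    ∑ J ∈ s.powerset, c J.card * ∏ _i ∈ J, z =
      ∑ m ∈ range (s.card + 1), (s.card.choose m : ℂ) * (c m * z ^ m) := by
  simp only [prod_const]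
  rw [Finset.sum_powerset_apply_card (fun m => c m * z ^ m)]
  simp [nsmul_eq_mul]

end Pool.Agent.H3.GWS
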