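import Mathlib
import Pool.Agent.H87.BU

namespace Pool.Agent.H3.Gale

open Finset Polynomial

lemma alt0 (p : ℝ[X]) (hp : p.natDegree ≤ 0) (s t : ℝ) (h0 : p.eval s ≤ 0)
    (h1 : -p.eval t ≤ 0) : p = 0 := by
  rw [eq_C_of_natDegree_le_zero hp] at h0 h1 ⊢
  simp only [eval_C] at h0 h1
  rw [le_antisymm h0 (by linarith), map_zero]

lemma alt (j : ℕ) : ∀ (p : ℝ[X]) (t : ℕ → ℝ), p.natDegree ≤ j → (∀ i ≤ j, t i < t (i + 1)) →
    (∀ i ≤ j + 1, (-1) ^ i * p.eval (t i) ≤ 0) → p = 0 := by
  induction j with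
  | zero =>
    intro p t hp _ h
    exact alt0 p hp (t 0) (t 1) (by simpa using h 0 (by omega)) (by simpa using h 1 (by omega))
  | succ j ih =>
    intro p t hp ht h
    have key : ∀ i, ∃ y : ℝ, i ≤ j + 1 →
        t i < y ∧ y < t (i + 1) ∧ (-1) ^ i * (-p.derivative).eval y ≤ 0 := by
      intro i
      by_cases hi : i ≤ j + 1
      · obtain ⟨y, hy, hs⟩ := exists_deriv_eq_slope (fun x => p.eval x) (ht i hi)
          p.continuous.continuousOn p.differentiable.differentiableOn
        refine ⟨y, fun _ => ⟨hy.1, hy.2, ?_⟩⟩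
        rw [Polynomial.deriv] at hs
        have h1 := h i (by omega)
        have h2 := h (i + 1) (by omega)
        have h3 : 0 < t (i + 1) - t i := sub_pos.2 (ht i hi)
        rw [eval_neg, hs, ← neg_div, ← mul_div_assoc]
        refine div_nonpos_of_nonpos_of_nonneg ?_ h3.le
        rw [pow_succ] at h2
        linarith
      · exact ⟨0, fun h => absurd h hi⟩
    choose y hy using key
    have hd := ih (-p.derivative) y
      (by rw [natDegree_neg]; have := natDegree_derivative_le p; omega)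
      (fun i hi => (hy i (by omega)).2.1.trans (hy (i + 1) (by omega)).1)
      (fun i hi => (hy i hi).2.2)
    have h0 : p.natDegree = 0 := derivative_eq_zero.1 (neg_eq_zero.1 hd)
    exact alt0 p h0.le (t 0) (t 1) (by simpa using h 0 (by omega)) (by simpa using h 1 (by omega))

lemma greedy (P : ℕ → Prop) [DecidablePred P] (N : ℕ) : ∃ (len : ℕ) (t : ℕ → ℕ),
    (∀ i, i + 1 < len → t i < t (i + 1)) ∧
    (∀ i < len, t i < N ∧ ¬ P (t i) ∧ (t i + i) % 2 = 0) ∧
    N + (len + N) % 2 ≤ len + 2 * ((range N).filter P).card := by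
  induction N with
  | zero => exact ⟨0, fun _ => 0, by omega, by omega, by simp⟩
  | succ N ih =>
    obtain ⟨len, t, h1, h2, h3⟩ := ih
    rw [range_add_one, filter_insert]
    by_cases hP : P N
    · rw [if_pos hP, card_insert_of_notMem (by simp)]
      exact ⟨len, t, h1, fun i hi => ⟨by have := (h2 i hi).1; omega, (h2 i hi).2⟩, by omega⟩
    · rw [if_neg hP]
      by_cases hpar : (len + N) % 2 = 0
      · refine ⟨len + 1, fun i => if i = len then N else t i, fun i hi => ?_, fun i hi => ?_,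
          by omega⟩
        · have e1 : i ≠ len := by omega
          simp only [e1, if_false]
          by_cases e2 : i + 1 = len
          · simp only [e2, if_true]; exact (h2 i (by omega)).1
          · simp only [e2, if_false]; exact h1 i (by omega)
        · by_cases e2 : i = len
          · simp only [e2, if_true]; exact ⟨by omega, hP, by omega⟩
          · simp only [e2, if_false]
            exact ⟨by have := (h2 i (by omega)).1; omega, (h2 i (by omega)).2⟩
      · exact ⟨len, t, h1, fun i hi => ⟨by have := (h2 i hi).1; omega, (h2 i hi).2⟩, by omega⟩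

noncomputable def ev {d : ℕ} (x : Fin d → ℝ) (t : ℕ) : ℝ := ∑ r, x r * ((-1) ^ t * (t : ℝ) ^ r.val)

noncomputable def PP {d : ℕ} (N : ℕ) (x : Fin d → ℝ) : Finset (Fin N) :=
  univ.filter fun t => 0 < ev x t.val

lemma ev_neg {d : ℕ} (x : Fin d → ℝ) (t : ℕ) : ev (-x) t = -ev x t := by
  simp [ev]

lemma gale (a j : ℕ) (x : Fin (j + 1) → ℝ) (hx : x ≠ 0) : a ≤ (PP (2 * a + j) x).card := by
  classical
  by_contra hlt
  obtain ⟨len, t, h1, h2, h3⟩ := greedy (fun t => 0 < ev x t) (2 * a + j)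
  have hc : ((range (2 * a + j)).filter fun t => 0 < ev x t).card ≤ (PP (2 * a + j) x).card := by
    rw [← card_map Fin.valEmbedding]
    refine card_le_card fun s hs => ?_
    rw [mem_filter, mem_range] at hs
    exact mem_map.2 ⟨⟨s, hs.1⟩, mem_filter.2 ⟨mem_univ _, hs.2⟩, rfl⟩
  let p : ℝ[X] := ∑ r : Fin (j + 1), monomial r.val (x r)
  have hp : p = 0 := by
    refine alt j p (fun i => t i) ?_ (fun i hi => by exact_mod_cast h1 i (by omega)) fun i hi => ?_
    · refine natDegree_sum_le_of_forall_le _ _ fun r _ => (natDegree_monomial_le _).trans ?_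
      omega
    · obtain ⟨-, h4, h5⟩ := h2 i (by omega)
      have e : (-1 : ℝ) ^ i = (-1) ^ (t i) := by
        rw [neg_one_pow_eq_pow_mod_two, neg_one_pow_eq_pow_mod_two (n := t i)]
        congr 1; omega
      have : (-1) ^ i * p.eval (t i : ℝ) = ev x (t i) := by
        simp only [p, ev, eval_finsetSum, eval_monomial, mul_sum, e]
        exact sum_congr rfl fun r _ => by ring
      rw [this]; exact not_lt.1 h4
  apply hx
  funext r
  have := congrArg (fun q => q.coeff r.val) hp
  simpa [p, finsetSum_coeff, coeff_monomial, Fin.val_inj] using this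

lemma vc (N d : ℕ) (𝒜 : Finset (Finset (Fin N))) (h : ∀ S ∈ 𝒜, ∃ x : Fin d → ℝ, S = PP N x) :
    𝒜.card ≤ ∑ i ∈ range (d + 1), N.choose i := by
  classical
  have hv : 𝒜.vcDim ≤ d := by
    refine Finset.sup_le fun s hs => ?_
    rw [mem_shatterer] at hs
    let w : Fin N → Fin d → ℝ := fun t r => (-1) ^ t.val * (t.val : ℝ) ^ r.val
    have key : ∀ g : Fin N → ℝ, ∑ i ∈ s, g i • w i = 0 → ∀ i ∈ s, g i ≤ 0 := by
      intro g hg i hi
      by_contra hpos
      obtain ⟨u, hu, hsu⟩ := hs (filter_subset (fun i => 0 < g i) s)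
      obtain ⟨x, rfl⟩ := h u hu
      have hm : ∀ t ∈ s, (0 < ev x t.val ↔ 0 < g t) := by
        intro t ht
        have := Finset.ext_iff.1 hsu t
        simpa [PP, ht] using this
      have e : ∑ t ∈ s, g t * ev x t.val = 0 := by
        simp only [ev, mul_sum]
        rw [sum_comm]
        refine sum_eq_zero fun r _ => ?_
        have := congrFun hg r
        simp only [Finset.sum_apply, Pi.smul_apply, smul_eq_mul, Pi.zero_apply, w] at this
        calc ∑ t ∈ s, g t * (x r * ((-1) ^ t.val * (t.val : ℝ) ^ r.val))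
            = x r * ∑ t ∈ s, g t * ((-1) ^ t.val * (t.val : ℝ) ^ r.val) := by
              rw [mul_sum]; exact sum_congr rfl fun t _ => by ring
          _ = 0 := by rw [this, mul_zero]
      refine (sum_pos' (fun t ht => ?_) ⟨i, hi, ?_⟩).ne' e
      · by_cases h0 : 0 < g t
        · exact (mul_pos h0 ((hm t ht).2 h0)).le
        · exact mul_nonneg_of_nonpos_of_nonpos (not_lt.1 h0) (not_lt.1 (mt (hm t ht).1 h0))
      · exact mul_pos (not_le.1 hpos) ((hm i hi).2 (not_le.1 hpos))
    have li : LinearIndepOn ℝ w (s : Set (Fin N)) := by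
      rw [linearIndepOn_finset_iff]
      intro g hg i hi
      have := key (-g) (by simp only [Pi.neg_apply, neg_smul, sum_neg_distrib, hg, neg_zero]) i hi
      exact le_antisymm (key g hg i hi) (by simpa using this)
    have := LinearIndependent.fintype_card_le_finrank li
    simpa using this
  refine (card_le_card_shatterer 𝒜).trans (card_shatterer_le_sum_vcDim.trans ?_)
  rw [Fintype.card_fin]
  refine sum_le_sum_of_subset fun i hi => ?_
  rw [mem_Iic] at hi
  exact mem_range.2 (by omega)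

lemma small_family (a j : ℕ) : ∃ F : Finset (Finset (Fin (2 * a + j))),
    (∀ A ∈ F, A.card = a) ∧ F.card ≤ ∑ i ∈ range (j + 2), (2 * a + j).choose i ∧
    ∀ c : Finset (Fin (2 * a + j)) → ℕ, (∀ A ∈ F, c A < j + 1) →
      ∃ A ∈ F, ∃ B ∈ F, Disjoint A B ∧ c A = c B := by
  classical
  have hsel : ∀ S : Finset (Fin (2 * a + j)), ∃ A, a ≤ S.card → A ⊆ S ∧ A.card = a := by
    intro S
    by_cases h : a ≤ S.card
    · obtain ⟨A, hA⟩ := exists_subset_card_eq h
      exact ⟨A, fun _ => hA⟩
    · exact ⟨∅, fun h' => absurd h' h⟩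
  choose sel hsel using hsel
  let 𝒜 : Finset (Finset (Fin (2 * a + j))) :=
    univ.filter fun S => ∃ x : Fin (j + 1) → ℝ, x ≠ 0 ∧ S = PP _ x
  refine ⟨𝒜.image sel, fun A hA => ?_, card_image_le.trans (vc _ (j + 1) 𝒜 fun S hS => ?_),
    fun c hc => ?_⟩
  · obtain ⟨S, hS, rfl⟩ := mem_image.1 hA
    obtain ⟨x, hx, rfl⟩ := (mem_filter.1 hS).2
    exact (hsel _ (gale a j x hx)).2
  · obtain ⟨x, -, hx⟩ := (mem_filter.1 hS).2
    exact ⟨x, hx⟩
  by_contra hcon
  push Not at hcon
  set F := 𝒜.image sel with hF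
  let g : ℕ → (Fin (j + 1) → ℝ) → ℝ := fun i x =>
    ∑ A ∈ F.filter (fun A => c A = i), ∏ t ∈ A, max (ev x t.val) 0
  have gc : ∀ i, Continuous (g i) := fun i => by
    simp only [g, ev]; fun_prop
  obtain ⟨x, hx1, hx0⟩ := Pool.Agent.H87.BU.bu j (fun x r => g r.val x - g r.val (-x))
    (continuous_pi fun r => (gc _).sub ((gc _).comp continuous_neg)).continuousOn
    (fun x => by funext r; simp)
  have hx : x ≠ 0 := by rintro rfl; simp at hx1
  have hdis : ∀ y : Fin (j + 1) → ℝ, ∀ A B : Finset (Fin (2 * a + j)),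
      (∀ t ∈ A, 0 < ev y t.val) → (∀ t ∈ B, 0 < ev (-y) t.val) → Disjoint A B := by
    intro y A B hA hB
    refine disjoint_left.2 fun t h1 h2 => ?_
    have h3 := hA t h1
    have h4 := hB t h2
    rw [ev_neg] at h4
    linarith
  have top : ∀ y : Fin (j + 1) → ℝ, y ≠ 0 → (∀ i < j, g i y = g i (-y)) →
      ∃ A ∈ F, (∀ t ∈ A, 0 < ev y t.val) ∧ c A = j := by
    intro y hy hg
    have hAF : sel (PP _ y) ∈ F := mem_image_of_mem _ (mem_filter.2 ⟨mem_univ _, y, hy, rfl⟩)
    have hApos : ∀ t ∈ sel (PP (2 * a + j) y), 0 < ev y t.val :=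
      fun t ht => (mem_filter.1 ((hsel _ (gale a j y hy)).1 ht)).2
    refine ⟨_, hAF, hApos, ?_⟩
    by_contra hne
    have hlt : c (sel (PP _ y)) < j := by have := hc _ hAF; omega
    have h1 : 0 < g (c (sel (PP _ y))) y := by
      refine sum_pos' (fun B _ => prod_nonneg fun t _ => le_max_right _ _)
        ⟨sel (PP _ y), ?_, ?_⟩
      · exact mem_filter.2 ⟨hAF, rfl⟩
      · exact prod_pos fun t ht => lt_max_of_lt_left (hApos t ht)
    rw [hg _ hlt] at h1
    obtain ⟨B, hB, hB0⟩ := exists_ne_zero_of_sum_ne_zero h1.ne'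
    rw [mem_filter] at hB
    refine hcon _ hAF B hB.1 (hdis y _ _ hApos fun t ht => ?_) hB.2.symm
    by_contra h5
    exact prod_ne_zero_iff.1 hB0 t ht (max_eq_right (not_lt.1 h5))
  have hg : ∀ i < j, g i x = g i (-x) := fun i hi => sub_eq_zero.1 (congrFun hx0 ⟨i, hi⟩)
  obtain ⟨A, hA, hA1, hA2⟩ := top x hx hg
  obtain ⟨B, hB, hB1, hB2⟩ := top (-x) (neg_ne_zero.2 hx)
    (fun i hi => by rw [neg_neg]; exact (hg i hi).symm)
  exact hcon A hA B hB (hdis x A B hA1 hB1) (hA2.trans hB2.symm)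

end Pool.Agent.H3.Gale
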