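import Mathlib

set_option autoImplicit false

namespace Pool.Agent.H3.GrahamM

open Finset

/-- an `m`-product sequence -/
def IsPS (m : ℕ) (l : List ℕ) : Prop :=
  l.Pairwise (· ≤ ·) ∧ (∃ R : ℕ, l.prod = R ^ m) ∧ ∀ a : ℕ, l.count a ≤ m - 1

/-- possible last terms of an `m`-product sequence with first term `n` -/
def Ends (m n : ℕ) : Set ℕ := {s | ∃ l, IsPS m l ∧ l.head? = some n ∧ l.getLast? = some s}

/-- the function `g_m` -/
noncomputable def g (m n : ℕ) : ℕ := sInf (Ends m n)

lemma fact_count {s : ℕ} (hs : s.Prime) (l : List ℕ) (h : ∀ a ∈ l, 1 ≤ a ∧ a ≤ s) :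
    l.prod ≠ 0 ∧ l.prod.factorization s = l.count s := by
  induction l with
  | nil => simp
  | cons a l ih =>
    obtain ⟨h1, h2⟩ := ih fun b hb => h b (List.mem_cons_of_mem _ hb)
    obtain ⟨h3, h4⟩ := h a List.mem_cons_self
    rw [List.prod_cons]
    refine ⟨mul_ne_zero (by omega) h1, ?_⟩
    rw [Nat.factorization_mul (by omega) h1, Finsupp.add_apply, h2, List.count_cons]
    by_cases e : a = s
    · subst e; simp [hs.factorization_self, add_comm]
    · rw [Nat.factorization_eq_zero_of_lt (by omega)]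
      simp [e]

lemma ends_spec {m n s : ℕ} (hm : 2 ≤ m) (hn : 1 ≤ n) (h : s ∈ Ends m n) : n ≤ s ∧ ¬ s.Prime := by
  obtain ⟨l, ⟨hp, ⟨R, hR⟩, hc⟩, h1, h2⟩ := h
  have hb : ∀ a ∈ l, n ≤ a ∧ a ≤ s := by
    intro a ha
    constructor
    · obtain ⟨l', rfl⟩ := List.head?_eq_some_iff.mp h1
      rcases List.mem_cons.mp ha with rfl | ha
      · exact le_rfl
      · exact (List.pairwise_cons.mp hp).1 a ha
    · obtain ⟨l', rfl⟩ := List.getLast?_eq_some_iff.mp h2
      rcases List.mem_append.mp ha with ha | ha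
      · exact (List.pairwise_append.mp hp).2.2 a ha s (by simp)
      · simp at ha; omega
  have hs : s ∈ l := List.mem_of_getLast? h2
  refine ⟨(hb s hs).1, fun hpr => ?_⟩
  obtain ⟨-, h4⟩ := fact_count hpr l fun a ha => ⟨le_trans hn (hb a ha).1, (hb a ha).2⟩
  rw [hR, Nat.factorization_pow, Finsupp.smul_apply, smul_eq_mul] at h4
  have h5 := List.count_pos_iff.mpr hs
  have h6 := hc s
  have := Nat.le_of_dvd h5 ⟨_, h4.symm⟩
  omega

lemma pow_of_dvd {N m : ℕ} (hN : N ≠ 0) (h : ∀ q, m ∣ N.factorization q) : ∃ R, N = R ^ m := by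
  refine ⟨∏ q ∈ N.factorization.support, q ^ (N.factorization q / m), ?_⟩
  conv_lhs => rw [← Nat.prod_factorization_pow_eq_self hN]
  rw [Finsupp.prod, ← prod_pow]
  refine prod_congr rfl fun q _ => ?_
  rw [← pow_mul, Nat.div_mul_cancel (h q)]

lemma build {m n t : ℕ} (hn : 1 ≤ n) (hnt : n ≤ t) (z : ℕ → ℕ) (hz : ∀ a, z a < m) (h0 : z n ≠ 0)
    (h : ∀ q, q.Prime → q ≤ t → m ∣ ∑ a ∈ Icc n t, z a * a.factorization q) :
    ∃ s ∈ Ends m n, s ≤ t := by
  classical
  let S : Multiset ℕ := ∑ a ∈ Icc n t, Multiset.replicate (z a) a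
  have hc : ∀ b, S.count b = if b ∈ Icc n t then z b else 0 := by
    intro b
    simp only [S, Multiset.count_sum', Multiset.count_replicate]
    rw [sum_ite_eq' (Icc n t) b z]
  have hmem : ∀ b ∈ S, n ≤ b ∧ b ≤ t := by
    intro b hb
    have := Multiset.count_pos.mpr hb
    rw [hc] at this
    by_contra hn'
    rw [if_neg (by rwa [mem_Icc])] at this
    omega
  have hnS : n ∈ S := by
    rw [← Multiset.count_pos, hc, if_pos (mem_Icc.mpr ⟨le_rfl, hnt⟩)]
    omega
  have hprod : S.prod = ∏ a ∈ Icc n t, a ^ z a := by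
    simp only [S]
    rw [Multiset.prod_sum]
    simp
  let l : List ℕ := n :: (S.erase n).sort (· ≤ ·)
  have hl : (l : Multiset ℕ) = S := by
    simp only [l]
    rw [← Multiset.cons_coe, Multiset.sort_eq, Multiset.cons_erase hnS]
  have hne : l ≠ [] := by simp [l]
  refine ⟨l.getLast hne, ⟨l, ⟨?_, ?_, ?_⟩, rfl, List.getLast?_eq_some_getLast hne⟩, ?_⟩
  · refine List.pairwise_cons.mpr ⟨fun b hb => ?_, Multiset.pairwise_sort _ _⟩
    rw [Multiset.mem_sort] at hb
    exact (hmem b (Multiset.mem_of_mem_erase hb)).1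
  · rw [← Multiset.prod_coe, hl, hprod]
    have hnz : ∀ a ∈ Icc n t, a ^ z a ≠ 0 := fun a ha =>
      pow_ne_zero _ (by rw [mem_Icc] at ha; omega)
    refine pow_of_dvd (prod_ne_zero_iff.mpr hnz) fun q => ?_
    rw [Nat.factorization_prod hnz, Finset.sum_apply']
    simp only [Nat.factorization_pow, Finsupp.smul_apply, smul_eq_mul]
    by_cases hq : q.Prime
    · by_cases hqt : q ≤ t
      · exact h q hq hqt
      · refine dvd_sum fun a ha => ?_
        rw [mem_Icc] at ha
        rw [Nat.factorization_eq_zero_of_lt (by omega)]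
        simp
    · simp [Nat.factorization_eq_zero_of_not_prime _ hq]
  · intro a
    rw [← Multiset.coe_count, hl, hc]
    have := hz a
    split_ifs <;> omega
  · have : l.getLast hne ∈ S := by
      rw [← hl]; exact List.getLast_mem hne
    exact (hmem _ this).2

lemma min_supp {m n t : ℕ} (hm : 2 ≤ m) (hn : 1 ≤ n) (hnt : n ≤ t) (w : ℕ → ZMod m)
    (h0 : w n ≠ 0) (h1 : ∀ a, a < n → w a = 0)
    (h : ∀ q, q.Prime → q ≤ t → ∑ a ∈ Icc 1 t, w a * (a.factorization q : ZMod m) = 0) :
    ∃ s ∈ Ends m n, s ≤ t := by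
  have : NeZero m := ⟨by omega⟩
  refine build hn hnt (fun a => (w a).val) (fun a => ZMod.val_lt _)
    (by rwa [Ne, ZMod.val_eq_zero]) fun q hq hqt => ?_
  rw [← ZMod.natCast_eq_zero_iff]
  push_cast
  simp only [ZMod.natCast_val, ZMod.cast_id', id]
  rw [← h q hq hqt]
  refine sum_subset (Icc_subset_Icc_left hn) fun a ha ha' => ?_
  rw [mem_Icc] at ha ha'
  rw [h1 a (by omega), zero_mul]

theorem not_inj (d k : ℕ) (hd : 2 ≤ d) (hk : 2 ≤ k) : ¬ Function.Injective (g (d * k)) := by
  classical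
  intro hinj
  set m := d * k with hm
  have hm2 : 2 ≤ m := by nlinarith
  have hdm : d < m := by nlinarith
  have hkm : k < m := by nlinarith
  have : NeZero m := ⟨by omega⟩
  have : Fact (1 < m) := ⟨by omega⟩
  set t := 2 ^ d with ht
  have ht1 : 2 ≤ t := by
    calc 2 = 2 ^ 1 := rfl
      _ ≤ 2 ^ d := Nat.pow_le_pow_right (by norm_num) (by omega)
  have hft : ∀ q, t.factorization q = if 2 = q then d else 0 := by
    intro q
    rw [ht, Nat.prime_two.factorization_pow, Finsupp.single_apply]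
  let F : Finset ℕ := (Icc 1 t).filter fun n => ¬ ∃ s ∈ Ends m n, s ≤ t
  let P : Finset ℕ := (Icc 1 t).filter Nat.Prime
  have htF : t ∉ F := by
    intro h
    refine (mem_filter.mp h).2 (build (by omega) le_rfl (fun _ => k) (fun _ => hkm) (by omega) ?_)
    intro q _ _
    rw [Icc_self, sum_singleton, hft]
    split_ifs
    · exact ⟨1, by rw [hm]; ring⟩
    · simp
  have key : ∀ w : ℕ → ZMod m, (∀ a, a ∉ F → a ≠ t → w a = 0) →
      (∀ q : P, ∑ a ∈ Icc 1 t, w a * (a.factorization q : ZMod m) = 0) → ∀ a ∈ F, w a = 0 := by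
    intro w hw hs a ha
    by_contra hne
    have hex : ∃ n, w n ≠ 0 := ⟨a, hne⟩
    have h1 := Nat.find_spec hex
    have h2 : Nat.find hex ≤ a := Nat.find_min' hex hne
    have h3 := mem_Icc.mp (mem_filter.mp ha).1
    have h4 : a ≠ t := fun e => htF (e ▸ ha)
    have h5 : Nat.find hex ∈ F := by
      by_contra h
      exact h1 (hw _ h (by omega))
    have h6 := mem_Icc.mp (mem_filter.mp h5).1
    refine (mem_filter.mp h5).2 (min_supp hm2 h6.1 h6.2 w h1 (fun b hb => ?_) fun q hq hqt => ?_)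
    · by_contra h
      exact Nat.find_min hex hb h
    · exact hs ⟨q, mem_filter.mpr ⟨mem_Icc.mpr ⟨hq.one_le, hqt⟩, hq⟩⟩
  let ex : (F → ZMod m) → ℕ → ZMod m := fun c a => if h : a ∈ F then c ⟨a, h⟩ else 0
  let Psi : (F → ZMod m) → (P → ZMod m) := fun c q =>
    ∑ a ∈ Icc 1 t, ex c a * (a.factorization q : ZMod m)
  have hPi : Function.Injective Psi := by
    intro c c' h
    funext a
    have := key (fun a => ex c a - ex c' a) (fun a ha _ => by simp [ex, ha]) (fun q => by
      simp only [sub_mul, sum_sub_distrib]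
      exact sub_eq_zero.mpr (congrFun h q)) a.1 a.2
    simpa [ex, sub_eq_zero] using this
  have hPn : (fun q : P => (t.factorization q : ZMod m)) ∉ Set.range Psi := by
    rintro ⟨c, hc⟩
    have h1 := key (fun a => ex c a - if a = t then 1 else 0)
      (fun a ha hat => by simp [ex, ha, hat]) (fun q => by
        simp only [sub_mul, sum_sub_distrib, ite_mul, one_mul, zero_mul]
        rw [sum_ite_eq', if_pos (mem_Icc.mpr ⟨by omega, le_rfl⟩)]
        exact sub_eq_zero.mpr (congrFun hc q))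
    have h2 : ∀ a, ex c a = 0 := by
      intro a
      by_cases ha : a ∈ F
      · have := h1 a ha
        have h4 : a ≠ t := fun e => htF (e ▸ ha)
        simpa [h4] using this
      · simp [ex, ha]
    have h3 := congrFun hc ⟨2, mem_filter.mpr ⟨mem_Icc.mpr ⟨by norm_num, ht1⟩, Nat.prime_two⟩⟩
    simp only [Psi, h2, zero_mul, sum_const_zero, hft, if_true] at h3
    have := Nat.le_of_dvd (by omega) ((ZMod.natCast_eq_zero_iff _ _).mp h3.symm)
    omega
  have hlt := Fintype.card_lt_of_injective_of_notMem Psi hPi hPn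
  simp only [Fintype.card_fun, ZMod.card, Fintype.card_coe] at hlt
  have hFP : F.card < P.card := (Nat.pow_lt_pow_iff_right (by omega)).mp hlt
  have c1 := card_filter_add_card_filter_not (s := Icc 1 t) (fun n => ∃ s ∈ Ends m n, s ≤ t)
  have c2 := card_filter_add_card_filter_not (s := Icc 1 t) Nat.Prime
  have c3 : ((Icc 1 t).filter fun n => ∃ s ∈ Ends m n, s ≤ t).card ≤
      ((Icc 1 t).filter fun n => ¬ n.Prime).card := by
    refine card_le_card_of_injOn (g m) (fun n hn => ?_) hinj.injOn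
    obtain ⟨h1, s, hs, hst⟩ := mem_filter.mp hn
    rw [mem_Icc] at h1
    have h2 : g m n ∈ Ends m n := Nat.sInf_mem ⟨s, hs⟩
    have h3 : g m n ≤ s := Nat.sInf_le hs
    have h4 := ends_spec hm2 h1.1 h2
    exact mem_filter.mpr ⟨mem_Icc.mpr ⟨by omega, by omega⟩, h4.2⟩
  simp only [F, P] at hFP
  omega

lemma ends_nonempty (m : ℕ) (hm : 2 ≤ m) (n : ℕ) : (Ends m n).Nonempty := by
  obtain ⟨k, rfl⟩ : ∃ k, m = k + 2 := ⟨m - 2, by omega⟩
  rcases Nat.eq_zero_or_pos n with rfl | hn
  · refine ⟨0, [0], ⟨by simp, ⟨0, by simp⟩, fun a => ?_⟩, rfl, rfl⟩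
    have := List.count_le_length (a := a) (l := [0])
    simp only [List.length_singleton] at this
    omega
  · have h1 : 1 < 2 ^ (k + 2) := Nat.one_lt_two_pow (by omega)
    have h2 : n < 2 ^ (k + 2) * n := by nlinarith
    have hne : n :: List.replicate (k + 1) (2 ^ (k + 2) * n) ≠ [] := by simp
    refine ⟨_, n :: List.replicate (k + 1) (2 ^ (k + 2) * n), ⟨?_, ⟨2 ^ (k + 1) * n, ?_⟩,
      fun a => ?_⟩, rfl, List.getLast?_eq_some_getLast hne⟩
    · refine List.pairwise_cons.mpr ⟨fun b hb => ?_, by simp⟩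
      rw [List.eq_of_mem_replicate hb]
      exact h2.le
    · rw [List.prod_cons, List.prod_replicate, mul_pow, mul_pow, ← pow_mul, ← pow_mul,
        mul_comm (k + 2) (k + 1), pow_succ n (k + 1)]
      generalize 2 ^ ((k + 1) * (k + 2)) = A
      ring
    · rw [List.count_cons, List.count_replicate]
      by_cases e1 : n = a
      · subst e1
        simp [h2.ne']
      · simp only [beq_iff_eq, if_neg e1]
        split_ifs <;> omega

end Pool.Agent.H3.GrahamM
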