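import Pool.Agent.H3.HafRec

set_option autoImplicit false

namespace Pool.Agent.H3.HafBlock

open Finset Pool.Agent.H3.HafRec

variable {V ι : Type} [LinearOrder V] [DecidableEq ι] [Fintype ι]

noncomputable def bw (blk : V → Option ι) (iw ow : ι → ℝ) (u v : V) : ℝ :=
  match blk u, blk v with
  | none, none => 0
  | none, some t => ow t
  | some t, none => ow t
  | some t, some t' => if t = t' ∧ u ≠ v then iw t else 0

noncomputable def ph (y z : ℝ) : ℕ → ℝ
  | 0 => 1
  | 1 => 1 + y
  | m + 2 => (1 + y) * ph y z (m + 1) + (m + 1) * z * ph y z m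

theorem one_le_ph {y z : ℝ} (hy : 0 ≤ y) (hz : 0 ≤ z) : ∀ m, 1 ≤ ph y z m
  | 0 => le_rfl
  | 1 => by simp [ph, hy]
  | m + 2 => by
    have h1 := one_le_ph hy hz (m + 1)
    have h2 := one_le_ph hy hz m
    have : 0 ≤ (m + 1) * z * ph y z m := by positivity
    rw [ph]; nlinarith

theorem ph_succ (y z : ℝ) (m : ℕ) :
    ph y z (m + 1) = (1 + y) * ph y z m + m * z * ph y z (m - 1) := by
  cases m with
  | zero => simp [ph]
  | succ m => rw [ph]; simp

noncomputable def W (x l : ℝ) (p k : ℕ) : ℝ := p.factorial / l ^ p * Real.exp l / x ^ k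

def cnt (blk : V → Option ι) (A : Finset V) (o : Option ι) : ℕ :=
  (A.filter (fun v => blk v = o)).card

omit [Fintype ι] in
theorem cnt_erase (blk : V → Option ι) {A : Finset V} {v : V} (hv : v ∈ A) (o : Option ι) :
    cnt blk (A.erase v) o = if blk v = o then cnt blk A o - 1 else cnt blk A o := by
  unfold cnt
  rw [filter_erase]
  split_ifs with h
  · exact card_erase_of_mem (mem_filter.2 ⟨hv, h⟩)
  · rw [erase_eq_of_notMem]; simp [h]

theorem block_le (blk : V → Option ι) (iw ow : ι → ℝ) (hi : ∀ t, 0 ≤ iw t) (ho : ∀ t, 0 ≤ ow t)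
    (x l : ℝ) (hx : 0 < x) (hl : 0 < l) (A : Finset V) (k : ℕ) :
    H (bw blk iw ow) A k ≤ (∏ t, ph (ow t * l * x) (iw t * x) (cnt blk A (some t))) *
      W x l (cnt blk A none) k := by
  have hp : ∀ t m, 1 ≤ ph (ow t * l * x) (iw t * x) m := fun t =>
    one_le_ph (by have := ho t; positivity) (by have := hi t; positivity)
  have hW : ∀ p k, 0 ≤ W x l p k := fun p k => by unfold W; positivity
  refine H_le (bw blk iw ow) ?_ ?_ (fun A k => (∏ t, ph (ow t * l * x) (iw t * x)
    (cnt blk A (some t))) * W x l (cnt blk A none) k) ?_ ?_ ?_ A k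
  · intro a b
    unfold bw
    rcases blk a with _ | s <;> rcases blk b with _ | t <;> simp only
    by_cases h : s = t
    · subst h; simp only [ne_comm]
    · rw [if_neg (fun h' => h h'.1), if_neg (fun h' => h h'.1.symm)]
  · intro a b
    unfold bw
    rcases blk a with _ | s <;> rcases blk b with _ | t <;> simp only [le_rfl, ho]
    split_ifs
    · exact hi _
    · exact le_rfl
  · intro A
    refine one_le_mul_of_one_le_of_one_le (Finset.one_le_prod fun t _ => hp t _) ?_
    have := Real.pow_div_factorial_le_exp l hl.le (cnt blk A none)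
    rw [div_le_iff₀ (by positivity)] at this
    rw [W, pow_zero, div_one, div_mul_eq_mul_div, le_div_iff₀ (by positivity)]
    linarith
  · intro A k
    exact mul_nonneg (prod_nonneg fun t _ => le_trans zero_le_one (hp t _)) (hW _ _)
  · intro A
    by_cases h : ∀ a ∈ A, blk a = none
    · left
      intro a ha b hb
      simp [bw, h a ha, h b hb]
    right
    push Not at h
    obtain ⟨v, hv, h⟩ := h
    obtain ⟨t, ht⟩ := Option.ne_none_iff_exists'.1 h
    refine ⟨v, hv, fun k => ?_⟩
    set f : ι → ℕ → ℝ := fun t => ph (ow t * l * x) (iw t * x) with hf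
    set R : ℝ := ∏ t' ∈ univ.erase t, f t' (cnt blk A (some t')) with hR
    have hR0 : 0 ≤ R := prod_nonneg fun t _ => le_trans zero_le_one (hp t _)
    obtain ⟨m, hm⟩ : ∃ m, cnt blk A (some t) = m + 1 :=
      Nat.exists_eq_succ_of_ne_zero (card_pos.2 ⟨v, mem_filter.2 ⟨hv, ht⟩⟩).ne'
    set p := cnt blk A none with hpd
    have e1 : cnt blk (A.erase v) (some t) = m := by rw [cnt_erase blk hv, if_pos ht, hm]; rfl
    have e2 : cnt blk (A.erase v) none = p := by rw [cnt_erase blk hv, if_neg h]
    have e3 : ∀ t' ∈ univ.erase t, cnt blk (A.erase v) (some t') = cnt blk A (some t') := by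
      intro t' h'
      rw [cnt_erase blk hv, if_neg]
      rw [ht]; exact fun e => (mem_erase.1 h').1 (Option.some.inj e).symm
    have pr : ∀ B : Finset V, (∀ t' ∈ univ.erase t, cnt blk B (some t') = cnt blk A (some t')) →
        ∏ t, f t (cnt blk B (some t)) = f t (cnt blk B (some t)) * R := by
      intro B hB
      rw [← mul_prod_erase _ _ (mem_univ t), hR, prod_congr rfl fun t' h' => by rw [hB t' h']]
    have hs : ∑ u ∈ A.erase v, bw blk iw ow v u * ((∏ t, f t (cnt blk ((A.erase v).erase u)
        (some t))) * W x l (cnt blk ((A.erase v).erase u) none) k) =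
        p * (ow t * (f t m * R * W x l (p - 1) k)) +
          m * (iw t * (f t (m - 1) * R * W x l p k)) := by
      rw [← e1, ← e2, cnt, cnt, card_filter, card_filter]
      push_cast
      rw [sum_mul, sum_mul, ← sum_add_distrib]
      refine sum_congr rfl fun u hu => ?_
      have hvu : v ≠ u := (mem_erase.1 hu).1.symm
      rcases hb : blk u with _ | s
      · rw [pr _ (fun t' h' => by rw [cnt_erase blk hu, hb, if_neg (by simp), e3 t' h']),
          cnt_erase blk hu, cnt_erase blk hu, hb]
        simp [bw, ht, hb, cnt]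
      · by_cases hst : s = t
        · subst hst
          rw [pr _ (fun t' h' => by
            rw [cnt_erase blk hu, hb, if_neg (by simpa using (mem_erase.1 h').1.symm), e3 t' h']),
            cnt_erase blk hu, cnt_erase blk hu, hb]
          simp [bw, ht, hb, cnt, hvu]
        · simp [bw, ht, hb, hst, Ne.symm hst]
    change _ + _ ≤ (∏ t, f t _) * _
    rw [hs, pr _ e3, pr A (fun _ _ => rfl), e1, e2, hm]
    have w1 : W x l p k = x * W x l p (k + 1) := by unfold W; field_simp; ring
    have w2 : p * W x l (p - 1) k ≤ l * x * W x l p (k + 1) := by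
      rcases Nat.eq_zero_or_pos p with h0 | h0
      · rw [h0]; have := hW 0 (k + 1); simp only [Nat.cast_zero, zero_mul]; positivity
      · obtain ⟨q, hq⟩ := Nat.exists_eq_succ_of_ne_zero h0.ne'
        rw [hq]
        refine le_of_eq ?_
        unfold W
        simp only [Nat.succ_eq_add_one, Nat.add_sub_cancel, Nat.factorial_succ]
        push_cast
        field_simp
        ring
    have w3 := mul_le_mul_of_nonneg_left w2
      (mul_nonneg (ho t) (mul_nonneg (le_trans zero_le_one (hp t m)) hR0))
    have e4 : f t (m + 1) = (1 + ow t * l * x) * f t m + m * (iw t * x) * f t (m - 1) :=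
      ph_succ _ _ _
    rw [e4, w1]
    simp only [hf] at w3 ⊢
    nlinarith [w3]

end Pool.Agent.H3.HafBlock
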