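import Pool.Agent.H3.HafBlock

set_option autoImplicit false

namespace Pool.Agent.H3.HafFam

open Finset Pool.Agent.H3.HafRec Pool.Agent.H3.HafBlock

/-- `Ψ_{2n}`: the convex hull of the adjacency matrices of the perfect matchings of `K_{2n}`;
a perfect matching is given by its partner map, an involution without fixed points. -/
def Psi (n : ℕ) : Set (Matrix (Fin (2 * n)) (Fin (2 * n)) ℝ) :=
  convexHull ℝ {A | ∃ σ : Fin (2 * n) → Fin (2 * n), (∀ i, σ (σ i) = i) ∧ (∀ i, σ i ≠ i) ∧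
    ∀ i j, A i j = if σ i = j then 1 else 0}

/-- The `k`-hafnian: the sum over all sets `M` of `k` pairwise disjoint edges `{i, j}`
(written with `i < j`) of the product of the entries `B i j`. -/
noncomputable def haf {N : ℕ} (k : ℕ) (B : Matrix (Fin N) (Fin N) ℝ) : ℝ :=
  ∑ M ∈ (((univ : Finset (Fin N × Fin N)).filter (fun p => p.1 < p.2)).powersetCard k).filter
      (fun M => ∀ p ∈ M, ∀ q ∈ M, p ≠ q → p.1 ≠ q.1 ∧ p.1 ≠ q.2 ∧ p.2 ≠ q.1 ∧ p.2 ≠ q.2),
    ∏ p ∈ M, B p.1 p.2

/-- `J_{2n} = A(K_{2n}) / (2n - 1)`. -/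
noncomputable def J (n : ℕ) : Matrix (Fin (2 * n)) (Fin (2 * n)) ℝ :=
  fun i j => if i = j then 0 else 1 / (2 * (n : ℝ) - 1)

theorem haf_eq {N : ℕ} (k : ℕ) (B : Matrix (Fin N) (Fin N) ℝ) : haf k B = H B univ k := by
  unfold haf H mts
  rw [univ_product_univ]
  refine sum_congr ?_ fun _ _ => rfl
  exact filter_congr_decidable _ _ _ |>.trans (by convert rfl; exact Iff.rfl)

abbrev T (s r : ℕ) := (ZMod s × Fin 3) ⊕ (ZMod s ⊕ (Fin r × Bool))

def sg {s r : ℕ} (a : Fin 3) (d : ZMod s) : T s r → T s r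
  | .inl (t, b) => if b = a then .inr (.inl (t + d)) else .inl (t, -a - b)
  | .inr (.inl p) => .inl (p - d, a)
  | .inr (.inr (i, β)) => .inr (.inr (i, !β))

theorem sg_sg {s r : ℕ} (a : Fin 3) (d : ZMod s) (v : T s r) : sg a d (sg a d v) = v := by
  rcases v with ⟨t, b⟩ | p | ⟨i, β⟩
  · by_cases h : b = a
    · simp [sg, h]
    · have : -a - b ≠ a := by revert a b; decide
      simp [sg, h, this]
  · simp [sg]
  · simp [sg]

theorem sg_ne {s r : ℕ} (a : Fin 3) (d : ZMod s) (v : T s r) : sg a d v ≠ v := by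
  rcases v with ⟨t, b⟩ | p | ⟨i, β⟩
  · by_cases h : b = a
    · simp [sg, h]
    · have : -a - b ≠ b := by revert a b; decide
      simp [sg, h, this]
  · simp [sg]
  · simp [sg]

def blk {s r : ℕ} : T s r → Option (ZMod s ⊕ Fin r)
  | .inl (t, _) => some (.inl t)
  | .inr (.inl _) => none
  | .inr (.inr (i, _)) => some (.inr i)

noncomputable def iw {s r : ℕ} : ZMod s ⊕ Fin r → ℝ
  | .inl _ => 1 / 3
  | .inr _ => 1

noncomputable def ow {s r : ℕ} : ZMod s ⊕ Fin r → ℝ
  | .inl _ => 1 / (3 * s)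
  | .inr _ => 0

theorem avg {s r : ℕ} [NeZero s] {V : Type} [LinearOrder V] (e : V ≃ T s r) (u v : V) :
    ∑ z : Fin 3 × ZMod s, (1 / (3 * s) : ℝ) * (if e.symm (sg z.1 z.2 (e u)) = v then 1 else 0) =
      bw (fun v => blk (e v)) iw ow u v := by
  have hs : (s : ℝ) ≠ 0 := Nat.cast_ne_zero.2 (NeZero.ne s)
  have h1 : (u ≠ v) = (e u ≠ e v) := by simp
  simp only [Equiv.symm_apply_eq, bw, h1]
  generalize e u = u
  generalize e v = v
  rw [← mul_sum, Fintype.sum_prod_type]
  rcases u with ⟨t, b⟩ | p | ⟨i, β⟩ <;> rcases v with ⟨t', b'⟩ | p' | ⟨i', β'⟩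
  · by_cases h : t = t'
    · subst h
      fin_cases b <;> fin_cases b' <;> simp +decide [sg, blk, iw, Fin.sum_univ_three] <;>
        field_simp
    · fin_cases b <;> simp [sg, blk, Fin.sum_univ_three, h]
  · have : ∀ d : ZMod s, (t + d = p') = (d = p' - t) := fun d => by
      rw [eq_sub_iff_add_eq, add_comm]
    fin_cases b <;> simp [sg, blk, ow, Fin.sum_univ_three, this, filter_eq']
  · fin_cases b <;> simp [sg, blk, Fin.sum_univ_three]
  · have : ∀ d : ZMod s, (p - d = t') = (d = p - t') := fun d => by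
      rw [eq_sub_iff_add_eq, sub_eq_iff_eq_add, add_comm, eq_comm (a := p)]
    fin_cases b' <;> simp [sg, blk, ow, Fin.sum_univ_three, this, filter_eq']
  · simp [sg, blk]
  · simp [sg, blk, ow]
  · simp [sg, blk]
  · simp [sg, blk, ow]
  · by_cases h : i = i'
    · subst h
      cases β <;> cases β' <;> simp [sg, blk, iw, ZMod.card] <;> field_simp
    · simp [sg, blk, h]

theorem fam (s r n : ℕ) (hs : 0 < s) (hn : n = 2 * s + r) :
    ∃ B ∈ Psi n, ∀ x l : ℝ, 0 < x → 0 < l → ∀ k, haf k B ≤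
      ((1 + l * x / (3 * s)) ^ 3 + x * (1 + l * x / (3 * s))) ^ s * (1 + x) ^ r * W x l s k := by
  have : NeZero s := ⟨hs.ne'⟩
  have hs' : (s : ℝ) ≠ 0 := Nat.cast_ne_zero.2 hs.ne'
  obtain ⟨e⟩ : Nonempty (Fin (2 * n) ≃ T s r) := by
    refine ⟨Fintype.equivOfCardEq ?_⟩
    simp [ZMod.card, hn]; ring
  refine ⟨bw (fun v => blk (e v)) iw ow, ?_, fun x l hx hl k => ?_⟩
  · have : (bw (fun v => blk (e v)) iw ow : Matrix (Fin (2 * n)) (Fin (2 * n)) ℝ) =
        ∑ z : Fin 3 × ZMod s, (1 / (3 * s) : ℝ) • (Matrix.of fun u v =>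
          if e.symm (sg z.1 z.2 (e u)) = v then (1 : ℝ) else 0) := by
      ext u v
      rw [← avg e u v, Matrix.sum_apply]
      rfl
    rw [this]
    refine (convex_convexHull ℝ _).sum_mem (fun _ _ => by positivity) ?_ fun z _ =>
      subset_convexHull ℝ _ ⟨fun u => e.symm (sg z.1 z.2 (e u)), fun u => by simp [sg_sg],
        fun u h => sg_ne z.1 z.2 (e u) (e.symm_apply_eq.1 h), fun _ _ => rfl⟩
    simp [ZMod.card]
    field_simp
  · refine le_trans (le_of_eq (haf_eq k _)) ?_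
    refine le_trans (block_le (fun v => blk (e v)) iw ow ?_ ?_ x l hx hl univ k) (le_of_eq ?_)
    · rintro (_ | _) <;> simp [iw]
    · rintro (_ | _) <;> simp [ow]
    have hc : ∀ o, cnt (fun v => blk (e v)) univ o = ∑ v : T s r, if blk v = o then 1 else 0 := by
      intro o
      rw [cnt, card_filter]
      exact Equiv.sum_comp e (fun v => if blk v = o then 1 else 0)
    have c1 : cnt (fun v => blk (e v)) univ none = s := by
      rw [hc]; simp [Fintype.sum_sum_type, blk, ZMod.card]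
    have c2 : ∀ t, cnt (fun v => blk (e v)) univ (some (.inl t)) = 3 := by
      intro t
      rw [hc]; simp only [Fintype.sum_sum_type, Fintype.sum_prod_type, blk]
      simp
    have c3 : ∀ t, cnt (fun v => blk (e v)) univ (some (.inr t)) = 2 := by
      intro t
      rw [hc]; simp only [Fintype.sum_sum_type, Fintype.sum_prod_type, blk]
      simp
    rw [c1, Fintype.prod_sum_type]
    simp only [c2, c3, iw, ow, ph, prod_const, card_univ, ZMod.card, Fintype.card_fin]
    congr 3 <;> push_cast <;> ring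

end Pool.Agent.H3.HafFam
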