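import Mathlib

set_option autoImplicit false

namespace Pool.Agent.H3.HafRec

open Finset

variable {V : Type} [LinearOrder V]

/-- Two pairs have no common end. -/
def Dj (p q : V × V) : Prop := p.1 ≠ q.1 ∧ p.1 ≠ q.2 ∧ p.2 ≠ q.1 ∧ p.2 ≠ q.2

instance (p q : V × V) : Decidable (Dj p q) := by unfold Dj; infer_instance

/-- The `k`-matchings on the vertex set `A`: sets of `k` pairs `(i, j)` with `i < j`
in `A`, any two of them without a common end. -/
def mts (A : Finset V) (k : ℕ) : Finset (Finset (V × V)) :=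
  (((A ×ˢ A).filter (fun p => p.1 < p.2)).powersetCard k).filter
    (fun M => ∀ p ∈ M, ∀ q ∈ M, p ≠ q → Dj p q)

/-- The weighted number of `k`-matchings on `A`. -/
noncomputable def H (w : V → V → ℝ) (A : Finset V) (k : ℕ) : ℝ :=
  ∑ M ∈ mts A k, ∏ p ∈ M, w p.1 p.2

theorem mem_mts {A : Finset V} {k : ℕ} {M : Finset (V × V)} :
    M ∈ mts A k ↔ (∀ p ∈ M, p.1 ∈ A ∧ p.2 ∈ A ∧ p.1 < p.2) ∧ M.card = k ∧
      ∀ p ∈ M, ∀ q ∈ M, p ≠ q → Dj p q := by
  simp only [mts, mem_filter, mem_powersetCard, subset_iff, mem_product, and_assoc]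

theorem H_zero (w : V → V → ℝ) (A : Finset V) : H w A 0 = 1 := by
  have : mts A 0 = {∅} := by
    ext M
    simp only [mem_mts, card_eq_zero, mem_singleton]
    constructor
    · exact fun h => h.2.1
    · rintro rfl; simp
  simp [H, this]

theorem H_empty (w : V → V → ℝ) (k : ℕ) : H w ∅ (k + 1) = 0 := by
  have : mts (∅ : Finset V) (k + 1) = ∅ := by
    ext M
    simp only [mem_mts, notMem_empty, false_and, iff_false, not_and]
    intro h hc
    obtain ⟨p, hp⟩ := card_pos.1 (by omega : 0 < M.card)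
    exact (h p hp).elim
  simp [H, this]

def ed (v u : V) : V × V := (min v u, max v u)

theorem ed_cases {v u : V} (h : v ≠ u) :
    (v < u ∧ ed v u = (v, u)) ∨ (u < v ∧ ed v u = (u, v)) := by
  rcases lt_or_gt_of_ne h with h | h
  · exact Or.inl ⟨h, by simp [ed, h.le]⟩
  · exact Or.inr ⟨h, by simp [ed, h.le]⟩

theorem with_edge (w : V → V → ℝ) (hw : ∀ a b, w a b = w b a) (A : Finset V) (k : ℕ) (v u : V)
    (hv : v ∈ A) (hu : u ∈ A.erase v) :
    ∑ M ∈ (mts A (k + 1)).filter (fun M => ed v u ∈ M), ∏ p ∈ M, w p.1 p.2 =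
      w v u * H w ((A.erase v).erase u) k := by
  obtain ⟨huv, huA⟩ := mem_erase.1 hu
  have hc := ed_cases huv.symm
  have he1 : (ed v u).1 ∈ A ∧ (ed v u).2 ∈ A ∧ (ed v u).1 < (ed v u).2 := by
    rcases hc with ⟨h, e⟩ | ⟨h, e⟩ <;> rw [e] <;> exact ⟨by assumption, by assumption, h⟩
  have hd : ∀ p : V × V, Dj (ed v u) p ↔ (p.1 ≠ u ∧ p.1 ≠ v) ∧ (p.2 ≠ u ∧ p.2 ≠ v) := by
    intro p
    rcases hc with ⟨h, e⟩ | ⟨h, e⟩ <;> rw [e] <;> simp only [Dj, ne_comm] <;> tauto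
  have hd' : ∀ p q : V × V, Dj p q → Dj q p := fun p q h =>
    ⟨h.1.symm, h.2.2.1.symm, h.2.1.symm, h.2.2.2.symm⟩
  have hnd : ¬ Dj (ed v u) (ed v u) := fun h => h.1 rfl
  have hwe : w (ed v u).1 (ed v u).2 = w v u := by
    rcases hc with ⟨h, e⟩ | ⟨h, e⟩ <;> rw [e]
    exact hw _ _
  rw [H, mul_sum]
  symm
  refine sum_bij' (fun M _ => insert (ed v u) M) (fun M _ => M.erase (ed v u)) ?_ ?_ ?_ ?_ ?_
  · intro M hM
    obtain ⟨h1, h2, h3⟩ := mem_mts.1 hM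
    have h4 : ∀ p ∈ M, Dj (ed v u) p := fun p hp => by
      obtain ⟨a, b, -⟩ := h1 p hp
      simp only [mem_erase] at a b
      exact (hd p).2 ⟨⟨a.1, a.2.1⟩, b.1, b.2.1⟩
    have h5 : ed v u ∉ M := fun h => hnd (h4 _ h)
    refine mem_filter.2 ⟨mem_mts.2 ⟨?_, by rw [card_insert_of_notMem h5, h2], ?_⟩,
      mem_insert_self _ _⟩
    · intro p hp
      rcases mem_insert.1 hp with rfl | hp
      · exact he1
      · obtain ⟨a, b, c⟩ := h1 p hp
        exact ⟨mem_of_mem_erase (mem_of_mem_erase a), mem_of_mem_erase (mem_of_mem_erase b), c⟩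
    · intro p hp q hq hpq
      rcases mem_insert.1 hp with rfl | hp <;> rcases mem_insert.1 hq with rfl | hq
      · exact (hpq rfl).elim
      · exact h4 q hq
      · exact hd' _ _ (h4 p hp)
      · exact h3 p hp q hq hpq
  · intro M hM
    obtain ⟨hM, he⟩ := mem_filter.1 hM
    obtain ⟨h1, h2, h3⟩ := mem_mts.1 hM
    refine mem_mts.2 ⟨?_, by rw [card_erase_of_mem he, h2]; rfl, ?_⟩
    · intro p hp
      obtain ⟨hpe, hp⟩ := mem_erase.1 hp
      obtain ⟨a, b, c⟩ := h1 p hp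
      obtain ⟨⟨d1, d2⟩, d3, d4⟩ := (hd p).1 (h3 _ he p hp hpe.symm)
      exact ⟨mem_erase.2 ⟨d1, mem_erase.2 ⟨d2, a⟩⟩, mem_erase.2 ⟨d3, mem_erase.2 ⟨d4, b⟩⟩, c⟩
    · intro p hp q hq hpq
      exact h3 p (mem_of_mem_erase hp) q (mem_of_mem_erase hq) hpq
  · intro M hM
    obtain ⟨h1, h2, h3⟩ := mem_mts.1 hM
    refine erase_insert fun h => ?_
    obtain ⟨a, b, -⟩ := h1 _ h
    simp only [mem_erase] at a b
    exact hnd ((hd _).2 ⟨⟨a.1, a.2.1⟩, b.1, b.2.1⟩)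
  · intro M hM
    exact insert_erase (mem_filter.1 hM).2
  · intro M hM
    obtain ⟨h1, h2, h3⟩ := mem_mts.1 hM
    have h5 : ed v u ∉ M := fun h => by
      obtain ⟨a, b, -⟩ := h1 _ h
      simp only [mem_erase] at a b
      exact hnd ((hd _).2 ⟨⟨a.1, a.2.1⟩, b.1, b.2.1⟩)
    rw [prod_insert h5, hwe]

theorem H_succ (w : V → V → ℝ) (hw : ∀ a b, w a b = w b a) (A : Finset V) (k : ℕ) (v : V)
    (hv : v ∈ A) :
    H w A (k + 1) = H w (A.erase v) (k + 1) +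
      ∑ u ∈ A.erase v, w v u * H w ((A.erase v).erase u) k := by
  rw [← sum_congr rfl fun u hu => with_edge w hw A k v u hv hu]
  have h1 : mts (A.erase v) (k + 1) =
      (mts A (k + 1)).filter (fun M => ∀ p ∈ M, p.1 ≠ v ∧ p.2 ≠ v) := by
    ext M
    simp only [mem_filter, mem_mts, mem_erase]
    constructor
    · rintro ⟨a, b, c⟩
      exact ⟨⟨fun p hp => ⟨(a p hp).1.2, (a p hp).2.1.2, (a p hp).2.2⟩, b, c⟩,
        fun p hp => ⟨(a p hp).1.1, (a p hp).2.1.1⟩⟩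
    · rintro ⟨⟨a, b, c⟩, d⟩
      exact ⟨fun p hp => ⟨⟨(d p hp).1, (a p hp).1⟩, ⟨(d p hp).2, (a p hp).2.1⟩, (a p hp).2.2⟩, b, c⟩
  rw [H, H, h1, sum_filter]
  simp only [sum_filter]
  rw [sum_comm, ← sum_add_distrib]
  refine sum_congr rfl fun M hM => ?_
  obtain ⟨a, b, c⟩ := mem_mts.1 hM
  by_cases h : ∀ p ∈ M, p.1 ≠ v ∧ p.2 ≠ v
  · rw [if_pos h, sum_eq_zero, add_zero]
    intro u hu
    rw [if_neg]
    intro he
    rcases ed_cases (mem_erase.1 hu).1.symm with ⟨-, e⟩ | ⟨-, e⟩ <;> rw [e] at he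
    · exact (h _ he).1 rfl
    · exact (h _ he).2 rfl
  · rw [if_neg h, zero_add]
    have : ∃ u ∈ A.erase v, ed v u ∈ M := by
      push Not at h
      obtain ⟨p, hp, h⟩ := h
      obtain ⟨a1, a2, a3⟩ := a p hp
      by_cases e : p.1 = v
      · refine ⟨p.2, mem_erase.2 ⟨fun e' => a3.ne (e.trans e'.symm), a2⟩, ?_⟩
        rw [← e, ed, min_eq_left a3.le, max_eq_right a3.le]; exact hp
      · refine ⟨p.1, mem_erase.2 ⟨e, a1⟩, ?_⟩
        rw [← h e, ed, min_eq_right a3.le, max_eq_left a3.le]; exact hp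
    obtain ⟨u, hu, he⟩ := this
    rw [sum_eq_single_of_mem u hu, if_pos he]
    intro u' hu' hne
    rw [if_neg]
    intro he'
    have hj : ed v u' ≠ ed v u → Dj (ed v u') (ed v u) := c _ he' _ he
    rcases ed_cases (mem_erase.1 hu).1.symm with ⟨h1, e⟩ | ⟨h1, e⟩ <;>
      rcases ed_cases (mem_erase.1 hu').1.symm with ⟨h2, e'⟩ | ⟨h2, e'⟩ <;>
      rw [e, e'] at hj <;> simp [Dj, hne, h1.ne, h1.ne', h2.ne, h2.ne'] at hj

theorem H_nonneg (w : V → V → ℝ) (h0 : ∀ a b, 0 ≤ w a b) (A : Finset V) (k : ℕ) : 0 ≤ H w A k :=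
  sum_nonneg fun _ _ => prod_nonneg fun _ _ => h0 _ _

theorem H_indep (w : V → V → ℝ) (A : Finset V) (h : ∀ a ∈ A, ∀ b ∈ A, w a b = 0) (k : ℕ) :
    H w A (k + 1) = 0 := by
  refine sum_eq_zero fun M hM => ?_
  obtain ⟨h1, h2, -⟩ := mem_mts.1 hM
  obtain ⟨p, hp⟩ := card_pos.1 (by omega : 0 < M.card)
  exact prod_eq_zero hp (h _ (h1 p hp).1 _ (h1 p hp).2.1)

/-- A supersolution of the deletion recurrence bounds `H`. -/
theorem H_le (w : V → V → ℝ) (hw : ∀ a b, w a b = w b a) (h0 : ∀ a b, 0 ≤ w a b)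
    (Ψ : Finset V → ℕ → ℝ) (h1 : ∀ A, 1 ≤ Ψ A 0) (h2 : ∀ A k, 0 ≤ Ψ A k)
    (h3 : ∀ A : Finset V, (∀ a ∈ A, ∀ b ∈ A, w a b = 0) ∨ ∃ v ∈ A, ∀ k, Ψ (A.erase v) (k + 1) +
      ∑ u ∈ A.erase v, w v u * Ψ ((A.erase v).erase u) k ≤ Ψ A (k + 1)) :
    ∀ (A : Finset V) (k : ℕ), H w A k ≤ Ψ A k := by
  intro A
  induction A using Finset.strongInduction with
  | H A ih =>
    intro k
    cases k with
    | zero => rw [H_zero]; exact h1 A
    | succ k =>
      rcases h3 A with h | ⟨v, hv, h⟩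
      · rw [H_indep w A h]; exact h2 _ _
      rw [H_succ w hw A k v hv]
      refine le_trans (add_le_add (ih _ (erase_ssubset hv) _) (sum_le_sum fun u hu => ?_)) (h k)
      exact mul_le_mul_of_nonneg_left
        (ih _ (lt_of_le_of_lt (erase_subset _ _) (erase_ssubset hv)) _) (h0 _ _)

def dd : ℕ → ℕ → ℕ
  | _, 0 => 1
  | N, k + 1 => (N - 1) * dd (N - 2) k

theorem H_ge (c : ℝ) (hc : 0 ≤ c) (k : ℕ) : ∀ A : Finset V,
    c ^ k * dd A.card k ≤ H (fun a b => if a = b then 0 else c) A k := by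
  have h0 : ∀ a b : V, (0 : ℝ) ≤ if a = b then 0 else c := fun a b => by split_ifs <;> simp [hc]
  induction k with
  | zero => intro A; simp [H_zero, dd]
  | succ k ih =>
    intro A
    rcases A.eq_empty_or_nonempty with rfl | ⟨v, hv⟩
    · simp [H_empty, dd]
    rw [H_succ _ (fun a b => by simp only [eq_comm]) A k v hv]
    refine le_add_of_nonneg_of_le (H_nonneg _ h0 _ _) ?_
    refine le_trans (le_of_eq ?_) (card_nsmul_le_sum _ _ (c * (c ^ k * dd (A.card - 2) k)) ?_)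
    · rw [card_erase_of_mem hv, nsmul_eq_mul, dd]; push_cast; ring
    · intro u hu
      rw [if_neg (mem_erase.1 hu).1.symm]
      refine mul_le_mul_of_nonneg_left ?_ hc
      have := ih ((A.erase v).erase u)
      rwa [card_erase_of_mem hu, card_erase_of_mem hv] at this

end Pool.Agent.H3.HafRec
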