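import Mathlib

set_option autoImplicit false

namespace Pool.Agent.H3.Homoth
open Finset

theorem tang (g τ : ℝ) (hg : 0 < g) (hτ : 0 < τ) : 4 / τ ^ 3 - 3 / τ ^ 4 * g ≤ 1 / g ^ 3 := by
  have h : 1 / g ^ 3 - (4 / τ ^ 3 - 3 / τ ^ 4 * g) = (τ - g) ^ 2 * (τ ^ 2 + 2 * τ * g + 3 * g ^ 2) / (g ^ 3 * τ ^ 4) := by
    field_simp
    ring
  have : 0 ≤ (τ - g) ^ 2 * (τ ^ 2 + 2 * τ * g + 3 * g ^ 2) / (g ^ 3 * τ ^ 4) := by positivity
  linarith

/-- weighted pair sum -/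
noncomputable def W (D : Finset ℝ) (d : ℝ → ℝ) : ℝ :=
  ∑ p ∈ (D ×ˢ D).filter (fun p => p.1 < p.2), 1 / (d p.2 - d p.1) ^ 3

theorem W_aux (d : ℝ → ℝ) (τ : ℝ) (hτ : 0 < τ) (D : Finset ℝ) :
    (∀ x ∈ D, ∀ y ∈ D, x < y → d x < d y) → (∀ x ∈ D, 0 ≤ d x) → ∀ a ∈ D, (∀ x ∈ D, x ≤ a) →
      4 / τ ^ 3 * ((D.card : ℝ) - 1) - 3 / τ ^ 4 * d a ≤ W D d := by
  induction D using Finset.induction_on_max with
  | empty => intro _ _ a ha; simp at ha
  | insert b s hb ih =>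
    intro hm h0 a ha hmax
    have hab : a = b := by
      rcases mem_insert.1 ha with h | h
      · exact h
      · exact absurd (hb a h) (not_lt.2 (hmax b (mem_insert_self _ _)))
    subst hab
    have hn : a ∉ s := fun h => lt_irrefl _ (hb a h)
    have nn : ∀ p ∈ ((insert a s) ×ˢ (insert a s)).filter (fun p => p.1 < p.2), 0 ≤ 1 / (d p.2 - d p.1) ^ 3 := by
      intro p hp
      rw [mem_filter, mem_product] at hp
      have := hm _ hp.1.1 _ hp.1.2 hp.2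
      have : 0 < d p.2 - d p.1 := by linarith
      positivity
    rcases s.eq_empty_or_nonempty with rfl | hs
    · have h1 := h0 a ha
      have : 0 ≤ W (insert a ∅) d := sum_nonneg nn
      have h2 : 0 ≤ 3 / τ ^ 4 * d a := by positivity
      simp only [insert_empty_eq, card_singleton, Nat.cast_one, sub_self, mul_zero] at this ⊢
      linarith
    · have hc := s.max'_mem hs
      have i1 := ih (fun x hx y hy => hm x (mem_insert_of_mem hx) y (mem_insert_of_mem hy))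
        (fun x hx => h0 x (mem_insert_of_mem hx)) _ hc (fun x hx => s.le_max' x hx)
      generalize s.max' hs = c at hc i1
      have hlt := hm c (mem_insert_of_mem hc) a ha (hb c hc)
      have t := tang (d a - d c) τ (by linarith) hτ
      have nm : (c, a) ∉ (s ×ˢ s).filter (fun p => p.1 < p.2) := by
        simp [hn]
      have sub : insert (c, a) ((s ×ˢ s).filter (fun p => p.1 < p.2)) ⊆
          ((insert a s) ×ˢ (insert a s)).filter (fun p => p.1 < p.2) := by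
        intro p hp
        rcases mem_insert.1 hp with rfl | hp
        · simp [hc, hb c hc]
        · rw [mem_filter, mem_product] at hp ⊢
          exact ⟨⟨mem_insert_of_mem hp.1.1, mem_insert_of_mem hp.1.2⟩, hp.2⟩
      have le := sum_le_sum_of_subset_of_nonneg (f := fun p : ℝ × ℝ => 1 / (d p.2 - d p.1) ^ 3) sub (fun p hp _ => nn p hp)
      rw [sum_insert nm] at le
      rw [card_insert_of_notMem hn]
      unfold W at i1 ⊢
      push_cast
      simp only at le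
      linarith

theorem W_low (d : ℝ → ℝ) (M : ℝ) (hM : 0 < M) (D : Finset ℝ) (h2 : 2 ≤ D.card)
    (hm : ∀ x ∈ D, ∀ y ∈ D, x < y → d x < d y) (h0 : ∀ x ∈ D, 0 ≤ d x) (h1 : ∀ x ∈ D, d x ≤ M) :
    (D.card : ℝ) ^ 4 ≤ 16 * M ^ 3 * W D d := by
  have hs : D.Nonempty := card_pos.1 (by omega)
  have hj : (2 : ℝ) ≤ D.card := by exact_mod_cast h2
  have hj1 : (0 : ℝ) < D.card - 1 := by linarith
  have t := W_aux d (M / (D.card - 1)) (by positivity) D hm h0 _ (D.max'_mem hs) (fun x hx => D.le_max' x hx)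
  have h3 := h1 _ (D.max'_mem hs)
  generalize d (D.max' hs) = e at t h3
  generalize (D.card : ℝ) = j at *
  have h4 : 3 / (M / (j - 1)) ^ 4 * e ≤ 3 / (M / (j - 1)) ^ 4 * M := mul_le_mul_of_nonneg_left h3 (by positivity)
  have h5 : 4 / (M / (j - 1)) ^ 3 * (j - 1) - 3 / (M / (j - 1)) ^ 4 * M = (j - 1) ^ 4 / M ^ 3 := by
    field_simp
    ring
  have h6 : (j - 1) ^ 4 / M ^ 3 ≤ W D d := by linarith
  rw [div_le_iff₀ (by positivity)] at h6
  have h7 : j ^ 4 ≤ (2 * (j - 1)) ^ 4 := pow_le_pow_left₀ (by linarith) (by linarith) 4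
  nlinarith

theorem s1 (g : ℝ) (hg : 1 ≤ g) (n : ℕ) : ∑ h ∈ range n, 1 / (g + (h + 1)) ^ 3 ≤ 1 / (2 * g ^ 2) - 1 / (2 * (g + n) ^ 2) := by
  induction n with
  | zero => simp
  | succ n ih =>
    rw [sum_range_succ]
    have hn : (0 : ℝ) ≤ n := Nat.cast_nonneg _
    have : 1 / (g + (n + 1)) ^ 3 ≤ 1 / (2 * (g + n) ^ 2) - 1 / (2 * (g + (n + 1)) ^ 2) := by
      have hu : 0 < g + n := by linarith
      rw [← add_assoc]
      generalize g + n = u at hu
      have e : 1 / (2 * u ^ 2) - 1 / (2 * (u + 1) ^ 2) - 1 / (u + 1) ^ 3 = (3 * u + 1) / (2 * u ^ 2 * (u + 1) ^ 3) := by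
        field_simp
        ring
      have : 0 ≤ (3 * u + 1) / (2 * u ^ 2 * (u + 1) ^ 3) := by positivity
      linarith
    push_cast
    linarith

theorem s2 (n : ℕ) : ∑ g ∈ range n, 1 / (2 * ((g : ℝ) + 1) ^ 2) ≤ 1 - 1 / ((n : ℝ) + 1) := by
  induction n with
  | zero => simp
  | succ n ih =>
    rw [sum_range_succ]
    have hn : (0 : ℝ) ≤ n := Nat.cast_nonneg _
    have e : 1 / ((n : ℝ) + 1) - 1 / (n + 1 + 1) - 1 / (2 * ((n : ℝ) + 1) ^ 2) = n / (2 * (n + 1) ^ 2 * (n + 2)) := by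
      field_simp
      ring
    have : 0 ≤ (n : ℝ) / (2 * (n + 1) ^ 2 * (n + 2)) := by positivity
    push_cast
    linarith

theorem s3 (n : ℕ) : ∑ q ∈ range n ×ˢ range n, 1 / (((q.1 : ℝ) + 1) + (q.2 + 1)) ^ 3 ≤ 1 := by
  rw [sum_product]
  have h1 : ∑ g ∈ range n, ∑ h ∈ range n, 1 / (((g : ℝ) + 1) + (h + 1)) ^ 3 ≤ ∑ g ∈ range n, 1 / (2 * ((g : ℝ) + 1) ^ 2) := by
    refine sum_le_sum fun g _ => ?_
    have hg : (0 : ℝ) ≤ g := Nat.cast_nonneg _
    have := s1 (g + 1) (by linarith) n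
    have h2 : 0 ≤ 1 / (2 * ((g : ℝ) + 1 + n) ^ 2) := by positivity
    linarith
  have h2 := s2 n
  have h3 : 0 ≤ 1 / ((n : ℝ) + 1) := by positivity
  exact h1.trans (by linarith)

noncomputable def idx (X : Finset ℝ) (x : ℝ) : ℕ := (X.filter (fun y => y < x)).card

theorem idx_lt {X : Finset ℝ} {x y : ℝ} (hx : x ∈ X) (h : x < y) : idx X x < idx X y := by
  refine card_lt_card ⟨fun z hz => ?_, fun hs => ?_⟩
  · rw [mem_filter] at hz ⊢
    exact ⟨hz.1, hz.2.trans h⟩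
  · exact lt_irrefl _ (mem_filter.1 (hs (mem_filter.2 ⟨hx, h⟩))).2

theorem idx_le (X : Finset ℝ) (x : ℝ) : idx X x ≤ X.card := card_filter_le _ _

theorem idx_inj {X : Finset ℝ} {x y : ℝ} (hx : x ∈ X) (hy : y ∈ X) (h : idx X x = idx X y) : x = y := by
  rcases lt_trichotomy x y with h1 | h1 | h1
  · exact absurd h (idx_lt hx h1).ne
  · exact h1
  · exact absurd h (idx_lt hy h1).ne'

noncomputable def DD (X : Finset ℝ) (m : ℝ × ℝ) : Finset ℝ := X.filter (fun x => m.1 * x + m.2 ∈ X)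

theorem lines (X : Finset ℝ) (hX : 0 < X.card) (L : Finset (ℝ × ℝ)) (hL : ∀ m ∈ L, 0 < m.1 ∧ 2 ≤ (DD X m).card) :
    ∑ m ∈ L, ((DD X m).card : ℝ) ^ 4 ≤ 128 * (X.card : ℝ) ^ 5 := by
  classical
  have hn : (0 : ℝ) < X.card := by exact_mod_cast hX
  let d : ℝ × ℝ → ℝ → ℝ := fun m x => (idx X x : ℝ) + idx X (m.1 * x + m.2)
  have h1 : ∀ m ∈ L, ((DD X m).card : ℝ) ^ 4 ≤ 16 * (2 * X.card) ^ 3 * W (DD X m) (d m) := by
    intro m hm
    refine W_low _ _ (by positivity) _ (hL m hm).2 ?_ (fun x _ => by positivity) ?_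
    · intro x hx y _ hxy
      rw [DD, mem_filter] at hx
      have a1 : (idx X x : ℝ) < idx X y := by exact_mod_cast idx_lt hx.1 hxy
      have a2 : (idx X (m.1 * x + m.2) : ℝ) < idx X (m.1 * y + m.2) := by
        exact_mod_cast idx_lt hx.2 (by have := (hL m hm).1; nlinarith)
      simp only [d]
      linarith
    · intro x _
      have a1 : (idx X x : ℝ) ≤ X.card := by exact_mod_cast idx_le X x
      have a2 : (idx X (m.1 * x + m.2) : ℝ) ≤ X.card := by exact_mod_cast idx_le X _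
      simp only [d]
      linarith
  have h2 : ∑ m ∈ L, W (DD X m) (d m) ≤ (X.card : ℝ) ^ 2 := by
    unfold W
    rw [sum_sigma']
    let T : Finset ((ℝ × ℝ) × (ℕ × ℕ)) := (X ×ˢ X) ×ˢ (range X.card ×ˢ range X.card)
    let F : (ℝ × ℝ) × (ℕ × ℕ) → ℝ := fun q => 1 / (((q.2.1 : ℝ) + 1) + (q.2.2 + 1)) ^ 3
    let φ : (Σ _ : ℝ × ℝ, ℝ × ℝ) → (ℝ × ℝ) × (ℕ × ℕ) := fun p =>
      ((p.2.1, p.1.1 * p.2.1 + p.1.2), (idx X p.2.2 - idx X p.2.1 - 1, idx X (p.1.1 * p.2.2 + p.1.2) - idx X (p.1.1 * p.2.1 + p.1.2) - 1))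
    have hT : ∑ q ∈ T, F q ≤ (X.card : ℝ) ^ 2 := by
      rw [sum_product]
      calc _ ≤ ∑ _x ∈ X ×ˢ X, (1 : ℝ) := sum_le_sum fun x _ => s3 X.card
        _ = _ := by simp [sq]
    refine le_trans ?_ hT
    set S := L.sigma (fun m => ((DD X m) ×ˢ (DD X m)).filter (fun p => p.1 < p.2)) with hS
    have info : ∀ p ∈ S, 0 < p.1.1 ∧ p.2.1 ∈ X ∧ p.2.2 ∈ X ∧ p.1.1 * p.2.1 + p.1.2 ∈ X ∧ p.1.1 * p.2.2 + p.1.2 ∈ X ∧ p.2.1 < p.2.2 ∧
        idx X p.2.1 < idx X p.2.2 ∧ idx X (p.1.1 * p.2.1 + p.1.2) < idx X (p.1.1 * p.2.2 + p.1.2) := by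
      intro p hp
      rw [hS, mem_sigma, mem_filter, mem_product, DD, mem_filter, mem_filter] at hp
      obtain ⟨a1, ⟨⟨a2, a3⟩, a4, a5⟩, a6⟩ := hp
      have a0 := (hL _ a1).1
      exact ⟨a0, a2, a4, a3, a5, a6, idx_lt a2 a6, idx_lt a3 (by nlinarith)⟩
    have inj : Set.InjOn φ S := by
      rintro ⟨⟨l, t⟩, x, y⟩ hp ⟨⟨l', t'⟩, x', y'⟩ hq h
      obtain ⟨a0, a1, a2, a3, a4, a5, a6, a7⟩ := info _ hp
      obtain ⟨b0, b1, b2, b3, b4, b5, b6, b7⟩ := info _ hq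
      simp only [φ, Prod.mk.injEq] at h a0 a1 a2 a3 a4 a5 a6 a7 b0 b1 b2 b3 b4 b5 b6 b7
      obtain ⟨⟨rfl, e1⟩, e2, e3⟩ := h
      have e4 : y = y' := idx_inj a2 b2 (by omega)
      subst e4
      rw [← e1] at e3 b7
      have e5 : l * y + t = l' * y + t' := idx_inj a4 b4 (by omega)
      have e6 : l = l' := by
        have : (l - l') * (y - x) = 0 := by linarith
        rcases mul_eq_zero.1 this with h | h <;> linarith
      subst e6
      have e7 : t = t' := by linarith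
      subst e7
      rfl
    have e : ∑ p ∈ S, 1 / (d p.1 p.2.2 - d p.1 p.2.1) ^ 3 = ∑ p ∈ S, F (φ p) := by
      refine sum_congr rfl fun p hp => ?_
      obtain ⟨a0, a1, a2, a3, a4, a5, a6, a7⟩ := info _ hp
      simp only [F, φ, d]
      rw [Nat.cast_sub (by omega), Nat.cast_sub a6.le, Nat.cast_sub (by omega), Nat.cast_sub a7.le]
      congr 2
      push_cast
      ring
    rw [e, ← sum_image inj]
    refine sum_le_sum_of_subset_of_nonneg ?_ (fun q _ _ => by simp only [F]; positivity)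
    intro q hq
    obtain ⟨p, hp, rfl⟩ := mem_image.1 hq
    obtain ⟨a0, a1, a2, a3, a4, a5, a6, a7⟩ := info _ hp
    have c1 := idx_le X p.2.2
    have c2 := idx_le X (p.1.1 * p.2.2 + p.1.2)
    simp only [T, φ, mem_product, mem_range]
    exact ⟨⟨a1, a3⟩, by omega, by omega⟩
  calc _ ≤ ∑ m ∈ L, 16 * (2 * (X.card : ℝ)) ^ 3 * W (DD X m) (d m) := sum_le_sum h1
    _ = 16 * (2 * (X.card : ℝ)) ^ 3 * ∑ m ∈ L, W (DD X m) (d m) := by rw [mul_sum]
    _ ≤ 16 * (2 * (X.card : ℝ)) ^ 3 * (X.card : ℝ) ^ 2 := mul_le_mul_of_nonneg_left h2 (by positivity)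
    _ = _ := by ring

end Pool.Agent.H3.Homoth
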