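import Mathlib

set_option autoImplicit false

namespace Pool.Agent.H3.HullA

open Classical

variable {V : Type} (p : V → ℝ × ℝ)

/-- Twice the signed area of a triangle. -/
def D (a b c : V) : ℝ :=
  ((p b).1 - (p a).1) * ((p c).2 - (p a).2) - ((p b).2 - (p a).2) * ((p c).1 - (p a).1)

def GP : Prop := ∀ a b c : V, a ≠ b → a ≠ c → b ≠ c → D p a b c ≠ 0

def In (S : Finset V) (x : V) : Prop :=
  ∃ a ∈ S, ∃ b ∈ S, ∃ c ∈ S, 0 < D p a b x ∧ 0 < D p b c x ∧ 0 < D p c a x

def Cr (x y u w : V) : Prop := D p x y u * D p x y w < 0 ∧ D p u w x * D p u w y < 0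

noncomputable def H (S : Finset V) : Finset V := S.filter (fun x => ¬ In p S x)

noncomputable def U (S : Finset V) (v : V) : Finset V :=
  S.filter (fun w => w ≠ v ∧ ∀ a ∈ S, ∀ b ∈ S, ¬ Cr p v w a b)

def af (α β γ : ℝ) (x : V) : ℝ := α * (p x).1 + β * (p x).2 + γ

variable {p}

lemma D_cyc (a b c : V) : D p a b c = D p b c a := by unfold D; ring
lemma D_swap (a b c : V) : D p a c b = - D p a b c := by unfold D; ring
lemma D_aab (a b : V) : D p a a b = 0 := by unfold D; ring
lemma D_aba (a b : V) : D p a b a = 0 := by unfold D; ring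
lemma D_abb (a b : V) : D p a b b = 0 := by unfold D; ring

lemma ne_of_D {a b c : V} (h : D p a b c ≠ 0) : a ≠ b ∧ a ≠ c ∧ b ≠ c := by
  refine ⟨?_, ?_, ?_⟩ <;> rintro rfl
  · exact h (D_aab _ _)
  · exact h (D_aba _ _)
  · exact h (D_abb _ _)

lemma D_af (a b : V) : ∃ α β γ : ℝ, ∀ x, D p a b x = af p α β γ x :=
  ⟨-((p b).2 - (p a).2), (p b).1 - (p a).1,
    ((p b).2 - (p a).2) * (p a).1 - ((p b).1 - (p a).1) * (p a).2, fun x => by unfold D af; ring⟩

lemma bary (α β γ : ℝ) (a b c x : V) :
    D p a b x * (af p α β γ c - af p α β γ x) + D p b c x * (af p α β γ a - af p α β γ x)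
      + D p c a x * (af p α β γ b - af p α β γ x) = 0 := by unfold D af; ring

lemma notIn_of_af {S : Finset V} {x : V} (α β γ : ℝ)
    (h : ∀ z ∈ S, z ≠ x → af p α β γ x < af p α β γ z) : ¬ In p S x := by
  rintro ⟨a, ha, b, hb, c, hc, h1, h2, h3⟩
  have e := bary (p := p) α β γ a b c x
  have k1 := h a ha (ne_of_D h1.ne').2.1
  have k2 := h b hb (ne_of_D h1.ne').2.2
  have k3 := h c hc (ne_of_D h2.ne').2.2
  have := mul_pos h1 (sub_pos.2 k3)
  have := mul_pos h2 (sub_pos.2 k1)
  have := mul_pos h3 (sub_pos.2 k2)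
  linarith

lemma In_mono {S T : Finset V} {x : V} (h : S ⊆ T) : In p S x → In p T x := by
  rintro ⟨a, ha, b, hb, c, hc, h1⟩
  exact ⟨a, h ha, b, h hb, c, h hc, h1⟩

/-- source of the angular order at a point that is in no triangle -/
lemma source (hg : GP p) {S : Finset V} {v : V} (hv : ¬ In p S v) (s : ℝ) (hs : s = 1 ∨ s = -1)
    (T : Finset V) (hT : T ⊆ S) (hvT : v ∉ T) (hne : T.Nonempty) :
    ∃ a ∈ T, ∀ x ∈ T, x ≠ a → 0 < s * D p v a x := by
  induction T using Finset.induction_on with
  | empty => simp at hne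
  | insert y T hy ih =>
    rcases T.eq_empty_or_nonempty with rfl | hne'
    · exact ⟨y, by simp, by simp⟩
    have hvy : v ≠ y := fun h => hvT (by simp [h])
    have hvT' : v ∉ T := fun h => hvT (by simp [h])
    obtain ⟨a, ha, hs'⟩ := ih (fun z hz => hT (by simp [hz])) hvT' hne'
    have hva : v ≠ a := fun h => hvT' (h ▸ ha)
    have hay : a ≠ y := fun h => hy (h ▸ ha)
    have n1 := hg v a y hva hvy hay
    by_cases h1 : 0 < s * D p v a y
    · refine ⟨a, by simp [ha], fun x hx hxa => ?_⟩
      rcases Finset.mem_insert.1 hx with rfl | hx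
      · exact h1
      · exact hs' x hx hxa
    · refine ⟨y, by simp, fun x hx hxy => ?_⟩
      rcases Finset.mem_insert.1 hx with rfl | hx
      · exact absurd rfl hxy
      have e1 := D_swap (p := p) v a y
      by_cases hxa : x = a
      · subst hxa
        rcases hs with rfl | rfl
        · have : D p v x y < 0 := lt_of_le_of_ne (by linarith) n1
          linarith
        · have : 0 < D p v x y := lt_of_le_of_ne (by linarith) n1.symm
          linarith
      have h2 := hs' x hx hxa
      have hvx : v ≠ x := fun h => hvT' (h ▸ hx)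
      have n2 := hg v y x hvy hvx (Ne.symm hxy)
      by_contra h3
      apply hv
      have e2 := D_swap (p := p) v y x
      have e3 := D_swap (p := p) v a x
      have ya : y ∈ S := hT (by simp)
      have aa : a ∈ S := hT (by simp [ha])
      have xa : x ∈ S := hT (by simp [hx])
      rcases hs with rfl | rfl
      · refine ⟨a, aa, x, xa, y, ya, ?_, ?_, ?_⟩
        · rw [← D_cyc]; linarith
        · rw [← D_cyc]; have : D p v y x < 0 := lt_of_le_of_ne (by linarith) n2
          linarith
        · rw [← D_cyc]; have : D p v a y < 0 := lt_of_le_of_ne (by linarith) n1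
          linarith
      · refine ⟨a, aa, y, ya, x, xa, ?_, ?_, ?_⟩
        · rw [← D_cyc]; exact lt_of_le_of_ne (by linarith) n1.symm
        · rw [← D_cyc]; exact lt_of_le_of_ne (by linarith) n2.symm
        · rw [← D_cyc]; linarith

lemma ends (hg : GP p) {S W : Finset V} {v : V} (hv : ¬ In p S v) (hW : W ⊆ S) (hvW : v ∉ W)
    (h2 : 2 ≤ W.card) :
    ∃ a ∈ W, ∃ c ∈ W, a ≠ c ∧ (∀ x ∈ W, x ≠ a → 0 < D p v a x) ∧
      (∀ x ∈ W, x ≠ c → D p v c x < 0) := by
  have hne : W.Nonempty := Finset.card_pos.1 (by omega)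
  obtain ⟨a, ha, h1⟩ := source hg hv 1 (Or.inl rfl) W hW hvW hne
  obtain ⟨c, hc, h3⟩ := source hg hv (-1) (Or.inr rfl) W hW hvW hne
  refine ⟨a, ha, c, hc, ?_, fun x hx hxa => by have := h1 x hx hxa; linarith,
    fun x hx hxa => by have := h3 x hx hxa; linarith⟩
  rintro rfl
  obtain ⟨x, hx, hxa⟩ := Finset.exists_mem_ne (show 1 < W.card by omega) a
  have := h1 x hx hxa
  have := h3 x hx hxa
  linarith

lemma af_of_notIn (hg : GP p) {S : Finset V} {v : V} (hv : ¬ In p S v) (h3 : 3 ≤ S.card) :
    ∃ α β γ : ℝ, ∀ z ∈ S, z ≠ v → af p α β γ v < af p α β γ z := by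
  obtain ⟨a, ha, c, hc, hac, h1, h2⟩ := ends hg hv (Finset.erase_subset v S) (by simp)
    (by have := Finset.pred_card_le_card_erase (s := S) (a := v); omega)
  obtain ⟨α, β, γ, e1⟩ := D_af (p := p) v a
  obtain ⟨α', β', γ', e2⟩ := D_af (p := p) v c
  have e : ∀ z, af p (α - α') (β - β') (γ - γ') z = D p v a z - D p v c z := by
    intro z; rw [e1, e2]; unfold af; ring
  refine ⟨α - α', β - β', γ - γ', fun z hz hzv => ?_⟩
  rw [e, e, D_aba, D_aba]
  have hz' : z ∈ S.erase v := by simp [hz, hzv]
  by_cases hza : z = a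
  · subst hza
    have := h2 z hz' hac
    rw [D_abb]; linarith
  · have k1 := h1 z hz' hza
    by_cases hzc : z = c
    · subst hzc; rw [D_abb]; linarith
    · have := h2 z hz' hzc
      linarith

/-- among three nonzero numbers with a positive relation there is a cyclic sign change -/
lemma cyc_sign {l1 l2 l3 x y z : ℝ} (h1 : 0 < l1) (h2 : 0 < l2) (h3 : 0 < l3)
    (e : l1 * z + l2 * x + l3 * y = 0) (hx : x ≠ 0) (hy : y ≠ 0) (hz : z ≠ 0) :
    (x < 0 ∧ 0 < y) ∨ (y < 0 ∧ 0 < z) ∨ (z < 0 ∧ 0 < x) := by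
  rcases lt_or_gt_of_ne hx with hx | hx <;> rcases lt_or_gt_of_ne hy with hy | hy <;>
    rcases lt_or_gt_of_ne hz with hz | hz <;> first
    | exact Or.inl ⟨hx, hy⟩
    | exact Or.inr (Or.inl ⟨hy, hz⟩)
    | exact Or.inr (Or.inr ⟨hz, hx⟩)
    | (exfalso; nlinarith [mul_pos h1 (neg_pos.2 hz), mul_pos h2 (neg_pos.2 hx),
        mul_pos h3 (neg_pos.2 hy)])
    | (exfalso; nlinarith [mul_pos h1 hz, mul_pos h2 hx, mul_pos h3 hy])

lemma baryD (w v a b c : V) :
    D p a b w * D p w v c + D p b c w * D p w v a + D p c a w * D p w v b = 0 := by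
  unfold D; ring

lemma mem_U {S : Finset V} {v w : V} :
    w ∈ U p S v ↔ w ∈ S ∧ w ≠ v ∧ ∀ a ∈ S, ∀ b ∈ S, ¬ Cr p v w a b := by simp [U]

lemma mem_H {S : Finset V} {w : V} : w ∈ H p S ↔ w ∈ S ∧ ¬ In p S w := by simp [H]

lemma neg_mul_pos {x y : ℝ} (hx : x < 0) (hy : 0 < y) : x * y < 0 := mul_neg_of_neg_of_pos hx hy

/-- (1) an uncrossed neighbour of an outer point is a hull vertex of the rest -/
lemma unc_notIn (hg : GP p) {W : Finset V} {v w : V} (hvW : v ∉ W) (hv : ¬ In p (insert v W) v)
    (hw : w ∈ U p (insert v W) v) : ¬ In p W w := by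
  obtain ⟨hw1, hw2, hw3⟩ := mem_U.1 hw
  have key : ∀ x ∈ W, ∀ y ∈ W, 0 < D p x y w → D p w v x < 0 → 0 < D p w v y → False := by
    intro x hx y hy h1 h2 h3
    have hxy := (ne_of_D h1.ne').1
    have n := hg x y v hxy (fun h => hvW (h ▸ hx)) (fun h => hvW (h ▸ hy))
    have ex : D p v w x = - D p w v x := by unfold D; ring
    have ey : D p v w y = - D p w v y := by unfold D; ring
    rcases lt_or_gt_of_ne n with n | n
    · refine hw3 x (by simp [hx]) y (by simp [hy]) ⟨?_, neg_mul_pos n h1⟩
      rw [ex, ey]; nlinarith [neg_mul_pos h2 h3]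
    · refine hv ⟨w, hw1, x, by simp [hx], y, by simp [hy], ?_, n, ?_⟩
      · rw [D_swap]; linarith
      · rw [D_cyc]; exact h3
  rintro ⟨a, ha, b, hb, c, hc, h1, h2, h3⟩
  have nz : ∀ x ∈ W, x ≠ w → D p w v x ≠ 0 := fun x hx hxw =>
    hg w v x hw2 (Ne.symm hxw) (fun h => hvW (h ▸ hx))
  rcases cyc_sign h1 h2 h3 (baryD w v a b c) (nz a ha (ne_of_D h1.ne').2.1)
    (nz b hb (ne_of_D h1.ne').2.2) (nz c hc (ne_of_D h2.ne').2.2) with h | h | h
  · exact key a ha b hb h1 h.1 h.2
  · exact key b hb c hc h2 h.1 h.2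
  · exact key c hc a ha h3 h.1 h.2

lemma In_insert {W : Finset V} {v w : V} (h : In p (insert v W) w) (h' : ¬ In p W w) :
    ∃ x ∈ W, ∃ y ∈ W, 0 < D p v x w ∧ 0 < D p x y w ∧ 0 < D p y v w := by
  obtain ⟨a, ha, b, hb, c, hc, h1, h2, h3⟩ := h
  have n1 := (ne_of_D h1.ne').1
  have n2 := (ne_of_D h2.ne').1
  have n3 := (ne_of_D h3.ne').1
  rcases Finset.mem_insert.1 ha with rfl | ha'
  · exact ⟨b, (Finset.mem_insert.1 hb).resolve_left (Ne.symm n1), c,
      (Finset.mem_insert.1 hc).resolve_left n3, h1, h2, h3⟩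
  rcases Finset.mem_insert.1 hb with rfl | hb'
  · exact ⟨c, (Finset.mem_insert.1 hc).resolve_left (Ne.symm n2), a, ha', h2, h3, h1⟩
  rcases Finset.mem_insert.1 hc with rfl | hc'
  · exact ⟨a, ha', b, hb', h3, h1, h2⟩
  exact absurd ⟨a, ha', b, hb', c, hc', h1, h2, h3⟩ h'

lemma pluck (w v a b c : V) :
    D p a b w * D p v w c + D p b c w * D p v w a + D p c a w * D p v w b = 0 := by
  unfold D; ring

/-- (2) a hull vertex that disappears is an uncrossed neighbour -/
lemma lost_unc (hg : GP p) {W : Finset V} {v w : V} (hvW : v ∉ W) (hw : w ∈ W)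
    (h : In p (insert v W) w) (h' : ¬ In p W w) : w ∈ U p (insert v W) v := by
  obtain ⟨x, hx, y, hy, h1, h2, h3⟩ := In_insert h h'
  have hx' : D p v w x < 0 := by rw [D_swap]; linarith
  have hy' : 0 < D p v w y := by rw [← D_cyc]; exact h3
  have key : ∀ a ∈ W, ∀ b ∈ W, D p v w a < 0 → 0 < D p v w b → D p a b v * D p a b w < 0 →
      False := by
    intro a ha b hb k1 k2 k3
    have e : D p a b w - D p a b v = D p v w a - D p v w b := by unfold D; ring
    have k4 : D p a b w < 0 := by
      by_contra hc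
      push Not at hc
      have : 0 < D p a b v := by linarith
      nlinarith [mul_nonneg this.le hc]
    have hay : a ≠ y := by rintro rfl; linarith
    have n := hg a y w hay (ne_of_D k1.ne).2.2.symm (ne_of_D hy'.ne').2.2.symm
    have sb : D p b a w = - D p a b w := by unfold D; ring
    have sy : D p y a w = - D p a y w := by unfold D; ring
    rcases lt_or_gt_of_ne n with n | n
    · refine h' ⟨a, ha, x, hx, y, hy, ?_, h2, by linarith⟩
      have e2 := pluck (p := p) w v a x y
      by_contra hc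
      push Not at hc
      have t1 := mul_nonpos_of_nonpos_of_nonneg hc hy'.le
      have t2 := mul_neg_of_pos_of_neg h2 k1
      have t3 := mul_neg_of_pos_of_neg (show 0 < D p y a w by linarith) hx'
      linarith
    · refine h' ⟨a, ha, y, hy, b, hb, n, ?_, by linarith⟩
      have e2 := pluck (p := p) w v a y b
      by_contra hc
      push Not at hc
      have t1 := mul_pos n k2
      have t2 := mul_nonneg_of_nonpos_of_nonpos hc k1.le
      have t3 := mul_pos (show 0 < D p b a w by linarith) hy'
      linarith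
  refine mem_U.2 ⟨by simp [hw], fun h => hvW (h ▸ hw), fun a ha b hb hc => ?_⟩
  have na : D p v w a ≠ 0 := left_ne_zero_of_mul hc.1.ne
  have nb : D p v w b ≠ 0 := right_ne_zero_of_mul hc.1.ne
  have ha' := (Finset.mem_insert.1 ha).resolve_left (ne_of_D na).2.1.symm
  have hb' := (Finset.mem_insert.1 hb).resolve_left (ne_of_D nb).2.1.symm
  rcases mul_neg_iff.1 hc.1 with k | k
  · refine key b hb' a ha' k.2 k.1 ?_
    have s1 : D p b a w = - D p a b w := by unfold D; ring
    have s2 : D p b a v = - D p a b v := by unfold D; ring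
    rw [s1, s2]; linarith [hc.2]
  · exact key a ha' b hb' k.1 k.2 hc.2

lemma side_end (_hg : GP p) {W : Finset V} {v a : V} (hvW : v ∉ W) (ha : a ∈ W) (s : ℝ)
    (hs : ∀ x ∈ W, x ≠ a → 0 < s * D p v a x) :
    a ∈ U p (insert v W) v ∧ ¬ In p (insert v W) a := by
  have nn : ∀ x ∈ insert v W, 0 ≤ s * D p v a x := by
    intro x hx
    rcases Finset.mem_insert.1 hx with rfl | hx
    · rw [D_aba]; simp
    by_cases hxa : x = a
    · rw [hxa, D_abb]; simp
    · exact (hs x hx hxa).le
  constructor
  · refine mem_U.2 ⟨by simp [ha], fun h => hvW (h ▸ ha), fun x hx y hy hc => ?_⟩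
    have na : D p v a x ≠ 0 := left_ne_zero_of_mul hc.1.ne
    have nb : D p v a y ≠ 0 := right_ne_zero_of_mul hc.1.ne
    have hx' := (Finset.mem_insert.1 hx).resolve_left (ne_of_D na).2.1.symm
    have hy' := (Finset.mem_insert.1 hy).resolve_left (ne_of_D nb).2.1.symm
    have t := mul_pos (hs x hx' (ne_of_D na).2.2.symm) (hs y hy' (ne_of_D nb).2.2.symm)
    nlinarith [hc.1, sq_nonneg s]
  · rintro ⟨x, hx, y, hy, z, hz, h1, h2, h3⟩
    have e := pluck (p := p) a v x y z
    have e' : D p x y a * (s * D p v a z) + D p y z a * (s * D p v a x)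
        + D p z x a * (s * D p v a y) = 0 := by linear_combination s * e
    have t1 := mul_nonneg h1.le (nn z hz)
    have t2 := mul_nonneg h2.le (nn x hx)
    have t3 := mul_nonneg h3.le (nn y hy)
    have isv : ∀ t ∈ insert v W, t ≠ a → s * D p v a t ≤ 0 → t = v := by
      intro t ht hta h
      rcases Finset.mem_insert.1 ht with rfl | ht
      · rfl
      · linarith [hs t ht hta]
    have x0 := isv x hx (ne_of_D h1.ne').2.1 (by by_contra hc; push Not at hc; linarith [mul_pos h2 hc])
    have y0 := isv y hy (ne_of_D h1.ne').2.2 (by by_contra hc; push Not at hc; linarith [mul_pos h3 hc])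
    exact (ne_of_D h1.ne').1 (x0.trans y0.symm)

/-- (A) exact count when the new point is outside -/
lemma count_out (hg : GP p) {W : Finset V} {v : V} (hvW : v ∉ W) (h2 : 2 ≤ W.card)
    (hv : ¬ In p (insert v W) v) :
    (H p (insert v W)).card + (U p (insert v W) v).card = (H p W).card + 3 := by
  obtain ⟨a, ha, c, hc, hac, h1, h3⟩ := ends hg hv (Finset.subset_insert v W) hvW h2
  obtain ⟨a1, a2⟩ := side_end hg hvW ha 1 (fun x hx h => by linarith [h1 x hx h])
  obtain ⟨c1, c2⟩ := side_end hg hvW hc (-1) (fun x hx h => by linarith [h3 x hx h])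
  set L := (H p W).filter (fun w => In p (insert v W) w) with hL
  have e1 : H p (insert v W) = insert v ((H p W).filter (fun w => ¬ In p (insert v W) w)) := by
    ext w
    simp only [mem_H, Finset.mem_insert, Finset.mem_filter]
    constructor
    · rintro ⟨rfl | hw, k⟩
      · exact Or.inl rfl
      · exact Or.inr ⟨⟨hw, fun k' => k (In_mono (Finset.subset_insert v W) k')⟩, k⟩
    · rintro (rfl | ⟨⟨hw, -⟩, k⟩)
      · exact ⟨Or.inl rfl, hv⟩
      · exact ⟨Or.inr hw, k⟩
  have e2 : U p (insert v W) v = insert a (insert c L) := by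
    ext w
    simp only [Finset.mem_insert, hL, Finset.mem_filter, mem_H]
    constructor
    · intro hw
      obtain ⟨hw1, hw2, hw3⟩ := mem_U.1 hw
      have hwW := (Finset.mem_insert.1 hw1).resolve_left hw2
      by_cases hwa : w = a
      · exact Or.inl hwa
      by_cases hwc : w = c
      · exact Or.inr (Or.inl hwc)
      refine Or.inr (Or.inr ⟨⟨hwW, unc_notIn hg hvW hv hw⟩, v, by simp, a, by simp [ha], c,
        by simp [hc], h1 w hwW hwa, ?_, ?_⟩)
      · have n := hg a c w hac (Ne.symm hwa) (Ne.symm hwc)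
        by_contra hh
        have hh' : D p a c w < 0 := lt_of_le_of_ne (not_lt.1 hh) n
        refine hw3 a (by simp [ha]) c (by simp [hc]) ⟨?_, ?_⟩
        · refine neg_mul_pos ?_ ?_
          · rw [D_swap]; linarith [h1 w hwW hwa]
          · rw [D_swap]; linarith [h3 w hwW hwc]
        · refine mul_neg_of_pos_of_neg ?_ hh'
          rw [← D_cyc]; exact h1 c hc (Ne.symm hac)
      · have : D p c v w = - D p v c w := by unfold D; ring
        linarith [h3 w hwW hwc]
    · rintro (rfl | rfl | ⟨⟨hw, k⟩, k'⟩)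
      · exact a1
      · exact c1
      · exact lost_unc hg hvW hw k' k
  have e3 := Finset.card_filter_add_card_filter_not (s := H p W) (fun w => In p (insert v W) w)
  rw [e1, e2, Finset.card_insert_of_notMem, Finset.card_insert_of_notMem,
    Finset.card_insert_of_notMem]
  · rw [← hL] at e3; omega
  · simp [hL, c2]
  · simp [hL, a2, hac]
  · simp [mem_H, hvW]

/-- (B) nothing changes when the new point is inside -/
lemma count_in (hg : GP p) {W : Finset V} {v : V} (hvW : v ∉ W) (h3 : 3 ≤ W.card)
    (hv : In p (insert v W) v) : H p (insert v W) = H p W := by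
  ext w
  simp only [mem_H, Finset.mem_insert]
  constructor
  · rintro ⟨rfl | hw, k⟩
    · exact absurd hv k
    · exact ⟨hw, fun k' => k (In_mono (Finset.subset_insert v W) k')⟩
  · rintro ⟨hw, k⟩
    refine ⟨Or.inr hw, ?_⟩
    obtain ⟨α, β, γ, hf⟩ := af_of_notIn hg k h3
    refine notIn_of_af α β γ (fun z hz hzw => ?_)
    rcases Finset.mem_insert.1 hz with rfl | hz
    swap
    · exact hf z hz hzw
    obtain ⟨a, ha, b, hb, c, hc, h1, h2, h3⟩ := hv
    have ha' := (Finset.mem_insert.1 ha).resolve_left (ne_of_D h1.ne').2.1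
    have hb' := (Finset.mem_insert.1 hb).resolve_left (ne_of_D h1.ne').2.2
    have hc' := (Finset.mem_insert.1 hc).resolve_left (ne_of_D h2.ne').2.2
    have e := bary (p := p) α β γ a b c z
    have ge : ∀ t ∈ W, af p α β γ w ≤ af p α β γ t := fun t ht => by
      by_cases h : t = w
      · rw [h]
      · exact (hf t ht h).le
    by_contra hh
    push Not at hh
    have t1 := mul_nonneg h1.le (sub_nonneg.2 (hh.trans (ge c hc')))
    have t2 := mul_nonneg h2.le (sub_nonneg.2 (hh.trans (ge a ha')))
    have t3 := mul_nonneg h3.le (sub_nonneg.2 (hh.trans (ge b hb')))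
    have isw : ∀ t ∈ W, af p α β γ t - af p α β γ z ≤ 0 → t = w := by
      intro t ht h
      by_contra hne
      linarith [hf t ht hne]
    have x0 := isw a ha' (by by_contra hc; push Not at hc; linarith [mul_pos h2 hc])
    have y0 := isw b hb' (by by_contra hc; push Not at hc; linarith [mul_pos h3 hc])
    exact (ne_of_D h1.ne').1 (x0.trans y0.symm)

/-- an inner point has at most three uncrossed edges -/
lemma U_le_three (hg : GP p) {S : Finset V} {v : V} (hv : In p S v) : (U p S v).card ≤ 3 := by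
  set T := (S ×ˢ S ×ˢ S).filter (fun t => 0 < D p t.1 t.2.1 v ∧ 0 < D p t.2.1 t.2.2 v ∧
    0 < D p t.2.2 t.1 v) with hT
  have hne : T.Nonempty := by
    obtain ⟨a, ha, b, hb, c, hc, h⟩ := hv
    exact ⟨(a, b, c), by simp [hT, ha, hb, hc, h]⟩
  obtain ⟨⟨a, b, c⟩, hm, hmin⟩ := T.exists_min_image (fun t => D p t.1 t.2.1 t.2.2) hne
  simp only [hT, Finset.mem_filter, Finset.mem_product] at hm
  obtain ⟨⟨ha, hb, hc⟩, h1, h2, h3⟩ := hm
  have hmin' : ∀ x ∈ S, ∀ y ∈ S, ∀ z ∈ S, 0 < D p x y v → 0 < D p y z v → 0 < D p z x v →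
      D p a b c ≤ D p x y z := fun x hx y hy z hz k1 k2 k3 =>
    hmin (x, y, z) (by simp [hT, hx, hy, hz, k1, k2, k3])
  have key : ∀ w ∈ U p S v, ∀ x ∈ S, ∀ y ∈ S, ∀ z ∈ S, 0 < D p x y v → 0 < D p y z v →
      0 < D p z x v → D p a b c = D p x y z → D p v w x < 0 → 0 < D p v w y → D p v w z ≠ 0 →
      False := by
    intro w hw x hx y hy z hz k1 k2 k3 ke s1 s2 s3
    obtain ⟨hw1, hw2, hw3⟩ := mem_U.1 hw
    have n := hg x y w (ne_of_D k1.ne').1 (ne_of_D s1.ne).2.2.symm (ne_of_D s2.ne').2.2.symm
    have k4 : 0 < D p x y w := by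
      by_contra hh
      exact hw3 x hx y hy ⟨neg_mul_pos s1 s2,
        mul_neg_of_pos_of_neg k1 (lt_of_le_of_ne (not_lt.1 hh) n)⟩
    have tot : D p x y z = D p x y w + D p y z w + D p z x w := by unfold D; ring
    have tv : D p x y z = D p x y v + D p y z v + D p z x v := by unfold D; ring
    have big : 0 < D p v x y := by rw [D_cyc]; exact k1
    have i1 : D p v x y * D p z x w = D p x y w * D p z x v + (- D p v w x) * D p x y z := by
      unfold D; ring
    have i2 : D p v x y * D p y z w = D p x y w * D p y z v + D p v w y * D p x y z := by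
      unfold D; ring
    have p0 : 0 < D p x y z := by linarith
    have j1 : 0 < D p z x w := by
      have : 0 < D p v x y * D p z x w := by
        rw [i1]; exact add_pos (mul_pos k4 k3) (mul_pos (neg_pos.2 s1) p0)
      exact (pos_iff_pos_of_mul_pos this).1 big
    have j2 : 0 < D p y z w := by
      have : 0 < D p v x y * D p y z w := by
        rw [i2]; exact add_pos (mul_pos k4 k2) (mul_pos s2 p0)
      exact (pos_iff_pos_of_mul_pos this).1 big
    rcases lt_or_gt_of_ne s3 with s3 | s3
    · have := hmin' w hw1 y hy z hz (by rw [← D_cyc]; exact s2) k2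
        (by have : D p z w v = - D p v w z := by unfold D; ring
            linarith)
      have e : D p w y z = D p y z w := D_cyc _ _ _
      linarith
    · have := hmin' x hx w hw1 z hz
        (by have : D p x w v = - D p v w x := by unfold D; ring
            linarith) (by rw [← D_cyc]; exact s3) k3
      have e : D p x w z = D p z x w := by unfold D; ring
      linarith
  have hsub : U p S v ⊆ {a, b, c} := by
    intro w hw
    by_contra hh
    simp only [Finset.mem_insert, Finset.mem_singleton, not_or] at hh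
    have hw2 := (mem_U.1 hw).2.1
    have nz : ∀ x, x ≠ v → w ≠ x → D p v w x ≠ 0 := fun x h h' => hg v w x hw2.symm h.symm h'
    have na := nz a (ne_of_D h1.ne').2.1 hh.1
    have nb := nz b (ne_of_D h1.ne').2.2 hh.2.1
    have nc := nz c (ne_of_D h2.ne').2.2 hh.2.2
    rcases cyc_sign h1 h2 h3 (baryD v w a b c) na nb nc with h | h | h
    · exact key w hw a ha b hb c hc h1 h2 h3 rfl h.1 h.2 nc
    · exact key w hw b hb c hc a ha h2 h3 h1 (D_cyc _ _ _) h.1 h.2 na
    · exact key w hw c hc a ha b hb h3 h1 h2 (D_cyc _ _ _).symm h.1 h.2 nb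
  exact (Finset.card_le_card hsub).trans (Finset.card_le_three)

/-- (C) -/
lemma three_le_U {q : V → ℝ × ℝ} (hg : GP p) (hgq : GP q)
    (hX : ∀ x y u w, Cr p x y u w → Cr q x y u w) {W : Finset V} {v : V} (hvW : v ∉ W)
    (h3 : 3 ≤ W.card) (hv : ¬ In p (insert v W) v) (hq : In q (insert v W) v) :
    3 ≤ (U p (insert v W) v).card := by
  obtain ⟨a, ha, c, hc, hac, h1, h4⟩ := ends hg hv (Finset.subset_insert v W) hvW (by omega)
  obtain ⟨a1, -⟩ := side_end hg hvW ha 1 (fun x hx h => by linarith [h1 x hx h])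
  obtain ⟨c1, -⟩ := side_end hg hvW hc (-1) (fun x hx h => by linarith [h4 x hx h])
  have vac : 0 < D p a c v := by rw [← D_cyc]; exact h1 c hc hac.symm
  obtain ⟨b, hb, hmax⟩ := W.exists_max_image (fun x => D p a c x) ⟨a, ha⟩
  by_cases hpos : 0 < D p a c b
  · have hba := (ne_of_D hpos.ne').2.1
    have hbc := (ne_of_D hpos.ne').2.2
    have hlt : D p a c b < D p a c v := by
      have : D p a c v = D p a c b + D p v a b - D p v c b := by unfold D; ring
      linarith [h1 b hb hba.symm, h4 b hb hbc.symm]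
    have b1 : b ∈ U p (insert v W) v := by
      refine mem_U.2 ⟨by simp [hb], fun h => hvW (h ▸ hb), fun x hx y hy hcr => ?_⟩
      have na : D p v b x ≠ 0 := left_ne_zero_of_mul hcr.1.ne
      have nb : D p v b y ≠ 0 := right_ne_zero_of_mul hcr.1.ne
      have hx' := (Finset.mem_insert.1 hx).resolve_left (ne_of_D na).2.1.symm
      have hy' := (Finset.mem_insert.1 hy).resolve_left (ne_of_D nb).2.1.symm
      have mx := sub_nonneg.2 (hmax x hx')
      have my := sub_nonneg.2 (hmax y hy')
      have e : D p x y b * (D p a c v - D p a c b) =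
          D p v b y * (D p a c b - D p a c x) - D p v b x * (D p a c b - D p a c y) := by
        unfold D; ring
      have e2 : D p x y b - D p x y v = D p v b x - D p v b y := by unfold D; ring
      have hd := sub_pos.2 hlt
      obtain ⟨c1, c2⟩ := hcr
      rcases mul_neg_iff.1 c1 with k | k <;> rcases mul_neg_iff.1 c2 with l | l
      · linarith [k.1, k.2, l.1, l.2]
      · linarith [mul_pos l.2 hd, mul_nonneg k.1.le my, mul_nonneg (neg_pos.2 k.2).le mx]
      · linarith [mul_neg_of_neg_of_pos l.2 hd, mul_nonneg (neg_pos.2 k.1).le my,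
          mul_nonneg k.2.le mx]
      · linarith [k.1, k.2, l.1, l.2]
    have : ({a, c, b} : Finset V) ⊆ U p (insert v W) v := by
      intro w hw
      simp only [Finset.mem_insert, Finset.mem_singleton] at hw
      rcases hw with rfl | rfl | rfl <;> assumption
    have h := Finset.card_le_card this
    rwa [Finset.card_eq_three.2 ⟨a, c, b, hac, hba, hbc, rfl⟩] at h
  · exfalso
    have all : ∀ x ∈ W, x ≠ a → x ≠ c → D q a c v * D q a c x < 0 := by
      intro x hx hxa hxc
      have n := hg a c x hac hxa.symm hxc.symm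
      have : D p a c x < 0 := lt_of_le_of_ne ((hmax x hx).trans (not_lt.1 hpos)) n
      refine (hX v x a c ⟨neg_mul_pos ?_ ?_, mul_neg_of_pos_of_neg vac this⟩).2
      · rw [D_swap]; linarith [h1 x hx hxa]
      · rw [D_swap]; linarith [h4 x hx hxc]
    have nq : D q a c v ≠ 0 := hgq a c v hac (fun h => hvW (h ▸ ha)) (fun h => hvW (h ▸ hc))
    obtain ⟨α, β, γ, e⟩ := D_af (p := q) a c
    set s := D q a c v with hs
    have e' : ∀ z, af q (-s * α) (-s * β) (-s * γ) z = - (s * D q a c z) := by
      intro z; rw [e]; unfold af; ring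
    refine notIn_of_af (p := q) (-s * α) (-s * β) (-s * γ) (fun z hz hzv => ?_) hq
    have hz' := (Finset.mem_insert.1 hz).resolve_left hzv
    rw [e', e', ← hs]
    have ss : 0 < s * s := mul_self_pos.2 nq
    by_cases hza : z = a
    · rw [hza, D_aba]; linarith
    by_cases hzc : z = c
    · rw [hzc, D_abb]; linarith
    linarith [all z hz' hza hzc]

lemma step {q : V → ℝ × ℝ} (hg : GP p) (hgq : GP q)
    (hX : ∀ x y u w, Cr p x y u w → Cr q x y u w) {W : Finset V} {v : V} (hvW : v ∉ W)
    (h3 : 3 ≤ W.card) :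
    (H p (insert v W)).card + (H q W).card ≤ (H q (insert v W)).card + (H p W).card := by
  have hU : (U q (insert v W) v).card ≤ (U p (insert v W) v).card := by
    refine Finset.card_le_card (fun w hw => ?_)
    obtain ⟨h1, h2, h4⟩ := mem_U.1 hw
    exact mem_U.2 ⟨h1, h2, fun a ha b hb hc => h4 a ha b hb (hX _ _ _ _ hc)⟩
  by_cases hp : In p (insert v W) v <;> by_cases hq : In q (insert v W) v
  · rw [count_in hg hvW h3 hp, count_in hgq hvW h3 hq]; omega
  · have := count_out hgq hvW (by omega) hq
    have := U_le_three hg hp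
    rw [count_in hg hvW h3 hp]; omega
  · have := count_out hg hvW (by omega) hp
    have := three_le_U hg hgq hX hvW h3 hp hq
    rw [count_in hgq hvW h3 hq]; omega
  · have := count_out hg hvW (by omega) hp
    have := count_out hgq hvW (by omega) hq
    omega

lemma Cr_ne {x y u w : V} (h : Cr p x y u w) :
    x ≠ y ∧ x ≠ u ∧ x ≠ w ∧ y ≠ u ∧ y ≠ w ∧ u ≠ w := by
  have a := ne_of_D (left_ne_zero_of_mul h.1.ne)
  have b := ne_of_D (right_ne_zero_of_mul h.1.ne)
  have c := ne_of_D (left_ne_zero_of_mul h.2.ne)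
  exact ⟨a.1, a.2.1, b.2.1, a.2.2, b.2.2, c.1⟩

lemma notIn_of_side {x y u w : V} (h : D p u w x * D p u w y < 0) (S : Finset V)
    (hS : ∀ z ∈ S, z = x ∨ z = y ∨ z = u ∨ z = w) : ¬ In p S x := by
  obtain ⟨α, β, γ, e⟩ := D_af (p := p) u w
  set s := D p u w x with hs
  have e' : ∀ z, af p (-s * α) (-s * β) (-s * γ) z = - (s * D p u w z) := by
    intro z; rw [e]; unfold af; ring
  have ss : 0 < s * s := mul_self_pos.2 (left_ne_zero_of_mul h.ne)
  refine notIn_of_af (-s * α) (-s * β) (-s * γ) (fun z hz hzv => ?_)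
  rw [e', e', ← hs]
  rcases hS z hz with rfl | rfl | rfl | rfl
  · exact absurd rfl hzv
  · linarith
  · rw [D_aba]; linarith
  · rw [D_abb]; linarith

lemma base {q : V → ℝ × ℝ} (hg : GP p)
    (hX : ∀ x y u w, Cr p x y u w → Cr q x y u w) {x y u w : V} (hq : Cr q x y u w)
    (hp : ¬ Cr p x y u w) :
    (H p {x, y, u, w}).card < (H q {x, y, u, w}).card := by
  obtain ⟨n1, n2, n3, n4, n5, n6⟩ := Cr_ne hq
  have e1 : H q {x, y, u, w} = {x, y, u, w} := by
    refine Finset.filter_true_of_mem (fun z hz => ?_)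
    simp only [Finset.mem_insert, Finset.mem_singleton] at hz
    rcases hz with rfl | rfl | rfl | rfl
    · exact notIn_of_side hq.2 _ (by simp)
    · exact notIn_of_side (y := x) (u := u) (w := w) (by linarith [hq.2]) _ (by simp)
    · exact notIn_of_side hq.1 _ (by simp)
    · exact notIn_of_side (y := u) (u := x) (w := y) (by linarith [hq.1]) _ (by simp)
  rw [e1]
  refine Finset.card_lt_card ⟨Finset.filter_subset _ _, fun hs => ?_⟩
  have hx := (mem_H.1 (hs (show x ∈ ({x, y, u, w} : Finset V) by simp))).2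
  have hy := (mem_H.1 (hs (show y ∈ ({x, y, u, w} : Finset V) by simp))).2
  have hu := (mem_H.1 (hs (show u ∈ ({x, y, u, w} : Finset V) by simp))).2
  have hw := (mem_H.1 (hs (show w ∈ ({x, y, u, w} : Finset V) by simp))).2
  have k1 : ¬ Cr p x u y w := by
    intro h
    obtain ⟨a1, a2⟩ := hX _ _ _ _ h
    obtain ⟨b1, b2⟩ := hq
    have s1 : D q x u y = - D q x y u := D_swap _ _ _
    have s2 : D q x u w = D q u w x := D_cyc _ _ _
    have s3 : D q y w x = D q x y w := by unfold D; ring
    have s4 : D q y w u = - D q u w y := by unfold D; ring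
    rw [s1, s2] at a1; rw [s3, s4] at a2
    have := mul_pos_of_neg_of_neg b1 b2
    have t1 : 0 < D q x y u * D q u w x := by linarith
    have t2 : 0 < D q x y w * D q u w y := by linarith
    have e : D q u w x - D q u w y = D q x y w - D q x y u := by unfold D; ring
    rcases mul_neg_iff.1 b1 with k | k <;> rcases mul_neg_iff.1 b2 with l | l <;>
      nlinarith [k.1, k.2, l.1, l.2]
  have k2 : ¬ Cr p x w y u := by
    intro h
    obtain ⟨a1, a2⟩ := hX _ _ _ _ h
    obtain ⟨b1, b2⟩ := hq
    have s1 : D q x w y = - D q x y w := D_swap _ _ _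
    have s2 : D q x w u = - D q u w x := by unfold D; ring
    have s3 : D q y u x = D q x y u := by unfold D; ring
    have s4 : D q y u w = D q u w y := D_cyc _ _ _
    rw [s1, s2] at a1; rw [s3, s4] at a2
    have e : D q u w x - D q u w y = D q x y w - D q x y u := by unfold D; ring
    rcases mul_neg_iff.1 b1 with k | k <;> rcases mul_neg_iff.1 b2 with l | l <;>
      nlinarith [k.1, k.2, l.1, l.2]
  have m1 := hg x y u n1 n2 n4
  have m2 := hg x y w n1 n3 n5
  have m3 := hg u w x n6 n2.symm n3.symm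
  have m4 := hg u w y n6 n4.symm n5.symm
  have e : D p u w x - D p u w y = D p x y w - D p x y u := by unfold D; ring
  have tri : ∀ a b c t : V, a ∈ ({x, y, u, w} : Finset V) → b ∈ ({x, y, u, w} : Finset V) →
      c ∈ ({x, y, u, w} : Finset V) → ¬ In p {x, y, u, w} t →
      ¬ (0 < D p a b t ∧ 0 < D p b c t ∧ 0 < D p c a t) ∧
      ¬ (D p a b t < 0 ∧ D p b c t < 0 ∧ D p c a t < 0) := by
    intro a b c t ha hb hc ht
    refine ⟨fun h => ht ⟨a, ha, b, hb, c, hc, h⟩, fun h => ht ⟨a, ha, c, hc, b, hb, ?_, ?_, ?_⟩⟩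
    · have : D p a c t = - D p c a t := by unfold D; ring
      linarith [h.2.2]
    · have : D p c b t = - D p b c t := by unfold D; ring
      linarith [h.2.1]
    · have : D p b a t = - D p a b t := by unfold D; ring
      linarith [h.1]
  have tx := tri y u w x (by simp) (by simp) (by simp) hx
  have ty := tri x u w y (by simp) (by simp) (by simp) hy
  have tu := tri x y w u (by simp) (by simp) (by simp) hu
  have tw := tri x y u w (by simp) (by simp) (by simp) hw
  unfold Cr at hp k1 k2
  have r1 : D p y u x = D p x y u := by unfold D; ring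
  have r2 : D p w y x = - D p x y w := by unfold D; ring
  have r3 : D p x u y = - D p x y u := by unfold D; ring
  have r4 : D p w x y = D p x y w := by unfold D; ring
  have r5 : D p y w u = - D p u w y := by unfold D; ring
  have r6 : D p w x u = D p u w x := by unfold D; ring
  have r7 : D p y u w = D p u w y := by unfold D; ring
  have r8 : D p u x w = - D p u w x := by unfold D; ring
  have r9 : D p x u w = D p u w x := by unfold D; ring
  have r10 : D p y w x = D p x y w := by unfold D; ring
  have r11 : D p x w y = - D p x y w := by unfold D; ring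
  have r12 : D p x w u = - D p u w x := by unfold D; ring
  rw [r1, r2] at tx; rw [r3, r4] at ty; rw [r5, r6] at tu; rw [r7, r8] at tw
  rw [r3, r9, r10, r5] at k1; rw [r11, r12, r1, r7] at k2
  generalize D p x y u = A at *
  generalize D p x y w = B at *
  generalize D p u w x = C at *
  generalize D p u w y = E at *
  rcases lt_or_gt_of_ne m1 with a | a <;> rcases lt_or_gt_of_ne m2 with b | b <;>
    rcases lt_or_gt_of_ne m3 with c | c <;> rcases lt_or_gt_of_ne m4 with d | d <;> first
    | linarith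
    | exact tx.1 ⟨by linarith, by linarith, by linarith⟩
    | exact tx.2 ⟨by linarith, by linarith, by linarith⟩
    | exact ty.1 ⟨by linarith, by linarith, by linarith⟩
    | exact ty.2 ⟨by linarith, by linarith, by linarith⟩
    | exact tu.1 ⟨by linarith, by linarith, by linarith⟩
    | exact tu.2 ⟨by linarith, by linarith, by linarith⟩
    | exact tw.1 ⟨by linarith, by linarith, by linarith⟩
    | exact tw.2 ⟨by linarith, by linarith, by linarith⟩
    | exact hp ⟨by nlinarith, by nlinarith⟩
    | exact k1 ⟨by nlinarith, by nlinarith⟩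
    | exact k2 ⟨by nlinarith, by nlinarith⟩

theorem main [Fintype V] {q : V → ℝ × ℝ} (hg : GP p) (hgq : GP q)
    (hX : ∀ x y u w, Cr p x y u w → Cr q x y u w) {x y u w : V} (hq : Cr q x y u w)
    (hp : ¬ Cr p x y u w) : (H p Finset.univ).card < (H q Finset.univ).card := by
  obtain ⟨n1, n2, n3, n4, n5, n6⟩ := Cr_ne hq
  have c3 : 3 ≤ ({x, y, u, w} : Finset V).card := by
    have : ({x, y, u} : Finset V) ⊆ {x, y, u, w} := by intro z; simp; tauto
    have h := Finset.card_le_card this
    rwa [Finset.card_eq_three.2 ⟨x, y, u, n1, n2, n4, rfl⟩] at h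
  have key : ∀ T : Finset V, (H p (T ∪ {x, y, u, w})).card < (H q (T ∪ {x, y, u, w})).card := by
    intro T
    induction T using Finset.induction_on with
    | empty => simpa using base hg hX hq hp
    | insert v T hv ih =>
      rw [Finset.insert_union]
      by_cases h : v ∈ T ∪ {x, y, u, w}
      · rwa [Finset.insert_eq_of_mem h]
      · have := step hg hgq hX h (c3.trans (Finset.card_le_card Finset.subset_union_right))
        omega
  simpa [Finset.union_eq_left.2 (Finset.subset_univ _)] using key Finset.univ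

end Pool.Agent.H3.HullA
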