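import Pool.Agent.H3.IrCore
import Pool.Agent.H3.IrData

set_option autoImplicit false

namespace Pool.Agent.H3.Ir

open Pool.Agent.H3.Rup Pool.Agent.H3.IrData

theorem c3 : allR (chk db ok) 18928 10 3072 = true := by decide +kernel

theorem c4 : allR (chk db ok) 18928 10 4096 = true := by decide +kernel

theorem c5 : allR (chk db ok) 18928 10 5120 = true := by decide +kernel

theorem c6 : allR (chk db ok) 18928 10 6144 = true := by decide +kernel

end Pool.Agent.H3.Ir
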