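import Pool.Agent.H3.IrCore
import Pool.Agent.H3.IrData

set_option autoImplicit false

namespace Pool.Agent.H3.Ir

open Pool.Agent.H3.Rup Pool.Agent.H3.IrData

theorem c7 : allR (chk db ok) 18928 10 7168 = true := by decide +kernel

theorem c8 : allR (chk db ok) 18928 10 8192 = true := by decide +kernel

theorem c9 : allR (chk db ok) 18928 10 9216 = true := by decide +kernel

theorem c10 : allR (chk db ok) 18928 10 10240 = true := by decide +kernel

theorem c11 : allR (chk db ok) 18928 10 11264 = true := by decide +kernel

theorem c12 : allR (chk db ok) 18928 10 12288 = true := by decide +kernel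

end Pool.Agent.H3.Ir
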