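import Pool.Agent.H3.IrCore
import Pool.Agent.H3.IrData

set_option autoImplicit false

namespace Pool.Agent.H3.Ir

open Pool.Agent.H3.Rup Pool.Agent.H3.IrData

theorem c13 : allR (chk db ok) 18928 10 13312 = true := by decide +kernel

theorem c14 : allR (chk db ok) 18928 10 14336 = true := by decide +kernel

theorem c15 : allR (chk db ok) 18928 10 15360 = true := by decide +kernel

theorem c16 : allR (chk db ok) 18928 10 16384 = true := by decide +kernel

theorem c17 : allR (chk db ok) 18928 10 17408 = true := by decide +kernel

theorem c18 : allR (chk db ok) 18928 10 18432 = true := by decide +kernel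

end Pool.Agent.H3.Ir
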