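import Pool.Agent.H3.P6Core

set_option autoImplicit false

namespace Pool.Agent.H3.Ir

open Pool.Agent.H3.Rup Pool.Agent.H3.P6

abbrev V := Fin 17

def nb (a b : V) : Bool := Nat.testBit 0x11129411090014408118000c100104104110104004108107105004148114104500107c043 (17 * a.val + b.val)

def f (v : ℕ) : V := Fin.ofNat 17 v

def vx (H q : ℕ) : V := f ((H >>> (4 + 5 * q)) % 32)

def dn (H q : ℕ) : ℕ := (H >>> (4 + 5 * q)) % 32

def wv (v : V) : ℕ := 1 + v.val
def xv (v : V) : ℕ := 18 + v.val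
def sv (i c : ℕ) : ℕ := 35 + 7 * i + c
def iv (u v : V) : ℕ := 161 + 17 * u.val + v.val
def kv (t v : V) : ℕ := 450 + 17 * t.val + v.val
def p (y : ℕ) : ℕ := 2 ^ (2 * y)
def q (y : ℕ) : ℕ := 2 ^ (2 * y + 1)
def row (d : ℕ) : ℕ := (0x11129411090014408118000c100104104110104004108107105004148114104500107c043 >>> (17 * d)) % 131072

def cnt (B : ℕ) : ℕ → ℕ
  | 0 => 0
  | n + 1 => if B.testBit n then cnt B n + 1 else cnt B n

noncomputable def ok (C H : ℕ) : Bool :=
  if H % 16 = 0 then C == q (xv (vx H 0)) ||| p (wv (vx H 0))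
  else if H % 16 = 1 then C == q (xv (vx H 0)) |||
    orL (fun u => if nb (f u) (vx H 0) then p (iv (f u) (vx H 0)) else 0) 17
  else if H % 16 = 2 then C == q (iv (vx H 0) (vx H 1)) ||| p (wv (vx H 0))
  else if H % 16 = 3 then nb (vx H 0) (vx H 2) && vx H 2 != vx H 1 &&
    C == q (iv (vx H 0) (vx H 1)) ||| q (xv (vx H 2))
  else if H % 16 = 4 then C == q (wv (vx H 0)) ||| p (xv (vx H 0)) |||
    orL (fun v => p (kv (vx H 0) (f v))) 17
  else if H % 16 = 5 then vx H 1 != vx H 0 && C == q (kv (vx H 0) (vx H 1)) ||| p (xv (vx H 1))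
  else if H % 16 = 6 then nb (vx H 2) (vx H 1) && (vx H 0 == vx H 1 || !nb (vx H 2) (vx H 0)) &&
    C == q (kv (vx H 0) (vx H 1)) ||| q (wv (vx H 2)) |||
      orL (fun z => if nb (vx H 2) (f z) && f z != vx H 1 then p (xv (f z)) else 0) 17
  else if H % 16 = 7 then C == p (sv 0 0)
  else if H % 16 = 8 then decide (dn H 0 < 17) && decide (dn H 1 < 7) &&
    C == q (sv (dn H 0) (dn H 1)) ||| p (sv (dn H 0 + 1) (dn H 1))
  else if H % 16 = 9 then decide (dn H 0 < 17) && decide (dn H 1 < 6) &&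
    C == q (sv (dn H 0) (dn H 1)) ||| q (xv (vx H 0)) ||| p (sv (dn H 0 + 1) (dn H 1 + 1))
  else if H % 16 = 10 then C == q (sv 17 6)
  else force (H >>> 4) fun B => force (cnt B 17) fun c =>
    force (orL (fun d => if B.testBit d then row d else 0) 17) fun m =>
    decide (c < 7) && C == q (sv 17 c) |||
      orL (fun d => if B.testBit d then q (wv (f d)) else 0) 17 |||
      orL (fun v => if m.testBit v then 0 else p (wv (f v))) 17

end Pool.Agent.H3.Ir
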