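import Pool.Agent.H3.IrChk0
import Pool.Agent.H3.IrChk1
import Pool.Agent.H3.IrChk2
import Pool.Agent.H3.IrChk3

set_option autoImplicit false

namespace Pool.Agent.H3.Ir

open Pool.Agent.H3.Rup Pool.Agent.H3.P6 Pool.Agent.H3.IrData

theorem call (i : ℕ) (hi : i < 18927 + 1) : chk db ok i = true := by
  by_cases h0 : i < 1024
  · exact allR_sound _ _ _ _ c0 i (by omega) (by omega) (by omega)
  by_cases h1 : i < 2048
  · exact allR_sound _ _ _ _ c1 i (by omega) (by omega) (by omega)
  by_cases h2 : i < 3072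
  · exact allR_sound _ _ _ _ c2 i (by omega) (by omega) (by omega)
  by_cases h3 : i < 4096
  · exact allR_sound _ _ _ _ c3 i (by omega) (by omega) (by omega)
  by_cases h4 : i < 5120
  · exact allR_sound _ _ _ _ c4 i (by omega) (by omega) (by omega)
  by_cases h5 : i < 6144
  · exact allR_sound _ _ _ _ c5 i (by omega) (by omega) (by omega)
  by_cases h6 : i < 7168
  · exact allR_sound _ _ _ _ c6 i (by omega) (by omega) (by omega)
  by_cases h7 : i < 8192
  · exact allR_sound _ _ _ _ c7 i (by omega) (by omega) (by omega)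
  by_cases h8 : i < 9216
  · exact allR_sound _ _ _ _ c8 i (by omega) (by omega) (by omega)
  by_cases h9 : i < 10240
  · exact allR_sound _ _ _ _ c9 i (by omega) (by omega) (by omega)
  by_cases h10 : i < 11264
  · exact allR_sound _ _ _ _ c10 i (by omega) (by omega) (by omega)
  by_cases h11 : i < 12288
  · exact allR_sound _ _ _ _ c11 i (by omega) (by omega) (by omega)
  by_cases h12 : i < 13312
  · exact allR_sound _ _ _ _ c12 i (by omega) (by omega) (by omega)
  by_cases h13 : i < 14336
  · exact allR_sound _ _ _ _ c13 i (by omega) (by omega) (by omega)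
  by_cases h14 : i < 15360
  · exact allR_sound _ _ _ _ c14 i (by omega) (by omega) (by omega)
  by_cases h15 : i < 16384
  · exact allR_sound _ _ _ _ c15 i (by omega) (by omega) (by omega)
  by_cases h16 : i < 17408
  · exact allR_sound _ _ _ _ c16 i (by omega) (by omega) (by omega)
  by_cases h17 : i < 18432
  · exact allR_sound _ _ _ _ c17 i (by omega) (by omega) (by omega)
  exact allR_sound _ _ _ _ c18 i (by omega) (by omega) (by omega)

theorem last : getC db 18927 >>> 32 = 0 := by decide +kernel

theorem nb_symm : ∀ a b : V, nb a b = nb b a := by decide +kernel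

theorem nb_refl : ∀ a : V, nb a a = true := by decide +kernel

theorem row_nb : ∀ a b : V, (row a.val).testBit b.val = nb b a := by decide +kernel

theorem f_val (v : V) : f v.val = v := by simp [f]

theorem val_f {v : ℕ} (h : v < 17) : (f v).val = v := Nat.mod_eq_of_lt h

theorem orL_bit (g : ℕ → ℕ) (n v : ℕ) :
    (orL g n).testBit v = true ↔ ∃ i < n, (g i).testBit v = true := by
  induction n with
  | zero => simp [orL]
  | succ n ih =>
    rw [orL, Nat.testBit_or, Bool.or_eq_true, ih]
    constructor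
    · rintro (h | ⟨i, hi, h⟩)
      exacts [⟨n, by omega, h⟩, ⟨i, by omega, h⟩]
    · rintro ⟨i, hi, h⟩
      by_cases e : i = n
      · exact Or.inl (e ▸ h)
      · exact Or.inr ⟨i, by omega, h⟩

theorem cnt_eq (B n : ℕ) : cnt B n = ((Finset.range n).filter fun d => B.testBit d = true).card := by
  induction n with
  | zero => rfl
  | succ n ih =>
    rw [cnt, Finset.range_add_one, Finset.filter_insert]
    split_ifs
    · rw [Finset.card_insert_of_notMem (by simp), ih]
    · exact ih

def Irr (W S : Finset V) : Prop :=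
  ∀ v ∈ S, ∃ u ∈ W, nb u v = true ∧ ∀ w ∈ S, w ≠ v → ¬ nb u w = true

def asg (W S : Finset V) (y : ℕ) : Prop :=
  if y < 18 then f (y - 1) ∈ W else if y < 35 then f (y - 18) ∈ S
  else if y < 161 then (y - 35) % 7 ≤ (S.filter fun v => v.val < (y - 35) / 7).card
  else if y < 450 then f ((y - 161) / 17) ∈ W ∧
    ∀ w ∈ S, w ≠ f ((y - 161) % 17) → ¬ nb (f ((y - 161) / 17)) w = true
  else f ((y - 450) % 17) ∈ insert (f ((y - 450) / 17)) S ∧ ∀ u ∈ W,
    nb u (f ((y - 450) % 17)) = true → ∃ w ∈ insert (f ((y - 450) / 17)) S,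
      w ≠ f ((y - 450) % 17) ∧ nb u w = true

variable (W S : Finset V)

theorem asg_w (v : V) : asg W S (wv v) ↔ v ∈ W := by
  have := v.isLt
  unfold asg wv
  rw [if_pos (by omega), Nat.add_sub_cancel_left, f_val]

theorem asg_x (v : V) : asg W S (xv v) ↔ v ∈ S := by
  have := v.isLt
  unfold asg xv
  rw [if_neg (by omega), if_pos (by omega), Nat.add_sub_cancel_left, f_val]

theorem asg_s {i c : ℕ} (hi : i < 18) (hc : c < 7) :
    asg W S (sv i c) ↔ c ≤ (S.filter fun v => v.val < i).card := by
  unfold asg sv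
  rw [if_neg (by omega), if_neg (by omega), if_pos (by omega),
    show (35 + 7 * i + c - 35) % 7 = c by omega, show (35 + 7 * i + c - 35) / 7 = i by omega]

theorem asg_i (u v : V) : asg W S (iv u v) ↔ u ∈ W ∧ ∀ w ∈ S, w ≠ v → ¬ nb u w = true := by
  have := u.isLt
  have := v.isLt
  unfold asg iv
  rw [if_neg (by omega), if_neg (by omega), if_neg (by omega), if_pos (by omega),
    show (161 + 17 * u.val + v.val - 161) % 17 = v.val by omega,
    show (161 + 17 * u.val + v.val - 161) / 17 = u.val by omega, f_val, f_val]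

theorem asg_k (t v : V) : asg W S (kv t v) ↔ v ∈ insert t S ∧ ∀ u ∈ W,
    nb u v = true → ∃ w ∈ insert t S, w ≠ v ∧ nb u w = true := by
  have := t.isLt
  have := v.isLt
  unfold asg kv
  rw [if_neg (by omega), if_neg (by omega), if_neg (by omega), if_neg (by omega),
    show (450 + 17 * t.val + v.val - 450) % 17 = v.val by omega,
    show (450 + 17 * t.val + v.val - 450) / 17 = t.val by omega, f_val, f_val]

theorem imp {P : ℕ → Prop} {a C : ℕ} (h : P a → Sat (lit P) C) : Sat (lit P) (q a ||| C) := by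
  by_cases c : P a
  · exact Sat.right _ (h c)
  · exact Sat.left _ (sat_neg c)

theorem small (h1 : S ⊆ W) (h2 : Irr W S) (h3 : ∀ x ∈ W, x ∉ S → ¬ Irr W (insert x S))
    (h4 : S.card ≤ 5) :
    ∃ D ⊆ W, (∀ x ∈ W, ∃ d ∈ D, nb x d = true) ∧ D.card ≤ S.card := by
  by_contra hD
  have hf : (S.filter fun v => v.val < 17) = S := Finset.filter_true_of_mem fun v _ => v.isLt
  refine refute db ok (asg W S) ?_ _ call last
  intro C H hok
  unfold ok at hok
  by_cases c0 : H % 16 = 0
  · rw [if_pos c0] at hok
    rw [beq_iff_eq.1 hok]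
    exact imp fun h => sat_pos ((asg_w W S _).2 (h1 ((asg_x W S _).1 h)))
  rw [if_neg c0] at hok
  by_cases c1 : H % 16 = 1
  · rw [if_pos c1] at hok
    rw [beq_iff_eq.1 hok]
    refine imp fun h => ?_
    obtain ⟨u, hu, e, hw⟩ := h2 _ ((asg_x W S _).1 h)
    refine sat_orL _ _ u.val u.isLt ?_
    rw [f_val, if_pos e]
    exact sat_pos ((asg_i W S _ _).2 ⟨hu, hw⟩)
  rw [if_neg c1] at hok
  by_cases c2 : H % 16 = 2
  · rw [if_pos c2] at hok
    rw [beq_iff_eq.1 hok]
    exact imp fun h => sat_pos ((asg_w W S _).2 ((asg_i W S _ _).1 h).1)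
  rw [if_neg c2] at hok
  by_cases c3 : H % 16 = 3
  · rw [if_pos c3] at hok
    simp only [Bool.and_eq_true, beq_iff_eq, bne_iff_ne] at hok
    rw [hok.2]
    exact imp fun h => sat_neg fun h' =>
      ((asg_i W S _ _).1 h).2 _ ((asg_x W S _).1 h') hok.1.2 hok.1.1
  rw [if_neg c3] at hok
  by_cases c4 : H % 16 = 4
  · rw [if_pos c4] at hok
    rw [beq_iff_eq.1 hok, Nat.or_assoc]
    refine imp fun h => ?_
    by_cases c : vx H 0 ∈ S
    · exact Sat.left _ (sat_pos ((asg_x W S _).2 c))
    · have := h3 _ ((asg_w W S _).1 h) c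
      unfold Irr at this
      push Not at this
      obtain ⟨v, hv, hu⟩ := this
      refine Sat.right _ (sat_orL _ _ v.val v.isLt ?_)
      rw [f_val]
      exact sat_pos ((asg_k W S _ _).2 ⟨hv, hu⟩)
  rw [if_neg c4] at hok
  by_cases c5 : H % 16 = 5
  · rw [if_pos c5] at hok
    simp only [Bool.and_eq_true, beq_iff_eq, bne_iff_ne] at hok
    rw [hok.2]
    exact imp fun h => sat_pos ((asg_x W S _).2
      ((Finset.mem_insert.1 ((asg_k W S _ _).1 h).1).resolve_left hok.1))
  rw [if_neg c5] at hok
  by_cases c6 : H % 16 = 6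
  · rw [if_pos c6] at hok
    simp only [Bool.and_eq_true, beq_iff_eq, Bool.or_eq_true, Bool.not_eq_true'] at hok
    rw [hok.2, Nat.or_assoc]
    refine imp fun h => imp fun h' => ?_
    obtain ⟨w, hw, ne, e⟩ := ((asg_k W S _ _).1 h).2 _ ((asg_w W S _).1 h') hok.1.1
    refine sat_orL _ _ w.val w.isLt ?_
    rw [f_val, if_pos (by simp [e, ne])]
    refine sat_pos ((asg_x W S _).2 ((Finset.mem_insert.1 hw).resolve_left fun c => ?_))
    subst c
    rcases hok.1.2 with c | c
    · exact ne c
    · rw [c] at e; exact absurd e (by simp)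
  rw [if_neg c6] at hok
  by_cases c7 : H % 16 = 7
  · rw [if_pos c7] at hok
    rw [beq_iff_eq.1 hok]
    exact sat_pos ((asg_s W S (by omega) (by omega)).2 (Nat.zero_le _))
  rw [if_neg c7] at hok
  by_cases c8 : H % 16 = 8
  · rw [if_pos c8] at hok
    simp only [Bool.and_eq_true, beq_iff_eq, decide_eq_true_eq] at hok
    rw [hok.2]
    refine imp fun h => sat_pos ((asg_s W S (by omega) hok.1.2).2
      (((asg_s W S (by omega) hok.1.2).1 h).trans (Finset.card_le_card fun v hv => ?_)))
    rw [Finset.mem_filter] at hv ⊢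
    exact ⟨hv.1, by omega⟩
  rw [if_neg c8] at hok
  by_cases c9 : H % 16 = 9
  · rw [if_pos c9] at hok
    simp only [Bool.and_eq_true, beq_iff_eq, decide_eq_true_eq] at hok
    rw [hok.2, Nat.or_assoc]
    have e : (vx H 0).val = dn H 0 := val_f hok.1.1
    refine imp fun h => imp fun h' => sat_pos ((asg_s W S (by omega) (by omega)).2 ?_)
    refine lt_of_le_of_lt ((asg_s W S (by omega) (by omega)).1 h) (Finset.card_lt_card ⟨?_, ?_⟩)
    · intro v hv
      rw [Finset.mem_filter] at hv ⊢
      exact ⟨hv.1, by omega⟩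
    · intro hs
      have := hs (Finset.mem_filter.2 ⟨(asg_x W S _).1 h', by omega⟩)
      have := (Finset.mem_filter.1 this).2
      omega
  rw [if_neg c9] at hok
  by_cases c10 : H % 16 = 10
  · rw [if_pos c10] at hok
    rw [beq_iff_eq.1 hok]
    refine sat_neg fun h => ?_
    have := (asg_s W S (by omega) (by omega)).1 h
    rw [hf] at this
    omega
  rw [if_neg c10] at hok
  · simp only [force_eq, Bool.and_eq_true, beq_iff_eq, decide_eq_true_eq] at hok
    generalize H >>> 4 = B at hok
    rw [hok.2, Nat.or_assoc]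
    refine imp fun h => ?_
    have hc := (asg_s W S (by omega) hok.1).1 h
    rw [hf] at hc
    by_contra hn
    refine hD ⟨((Finset.range 17).filter fun d => B.testBit d = true).image f, fun d hd => ?_,
      fun x hx => ?_, Finset.card_image_le.trans (by rw [← cnt_eq]; exact hc)⟩
    · obtain ⟨i, hi, rfl⟩ := Finset.mem_image.1 hd
      rw [Finset.mem_filter, Finset.mem_range] at hi
      by_contra c
      refine hn (Sat.left _ (sat_orL _ _ i hi.1 ?_))
      rw [if_pos hi.2]
      exact sat_neg fun c' => c ((asg_w W S _).1 c')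
    · by_contra c
      refine hn (Sat.right _ (sat_orL _ _ x.val x.isLt ?_))
      rw [if_neg, f_val]
      · exact sat_pos ((asg_w W S _).2 hx)
      · rw [orL_bit]
        rintro ⟨i, hi, e⟩
        split_ifs at e with b
        · refine c ⟨f i, Finset.mem_image_of_mem _ (by simp [hi, b]), ?_⟩
          rw [← row_nb, val_f hi]
          exact e
        · simp at e

def top (m : ℕ) : ℕ → ℕ
  | 0 => 0
  | n + 1 => if m.testBit n then n else top m n

theorem top_spec (m n : ℕ) (h : ∃ i < n, m.testBit i = true) : m.testBit (top m n) = true := by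
  induction n with
  | zero => simp at h
  | succ n ih =>
    unfold top
    split_ifs with c
    · exact c
    · obtain ⟨i, hi, e⟩ := h
      refine ih ⟨i, lt_of_le_of_ne (by omega) ?_, e⟩
      rintro rfl
      exact c e

noncomputable def srch (k : ℕ) : ℕ → Bool :=
  Nat.rec (motive := fun _ => ℕ → Bool) (fun m => m == 0)
    (fun _ ih m => m == 0 || force (top m 17) fun v => (List.range 17).any fun d =>
      (row d).testBit v && force (m ^^^ (m &&& row d)) ih) k

theorem srch_of (k : ℕ) : ∀ (m : ℕ) (D : Finset V), D.card ≤ k →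
    (∀ i, m.testBit i = true → i < 17 ∧ ∃ d ∈ D, nb (f i) d = true) → srch k m = true := by
  induction k with
  | zero =>
    intro m D hD h
    obtain rfl : D = ∅ := Finset.card_eq_zero.1 (by omega)
    change (m == 0) = true
    rw [beq_iff_eq]
    refine Nat.eq_of_testBit_eq fun i => ?_
    by_contra c
    simpa using (h i (by simpa using c)).2
  | succ k ih =>
    intro m D hD h
    change (m == 0 || force (top m 17) fun v => (List.range 17).any fun d =>
      (row d).testBit v && force (m ^^^ (m &&& row d)) (srch k)) = true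
    by_cases e : m = 0
    · simp [e]
    obtain ⟨i, hi⟩ := Nat.exists_testBit_of_ne_zero e
    have ht := top_spec m 17 ⟨i, (h i hi).1, hi⟩
    obtain ⟨h1, d, hd, e'⟩ := h _ ht
    simp only [force_eq, Bool.or_eq_true, List.any_eq_true, List.mem_range, Bool.and_eq_true]
    refine Or.inr ⟨d.val, d.isLt, by rw [← e', ← row_nb, val_f h1], ih _ (D.erase d) ?_ ?_⟩
    · rw [Finset.card_erase_of_mem hd]; omega
    · intro j hj
      simp only [Nat.testBit_xor, Nat.testBit_and] at hj
      have hm : m.testBit j = true := by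
        by_contra c
        simp [c] at hj
      obtain ⟨h2, d', hd', e2⟩ := h j hm
      refine ⟨h2, d', Finset.mem_erase.2 ⟨?_, hd'⟩, e2⟩
      rintro rfl
      rw [← row_nb, val_f h2] at e2
      simp [hm, e2] at hj

theorem srch_no : srch 6 (2 ^ 17 - 1) = false := by decide +kernel

theorem big (D : Finset V) (h : ∀ x, ∃ d ∈ D, nb x d = true) : 7 ≤ D.card := by
  by_contra hc
  have := srch_of 6 (2 ^ 17 - 1) D (by omega) fun i hi =>
    ⟨by rwa [Nat.testBit_two_pow_sub_one, decide_eq_true_eq] at hi, h _⟩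
  rw [srch_no] at this
  exact absurd this (by simp)

def G : SimpleGraph V where
  Adj a b := a ≠ b ∧ nb a b = true
  symm := ⟨fun a b h => ⟨h.1.symm, nb_symm a b ▸ h.2⟩⟩
  loopless := ⟨fun _ h => h.1 rfl⟩

theorem G_nb (a b : V) : (a = b ∨ G.Adj a b) ↔ nb a b = true := by
  constructor
  · rintro (rfl | h)
    exacts [nb_refl a, h.2]
  · intro h
    by_cases e : a = b
    exacts [Or.inl e, Or.inr ⟨e, h⟩]

instance (W S : Finset V) : Decidable (Irr W S) := by unfold Irr; infer_instance

theorem six : Irr Finset.univ {0, 1, 2, 3, 4, 5} ∧ ∀ x : V, x ∉ ({0, 1, 2, 3, 4, 5} : Finset V) →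
    ¬ Irr Finset.univ (insert x {0, 1, 2, 3, 4, 5}) := by decide +kernel

end Pool.Agent.H3.Ir
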