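import Mathlib
import Pool.Agent.H3.Flip2

set_option autoImplicit false

namespace Pool.Agent.H3.JFlip

open Pool.Agent.H3.Flip

theorem joined (b r : ℕ) (hb : 3 ≤ b) (hbr : b < r) :
    (∀ (n : ℕ) (B R : SimpleGraph (Fin n)), 1 ≤ n → IsFlip B R b r →
      ((b : ℤ) + r + 1) * (2 * r - b) + 2 ≤ n * r ∧
      (r : ℤ) * (2 * r + 4 + b - b ^ 2) ≤ 2 * n ∧
      (r + 1 = (b + 1).choose 2 → (r + 1) * (b + 1) ≤ n)) ∧
    (r < (b + 1).choose 2 → ∃ (V : Type) (_ : Fintype V) (B R : SimpleGraph V),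
      Fintype.card V = (r + 1) * (b + 1) ∧ IsFlip B R b r) := by
  refine ⟨fun n B R hn h => ?_, fun h => ⟨Fin (r + 1) × ZMod (b + 1), inferInstance, _, _,
    by simp, construct b r (by omega) h⟩⟩
  have : Nonempty (Fin n) := ⟨⟨0, hn⟩⟩
  have h1 := bounds B R b r hbr h
  rw [Fintype.card_fin] at h1
  refine ⟨h1.1, h1.2, fun he => ?_⟩
  have h2 : 2 * r + 2 = b * b + b := by
    have h3 : (b + 1).choose 2 * 2 = (b + 1) * b := by
      have := Nat.add_one_mul_choose_eq b 1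
      simpa using this.symm
    nlinarith
  simpa using extremal B R b r hb h2 h

end Pool.Agent.H3.JFlip
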