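import Pool.Agent.H3.HafFam

set_option autoImplicit false

namespace Pool.Agent.H3.JHaf

open Finset Filter Topology Pool.Agent.H3.HafRec Pool.Agent.H3.HafBlock Pool.Agent.H3.HafFam

theorem dd_mono (c : ℝ) (hc : 0 ≤ c) (n : ℕ) (hn : c * (2 * n - 1) ≤ 1) :
    ∀ m, m ≤ n → ∀ k, k ≤ m → c ^ m * dd (2 * m) m ≤ c ^ k * dd (2 * m) k := by
  intro m
  induction m with
  | zero => intro _ k hk; obtain rfl : k = 0 := by omega
            exact le_rfl
  | succ m ih =>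
    intro hm k hk
    have e : ∀ j, (dd (2 * (m + 1)) (j + 1) : ℝ) = (2 * m + 1) * dd (2 * m) j := fun j => by
      rw [dd, show 2 * (m + 1) - 1 = 2 * m + 1 by omega, show 2 * (m + 1) - 2 = 2 * m by omega]
      push_cast; ring
    have h1 : c * (2 * m + 1) ≤ 1 := by
      have : (m : ℝ) + 1 ≤ n := by exact_mod_cast hm
      nlinarith
    have h0 : 0 ≤ c * (2 * m + 1) := by positivity
    cases k with
    | zero =>
      have := ih (by omega) 0 (Nat.zero_le _)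
      rw [e]
      simp only [dd, pow_zero, Nat.cast_one, mul_one] at this ⊢
      have h2 : 0 ≤ c ^ m * dd (2 * m) m := by positivity
      calc _ = c * (2 * m + 1) * (c ^ m * dd (2 * m) m) := by ring
        _ ≤ 1 := mul_le_one₀ h1 h2 this
    | succ k =>
      have := mul_le_mul_of_nonneg_left (ih (by omega) k (by omega)) h0
      rw [e, e]
      calc _ = c * (2 * m + 1) * (c ^ m * dd (2 * m) m) := by ring
        _ ≤ _ := this
        _ = _ := by ring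

theorem dd_ge (m : ℕ) : ((2 * m + 1 : ℝ)) ^ m ≤ dd (2 * (m + 1)) (m + 1) * Real.exp m := by
  induction m with
  | zero => simp [dd]
  | succ m ih =>
    have e : (dd (2 * (m + 1 + 1)) (m + 1 + 1) : ℝ) = (2 * m + 3) * dd (2 * (m + 1)) (m + 1) := by
      rw [dd, show 2 * (m + 1 + 1) - 1 = 2 * m + 3 by omega,
        show 2 * (m + 1 + 1) - 2 = 2 * (m + 1) by omega]
      push_cast; ring
    have h1 : (2 * m + 3 : ℝ) ≤ (2 * m + 1) * Real.exp (2 / (2 * m + 1)) := by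
      have := Real.add_one_le_exp (2 / (2 * m + 1 : ℝ))
      calc (2 * m + 3 : ℝ) = (2 * m + 1) * (2 / (2 * m + 1) + 1) := by field_simp; ring
        _ ≤ _ := by gcongr
    have h2 : (2 * m + 3 : ℝ) ^ m ≤ (2 * m + 1) ^ m * Real.exp 1 := by
      refine le_trans (pow_le_pow_left₀ (by positivity) h1 m) ?_
      rw [mul_pow, ← Real.exp_nat_mul]
      gcongr
      rw [mul_div_assoc', div_le_one (by positivity)]
      linarith
    rw [e]
    push_cast
    rw [Real.exp_add]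
    calc (2 * (m + 1) + 1 : ℝ) ^ (m + 1) = (2 * m + 3) * (2 * m + 3) ^ m := by ring
      _ ≤ (2 * m + 3) * ((dd (2 * (m + 1)) (m + 1) * Real.exp m) * Real.exp 1) := by
        gcongr
        exact h2.trans (by gcongr)
      _ = _ := by ring

theorem fact_le (s : ℕ) : ((s + 1).factorial : ℝ) * Real.exp s ≤ (s + 1) ^ (s + 2) := by
  induction s with
  | zero => simp
  | succ s ih =>
    have h1 : (s + 1 : ℝ) ≤ (s + 2) * Real.exp (-(1 / (s + 2))) := by
      have := Real.add_one_le_exp (-(1 / (s + 2 : ℝ)))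
      calc (s + 1 : ℝ) = (s + 2) * (-(1 / (s + 2)) + 1) := by field_simp; ring
        _ ≤ _ := by gcongr
    have h2 : (s + 1 : ℝ) ^ (s + 2) * Real.exp 1 ≤ (s + 2) ^ (s + 2) := by
      have := pow_le_pow_left₀ (by positivity) h1 (s + 2)
      rw [mul_pow, ← Real.exp_nat_mul, show ((s + 2 : ℕ) : ℝ) * -(1 / (s + 2)) = -1 by
        push_cast; field_simp, Real.exp_neg, ← div_eq_mul_inv, le_div_iff₀ (Real.exp_pos 1)] at this
      exact this
    rw [Nat.factorial_succ]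
    push_cast
    rw [Real.exp_add]
    calc _ = (s + 2) * (((s + 1).factorial * Real.exp s) * Real.exp 1) := by ring
      _ ≤ (s + 2) * (s + 2) ^ (s + 2) := by
        gcongr
        exact le_trans (by gcongr) h2
      _ = _ := by ring

theorem J_ge (n k : ℕ) (hn : 0 < n) (hk : k ≤ n) :
    1 / (Real.exp n * (2 * n)) ≤ haf k (J n) := by
  obtain ⟨m, rfl⟩ : ∃ m, n = m + 1 := ⟨n - 1, by omega⟩
  have e : (2 * ((m + 1 : ℕ) : ℝ) - 1) = 2 * m + 1 := by push_cast; ring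
  have h1 := H_ge (V := Fin (2 * (m + 1))) (1 / (2 * m + 1)) (by positivity) k univ
  have h2 := dd_mono (1 / (2 * m + 1)) (by positivity) (m + 1) (by rw [e]; field_simp; rfl)
    (m + 1) le_rfl k hk
  rw [card_univ, Fintype.card_fin] at h1
  have h3 : haf k (J (m + 1)) = H (fun a b : Fin (2 * (m + 1)) =>
      if a = b then 0 else 1 / (2 * m + 1 : ℝ)) univ k := by
    rw [haf_eq]; congr 1; funext a b; simp only [J, e]
  rw [h3]
  refine le_trans ?_ (h2.trans h1)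
  have h4 := dd_ge m
  rw [one_div_pow, div_mul_eq_mul_div, div_le_div_iff₀ (by positivity) (by positivity), pow_succ]
  have h5 : Real.exp m ≤ Real.exp ((m + 1 : ℕ) : ℝ) := by gcongr; omega
  calc _ = (2 * m + 1 : ℝ) ^ m * (2 * m + 1) := by ring
    _ ≤ (dd (2 * (m + 1)) (m + 1) * Real.exp ((m + 1 : ℕ) : ℝ)) * (2 * ((m + 1 : ℕ) : ℝ)) := by
      gcongr
      · exact h4.trans (by gcongr)
      · push_cast; linarith
    _ = _ := by ring

theorem partA (s : ℕ) (hs : 0 < s) :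
    ∃ B ∈ Psi (2 * s), haf (2 * s) B ≤ s.factorial / (3 * s) ^ s := by
  obtain ⟨B, hB, h⟩ := fam s 0 (2 * s) hs rfl
  refine ⟨B, hB, ?_⟩
  have hs' : (0 : ℝ) < s := by exact_mod_cast hs
  have hc : Continuous fun ε : ℝ => (s.factorial / (3 * s) ^ s : ℝ) *
      ((ε * (1 + ε) ^ 3 + (1 + ε)) ^ s * Real.exp (3 * s * ε ^ 2)) := by fun_prop
  have ht := (hc.tendsto 0).mono_left (nhdsWithin_le_nhds (s := Set.Ioi 0))
  simp only [add_zero, zero_add, one_pow, ne_eq, OfNat.ofNat_ne_zero,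
    not_false_eq_true, zero_pow, mul_zero, Real.exp_zero, mul_one] at ht
  refine ge_of_tendsto ht (eventually_mem_nhdsWithin.mono fun ε (hε : 0 < ε) => ?_)
  refine (h (1 / ε ^ 3) (3 * s * ε ^ 2) (by positivity) (by positivity) _).trans (le_of_eq ?_)
  have e : (1 + 3 * s * ε ^ 2 * (1 / ε ^ 3) / (3 * s)) ^ 3 + 1 / ε ^ 3 *
      (1 + 3 * s * ε ^ 2 * (1 / ε ^ 3) / (3 * s)) = (ε * (1 + ε) ^ 3 + (1 + ε)) / ε ^ 4 := by
    field_simp
    ring
  rw [e, W, div_pow, mul_pow, one_div_pow]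
  field_simp
  ring

theorem partB : ∃ N : ℕ, ∀ n ≥ N, ∀ k ≤ n, 500 * (n - k) ≤ n →
    ∃ B ∈ Psi n, haf k B < haf k (J n) := by
  have ht := tendsto_pow_const_mul_const_pow_of_abs_lt_one 2 (r := 0.99) (by norm_num [abs_of_pos])
  obtain ⟨S, hS⟩ := eventually_atTop.1 (ht.eventually_lt_const (show (0 : ℝ) < 1 / 1000 by norm_num))
  refine ⟨2 * S + 2, fun n hn k hk hj => ?_⟩
  obtain ⟨s, r, hr, rfl⟩ : ∃ s r, r ≤ 1 ∧ n = 2 * (s + 1) + r :=
    ⟨n / 2 - 1, n % 2, by omega, by omega⟩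
  obtain ⟨j, hj'⟩ := Nat.exists_eq_add_of_le hk
  obtain ⟨B, hB, h⟩ := fam (s + 1) r _ (by omega) rfl
  refine ⟨B, hB, lt_of_lt_of_le ?_ (J_ge _ k (by omega) hk)⟩
  refine lt_of_le_of_lt (h (10 ^ 6) (3 * (s + 1) / 10 ^ 4) (by positivity) (by positivity) k) ?_
  have hS' := hS (s + 1) (by omega)
  have hf := fact_le s
  push_cast at hS' ⊢
  have e : (1 + 3 * (s + 1) / 10 ^ 4 * 10 ^ 6 / (3 * (s + 1)) : ℝ) = 101 := by field_simp; norm_num
  have hx : ((10 : ℝ) ^ 6) ^ j ≤ 1.029 ^ (2 * (s + 1) + 1) := by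
    calc ((10 : ℝ) ^ 6) ^ j ≤ (1.029 ^ 500) ^ j := by
          have : (10 : ℝ) ^ 3 ≤ 1.029 ^ 250 := by norm_num
          gcongr
          calc (10 : ℝ) ^ 6 = (10 ^ 3) ^ 2 := by norm_num
            _ ≤ (1.029 ^ 250) ^ 2 := by gcongr
            _ = _ := by rw [← pow_mul]
      _ = 1.029 ^ (500 * j) := by rw [pow_mul]
      _ ≤ _ := pow_le_pow_right₀ (by norm_num) (by omega)
  have hk' : ((10 : ℝ) ^ 6) ^ k = (10 ^ 12) ^ (s + 1) * (10 ^ 6) ^ r / (10 ^ 6) ^ j := by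
    rw [eq_div_iff (by positivity), ← pow_add, ← hj', pow_add, pow_mul]; norm_num
  have hr' : (1 + (10 : ℝ) ^ 6) ^ r * Real.exp r ≤ 6 * (10 ^ 6) ^ r := by
    have := Real.exp_one_lt_d9
    interval_cases r <;> norm_num
    linarith
  have he : Real.exp (3 * (s + 1) / 10 ^ 4) ≤ 1.001 ^ (s + 1) := by
    have : Real.exp (3 / 10 ^ 4) ≤ 1.001 :=
      (Real.exp_bound_div_one_sub_of_interval (by norm_num) (by norm_num)).trans (by norm_num)
    calc _ = Real.exp (3 / 10 ^ 4) ^ (s + 1) := by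
          rw [← Real.exp_nat_mul]; congr 1; push_cast; ring
      _ ≤ _ := by gcongr
  have he2 : Real.exp (s + 1) ≤ 2.7183 ^ (s + 1) := by
    have := Real.exp_one_lt_d9
    calc _ = Real.exp 1 ^ (s + 1) := by rw [← Real.exp_nat_mul]; congr 1; push_cast; ring
      _ ≤ _ := by gcongr; linarith
  have he1 : Real.exp 1 ≤ 3 := by have := Real.exp_one_lt_d9; linarith
  have hr1 : (r : ℝ) ≤ 1 := by exact_mod_cast hr
  rw [e, W, hk', lt_div_iff₀ (by positivity),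
    show (2 * (s + 1) + r : ℝ) = s + 1 + (s + 1) + r by ring, Real.exp_add, Real.exp_add,
    Real.exp_add (s : ℝ) 1, div_pow, mul_pow, ← Real.exp_add (s : ℝ) 1]
  calc _ = ((101 ^ 3 + 10 ^ 6 * 101) * 10 ^ 4 / (3 * 10 ^ 12) : ℝ) ^ (s + 1) *
        ((1 + 10 ^ 6) ^ r * Real.exp r / (10 ^ 6) ^ r) *
        ((s + 1).factorial * Real.exp s / (s + 1) ^ (s + 1)) * Real.exp (3 * (s + 1) / 10 ^ 4) *
        (10 ^ 6) ^ j * Real.exp (s + 1) * Real.exp 1 * (2 * (s + 1 + (s + 1) + r)) := by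
        rw [div_pow, mul_pow, mul_pow, Real.exp_add (s : ℝ) 1]
        field_simp
    _ ≤ ((101 ^ 3 + 10 ^ 6 * 101) * 10 ^ 4 / (3 * 10 ^ 12) : ℝ) ^ (s + 1) * 6 * (s + 1) *
        1.001 ^ (s + 1) * 1.029 ^ (2 * (s + 1) + 1) * 2.7183 ^ (s + 1) * 3 * (6 * (s + 1)) := by
        gcongr _ * ?_ * ?_ * ?_ * ?_ * ?_ * ?_ * ?_
        · rw [div_le_iff₀ (by positivity)]; exact hr'
        · rw [div_le_iff₀ (by positivity)]; exact hf.trans (le_of_eq (by ring))
        · have : (0 : ℝ) ≤ s := by positivity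
          linarith
    _ = 108 * 1.029 * ((s + 1) ^ 2 * ((101 ^ 3 + 10 ^ 6 * 101) * 10 ^ 4 / (3 * 10 ^ 12) *
        1.001 * 1.029 ^ 2 * 2.7183 : ℝ) ^ (s + 1)) := by
        rw [mul_pow, mul_pow, mul_pow, pow_succ (1.029 : ℝ) (2 * (s + 1)), pow_mul]; ring
    _ ≤ 108 * 1.029 * ((s + 1) ^ 2 * (0.99 : ℝ) ^ (s + 1)) := by gcongr; norm_num
    _ < 1 := by linarith

/-- (a) `μ_{n,n} ≤ s! / (3s)^s` for `n = 2s`; (b) for all large `n` and all `k` with
`n - n/500 ≤ k ≤ n`, the matrix `J_{2n}` does not minimise `haf_k` on `Ψ_{2n}`. -/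
theorem joined :
    (∀ s : ℕ, 0 < s → ∃ B ∈ Psi (2 * s), haf (2 * s) B ≤ s.factorial / (3 * s) ^ s) ∧
    (∃ N : ℕ, ∀ n ≥ N, ∀ k ≤ n, 500 * (n - k) ≤ n → ∃ B ∈ Psi n, haf k B < haf k (J n)) :=
  ⟨partA, partB⟩

end Pool.Agent.H3.JHaf
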