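import Mathlib

set_option autoImplicit false

namespace Pool.Agent.H3.PowPart

open Finset Nat.Partition

variable (P : ℕ → Prop) [DecidablePred P]

/-- sum of the allowed divisors. -/
def sig (k : ℕ) : ℕ := ∑ a ∈ k.divisors.filter P, a

theorem cnt (a j n : ℕ) (ha : 0 < a) (hPa : P a) (h : j * a ≤ n) :
    #((restricted n P).filter fun l => j ≤ l.parts.count a) = #(restricted (n - j * a) P) := by
  symm
  refine Finset.card_bij (fun μ _ => ⟨μ.parts + Multiset.replicate j a, ?_, ?_⟩) ?_ ?_ ?_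
  · intro i hi
    rcases Multiset.mem_add.1 hi with hi | hi
    · exact μ.parts_pos hi
    · rw [Multiset.eq_of_mem_replicate hi]; exact ha
  · rw [Multiset.sum_add, μ.parts_sum, Multiset.sum_replicate, smul_eq_mul]; omega
  · intro μ hμ
    simp only [restricted, mem_filter, mem_univ, true_and] at hμ ⊢
    refine ⟨fun i hi => ?_, by simp⟩
    rcases Multiset.mem_add.1 hi with hi | hi
    · exact hμ i hi
    · rw [Multiset.eq_of_mem_replicate hi]; exact hPa
  · intro μ _ ν _ e
    have := congrArg Nat.Partition.parts e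
    exact Nat.Partition.ext (add_right_cancel this)
  · intro l hl
    simp only [restricted, mem_filter, mem_univ, true_and] at hl
    have hle : Multiset.replicate j a ≤ l.parts := Multiset.le_count_iff_replicate_le.1 hl.2
    obtain ⟨t, ht⟩ := Multiset.le_iff_exists_add.1 hle
    have hs := l.parts_sum
    rw [ht, Multiset.sum_add, Multiset.sum_replicate, smul_eq_mul] at hs
    refine ⟨⟨t, fun hi => l.parts_pos (by rw [ht]; exact Multiset.mem_add.2 (Or.inr hi)),
      by omega⟩, ?_, ?_⟩
    · simp only [restricted, mem_filter, mem_univ, true_and]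
      intro i hi
      exact hl.1 i (by rw [ht]; exact Multiset.mem_add.2 (Or.inr hi))
    · apply Nat.Partition.ext
      simp only [ht, add_comm]

theorem count_eq (a n c : ℕ) (ha : 0 < a) (h : c * a ≤ n) :
    #((Icc 1 n).filter fun k => a ∣ k ∧ k / a ≤ c) = c := by
  have : (Icc 1 n).filter (fun k => a ∣ k ∧ k / a ≤ c) = (Icc 1 c).image (· * a) := by
    ext k
    simp only [mem_filter, mem_Icc, mem_image]
    constructor
    · rintro ⟨⟨h1, h2⟩, ⟨j, rfl⟩, h4⟩
      rw [Nat.mul_div_cancel_left _ ha] at h4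
      exact ⟨j, ⟨Nat.pos_of_ne_zero (by rintro rfl; simp at h1), h4⟩, mul_comm _ _⟩
    · rintro ⟨j, ⟨h1, h2⟩, rfl⟩
      refine ⟨⟨Nat.mul_pos h1 ha, (Nat.mul_le_mul_right a h2).trans h⟩, Dvd.intro_left _ rfl, ?_⟩
      rwa [Nat.mul_div_cancel _ ha]
  rw [this, card_image_of_injective _ (fun x y e => Nat.eq_of_mul_eq_mul_right ha e)]
  simp

theorem main_id (n : ℕ) :
    n * #(restricted n P) = ∑ k ∈ Icc 1 n, #(restricted (n - k) P) * sig P k := by
  have h1 : ∀ l : n.Partition, n = ∑ a ∈ Icc 1 n, ∑ k ∈ Icc 1 n,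
      if a ∣ k ∧ k / a ≤ l.parts.count a then a else 0 := by
    intro l
    have hsub : l.parts.toFinset ⊆ Icc 1 n := by
      intro i hi
      rw [Multiset.mem_toFinset] at hi
      exact mem_Icc.2 ⟨l.parts_pos hi, Nat.Partition.le_of_mem_parts hi⟩
    have hs := Finset.sum_multiset_count_of_subset l.parts _ hsub
    rw [l.parts_sum] at hs
    refine hs.trans (sum_congr rfl fun a ha => ?_)
    have hle : l.parts.count a * a ≤ n := by
      conv_rhs => rw [hs]
      exact single_le_sum (f := fun i => l.parts.count i • i) (fun _ _ => Nat.zero_le _) ha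
    rw [← sum_filter, sum_const, count_eq a n _ (mem_Icc.1 ha).1 hle]
  calc n * #(restricted n P) = ∑ l ∈ restricted n P, n := by simp [mul_comm]
    _ = ∑ l ∈ restricted n P, ∑ a ∈ Icc 1 n, ∑ k ∈ Icc 1 n,
        if a ∣ k ∧ k / a ≤ l.parts.count a then a else 0 := sum_congr rfl fun l _ => h1 l
    _ = ∑ k ∈ Icc 1 n, ∑ a ∈ Icc 1 n, ∑ l ∈ restricted n P,
        if a ∣ k ∧ k / a ≤ l.parts.count a then a else 0 := by
      rw [sum_comm, ← sum_comm (s := Icc 1 n) (t := Icc 1 n)]
      exact sum_congr rfl fun a _ => sum_comm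
    _ = ∑ k ∈ Icc 1 n, ∑ a ∈ Icc 1 n,
        if a ∣ k ∧ P a then #(restricted (n - k) P) * a else 0 := by
      refine sum_congr rfl fun k hk => sum_congr rfl fun a ha => ?_
      have ha0 : 0 < a := (mem_Icc.1 ha).1
      by_cases hak : a ∣ k
      · simp only [hak, true_and]
        have hj : k / a * a = k := Nat.div_mul_cancel hak
        split_ifs with hP
        · rw [← sum_filter, sum_const, cnt P a (k / a) n ha0 hP (hj.le.trans (mem_Icc.1 hk).2), hj,
            smul_eq_mul]
        · refine sum_eq_zero fun l hl => if_neg ?_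
          simp only [restricted, mem_filter, mem_univ, true_and] at hl
          have : l.parts.count a = 0 := Multiset.count_eq_zero.2 fun h => hP (hl a h)
          have hk1 := (mem_Icc.1 hk).1
          have : 0 < k / a := Nat.div_pos (Nat.le_of_dvd hk1 hak) ha0
          omega
      · simp [hak]
    _ = _ := by
      refine sum_congr rfl fun k hk => ?_
      rw [← sum_filter, sig, mul_sum]
      refine sum_congr ?_ fun _ _ => rfl
      ext a
      have hk' := mem_Icc.1 hk
      simp only [mem_filter, mem_Icc, Nat.mem_divisors]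
      constructor
      · rintro ⟨-, h2, h3⟩
        exact ⟨⟨h2, by omega⟩, h3⟩
      · rintro ⟨⟨h2, -⟩, h3⟩
        exact ⟨⟨Nat.pos_of_dvd_of_pos h2 hk'.1, (Nat.le_of_dvd hk'.1 h2).trans hk'.2⟩, h2, h3⟩

open PowerSeries in
theorem per_transfer {K : Type} [Field K] [Finite K] (c s : ℕ → K) (hc0 : c 0 ≠ 0)
    (hD : X * d⁄dX K (PowerSeries.mk c) = PowerSeries.mk c * PowerSeries.mk s) (T N : ℕ) (hT : 0 < T)
    (hper : ∀ n, N ≤ n → c (n + T) = c n) :
    ∃ T' N' : ℕ, 0 < T' ∧ ∀ n, N' ≤ n → s (n + T') = s n := by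
  set u : Polynomial K := 1 - Polynomial.X ^ T with hu
  set p : Polynomial K := trunc (N + T) ((u : K⟦X⟧) * PowerSeries.mk c) with hp
  have huc : (u : K⟦X⟧) = 1 - X ^ T := by simp [hu]
  have hpe : (p : K⟦X⟧) = (u : K⟦X⟧) * PowerSeries.mk c := by
    ext n
    rw [Polynomial.coeff_coe, hp, coeff_trunc]
    split_ifs with h
    · rfl
    · obtain ⟨m, rfl⟩ : ∃ m, n = m + T := ⟨n - T, by omega⟩
      rw [huc, sub_mul, one_mul, map_sub, coeff_X_pow_mul, coeff_mk, coeff_mk,
        hper m (by omega), sub_self]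
  have hU0 : u * p ≠ 0 := by
    intro h
    have h1 : ((u * p : Polynomial K) : K⟦X⟧) = 0 := by rw [h]; simp
    rw [Polynomial.coe_mul, hpe, huc] at h1
    have h2 := congrArg (constantCoeff (R := K)) h1
    simp [hT.ne', hc0] at h2
  have hQ : ((u * p : Polynomial K) : K⟦X⟧) * PowerSeries.mk s =
      ((Polynomial.X * (u * Polynomial.derivative p - Polynomial.derivative u * p) :
        Polynomial K) : K⟦X⟧) := by
    have h1 := congrArg (d⁄dX K) hpe
    rw [Derivation.leibniz, smul_eq_mul, smul_eq_mul, derivative_coe, derivative_coe] at h1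
    simp only [Polynomial.coe_mul, Polynomial.coe_sub, Polynomial.coe_X]
    rw [h1, hpe]
    linear_combination (-(u : K⟦X⟧) ^ 2) * hD
  have : Module.Finite K (AdjoinRoot (u * p)) := (AdjoinRoot.powerBasis hU0).finite
  have : Finite (AdjoinRoot (u * p)) := Module.finite_of_finite K
  obtain ⟨i, j, hij, he⟩ : ∃ i j : ℕ, i < j ∧
      AdjoinRoot.mk (u * p) (Polynomial.X ^ i) = AdjoinRoot.mk (u * p) (Polynomial.X ^ j) := by
    obtain ⟨i, j, hne, he⟩ := Finite.exists_ne_map_eq_of_infinite
      (fun i : ℕ => AdjoinRoot.mk (u * p) (Polynomial.X ^ i))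
    rcases lt_or_gt_of_ne hne with h | h
    · exact ⟨i, j, h, he⟩
    · exact ⟨j, i, h, he.symm⟩
  obtain ⟨v, hv⟩ := AdjoinRoot.mk_eq_mk.1 he
  set q : Polynomial K := v * (Polynomial.X * (u * Polynomial.derivative p -
    Polynomial.derivative u * p)) with hq
  have hfin : (X ^ i - X ^ j) * PowerSeries.mk s = (q : K⟦X⟧) := by
    have h1 := congrArg (fun f : Polynomial K => (f : K⟦X⟧)) hv
    simp only [Polynomial.coe_sub, Polynomial.coe_pow, Polynomial.coe_X] at h1
    rw [hq, Polynomial.coe_mul v, ← hQ, h1, Polynomial.coe_mul (u * p)]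
    ring
  refine ⟨j - i, q.natDegree + 1, by omega, fun n hn => ?_⟩
  have h1 := congrArg (coeff (n + j)) hfin
  rw [Polynomial.coeff_coe, Polynomial.coeff_eq_zero_of_natDegree_lt (by omega), sub_mul, map_sub,
    coeff_X_pow_mul, show n + j = n + (j - i) + i by omega, coeff_X_pow_mul, coeff_mk,
    coeff_mk] at h1
  exact sub_eq_zero.1 h1

open PowerSeries in
theorem deriv_id (K : Type) [Field K] :
    X * d⁄dX K (PowerSeries.mk fun n => (#(restricted n P) : K)) =
      PowerSeries.mk (fun n => (#(restricted n P) : K)) * PowerSeries.mk fun n => (sig P n : K) := by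
  ext n
  have h := congrArg (Nat.cast : ℕ → K) (main_id P n)
  push_cast at h
  rw [mul_comm (PowerSeries.mk _) (PowerSeries.mk _), coeff_mul (R := K) n (PowerSeries.mk _) (PowerSeries.mk _),
    Finset.Nat.sum_antidiagonal_eq_sum_range_succ_mk, sum_range_succ']
  simp only [coeff_mk]
  have h0 : sig P 0 = 0 := by simp [sig]
  rw [h0, Nat.cast_zero, zero_mul, add_zero]
  have h2 : ∑ k ∈ range n, (sig P (k + 1) : K) * (#(restricted (n - (k + 1)) P) : K) =
      ∑ k ∈ Icc 1 n, (#(restricted (n - k) P) : K) * (sig P k : K) := by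
    rw [← Finset.Ico_add_one_right_eq_Icc, Finset.sum_Ico_eq_sum_range, Nat.add_sub_cancel]
    exact sum_congr rfl fun k _ => by rw [add_comm 1 k, mul_comm]
  rw [h2, ← h]
  cases n with
  | zero => simp
  | succ n =>
    rw [coeff_succ_X_mul, coeff_derivative, coeff_mk]
    push_cast
    ring

theorem pow_iff {q d i : ℕ} (hq : q.Prime) (hi : i ≤ d) (hd : 0 < d) :
    (∃ k : ℕ, k ^ d = q ^ i) ↔ i = 0 ∨ i = d := by
  constructor
  · rintro ⟨k, hk⟩
    have h := congrArg (fun n => n.factorization q) hk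
    simp only [Nat.factorization_pow, Finsupp.smul_apply, smul_eq_mul,
      hq.factorization_self, mul_one] at h
    rcases Nat.eq_zero_or_pos (k.factorization q) with h0 | h0
    · left; rw [← h, h0, mul_zero]
    · right
      have : d ≤ d * k.factorization q := Nat.le_mul_of_pos_right _ h0
      omega
  · rintro (rfl | rfl)
    · exact ⟨1, by simp⟩
    · exact ⟨q, rfl⟩

open Classical in
theorem not_per (d : ℕ) (hd : 2 ≤ d) (l : ℕ) (hl : l.Prime) (T N : ℕ) (hT : 0 < T) :
    ¬ ∀ n, N ≤ n → ((#(restricted (n + T) fun i => ∃ k : ℕ, k ^ d = i) : ℕ) : ZMod l) =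
      (#(restricted n fun i => ∃ k : ℕ, k ^ d = i) : ℕ) := by
  intro hper
  have := Fact.mk hl
  have hc0 : ((#(restricted 0 fun i => ∃ k : ℕ, k ^ d = i) : ℕ) : ZMod l) ≠ 0 := by
    have : restricted 0 (fun i => ∃ k : ℕ, k ^ d = i) = univ := by
      ext x; simp [restricted]
    rw [this]; simp
  obtain ⟨T', N', hT', hs⟩ := per_transfer _ _ hc0
    (deriv_id (fun i => ∃ k : ℕ, k ^ d = i) (ZMod l)) T N hT hper
  have hs' : ∀ t n, N' ≤ n → ((sig (fun i => ∃ k : ℕ, k ^ d = i) (n + T' * t) : ℕ) : ZMod l) =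
      (sig (fun i => ∃ k : ℕ, k ^ d = i) n : ℕ) := by
    intro t n hn
    induction t with
    | zero => simp
    | succ t ih => rw [Nat.mul_succ, ← add_assoc, hs _ (by omega), ih]
  obtain ⟨q, hq, hqN, hq1⟩ := Nat.exists_prime_gt_modEq_one (k := T' * l) N'
    (Nat.mul_pos hT' hl.pos).ne'
  have hqT : q ≡ 1 [MOD T'] := hq1.of_mul_right l
  have hql : q ≡ 1 [MOD l] := hq1.of_mul_left T'
  have hqd : q ≡ q ^ d [MOD T'] := by
    have := hqT.pow d
    rw [one_pow] at this
    exact hqT.trans this.symm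
  have hle : q ≤ q ^ d := Nat.le_self_pow (by omega) q
  obtain ⟨t, ht⟩ := (Nat.modEq_iff_dvd' hle).1 hqd
  have h1 := hs' t q hqN.le
  rw [← ht, Nat.add_sub_cancel' hle] at h1
  have hsig : ∀ e, e ≤ d → sig (fun i => ∃ k : ℕ, k ^ d = i) (q ^ e) =
      ∑ i ∈ range (e + 1), if i = 0 ∨ i = d then q ^ i else 0 := by
    intro e he
    rw [sig, sum_filter, Nat.sum_divisors_prime_pow hq]
    refine sum_congr rfl fun i hi => ?_
    have hi' : i ≤ d := by have := mem_range.1 hi; omega
    simp only [pow_iff hq hi' (by omega)]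
  have e1 : sig (fun i => ∃ k : ℕ, k ^ d = i) q = 1 := by
    have := hsig 1 (by omega)
    rw [pow_one] at this
    rw [this]
    simp [sum_range_succ, show ¬ (1 = d) by omega]
  have e2 : sig (fun i => ∃ k : ℕ, k ^ d = i) (q ^ d) = 1 + q ^ d := by
    rw [hsig d le_rfl, ← sum_filter]
    have : (range (d + 1)).filter (fun i => i = 0 ∨ i = d) = {0, d} := by
      ext i; simp only [mem_filter, mem_range, mem_insert, mem_singleton]; omega
    rw [this, sum_pair (by omega), pow_zero]
  rw [e1, e2] at h1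
  have h3 : (q : ZMod l) = 1 := by
    have := (ZMod.natCast_eq_natCast_iff q 1 l).2 hql
    simpa using this
  push_cast at h1
  rw [h3] at h1
  simp at h1

end Pool.Agent.H3.PowPart
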