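import Mathlib
import Pool.Agent.H3.PowPart

set_option autoImplicit false

namespace Pool.Agent.H3.JPow

open Pool.Agent.H3.PowPart

theorem joined (d : ℕ) (hd : 2 ≤ d) :
    (∀ r : ℕ, r < 2 → Set.Infinite {n : ℕ |
      Nat.card {p : Nat.Partition n // ∀ i ∈ p.parts, ∃ k : ℕ, k ^ d = i} % 2 = r}) ∧
    (∀ m : ℕ, 2 ≤ m → ¬ ∃ T N : ℕ, 0 < T ∧ ∀ n : ℕ, N ≤ n →
      Nat.card {p : Nat.Partition (n + T) // ∀ i ∈ p.parts, ∃ k : ℕ, k ^ d = i} % m =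
        Nat.card {p : Nat.Partition n // ∀ i ∈ p.parts, ∃ k : ℕ, k ^ d = i} % m) := by
  classical
  have hc : ∀ n : ℕ, Nat.card {p : Nat.Partition n // ∀ i ∈ p.parts, ∃ k : ℕ, k ^ d = i} =
      (Nat.Partition.restricted n fun i => ∃ k : ℕ, k ^ d = i).card := by
    intro n
    rw [Nat.card_eq_fintype_card, Fintype.card_subtype]
    rfl
  have h2 : ∀ m : ℕ, 2 ≤ m → ¬ ∃ T N : ℕ, 0 < T ∧ ∀ n : ℕ, N ≤ n →
      Nat.card {p : Nat.Partition (n + T) // ∀ i ∈ p.parts, ∃ k : ℕ, k ^ d = i} % m =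
        Nat.card {p : Nat.Partition n // ∀ i ∈ p.parts, ∃ k : ℕ, k ^ d = i} % m := by
    rintro m hm ⟨T, N, hT, h⟩
    refine not_per d hd m.minFac (Nat.minFac_prime (by omega)) T N hT fun n hn => ?_
    have := h n hn
    rw [hc, hc] at this
    exact (ZMod.natCast_eq_natCast_iff _ _ _).2 (Nat.ModEq.of_dvd (Nat.minFac_dvd m) this)
  refine ⟨fun r hr hfin => ?_, h2⟩
  obtain ⟨N, hN⟩ := hfin.bddAbove
  refine h2 2 le_rfl ⟨1, N + 1, one_pos, fun n hn => ?_⟩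
  have a1 : ¬ Nat.card {p : Nat.Partition n // ∀ i ∈ p.parts, ∃ k : ℕ, k ^ d = i} % 2 = r :=
    fun h => by have := hN h; omega
  have a2 : ¬ Nat.card {p : Nat.Partition (n + 1) // ∀ i ∈ p.parts, ∃ k : ℕ, k ^ d = i} % 2 = r :=
    fun h => by have := hN h; omega
  omega

end Pool.Agent.H3.JPow
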