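import Mathlib

set_option autoImplicit false

namespace Pool.Agent.H3.SgnSum

open Finset

/-- integer vectors of l1-norm `h` -/
noncomputable def sph (m h : ℕ) : Finset (Fin m → ℤ) :=
  (Fintype.piFinset fun _ => Finset.Icc (-(h : ℤ)) h).filter fun l => ∑ i, |l i| = h

lemma mem_sph {m h : ℕ} {l : Fin m → ℤ} : l ∈ sph m h ↔ ∑ i, |l i| = h := by
  unfold sph
  rw [mem_filter, Fintype.mem_piFinset]
  refine ⟨fun H => H.2, fun H => ⟨fun i => ?_, H⟩⟩
  have : |l i| ≤ ∑ j, |l j| :=
    single_le_sum (f := fun j => |l j|) (fun j _ => abs_nonneg _) (mem_univ i)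
  rw [H] at this
  rw [mem_Icc]
  exact abs_le.mp this

lemma card_zero (m h : ℕ) : ((sph (m + 1) h).filter fun l => l 0 = 0).card = (sph m h).card := by
  refine card_bij' (fun l _ => Fin.tail l) (fun l _ => Fin.cons 0 l) ?_ ?_ ?_ ?_
  · intro l hl
    rw [mem_filter, mem_sph, Fin.sum_univ_succ] at hl
    rw [mem_sph]
    have := hl.1
    rw [hl.2] at this
    simpa [Fin.tail] using this
  · intro l hl
    rw [mem_sph] at hl
    rw [mem_filter, mem_sph, Fin.sum_univ_succ]
    simpa using hl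
  · intro l hl
    rw [mem_filter] at hl
    rw [← hl.2]
    exact Fin.cons_self_tail l
  · intro l _
    simp

lemma card_pos (m h : ℕ) : ((sph (m + 1) (h + 1)).filter fun l => 0 < l 0).card =
    ((sph (m + 1) h).filter fun l => 0 ≤ l 0).card := by
  refine card_bij' (fun l _ => Fin.cons (l 0 - 1) (Fin.tail l))
    (fun l _ => Fin.cons (l 0 + 1) (Fin.tail l)) ?_ ?_ ?_ ?_
  · intro l hl
    rw [mem_filter, mem_sph, Fin.sum_univ_succ] at hl
    rw [mem_filter, mem_sph, Fin.sum_univ_succ]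
    obtain ⟨h1, h2⟩ := hl
    simp only [Fin.cons_zero, Fin.cons_succ, Fin.tail]
    rw [abs_of_pos h2] at h1
    rw [abs_of_nonneg (by omega)]
    push_cast at h1
    constructor <;> omega
  · intro l hl
    rw [mem_filter, mem_sph, Fin.sum_univ_succ] at hl
    rw [mem_filter, mem_sph, Fin.sum_univ_succ]
    obtain ⟨h1, h2⟩ := hl
    simp only [Fin.cons_zero, Fin.cons_succ, Fin.tail]
    rw [abs_of_nonneg h2] at h1
    rw [abs_of_nonneg (by omega)]
    push_cast
    constructor <;> omega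
  · intro l _
    simp
  · intro l _
    simp

lemma card_neg (m h : ℕ) : ((sph (m + 1) (h + 1)).filter fun l => l 0 < 0).card =
    ((sph (m + 1) h).filter fun l => l 0 ≤ 0).card := by
  refine card_bij' (fun l _ => Fin.cons (l 0 + 1) (Fin.tail l))
    (fun l _ => Fin.cons (l 0 - 1) (Fin.tail l)) ?_ ?_ ?_ ?_
  · intro l hl
    rw [mem_filter, mem_sph, Fin.sum_univ_succ] at hl
    rw [mem_filter, mem_sph, Fin.sum_univ_succ]
    obtain ⟨h1, h2⟩ := hl
    simp only [Fin.cons_zero, Fin.cons_succ, Fin.tail]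
    rw [abs_of_neg h2] at h1
    rw [abs_of_nonpos (by omega)]
    push_cast at h1
    constructor <;> omega
  · intro l hl
    rw [mem_filter, mem_sph, Fin.sum_univ_succ] at hl
    rw [mem_filter, mem_sph, Fin.sum_univ_succ]
    obtain ⟨h1, h2⟩ := hl
    simp only [Fin.cons_zero, Fin.cons_succ, Fin.tail]
    rw [abs_of_nonpos h2] at h1
    rw [abs_of_nonpos (by omega)]
    push_cast
    constructor <;> omega
  · intro l _
    simp
  · intro l _
    simp

lemma card_tri {α : Type*} (s : Finset α) (f : α → ℤ) :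
    s.card = (s.filter fun l => f l = 0).card + (s.filter fun l => 0 < f l).card +
      (s.filter fun l => f l < 0).card := by
  simp only [card_filter]
  rw [← sum_add_distrib, ← sum_add_distrib, card_eq_sum_ones]
  refine sum_congr rfl fun x _ => ?_
  rcases lt_trichotomy (f x) 0 with h | h | h
  · rw [if_neg h.ne, if_neg (not_lt.mpr h.le), if_pos h]
  · simp [h]
  · rw [if_neg h.ne', if_pos h, if_neg (not_lt.mpr h.le)]

lemma card_two {α : Type*} (s : Finset α) (f : α → ℤ) :
    (s.filter fun l => 0 ≤ f l).card + (s.filter fun l => f l ≤ 0).card =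
      s.card + (s.filter fun l => f l = 0).card := by
  simp only [card_filter]
  rw [← sum_add_distrib, card_eq_sum_ones, ← sum_add_distrib]
  refine sum_congr rfl fun x _ => ?_
  rcases lt_trichotomy (f x) 0 with h | h | h
  · rw [if_neg (not_le.mpr h), if_pos h.le, if_neg h.ne]
  · simp [h]
  · rw [if_pos h.le, if_neg (not_le.mpr h), if_neg h.ne']

lemma card_rec (m h : ℕ) : (sph (m + 1) (h + 1)).card =
    (sph (m + 1) h).card + (sph m (h + 1)).card + (sph m h).card := by
  have h1 := card_tri (sph (m + 1) (h + 1)) (fun l => l 0)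
  have h2 := card_two (sph (m + 1) h) (fun l => l 0)
  rw [card_zero, card_pos, card_neg] at h1
  rw [card_zero] at h2
  omega

lemma card_h0 (m : ℕ) : (sph m 0).card = 1 := by
  rw [card_eq_one]
  refine ⟨0, ?_⟩
  ext l
  rw [mem_sph, mem_singleton]
  constructor
  · intro H
    funext i
    have := (sum_eq_zero_iff_of_nonneg (fun j _ => abs_nonneg (l j))).mp (by simpa using H) i
      (mem_univ i)
    simpa using this
  · rintro rfl
    simp

lemma card_m0 (h : ℕ) : (sph 0 (h + 1)).card = 0 := by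
  rw [card_eq_zero]
  ext l
  rw [mem_sph]
  simp
  omega

def G (k m : ℕ) : ℕ := ∑ j ∈ range (k + 1), k.choose j * (2 ^ (j + 1) * m.choose (j + 1))

def H (k m : ℕ) : ℕ := ∑ j ∈ range (k + 1), k.choose j * (2 ^ (j + 2) * m.choose (j + 2))

lemma G_succ (k m : ℕ) : G (k + 1) m = G k m + H k m := by
  have := Finset.sum_choose_succ_mul (R := ℕ)
    (fun j _ => 2 ^ (j + 1) * m.choose (j + 1)) k
  simpa [G, H] using this

lemma H_succ (k m : ℕ) : H k (m + 1) = 2 * G k m + H k m := by
  unfold H G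
  rw [mul_sum, ← sum_add_distrib]
  refine sum_congr rfl fun j _ => ?_
  rw [Nat.choose_succ_succ' m (j + 1)]
  ring

lemma card_eq_G (m : ℕ) : ∀ k : ℕ, (sph m (k + 1)).card = G k m := by
  induction m with
  | zero =>
    intro k
    rw [card_m0]
    simp [G]
  | succ m ih =>
    intro k
    induction k with
    | zero =>
      rw [card_rec, card_h0, card_h0, ih]
      simp [G]
      omega
    | succ k ihk =>
      rw [card_rec, ihk, ih, ih, G_succ k (m + 1), H_succ, G_succ k m]
      omega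

/-- the bound c(h,m) of the problem -/
def c (h m : ℕ) : ℕ :=
  ∑ i ∈ Finset.Icc 1 (min m h), 2 ^ i * m.choose i * (h - 1).choose (i - 1)

lemma c_eq_G (k m : ℕ) : c (k + 1) m = G k m := by
  unfold c G
  have h1 : ∑ i ∈ Finset.Icc 1 (min m (k + 1)), 2 ^ i * m.choose i * (k + 1 - 1).choose (i - 1) =
      ∑ i ∈ Finset.Icc 1 (k + 1), 2 ^ i * m.choose i * (k + 1 - 1).choose (i - 1) := by
    refine sum_subset (Icc_subset_Icc_right (min_le_right _ _)) ?_
    intro i hi hi'
    rw [mem_Icc] at hi hi'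
    have : m < i := by omega
    rw [Nat.choose_eq_zero_of_lt this]
    simp
  rw [h1, ← Finset.Ico_add_one_right_eq_Icc, sum_Ico_eq_sum_range]
  refine sum_congr (by simp) fun j _ => ?_
  rw [Nat.add_sub_cancel, Nat.add_sub_cancel_left, add_comm 1 j]
  ring

lemma card_sph (m h : ℕ) (hh : 1 ≤ h) : (sph m h).card = c h m := by
  obtain ⟨k, rfl⟩ : ∃ k, h = k + 1 := ⟨h - 1, by omega⟩
  rw [card_eq_G, c_eq_G]

lemma exists_below {m : ℕ} (D : Fin m → ℤ) (hD : ∀ i, 0 ≤ D i) (t : ℕ) :
    (t : ℤ) ≤ ∑ i, D i → ∃ E : Fin m → ℤ, (∀ i, 0 ≤ E i ∧ E i ≤ D i) ∧ ∑ i, E i = t := by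
  induction t with
  | zero => intro _; exact ⟨0, fun i => ⟨le_rfl, hD i⟩, by simp⟩
  | succ t ih =>
    intro ht
    push_cast at ht
    obtain ⟨E, hE, hs⟩ := ih (by omega)
    have : ∃ i, E i < D i := by
      by_contra hn
      push Not at hn
      have := sum_le_sum (s := univ) (fun i _ => hn i)
      omega
    obtain ⟨k, hk⟩ := this
    refine ⟨fun i => E i + if i = k then 1 else 0, fun i => ?_, ?_⟩
    · have := hE i
      by_cases hi : i = k
      · subst hi; simp only [if_true]; omega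
      · simp only [if_neg hi]; omega
    · rw [sum_add_distrib, hs]
      simp

/-- every even vector of norm at most `2h` is a difference of two points of the sphere -/
lemma exists_diff {m : ℕ} (hm : 2 ≤ m) (h : ℕ) (d : Fin m → ℤ) (h1 : ∑ i, |d i| ≤ 2 * h)
    (h2 : Even (∑ i, |d i|)) : ∃ u ∈ sph m h, ∃ v ∈ sph m h, u - v = d := by
  obtain ⟨s, hs⟩ := h2
  have hk : ∃ k : Fin m, |d k| ≤ s := by
    let i0 : Fin m := ⟨0, by omega⟩
    let i1 : Fin m := ⟨1, by omega⟩
    have hne : i0 ≠ i1 := by simp [i0, i1, Fin.ext_iff]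
    have : ∑ i ∈ ({i0, i1} : Finset (Fin m)), |d i| ≤ ∑ i, |d i| :=
      sum_le_sum_of_subset_of_nonneg (subset_univ _) (fun i _ _ => abs_nonneg _)
    rw [sum_pair hne] at this
    by_cases h0 : |d i0| ≤ s
    · exact ⟨i0, h0⟩
    · exact ⟨i1, by omega⟩
  obtain ⟨k, hk⟩ := hk
  have hk0 := abs_nonneg (d k)
  obtain ⟨t, ht⟩ : ∃ t : ℕ, (t : ℤ) = s - |d k| := ⟨(s - |d k|).toNat, by omega⟩
  have hDs : ∑ i, (|d i| - if i = k then |d k| else 0) = s + s - |d k| := by
    rw [sum_sub_distrib, hs]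
    simp
  obtain ⟨E, hE, hEs⟩ := exists_below (fun i => |d i| - if i = k then |d k| else 0)
    (fun i => by
      by_cases hi : i = k
      · subst hi; simp
      · simp [hi]) t (by rw [hDs]; omega)
  let A : Fin m → ℤ := fun i => E i + if i = k then |d k| + (h - s) else 0
  let u : Fin m → ℤ := fun i => if 0 ≤ d i then A i else - A i
  refine ⟨u, ?_, u - d, ?_, by simp⟩
  · rw [mem_sph]
    have : ∀ i, |u i| = A i := by
      intro i
      have hA : 0 ≤ A i := by
        have := (hE i).1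
        by_cases hi : i = k
        · simp only [A, if_pos hi]; omega
        · simp only [A, if_neg hi]; omega
      by_cases hd : 0 ≤ d i
      · simp only [u, if_pos hd]; exact abs_of_nonneg hA
      · simp only [u, if_neg hd]; rw [abs_neg]; exact abs_of_nonneg hA
    rw [sum_congr rfl fun i _ => this i]
    simp only [A]
    rw [sum_add_distrib, hEs]
    simp only [sum_ite_eq', mem_univ, if_true]
    omega
  · rw [mem_sph]
    have : ∀ i, |(u - d) i| = |d i| - E i + if i = k then (h - s) - |d k| else 0 := by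
      intro i
      have hEi := hE i
      rw [Pi.sub_apply]
      by_cases hi : i = k
      · subst hi
        simp only [if_true] at hEi ⊢
        by_cases hd : 0 ≤ d i
        · simp only [u, A, if_pos hd, if_true]
          rw [abs_of_nonneg hd] at *
          rw [abs_of_nonneg (by omega)]
          omega
        · simp only [u, A, if_neg hd, if_true]
          rw [abs_of_neg (not_le.mp hd)] at *
          rw [abs_of_nonpos (by omega)]
          omega
      · simp only [if_neg hi] at hEi ⊢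
        by_cases hd : 0 ≤ d i
        · simp only [u, A, if_pos hd, if_neg hi]
          rw [abs_of_nonneg hd] at hEi ⊢
          rw [abs_of_nonpos (by omega)]
          omega
        · simp only [u, A, if_neg hd, if_neg hi]
          rw [abs_of_neg (not_le.mp hd)] at hEi ⊢
          rw [abs_of_nonneg (by omega)]
          omega
    rw [sum_congr rfl fun i _ => this i, sum_add_distrib, sum_sub_distrib, hEs, hs]
    simp only [sum_ite_eq', mem_univ, if_true]
    omega

lemma even_diff {m : ℕ} (u v : Fin m → ℤ) :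
    Even (∑ i, |u i - v i| - (∑ i, |u i| + ∑ i, |v i|)) := by
  rw [← sum_add_distrib, ← sum_sub_distrib]
  refine Finset.even_sum _ fun i _ => ?_
  rw [Int.even_sub, Int.even_add, even_abs, even_abs, even_abs, Int.even_sub]

lemma norm_diff {m : ℕ} (u v : Fin m → ℤ) :
    ∑ i, |u i - v i| ≤ ∑ i, |u i| + ∑ i, |v i| := by
  rw [← sum_add_distrib]
  exact sum_le_sum fun i _ => abs_sub _ _

/-- the signed sum map -/
def phi {n m : ℕ} (a : Fin m → ZMod n) (l : Fin m → ℤ) : ZMod n := ∑ i, l i • a i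

lemma phi_sub {n m : ℕ} (a : Fin m → ZMod n) (u v : Fin m → ℤ) :
    phi a (u - v) = phi a u - phi a v := by
  unfold phi
  rw [← sum_sub_distrib]
  refine sum_congr rfl fun i _ => ?_
  rw [Pi.sub_apply, sub_smul]

/-- no short even vector in the kernel -/
def K {n m : ℕ} (a : Fin m → ZMod n) (h : ℕ) : Prop :=
  ∀ d : Fin m → ℤ, ∑ i, |d i| ≤ 2 * h → Even (∑ i, |d i|) → phi a d = 0 → d = 0

lemma K_of_inj {n m : ℕ} (hm : 2 ≤ m) (a : Fin m → ZMod n) (h : ℕ)
    (H : Set.InjOn (phi a) (sph m h)) : K a h := by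
  intro d h1 h2 h3
  obtain ⟨u, hu, v, hv, rfl⟩ := exists_diff hm h d h1 h2
  rw [phi_sub, sub_eq_zero] at h3
  rw [H hu hv h3, sub_self]

lemma eq_of_K {n m : ℕ} (a : Fin m → ZMod n) (h : ℕ) (H : K a h) (u v : Fin m → ℤ) (i j : ℕ)
    (hu : u ∈ sph m i) (hv : v ∈ sph m j) (hi : i ≤ h) (hj : j ≤ h) (hij : i % 2 = j % 2)
    (he : phi a u = phi a v) : u = v := by
  rw [mem_sph] at hu hv
  have h1 := norm_diff u v
  have h2 := even_diff u v
  rw [hu, hv] at h1 h2
  have := H (u - v) (by simp only [Pi.sub_apply]; omega)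
    (by simp only [Pi.sub_apply]; obtain ⟨r, hr⟩ := h2; rw [Int.even_iff]; omega)
    (by rw [phi_sub, he, sub_self])
  exact sub_eq_zero.mp this

lemma ball_le {n m : ℕ} (hn : 0 < n) (a : Fin m → ZMod n) (h : ℕ) (H : K a h) :
    ∑ j ∈ (range (h + 1)).filter (fun j => j % 2 = h % 2), (sph m j).card ≤ n := by
  have : NeZero n := ⟨hn.ne'⟩
  rw [← card_sigma]
  have : (univ : Finset (ZMod n)).card = n := by simp
  refine le_trans (card_le_card_of_injOn (t := univ) (fun x => phi a x.2) (fun _ _ => mem_univ _)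
    ?_) this.le
  rintro ⟨i, u⟩ hu ⟨j, v⟩ hv he
  simp only [coe_sigma, Set.mem_sigma_iff, mem_coe, mem_filter, mem_range] at hu hv
  have huv : u = v := eq_of_K a h H u v i j hu.2 hv.2 (by omega) (by omega) (by omega) he
  subst huv
  have h1 := mem_sph.mp hu.2
  have h2 := mem_sph.mp hv.2
  have : i = j := by omega
  subst this
  rfl

/-- the `h`-fold signed sumset of `{a 0, ..., a (m-1)}` -/
def sss {n m : ℕ} (h : ℕ) (a : Fin m → ZMod n) : Set (ZMod n) :=
  {x | ∃ l : Fin m → ℤ, ∑ i, |l i| = (h : ℤ) ∧ x = ∑ i, l i • a i}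

/-- the largest size of an `h`-fold signed sumset of an `m`-element subset -/
noncomputable def nu (n m h : ℕ) : ℕ :=
  sSup {k : ℕ | ∃ a : Fin m → ZMod n, Function.Injective a ∧ k = (sss h a).ncard}

lemma sss_eq {n m : ℕ} (h : ℕ) (a : Fin m → ZMod n) :
    sss h a = ((sph m h).image (phi a) : Finset (ZMod n)) := by
  ext x
  simp only [sss, Set.mem_ofPred_eq, coe_image, Set.mem_image, mem_coe, mem_sph, phi]
  constructor
  · rintro ⟨l, h1, h2⟩; exact ⟨l, h1, h2.symm⟩
  · rintro ⟨l, h1, h2⟩; exact ⟨l, h1, h2.symm⟩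

lemma bdd (n m h : ℕ) : BddAbove
    {k : ℕ | ∃ a : Fin m → ZMod n, Function.Injective a ∧ k = (sss h a).ncard} := by
  refine ⟨(sph m h).card, ?_⟩
  rintro k ⟨a, -, rfl⟩
  rw [sss_eq, Set.ncard_coe_finset]
  exact card_image_le

lemma le_nu {n m h : ℕ} (a : Fin m → ZMod n) (ha : Function.Injective a) :
    (sss h a).ncard ≤ nu n m h := le_csSup (bdd n m h) ⟨a, ha, rfl⟩

lemma nu_lt {n m h N : ℕ} (hN : 0 < N)
    (H : ∀ a : Fin m → ZMod n, Function.Injective a → (sss h a).ncard < N) : nu n m h < N := by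
  unfold nu
  rcases Set.eq_empty_or_nonempty
    {k : ℕ | ∃ a : Fin m → ZMod n, Function.Injective a ∧ k = (sss h a).ncard} with h0 | h0
  · rw [h0]; simpa using hN
  · obtain ⟨a, ha, hk⟩ := Nat.sSup_mem h0 (bdd n m h)
    rw [hk]; exact H a ha

lemma K_of_card {n m h : ℕ} (hm : 2 ≤ m) (hh : 1 ≤ h) (a : Fin m → ZMod n)
    (H : c h m ≤ (sss h a).ncard) : K a h := by
  rw [sss_eq, Set.ncard_coe_finset, ← card_sph m h hh] at H
  exact K_of_inj hm a h (card_image_iff.mp (le_antisymm card_image_le H))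

lemma card_of_K {n m h : ℕ} (hh : 1 ≤ h) (a : Fin m → ZMod n) (H : K a h) :
    (sss h a).ncard = c h m := by
  rw [sss_eq, Set.ncard_coe_finset, ← card_sph m h hh]
  exact card_image_iff.mpr fun u hu v hv he => eq_of_K a h H u v h h hu hv le_rfl le_rfl rfl he

lemma pig (A B N : ℕ) (hN : 0 < N) (hlt : N < A * B) (U V : ℤ) :
    ∃ p q : ℤ, |p| < A ∧ |q| < B ∧ ¬ (p = 0 ∧ q = 0) ∧ (N : ℤ) ∣ U * p + V * q := by
  have : NeZero N := ⟨hN.ne'⟩
  obtain ⟨x, hx, y, hy, hne, he⟩ := exists_ne_map_eq_of_card_lt_of_maps_to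
    (s := range A ×ˢ range B) (t := (univ : Finset (ZMod N)))
    (by simpa using hlt) (f := fun x => ((U * x.1 + V * x.2 : ℤ) : ZMod N))
    (fun _ _ => mem_univ _)
  simp only [mem_product, mem_range] at hx hy
  refine ⟨(y.1 : ℤ) - x.1, (y.2 : ℤ) - x.2, ?_, ?_, ?_, ?_⟩
  · rw [abs_lt]; omega
  · rw [abs_lt]; omega
  · rintro ⟨h1, h2⟩
    exact hne (Prod.ext (by omega) (by omega))
  · have := (ZMod.intCast_eq_intCast_iff_dvd_sub _ _ _).mp he
    convert this using 1
    ring

lemma core1 (n k : ℕ) (hn : 0 < n) (U V : ℤ)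
    (H : ∀ p q : ℤ, |p| < k → |q| < k → (n : ℤ) ∣ U * p + V * q → p = 0 ∧ q = 0) :
    k * k ≤ n := by
  by_contra hlt
  obtain ⟨p, q, h1, h2, h3, h4⟩ := pig k k n hn (by omega) U V
  exact h3 (H p q h1 h2 h4)

lemma core2 (n k : ℕ) (hn : 0 < n) (hk : 0 < k) (U V : ℤ) (hUV : Even (U - V))
    (H : ∀ p q : ℤ, |p| < (2 * k : ℕ) → |q| < (2 * k : ℕ) → ((2 * n : ℕ) : ℤ) ∣ U * p + V * q →
      p = 0 ∧ q = 0) :
    (2 * k) * (2 * k + 1) ≤ 2 * n := by
  by_contra hlt
  push Not at hlt
  rcases Int.even_or_odd' V with ⟨V', hV | hV⟩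
  · obtain ⟨w, hw⟩ := hUV
    obtain ⟨p, q, h1, h2, h3, h4⟩ := pig (2 * k) (2 * k) n hn (by nlinarith) (w + V') V'
    refine h3 (H p q h1 h2 ?_)
    obtain ⟨z, hz⟩ := h4
    refine ⟨z, ?_⟩
    push_cast
    have hU : U = 2 * (w + V') := by omega
    rw [hU, hV]
    linear_combination 2 * hz
  · obtain ⟨w, hw⟩ := hUV
    have hU : U = 2 * (w + V') + 1 := by omega
    have e1 : ∃ q : ℤ, |q| < (2 * k : ℕ) ∧ ((2 * n : ℕ) : ℤ) ∣ U * (2 * k) + V * q := by
      obtain ⟨p, q, h1, h2, h3, h4⟩ := pig (2 * k + 1) (2 * k) (2 * n) (by omega)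
        (by nlinarith) U V
      by_cases hp : |p| < (2 * k : ℕ)
      · exact absurd (H p q hp h2 h4) h3
      · push_cast at h1 hp
        rcases le_total 0 p with h0 | h0
        · rw [abs_of_nonneg h0] at h1 hp
          have : p = 2 * k := by omega
          exact ⟨q, h2, this ▸ h4⟩
        · rw [abs_of_nonpos h0] at h1 hp
          have : p = - (2 * k) := by omega
          refine ⟨-q, by rwa [abs_neg], ?_⟩
          have e : U * (2 * k) + V * -q = -(U * p + V * q) := by rw [this]; ring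
          rw [e]
          exact h4.neg_right
    have e2 : ∃ p : ℤ, |p| < (2 * k : ℕ) ∧ ((2 * n : ℕ) : ℤ) ∣ U * p + V * (2 * k) := by
      obtain ⟨p, q, h1, h2, h3, h4⟩ := pig (2 * k) (2 * k + 1) (2 * n) (by omega)
        (by nlinarith) U V
      by_cases hq : |q| < (2 * k : ℕ)
      · exact absurd (H p q h1 hq h4) h3
      · push_cast at h2 hq
        rcases le_total 0 q with h0 | h0
        · rw [abs_of_nonneg h0] at h2 hq
          have : q = 2 * k := by omega
          exact ⟨p, h1, this ▸ h4⟩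
        · rw [abs_of_nonpos h0] at h2 hq
          have : q = - (2 * k) := by omega
          refine ⟨-p, by rwa [abs_neg], ?_⟩
          have e : U * -p + V * (2 * k) = -(U * p + V * q) := by rw [this]; ring
          rw [e]
          exact h4.neg_right
    obtain ⟨q, hq, x, hx⟩ := e1
    obtain ⟨p, hp, y, hy⟩ := e2
    push_cast at hq hp hx hy
    rw [abs_lt] at hq hp
    obtain ⟨q', rfl⟩ : ∃ q', q = 2 * q' := by
      refine ⟨n * x - U * k - V' * q, ?_⟩
      rw [hV] at hx
      linear_combination hx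
    obtain ⟨p', rfl⟩ : ∃ p', p = 2 * p' := by
      refine ⟨n * y - V * k - (w + V') * p, ?_⟩
      rw [hU] at hy
      linear_combination hy
    have hX : U * k + V * q' = n * x := by linarith
    have hY : U * p' + V * k = n * y := by linarith
    rcases Int.even_or_odd' x with ⟨x', hx' | hx'⟩
    · have := H k q' (by push_cast; rw [abs_lt]; omega) (by push_cast; rw [abs_lt]; omega)
        ⟨x', by push_cast; rw [hX, hx']; ring⟩
      omega
    rcases Int.even_or_odd' y with ⟨y', hy' | hy'⟩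
    · have := H p' k (by push_cast; rw [abs_lt]; omega) (by push_cast; rw [abs_lt]; omega)
        ⟨y', by push_cast; rw [hY, hy']; ring⟩
      omega
    have := H (k - p') (q' - k) (by push_cast; rw [abs_lt]; omega)
      (by push_cast; rw [abs_lt]; omega)
      ⟨x' - y', by push_cast; rw [hx'] at hX; rw [hy'] at hY; linear_combination hX - hY⟩
    omega

lemma c_two (h : ℕ) (hh : 1 ≤ h) : c h 2 = 4 * h := by
  obtain ⟨k, rfl⟩ : ∃ k, h = k + 1 := ⟨h - 1, by omega⟩
  rcases Nat.eq_zero_or_pos k with rfl | hk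
  · simp [c]
  · unfold c
    rw [min_eq_left (by omega : 2 ≤ k + 1)]
    rw [show Finset.Icc 1 2 = ({1, 2} : Finset ℕ) from rfl, sum_pair (by norm_num)]
    simp
    omega

lemma c_pos (h m : ℕ) (hh : 1 ≤ h) (hm : 1 ≤ m) : 0 < c h m := by
  unfold c
  refine sum_pos' (fun _ _ => Nat.zero_le _) ⟨1, ?_, ?_⟩
  · rw [mem_Icc]; exact ⟨le_rfl, le_min hm hh⟩
  · simp; omega

/-- `K` for two integers, in rotated coordinates -/
lemma K_iff (n h : ℕ) (A B : ℤ) : K (![(A : ZMod n), (B : ZMod n)]) h ↔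
    ∀ p q : ℤ, |p| < (h + 1 : ℕ) → |q| < (h + 1 : ℕ) → (n : ℤ) ∣ (A + B) * p + (A - B) * q →
      p = 0 ∧ q = 0 := by
  have hphi : ∀ d : Fin 2 → ℤ, phi (![(A : ZMod n), (B : ZMod n)]) d = 0 ↔
      (n : ℤ) ∣ A * d 0 + B * d 1 := by
    intro d
    rw [← ZMod.intCast_zmod_eq_zero_iff_dvd]
    simp [phi, Fin.sum_univ_two, mul_comm]
  constructor
  · intro H p q hp hq hd
    push_cast at hp hq
    have := H ![p + q, p - q] ?_ ?_ ?_
    · have h0 := congrFun this 0
      have h1 := congrFun this 1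
      simp at h0 h1
      omega
    · simp only [Fin.sum_univ_two, Matrix.cons_val_zero, Matrix.cons_val_one]
      rw [abs_lt] at hp hq
      rcases abs_cases (p + q) with h1 | h1 <;> rcases abs_cases (p - q) with h2 | h2 <;> omega
    · simp only [Fin.sum_univ_two, Matrix.cons_val_zero, Matrix.cons_val_one]
      rw [Int.even_iff]
      rcases abs_cases (p + q) with h1 | h1 <;> rcases abs_cases (p - q) with h2 | h2 <;> omega
    · rw [hphi]
      simp only [Matrix.cons_val_zero, Matrix.cons_val_one]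
      convert hd using 1
      ring
  · intro H d h1 h2 h3
    rw [hphi] at h3
    rw [Fin.sum_univ_two] at h1 h2
    rw [Int.even_iff] at h2
    obtain ⟨p, q, hp, hq⟩ : ∃ p q : ℤ, d 0 = p + q ∧ d 1 = p - q := by
      refine ⟨(d 0 + d 1) / 2, (d 0 - d 1) / 2, ?_, ?_⟩ <;>
      rcases abs_cases (d 0) with h1 | h1 <;> rcases abs_cases (d 1) with h2 | h2 <;> omega
    have := H p q ?_ ?_ ?_
    · funext i
      fin_cases i
      · simp; omega
      · simp; omega
    · push_cast; rw [abs_lt]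
      rcases abs_cases (d 0) with h1 | h1 <;> rcases abs_cases (d 1) with h2 | h2 <;> omega
    · push_cast; rw [abs_lt]
      rcases abs_cases (d 0) with h1 | h1 <;> rcases abs_cases (d 1) with h2 | h2 <;> omega
    · convert h3 using 1
      rw [hp, hq]; ring

/-- the construction: `A - B = 1`, `A + B = U` modulo `n` -/
lemma good (n h : ℕ) (hh : 1 ≤ h) (U A B : ℤ) (hU : h + 1 ≤ U) (hn : U * h + h < n)
    (h1 : (n : ℤ) ∣ A - B - 1) (h2 : (n : ℤ) ∣ A + B - U) : 4 * h ≤ nu n 2 h := by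
  have hK : K (![(A : ZMod n), (B : ZMod n)]) h := by
    rw [K_iff]
    intro p q hp hq hd
    push_cast at hp hq
    have h3 : (n : ℤ) ∣ U * p + q := by
      have := (hd.sub (h2.mul_right p)).sub (h1.mul_right q)
      have e : U * p + q = (A + B) * p + (A - B) * q - (A + B - U) * p - (A - B - 1) * q := by
        ring
      rwa [e]
    have hp' : |p| ≤ h := by omega
    have hb : |U * p + q| < n := by
      have := abs_add_le (U * p) q
      rw [abs_mul, abs_of_nonneg (by omega : 0 ≤ U)] at this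
      have : U * |p| ≤ U * h := mul_le_mul_of_nonneg_left hp' (by omega)
      omega
    have h0 : U * p + q = 0 := Int.eq_zero_of_abs_lt_dvd h3 hb
    have hq0 : q = 0 := Int.eq_zero_of_abs_lt_dvd (m := U) ⟨-p, by linarith⟩ (by omega)
    refine ⟨?_, hq0⟩
    rw [hq0, add_zero] at h0
    rcases mul_eq_zero.mp h0 with h0 | h0
    · omega
    · exact h0
  have hinj : Function.Injective (![(A : ZMod n), (B : ZMod n)]) := by
    have hne : (A : ZMod n) ≠ B := by
      intro he
      have h4 := (ZMod.intCast_eq_intCast_iff_dvd_sub _ _ _).mp he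
      have h5 : (n : ℤ) ∣ 1 := by
        have := (h4.add h1).neg_right
        have e : (1 : ℤ) = -(B - A + (A - B - 1)) := by ring
        rwa [← e] at this
      have := Int.le_of_dvd one_pos h5
      nlinarith
    intro i j hij
    fin_cases i <;> fin_cases j
    · rfl
    · exact absurd hij hne
    · exact absurd hij.symm hne
    · rfl
  have := le_nu (h := h) _ hinj
  rwa [card_of_K hh _ hK, c_two h hh] at this

lemma two_iff (n h : ℕ) (hh : 1 ≤ h) (hn : 0 < n) : nu n 2 h < 4 * h ↔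
    (n < (h + 1) ^ 2 ∨ (Odd h ∧ Even n ∧ n < (h + 1) * (h + 2))) := by
  have : NeZero n := ⟨hn.ne'⟩
  constructor
  · intro H
    by_contra hc
    push Not at hc
    obtain ⟨h1, h2⟩ := hc
    have h1' : ((h : ℤ) + 1) ^ 2 ≤ n := by exact_mod_cast h1
    refine absurd H (not_lt.mpr ?_)
    rcases Nat.even_or_odd' h with ⟨k, hk | hk⟩
    · refine good n h hh (h + 1) (k + 1) k le_rfl (by nlinarith) (by simp) ⟨0, ?_⟩
      rw [hk]; push_cast; ring
    rcases Nat.even_or_odd' n with ⟨r, hr | hr⟩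
    · have h3 := h2 ⟨k, hk⟩ ⟨r, by omega⟩
      have h3' : ((h : ℤ) + 1) * (h + 2) ≤ n := by exact_mod_cast h3
      refine good n h hh (h + 2) (k + 2) (k + 1) (by omega) (by nlinarith) (by simp)
        ⟨0, ?_⟩
      rw [hk]; push_cast; ring
    · refine good n h hh (h + 1) ((h + 2) * (r + 1)) (h * (r + 1)) le_rfl (by nlinarith)
        ⟨1, ?_⟩ ⟨h + 1, ?_⟩
      · rw [hr]; push_cast; ring
      · rw [hr]; push_cast; ring
  · intro H
    refine nu_lt (by omega) fun a _ => ?_
    by_contra hc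
    rw [not_lt, ← c_two h hh] at hc
    have hK := K_of_card le_rfl hh a hc
    have ha : a = ![(((a 0).val : ℤ) : ZMod n), (((a 1).val : ℤ) : ZMod n)] := by
      funext i
      fin_cases i <;> simp
    rw [ha, K_iff] at hK
    rcases H with H | ⟨⟨k, hk⟩, ⟨r, hr⟩, H⟩
    · have := core1 n (h + 1) hn _ _ hK
      nlinarith
    · have e1 : h + 1 = 2 * (k + 1) := by omega
      have e2 : n = 2 * r := by omega
      rw [e1] at hK
      have hK' := hK
      rw [show ((n : ℕ) : ℤ) = ((2 * r : ℕ) : ℤ) by rw [e2]] at hK'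
      have := core2 r (k + 1) (by omega) (by omega) _ _ ⟨((a 1).val : ℤ), by ring⟩ hK'
      nlinarith

lemma small (n m h : ℕ) (hm : 2 ≤ m) (hmn : m ≤ n) (hn : n ≤ 2 * h + 1) : n ≤ nu n m h := by
  have : NeZero n := ⟨by omega⟩
  obtain ⟨m', rfl⟩ : ∃ m', m = m' + 2 := ⟨m - 2, by omega⟩
  let a : Fin (m' + 2) → ZMod n := fun i => ((i : ℕ) : ZMod n)
  have ha : Function.Injective a := by
    intro i j hij
    have := (ZMod.natCast_eq_natCast_iff' _ _ _).mp hij
    rw [Nat.mod_eq_of_lt (by omega), Nat.mod_eq_of_lt (by omega)] at this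
    exact Fin.ext this
  have hs : sss h a = Set.univ := by
    rw [Set.eq_univ_iff_forall]
    intro x
    have hx : |x.valMinAbs| ≤ h := by
      have := ZMod.natAbs_valMinAbs_le x
      rw [← Int.natCast_natAbs]
      omega
    refine ⟨Fin.cons (h - |x.valMinAbs|) (Fin.cons x.valMinAbs 0), ?_, ?_⟩
    · rw [Fin.sum_univ_succ, Fin.sum_univ_succ]
      simp only [Fin.cons_zero, Fin.cons_succ, Pi.zero_apply, abs_zero, sum_const_zero]
      rw [abs_of_nonneg (by omega)]
      omega
    · rw [Fin.sum_univ_succ, Fin.sum_univ_succ]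
      simp [a]
  have := le_nu (h := h) a ha
  rwa [hs, Set.ncard_univ, Nat.card_zmod] at this

lemma small_odd (n m h : ℕ) (hm : 2 ≤ m) (hmn : m ≤ n) (hh : Odd h) (hn : Odd n)
    (hn3 : n ≤ 3 * h) : n ≤ nu n m h := by
  have : NeZero n := ⟨by omega⟩
  obtain ⟨m', rfl⟩ : ∃ m', m = m' + 2 := ⟨m - 2, by omega⟩
  obtain ⟨r, hr⟩ := hn
  obtain ⟨k, hk⟩ := hh
  let a : Fin (m' + 2) → ZMod n := fun i => ((2 * (i : ℕ) + 1 : ℕ) : ZMod n)
  have ha : Function.Injective a := by
    intro i j hij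
    have h1 : 2 * (i : ℕ) + 1 ≡ 2 * (j : ℕ) + 1 [MOD n] :=
      (ZMod.natCast_eq_natCast_iff _ _ _).mp hij
    have h2 := Nat.ModEq.add_right_cancel' 1 h1
    have h3 : (i : ℕ) ≡ j [MOD n] :=
      Nat.ModEq.cancel_left_of_coprime (by rw [hr]; simp [Nat.gcd_comm]) h2
    exact Fin.ext (Nat.ModEq.eq_of_lt_of_lt h3 (by omega) (by omega))
  have hs : sss h a = Set.univ := by
    rw [Set.eq_univ_iff_forall]
    intro x
    obtain ⟨z, hz1, hz2, hz3⟩ : ∃ z : ℤ, (z : ZMod n) = x ∧ z % 2 = 1 ∧ |z| ≤ n := by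
      have h1 := ZMod.natAbs_valMinAbs_le x
      have h2 : ((x.valMinAbs : ℤ) : ZMod n) = x := ZMod.coe_valMinAbs x
      by_cases h3 : x.valMinAbs % 2 = 1
      · exact ⟨x.valMinAbs, h2, h3, by rw [abs_le]; omega⟩
      · rcases le_total 0 x.valMinAbs with h4 | h4
        · exact ⟨x.valMinAbs - n, by push_cast; simp, by omega, by rw [abs_le]; omega⟩
        · exact ⟨x.valMinAbs + n, by push_cast; simp, by omega, by rw [abs_le]; omega⟩
    rw [abs_le] at hz3
    obtain ⟨y, w, e1, e2⟩ : ∃ y w : ℤ, |y| + |w| = h ∧ y + 3 * w = z := by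
      by_cases c1 : (h : ℤ) ≤ z
      · refine ⟨h - (z - h) / 2, (z - h) / 2, ?_, by omega⟩
        rw [abs_of_nonneg (by omega), abs_of_nonneg (by omega)]; omega
      by_cases c2 : z ≤ -h
      · refine ⟨-h - (z + h) / 2, (z + h) / 2, ?_, by omega⟩
        rw [abs_of_nonpos (by omega), abs_of_nonpos (by omega)]; omega
      by_cases c3 : (z + h) % 4 = 0
      · refine ⟨(z + h) / 4 - h, (z + h) / 4, ?_, by omega⟩
        rw [abs_of_nonpos (by omega), abs_of_nonneg (by omega)]; omega
      · refine ⟨(z - h) / 4 + h, (z - h) / 4, ?_, by omega⟩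
        rw [abs_of_nonneg (by omega), abs_of_nonpos (by omega)]; omega
    refine ⟨Fin.cons y (Fin.cons w 0), ?_, ?_⟩
    · rw [Fin.sum_univ_succ, Fin.sum_univ_succ]
      simp only [Fin.cons_zero, Fin.cons_succ, Pi.zero_apply, abs_zero, sum_const_zero]
      omega
    · rw [Fin.sum_univ_succ, Fin.sum_univ_succ, ← hz1, ← e2]
      simp [a]
      ring
  have := le_nu (h := h) a ha
  rwa [hs, Set.ncard_univ, Nat.card_zmod] at this

lemma range_exc (n m h : ℕ) (hm : 2 ≤ m) (hh : 1 ≤ h) (hn : 0 < n)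
    (h2 : n < (if h % 2 = 0 then 1 else 0) +
      ∑ j ∈ (Finset.Icc 1 h).filter (fun j => j % 2 = h % 2), c j m) : nu n m h < c h m := by
  refine nu_lt (c_pos h m hh (by omega)) fun a _ => ?_
  by_contra hc
  have h3 := ball_le hn a h (K_of_card hm hh a (not_lt.mp hc))
  have h4 : ∑ j ∈ (range (h + 1)).filter (fun j => j % 2 = h % 2), (sph m j).card =
      (if h % 2 = 0 then 1 else 0) +
      ∑ j ∈ (Finset.Icc 1 h).filter (fun j => j % 2 = h % 2), c j m := by
    rw [sum_filter, sum_filter, sum_range_succ', ← Finset.Ico_add_one_right_eq_Icc,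
      sum_Ico_eq_sum_range, add_comm, card_h0]
    congr 1
    · simp [eq_comm]
    · refine sum_congr (by simp) fun j _ => ?_
      rw [add_comm 1 j, card_sph m (j + 1) (by omega)]
  omega

end Pool.Agent.H3.SgnSum
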