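import Mathlib
import Pool.Agent.H3.SgnSum

set_option autoImplicit false

namespace Pool.Agent.H3.JSgn

open Pool.Agent.H3.SgnSum

theorem joined :
    (∀ n m h : ℕ, 2 ≤ m → m ≤ n → 2 ≤ h → c h m ≤ n →
      n < (if h % 2 = 0 then 1 else 0) +
        ∑ j ∈ (Finset.Icc 1 h).filter (fun j => j % 2 = h % 2), c j m →
      nu n m h < min n (c h m)) ∧
    (∀ n h : ℕ, 2 ≤ h → 4 * h ≤ n →
      (nu n 2 h < min n (c h 2) ↔
        (n < (h + 1) ^ 2 ∨ (Odd h ∧ Even n ∧ n < (h + 1) * (h + 2))))) ∧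
    (∀ n m h : ℕ, 2 ≤ m → m ≤ n → 2 ≤ h →
      (n ≤ 2 * h + 1 ∨ (Odd h ∧ Odd n ∧ n ≤ 3 * h)) → ¬ nu n m h < min n (c h m)) := by
  refine ⟨?_, ?_, ?_⟩
  · intro n m h hm hmn hh h1 h2
    rw [min_eq_right h1]
    exact range_exc n m h hm (by omega) (by omega) h2
  · intro n h hh hn
    rw [c_two h (by omega), min_eq_right hn]
    exact two_iff n h (by omega) (by omega)
  · intro n m h hm hmn _ H
    have : n ≤ nu n m h := by
      rcases H with H | ⟨h1, h2, h3⟩
      · exact small n m h hm hmn H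
      · exact small_odd n m h hm hmn h1 h2 h3
    exact not_lt.mpr (le_trans (min_le_left _ _) this)

end Pool.Agent.H3.JSgn
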