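import Mathlib

set_option autoImplicit false

namespace Pool.Agent.H3.SlideG

open Finset

section defs
variable {V : Type} [DecidableEq V]

/-- independent set -/
def Indep (G : SimpleGraph V) (S : Finset V) : Prop := ∀ u ∈ S, ∀ v ∈ S, ¬ G.Adj u v

/-- independent dominating set -/
def IDS (G : SimpleGraph V) (S : Finset V) : Prop :=
  Indep G S ∧ ∀ v, v ∉ S → ∃ u ∈ S, G.Adj u v

/-- independent dominating set of least size -/
def ISet (G : SimpleGraph V) (S : Finset V) : Prop :=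
  IDS G S ∧ ∀ T, IDS G T → S.card ≤ T.card

/-- independent set of largest size -/
def ASet (G : SimpleGraph V) (S : Finset V) : Prop :=
  Indep G S ∧ ∀ T, Indep G T → T.card ≤ S.card

/-- all independent dominating (= maximal independent) sets have the same size -/
def WellCovered (G : SimpleGraph V) : Prop :=
  ∀ S T, IDS G S → IDS G T → S.card = T.card

/-- token sliding graph on the sets satisfying `P` -/
def slide (G : SimpleGraph V) (P : Finset V → Prop) : SimpleGraph {S : Finset V // P S} :=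
  SimpleGraph.fromRel fun X Y =>
    ∃ u ∈ X.1, ∃ v ∈ Y.1, G.Adj u v ∧ Y.1 = insert v (X.1.erase u)

end defs

/-- `H` is the i-graph of a finite graph -/
def IReal {W : Type} (H : SimpleGraph W) : Prop :=
  ∃ (V : Type) (_ : Fintype V) (_ : DecidableEq V) (G : SimpleGraph V),
    Nonempty (H ≃g slide G (ISet G))

/-- `H` is the alpha-graph of a finite graph -/
def AReal {W : Type} (H : SimpleGraph W) : Prop :=
  ∃ (V : Type) (_ : Fintype V) (_ : DecidableEq V) (G : SimpleGraph V),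
    Nonempty (H ≃g slide G (ASet G))

/-- `H` is the i-graph of a finite well-covered graph -/
def WReal {W : Type} (H : SimpleGraph W) : Prop :=
  ∃ (V : Type) (_ : Fintype V) (_ : DecidableEq V) (G : SimpleGraph V),
    WellCovered G ∧ Nonempty (H ≃g slide G (ISet G))

/-- the 3-cube with one vertex deleted -/
def cubeMinus : SimpleGraph {x : Fin 3 → Bool // x ≠ fun _ => true} :=
  SimpleGraph.fromRel fun x y => hammingDist x.1 y.1 = 1

section alpha
variable {V : Type} [DecidableEq V] {G : SimpleGraph V}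

lemma ASet.ids {S : Finset V} (h : ASet G S) : IDS G S := by
  refine ⟨h.1, fun v hv => ?_⟩
  by_contra hn
  push Not at hn
  have : Indep G (insert v S) := by
    intro a ha b hb
    rw [mem_insert] at ha hb
    rcases ha with rfl | ha <;> rcases hb with rfl | hb
    · exact G.irrefl
    · exact fun h' => hn b hb h'.symm
    · exact hn a ha
    · exact h.1 a ha b hb
  have := h.2 _ this
  rw [card_insert_of_notMem hv] at this
  omega

omit [DecidableEq V] in
lemma exists_aset [Fintype V] (G : SimpleGraph V) : ∃ S, ASet G S := by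
  classical
  obtain ⟨S, hS, hmax⟩ := exists_max_image ((univ : Finset (Finset V)).filter (Indep G)) card
    ⟨∅, by simp [Indep]⟩
  exact ⟨S, (mem_filter.mp hS).2, fun T hT => hmax T (by simpa using hT)⟩

lemma wc_eq [Fintype V] (h : WellCovered G) : ISet G = ASet G := by
  funext S
  obtain ⟨T, hT⟩ := exists_aset G
  apply propext
  constructor
  · intro hS
    exact ⟨hS.1.1, fun U hU => (h S T hS.1 hT.ids) ▸ hT.2 U hU⟩
  · intro hS
    exact ⟨hS.ids, fun U hU => (h S U hS.ids hU).le⟩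

lemma adj_form {X Y : {S : Finset V // ASet G S}} (h : (slide G (ASet G)).Adj X Y) :
    ∃ u ∈ X.1, ∃ v, v ∉ X.1 ∧ G.Adj u v ∧ Y.1 = insert v (X.1.erase u) := by
  rw [slide, SimpleGraph.fromRel_adj] at h
  rcases h.2 with ⟨u, hu, v, -, huv, e⟩ | ⟨u, hu, v, hv, huv, e⟩
  · exact ⟨u, hu, v, fun hv => X.2.1 u hu v hv huv, huv, e⟩
  · have h1 : v ∉ Y.1 := fun hv' => Y.2.1 u hu v hv' huv
    refine ⟨v, hv, u, fun hu' => X.2.1 u hu' v hv huv, huv.symm, ?_⟩
    rw [e, erase_insert (fun h' => h1 (mem_of_mem_erase h')), insert_erase hu]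

lemma u_ne {X X1 X2 : {S : Finset V // ASet G S}} {u1 v1 u2 v2 : V} (_hu : u1 ∈ X.1)
    (hv1 : v1 ∉ X.1) (hv2 : v2 ∉ X.1)
    (e1 : X1.1 = insert v1 (X.1.erase u1)) (e2 : X2.1 = insert v2 (X.1.erase u2))
    (hne : X1 ≠ X2) (hna : ¬ (slide G (ASet G)).Adj X1 X2) : u1 ≠ u2 := by
  rintro rfl
  have hv : v1 ≠ v2 := by
    rintro rfl
    exact hne (Subtype.ext (e1.trans e2.symm))
  have h2 : v2 ∉ X1.1 := by
    rw [e1, mem_insert]
    rintro (h | h)
    · exact hv h.symm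
    · exact hv2 (mem_of_mem_erase h)
  obtain ⟨a, ha, hadj⟩ := X1.2.ids.2 v2 h2
  have ha' := ha
  rw [e1, mem_insert] at ha'
  rcases ha' with rfl | ha'
  · apply hna
    rw [slide, SimpleGraph.fromRel_adj]
    refine ⟨hne, Or.inl ⟨a, ha, v2, by rw [e2]; exact mem_insert_self _ _, hadj, ?_⟩⟩
    rw [e1, erase_insert (fun h' => hv1 (mem_of_mem_erase h')), e2]
  · exact X2.2.1 a (by rw [e2]; exact mem_insert_of_mem ha') v2
      (by rw [e2]; exact mem_insert_self _ _) hadj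

lemma square {X X1 X2 Y : {S : Finset V // ASet G S}} {u1 v1 u2 v2 : V} (hu1 : u1 ∈ X.1)
    (hu2 : u2 ∈ X.1) (hv1 : v1 ∉ X.1) (hv2 : v2 ∉ X.1) (a1 : G.Adj u1 v1) (a2 : G.Adj u2 v2)
    (e1 : X1.1 = insert v1 (X.1.erase u1)) (e2 : X2.1 = insert v2 (X.1.erase u2))
    (hu : u1 ≠ u2) (hY : Y ≠ X) (h1 : (slide G (ASet G)).Adj X1 Y)
    (h2 : (slide G (ASet G)).Adj X2 Y) :
    v1 ∈ Y.1 ∧ v2 ∈ Y.1 ∧ (∀ x ∈ X.1, x ≠ u1 → x ≠ u2 → x ∈ Y.1) ∧
      ∀ y ∈ Y.1, y = v1 ∨ y = v2 ∨ y ∈ X.1 := by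
  obtain ⟨a, ha, b, hb, -, f1⟩ := adj_form h1
  obtain ⟨a', ha', b', hb', -, f2⟩ := adj_form h2
  have m1 : v1 ∈ X1.1 := by rw [e1]; exact mem_insert_self _ _
  have m2 : u2 ∈ X1.1 := by rw [e1]; exact mem_insert_of_mem (mem_erase.mpr ⟨hu.symm, hu2⟩)
  have m3 : v2 ∈ X2.1 := by rw [e2]; exact mem_insert_self _ _
  have m4 : u1 ∈ X2.1 := by rw [e2]; exact mem_insert_of_mem (mem_erase.mpr ⟨hu, hu1⟩)
  have n1 : u1 ∉ X1.1 := fun h => X1.2.1 u1 h v1 m1 a1
  have n2 : v2 ∉ X1.1 := fun h => X1.2.1 u2 m2 v2 h a2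
  have k1 : ∀ x ∈ X1.1, x ≠ a → x ∈ Y.1 := fun x hx hxa => by
    rw [f1]; exact mem_insert_of_mem (mem_erase.mpr ⟨hxa, hx⟩)
  have k2 : ∀ x ∈ X2.1, x ≠ a' → x ∈ Y.1 := fun x hx hxa => by
    rw [f2]; exact mem_insert_of_mem (mem_erase.mpr ⟨hxa, hx⟩)
  have k3 : ∀ x ∈ Y.1, x ∉ X1.1 → x = b := fun x hx hx' => by
    rw [f1, mem_insert] at hx
    exact hx.resolve_right fun h => hx' (mem_of_mem_erase h)
  have d1 : u1 ≠ v2 := fun h => hv2 (h ▸ hu1)
  have d2 : u2 ≠ v1 := fun h => hv1 (h ▸ hu2)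
  have hu2Y : u2 ∉ Y.1 := by
    intro h
    have c1 : v2 ∉ Y.1 := fun h' => Y.2.1 u2 h v2 h' a2
    have c2 : v2 = a' := by by_contra hc; exact c1 (k2 v2 m3 hc)
    have c3 : u1 ∈ Y.1 := k2 u1 m4 (c2 ▸ d1)
    have c4 : v1 ∉ Y.1 := fun h' => Y.2.1 u1 c3 v1 h' a1
    have c5 : v1 = a := by by_contra hc; exact c4 (k1 v1 m1 hc)
    have c6 : u1 = b := k3 u1 c3 n1
    apply hY
    apply Subtype.ext
    rw [f1, ← c5, ← c6, e1, erase_insert (fun h' => hv1 (mem_of_mem_erase h')), insert_erase hu1]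
  have c1 : u2 = a := by by_contra hc; exact hu2Y (k1 u2 m2 hc)
  have c2 : v1 ∈ Y.1 := k1 v1 m1 (c1 ▸ d2.symm)
  have c3 : u1 ∉ Y.1 := fun h' => Y.2.1 u1 h' v1 c2 a1
  have c4 : u1 = a' := by by_contra hc; exact c3 (k2 u1 m4 hc)
  have c5 : v2 ∈ Y.1 := k2 v2 m3 (c4 ▸ d1.symm)
  have c6 : v2 = b := k3 v2 c5 n2
  refine ⟨c2, c5, fun x hx h1 h2 => k1 x ?_ (c1 ▸ h2), fun y hy => ?_⟩
  · rw [e1]; exact mem_insert_of_mem (mem_erase.mpr ⟨h1, hx⟩)
  · by_cases hy1 : y ∈ X1.1
    · rw [e1, mem_insert] at hy1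
      rcases hy1 with h | h
      · exact Or.inl h
      · exact Or.inr (Or.inr (mem_of_mem_erase h))
    · exact Or.inr (Or.inl ((k3 y hy hy1).trans c6.symm))

end alpha

instance : DecidableRel cubeMinus.Adj := fun x y => by
  unfold cubeMinus; rw [SimpleGraph.fromRel_adj]; infer_instance

lemma cube_not_alpha : ¬ AReal cubeMinus := by
  rintro ⟨V, _, _, G, ⟨f⟩⟩
  let p0 : {x : Fin 3 → Bool // x ≠ fun _ => true} := ⟨![false, false, false], by decide⟩
  let p1 : {x : Fin 3 → Bool // x ≠ fun _ => true} := ⟨![true, false, false], by decide⟩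
  let p2 : {x : Fin 3 → Bool // x ≠ fun _ => true} := ⟨![false, true, false], by decide⟩
  let p3 : {x : Fin 3 → Bool // x ≠ fun _ => true} := ⟨![false, false, true], by decide⟩
  let p12 : {x : Fin 3 → Bool // x ≠ fun _ => true} := ⟨![true, true, false], by decide⟩
  let p13 : {x : Fin 3 → Bool // x ≠ fun _ => true} := ⟨![true, false, true], by decide⟩
  let p23 : {x : Fin 3 → Bool // x ≠ fun _ => true} := ⟨![false, true, true], by decide⟩
  have all : ∀ x, x = p0 ∨ x = p1 ∨ x = p2 ∨ x = p3 ∨ x = p12 ∨ x = p13 ∨ x = p23 := by decide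
  have A : ∀ {x y}, cubeMinus.Adj x y → (slide G (ASet G)).Adj (f x) (f y) :=
    fun h => f.map_adj_iff.mpr h
  have N : ∀ {x y}, ¬ cubeMinus.Adj x y → ¬ (slide G (ASet G)).Adj (f x) (f y) :=
    fun h h' => h (f.map_adj_iff.mp h')
  have D : ∀ {x y}, x ≠ y → f x ≠ f y := fun h h' => h (f.injective h')
  obtain ⟨u1, hu1, v1, hv1, a1, e1⟩ := adj_form (A (x := p0) (y := p1) (by decide))
  obtain ⟨u2, hu2, v2, hv2, a2, e2⟩ := adj_form (A (x := p0) (y := p2) (by decide))
  obtain ⟨u3, hu3, v3, hv3, a3, e3⟩ := adj_form (A (x := p0) (y := p3) (by decide))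
  have n12 := u_ne hu1 hv1 hv2 e1 e2 (D (by decide)) (N (by decide))
  have n13 := u_ne hu1 hv1 hv3 e1 e3 (D (by decide)) (N (by decide))
  have n23 := u_ne hu2 hv2 hv3 e2 e3 (D (by decide)) (N (by decide))
  obtain ⟨s1, s2, s3, s4⟩ := square (Y := f p12) hu1 hu2 hv1 hv2 a1 a2 e1 e2 n12 (D (by decide))
    (A (by decide)) (A (by decide))
  obtain ⟨t1, t2, t3, -⟩ := square (Y := f p13) hu1 hu3 hv1 hv3 a1 a3 e1 e3 n13 (D (by decide))
    (A (by decide)) (A (by decide))
  obtain ⟨r1, r2, r3, -⟩ := square (Y := f p23) hu2 hu3 hv2 hv3 a2 a3 e2 e3 n23 (D (by decide))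
    (A (by decide)) (A (by decide))
  have hu3Y : u3 ∈ (f p12).1 := s3 u3 hu3 n13.symm n23.symm
  have hv3Y : v3 ∉ (f p12).1 := fun h => (f p12).2.1 u3 hu3Y v3 h a3
  have m3 : v3 ∈ (f p3).1 := by rw [e3]; exact mem_insert_self _ _
  have key : ∀ y ∈ (f p12).1.erase u3, ¬ G.Adj y v3 := by
    intro y hy
    rw [mem_erase] at hy
    rcases s4 y hy.2 with rfl | rfl | h
    · exact (f p13).2.1 _ t1 _ t2
    · exact (f p23).2.1 _ r1 _ r2
    · exact (f p3).2.1 y (by rw [e3]; exact mem_insert_of_mem (mem_erase.mpr ⟨hy.1, h⟩)) v3 m3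
  have hZ : ASet G (insert v3 ((f p12).1.erase u3)) := by
    constructor
    · intro a ha b hb
      rw [mem_insert] at ha hb
      rcases ha with rfl | ha <;> rcases hb with rfl | hb
      · exact G.irrefl
      · exact fun h' => key b hb h'.symm
      · exact key a ha
      · exact (f p12).2.1 a (mem_of_mem_erase ha) b (mem_of_mem_erase hb)
    · intro T hT
      rw [card_insert_of_notMem (fun h => hv3Y (mem_of_mem_erase h)), card_erase_add_one hu3Y]
      exact (f p12).2.2 T hT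
  obtain ⟨x, hx⟩ := f.surjective ⟨_, hZ⟩
  have z1 : v1 ∈ (f x).1 := by
    rw [hx]; exact mem_insert_of_mem (mem_erase.mpr ⟨fun h => hv1 (h ▸ hu3), s1⟩)
  have z2 : v2 ∈ (f x).1 := by
    rw [hx]; exact mem_insert_of_mem (mem_erase.mpr ⟨fun h => hv2 (h ▸ hu3), s2⟩)
  have z3 : v3 ∈ (f x).1 := by rw [hx]; exact mem_insert_self _ _
  have w1 : u1 ∉ (f x).1 := fun h => (f x).2.1 u1 h v1 z1 a1
  have w2 : u2 ∉ (f x).1 := fun h => (f x).2.1 u2 h v2 z2 a2
  have w3 : u3 ∉ (f x).1 := fun h => (f x).2.1 u3 h v3 z3 a3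
  rcases all x with rfl | rfl | rfl | rfl | rfl | rfl | rfl
  · exact w1 hu1
  · exact w2 (by rw [e1]; exact mem_insert_of_mem (mem_erase.mpr ⟨n12.symm, hu2⟩))
  · exact w1 (by rw [e2]; exact mem_insert_of_mem (mem_erase.mpr ⟨n12, hu1⟩))
  · exact w1 (by rw [e3]; exact mem_insert_of_mem (mem_erase.mpr ⟨n13, hu1⟩))
  · exact w3 hu3Y
  · exact w2 (t3 u2 hu2 n12.symm n23)
  · exact w1 (r3 u1 hu1 n12 n13)

lemma areal_of_wreal {W : Type} {H : SimpleGraph W} (h : WReal H) : AReal H := by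
  obtain ⟨V, i1, i2, G, hw, hf⟩ := h
  rw [wc_eq hw] at hf
  exact ⟨V, i1, i2, G, hf⟩

section ext
variable {V : Type} [DecidableEq V] (G : SimpleGraph V)

/-- the maximal independent sets that are not maximum -/
abbrev Bad : Type := {M : Finset V // IDS G M ∧ ¬ ASet G M}

def extRel (a : ℕ) : V ⊕ (Bad G × Fin (a + 1)) → V ⊕ (Bad G × Fin (a + 1)) → Prop
  | Sum.inl u, Sum.inl v => G.Adj u v
  | Sum.inl u, Sum.inr M => u ∉ M.1.1
  | Sum.inr M, Sum.inl u => u ∉ M.1.1
  | Sum.inr M, Sum.inr N => M.1 ≠ N.1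

def ext (a : ℕ) : SimpleGraph (V ⊕ (Bad G × Fin (a + 1))) where
  Adj := extRel G a
  symm := ⟨by
    rintro (u | M) (v | N) h
    · exact G.adj_symm h
    · exact h
    · exact h
    · exact Ne.symm h⟩
  loopless := ⟨by
    rintro (u | M) h
    · exact G.irrefl h
    · exact h rfl⟩

variable {G}

lemma ext_ids (a : ℕ) {T : Finset V} (hT : ASet G T) :
    IDS (ext G a) (T.map Function.Embedding.inl) := by
  constructor
  · intro x hx y hy
    obtain ⟨u, hu, rfl⟩ := mem_map.mp hx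
    obtain ⟨v, hv, rfl⟩ := mem_map.mp hy
    exact hT.1 u hu v hv
  · rintro (v | M) hv
    · obtain ⟨u, hu, h⟩ := hT.ids.2 v (fun h => hv (mem_map.mpr ⟨v, h, rfl⟩))
      exact ⟨Sum.inl u, mem_map.mpr ⟨u, hu, rfl⟩, h⟩
    · by_contra hn
      push Not at hn
      have hsub : T ⊆ M.1.1 := by
        intro u hu
        by_contra h
        exact hn (Sum.inl u) (mem_map.mpr ⟨u, hu, rfl⟩) h
      have := eq_of_subset_of_card_le hsub (hT.2 _ M.1.2.1.1)
      exact M.1.2.2 (this ▸ hT)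

lemma ext_cases (a : ℕ) {S : Finset (V ⊕ (Bad G × Fin (a + 1)))} (hS : IDS (ext G a) S) :
    a + 1 ≤ S.card ∨ ∃ T, ASet G T ∧ S = T.map Function.Embedding.inl := by
  classical
  by_cases h : ∃ M, Sum.inr M ∈ S
  · left
    obtain ⟨⟨M, i⟩, hM⟩ := h
    have all : ∀ j, Sum.inr (M, j) ∈ S := by
      intro j
      by_contra hj
      obtain ⟨x, hx, hadj⟩ := hS.2 _ hj
      apply hS.1 x hx _ hM
      rcases x with u | N
      · exact hadj
      · exact hadj
    have := card_le_card_of_injOn (s := (univ : Finset (Fin (a + 1)))) (t := S)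
      (fun j => Sum.inr (M, j)) (fun j _ => all j) (fun j _ k _ h => by simpa using h)
    simpa using this
  · right
    push Not at h
    have e : S = S.toLeft.map Function.Embedding.inl := by
      ext x
      rcases x with u | M
      · simp
      · simp [h M]
    have hI : IDS G S.toLeft := by
      constructor
      · intro u hu v hv
        exact hS.1 _ (mem_toLeft.mp hu) _ (mem_toLeft.mp hv)
      · intro v hv
        obtain ⟨x, hx, hadj⟩ := hS.2 (Sum.inl v) (fun h' => hv (mem_toLeft.mpr h'))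
        rcases x with u | M
        · exact ⟨u, mem_toLeft.mpr hx, hadj⟩
        · exact absurd hx (h M)
    refine ⟨S.toLeft, ?_, e⟩
    by_contra hn
    obtain ⟨x, hx, hadj⟩ := hS.2 (Sum.inr (⟨S.toLeft, hI, hn⟩, 0)) (h _)
    rcases x with u | M
    · exact hadj (mem_toLeft.mpr hx)
    · exact h M hx

lemma ext_iset [Fintype V] (S : Finset (V ⊕ (Bad G × Fin (Fintype.card V + 1)))) :
    ISet (ext G (Fintype.card V)) S ↔ ∃ T, ASet G T ∧ S = T.map Function.Embedding.inl := by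
  constructor
  · intro hS
    obtain ⟨T0, hT0⟩ := exists_aset G
    have h1 := hS.2 _ (ext_ids _ hT0)
    rw [card_map] at h1
    have h2 := card_le_univ T0
    exact (ext_cases _ hS.1).resolve_left (by omega)
  · rintro ⟨T, hT, rfl⟩
    refine ⟨ext_ids _ hT, fun U hU => ?_⟩
    rw [card_map]
    rcases ext_cases _ hU with h | ⟨T', hT', rfl⟩
    · have h2 := card_le_univ T
      omega
    · rw [card_map]
      exact hT'.2 T hT.1

lemma ext_iso [Fintype V] :
    Nonempty (slide G (ASet G) ≃g slide (ext G (Fintype.card V)) (ISet (ext G (Fintype.card V)))) := by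
  let f : {S // ASet G S} → {S // ISet (ext G (Fintype.card V)) S} :=
    fun T => ⟨T.1.map Function.Embedding.inl, (ext_iset _).mpr ⟨T.1, T.2, rfl⟩⟩
  have finj : Function.Injective f := by
    intro X Y h
    exact Subtype.ext (map_injective _ (congrArg Subtype.val h))
  have fsurj : Function.Surjective f := by
    intro S
    obtain ⟨T, hT, e⟩ := (ext_iset _).mp S.2
    exact ⟨⟨T, hT⟩, Subtype.ext e.symm⟩
  have key : ∀ X Y : {S // ASet G S},
      (∃ u ∈ (f X).1, ∃ v ∈ (f Y).1, (ext G (Fintype.card V)).Adj u v ∧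
        (f Y).1 = insert v ((f X).1.erase u)) ↔
      (∃ u ∈ X.1, ∃ v ∈ Y.1, G.Adj u v ∧ Y.1 = insert v (X.1.erase u)) := by
    intro X Y
    constructor
    · rintro ⟨x, hx, y, hy, hadj, e⟩
      obtain ⟨u, hu, rfl⟩ := mem_map.mp hx
      obtain ⟨v, hv, rfl⟩ := mem_map.mp hy
      refine ⟨u, hu, v, hv, hadj, map_injective
        (Function.Embedding.inl (β := Bad G × Fin (Fintype.card V + 1))) ?_⟩
      rw [map_insert, map_erase]
      exact e
    · rintro ⟨u, hu, v, hv, hadj, e⟩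
      refine ⟨Sum.inl u, mem_map.mpr ⟨u, hu, rfl⟩, Sum.inl v, mem_map.mpr ⟨v, hv, rfl⟩, hadj, ?_⟩
      show Y.1.map Function.Embedding.inl = _
      rw [e, map_insert, map_erase]
      rfl
  refine ⟨⟨Equiv.ofBijective f ⟨finj, fsurj⟩, ?_⟩⟩
  intro X Y
  simp only [slide, SimpleGraph.fromRel_adj]
  exact and_congr finj.ne_iff (or_congr (key X Y) (key Y X))

end ext

lemma ireal_of_areal {W : Type} {H : SimpleGraph W} (h : AReal H) : IReal H := by
  classical
  obtain ⟨V, i1, i2, G, ⟨f⟩⟩ := h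
  obtain ⟨g⟩ := ext_iso (G := G)
  exact ⟨_, inferInstance, inferInstance, _, ⟨f.trans g⟩⟩

/-- three disjoint edges `i, i+3` and a vertex `6` joined to `0, 1, 2` -/
def seed : SimpleGraph (Fin 7) :=
  SimpleGraph.fromRel fun u v => (u.val < 3 ∧ (v.val = u.val + 3 ∨ v.val = 6))

instance : DecidableRel seed.Adj := fun x y => by
  unfold seed; rw [SimpleGraph.fromRel_adj]; infer_instance

instance (S : Finset (Fin 7)) : Decidable (IDS seed S) := by
  unfold IDS Indep; infer_instance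

def cfg (x : Fin 3 → Bool) : Finset (Fin 7) :=
  {if x 0 then 3 else 0, if x 1 then 4 else 1, if x 2 then 5 else 2}

lemma seed1 : ∀ S : Finset (Fin 7), IDS seed S → 3 ≤ S.card ∧ (S.card ≤ 3 →
    ∃ x : {x : Fin 3 → Bool // x ≠ fun _ => true}, cfg x.1 = S) := by
  decide +kernel

lemma seed2 : ∀ x : {x : Fin 3 → Bool // x ≠ fun _ => true},
    IDS seed (cfg x.1) ∧ (cfg x.1).card = 3 := by
  decide +kernel

lemma seed3 : ∀ x y : {x : Fin 3 → Bool // x ≠ fun _ => true}, cfg x.1 = cfg y.1 → x = y := by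
  decide +kernel

lemma seed4 : ∀ x y : {x : Fin 3 → Bool // x ≠ fun _ => true},
    (∃ u ∈ cfg x.1, ∃ v ∈ cfg y.1, seed.Adj u v ∧ cfg y.1 = insert v ((cfg x.1).erase u)) ↔
      hammingDist x.1 y.1 = 1 := by
  decide +kernel

lemma cube_ireal : IReal cubeMinus := by
  refine ⟨Fin 7, inferInstance, inferInstance, seed, ?_⟩
  let f : {x : Fin 3 → Bool // x ≠ fun _ => true} → {S // ISet seed S} := fun x =>
    ⟨cfg x.1, (seed2 x).1, fun T hT => (seed2 x).2.le.trans (seed1 T hT).1⟩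
  have finj : Function.Injective f := fun x y h => seed3 x y (congrArg Subtype.val h)
  have fsurj : Function.Surjective f := by
    intro S
    have h := S.2.2 _ (seed2 ⟨fun _ => false, by decide⟩).1
    rw [(seed2 _).2] at h
    obtain ⟨x, hx⟩ := (seed1 S.1 S.2.1).2 h
    exact ⟨x, Subtype.ext hx⟩
  refine ⟨⟨Equiv.ofBijective f ⟨finj, fsurj⟩, ?_⟩⟩
  intro x y
  simp only [slide, cubeMinus, SimpleGraph.fromRel_adj]
  exact and_congr finj.ne_iff (or_congr (seed4 x y) (seed4 y x))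

end Pool.Agent.H3.SlideG
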