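import Mathlib
import Pool.Agent.H3.SlideG

set_option autoImplicit false

namespace Pool.Agent.H3.JSlide

open Pool.Agent.H3.SlideG

theorem joined :
    (∀ (W : Type) (H : SimpleGraph W), (IReal H ∧ AReal H) ↔ AReal H) ∧
    (IReal cubeMinus ∧ ¬ AReal cubeMinus) :=
  ⟨fun _ _ => ⟨fun h => h.2, fun h => ⟨ireal_of_areal h, h⟩⟩, cube_ireal, cube_not_alpha⟩

end Pool.Agent.H3.JSlide
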