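import Pool.Agent.H3.PST

set_option autoImplicit false

namespace Pool.Agent.H3.Layer

open Matrix Pool.Agent.H3.PST

def w (N i : ℕ) (s : Fin 3) : ℕ :=
  if 2 * N ≤ i then 0 else if i = 0 then (if s = 0 then 8 * N - 2 else 4)
  else if i = 1 then (if s = 0 then 0 else 1)
  else if s = 0 then (if i % 2 = 0 then 8 * (N - i / 2) else 2 * (i / 2 + 1)) else 0

abbrev V (N : ℕ) := Σ p : Fin (2 * N) × Fin 3, Fin (w N p.1 p.2)

def G (N : ℕ) : SimpleGraph (V N) where
  Adj x y := ((x.1.1 : ℕ) + 1 = y.1.1 ∨ (y.1.1 : ℕ) + 1 = x.1.1) ∧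
    (x.1.2 = 0 ∨ y.1.2 = 0 ∨ x.1.2 = y.1.2)
  symm := ⟨fun x y h => ⟨h.1.symm, by rcases h.2 with h | h | h <;> simp [h]⟩⟩
  loopless := ⟨fun x h => by have := h.1; omega⟩

instance (N : ℕ) : DecidableRel (G N).Adj := fun x y => by unfold G; infer_instance

theorem sum_range_two {R : Type} [AddCommMonoid R] (M i : ℕ) (hi : i < M) (f : ℕ → R)
    (hf : f M = 0) :
    ∑ j ∈ Finset.range M, (if i + 1 = j ∨ j + 1 = i then f j else 0) =
      f (i + 1) + (if i = 0 then 0 else f (i - 1)) := by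
  have e : ∀ j, (if i + 1 = j ∨ j + 1 = i then f j else 0) =
      (if j = i + 1 then f j else 0) + (if j = i - 1 then (if i = 0 then 0 else f j) else 0) := by
    intro j
    by_cases h1 : j = i + 1
    · have : ¬ j = i - 1 := by omega
      rw [if_pos (Or.inl h1.symm), if_pos h1, if_neg this, add_zero]
    · by_cases h2 : j + 1 = i
      · have h3 : j = i - 1 := by omega
        have h4 : i ≠ 0 := by omega
        rw [if_pos (Or.inr h2), if_neg h1, if_pos h3, if_neg h4, zero_add]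
      · rw [if_neg (by omega), if_neg h1, zero_add]
        split_ifs <;> first | rfl | omega
  simp only [e, Finset.sum_add_distrib, Finset.sum_ite_eq', Finset.mem_range]
  rw [if_pos (show i - 1 < M by omega)]
  congr 1
  split_ifs with h
  · rfl
  · rw [show i + 1 = M by omega, hf]

def lay {R : Type} [CommSemiring R] (N : ℕ) (F : ℕ → Fin 3 → R) (s : Fin 3) (j : ℕ) : R :=
  ∑ t : Fin 3, if s = 0 ∨ t = 0 ∨ s = t then (w N j t : R) * F j t else 0

theorem sum_adj {R : Type} [CommSemiring R] (N : ℕ) (F : ℕ → Fin 3 → R) (x : V N) :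
    ∑ y : V N, (if (G N).Adj x y then F y.1.1 y.1.2 else 0) =
      lay N F x.1.2 (x.1.1 + 1) + (if (x.1.1 : ℕ) = 0 then 0 else lay N F x.1.2 (x.1.1 - 1)) := by
  rw [← sum_range_two (2 * N) x.1.1 x.1.1.2 (lay N F x.1.2) (by simp [lay, w]),
    ← Fin.sum_univ_eq_sum_range
      (fun j => if (x.1.1 : ℕ) + 1 = j ∨ j + 1 = x.1.1 then lay N F x.1.2 j else 0) (2 * N),
    Fintype.sum_sigma, Fintype.sum_prod_type]
  refine Finset.sum_congr rfl fun j _ => ?_
  simp only [G, lay]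
  by_cases h : (x.1.1 : ℕ) + 1 = j ∨ (j : ℕ) + 1 = x.1.1
  · rw [if_pos h]
    refine Finset.sum_congr rfl fun t _ => ?_
    simp [h]
  · rw [if_neg h]
    simp [h]

theorem mulVec_lab (N : ℕ) (F : ℕ → Fin 3 → ℂ) (x : V N) :
    ((G N).adjMatrix ℂ *ᵥ fun y => F y.1.1 y.1.2) x =
      lay N F x.1.2 (x.1.1 + 1) + (if (x.1.1 : ℕ) = 0 then 0 else lay N F x.1.2 (x.1.1 - 1)) := by
  rw [← sum_adj]
  simp [mulVec, dotProduct, SimpleGraph.adjMatrix_apply]

noncomputable def hf (i : ℕ) (s : Fin 3) : ℂ := if i = 0 ∧ s ≠ 0 then 1 / 2 else 1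

noncomputable def S (N : ℕ) (g : ℕ → ℂ) : V N → ℂ := fun y => g y.1.1 * hf y.1.1 y.1.2

def W (N i : ℕ) : ℂ := if i % 2 = 0 then 8 * (N - (i / 2 : ℕ)) else 2 * ((i / 2 : ℕ) + 1)

def T (N : ℕ) (g : ℕ → ℂ) (i : ℕ) : ℂ :=
  W N (i + 1) * g (i + 1) + (if i = 0 then 0 else W N (i - 1) * g (i - 1))

theorem lay_big (N : ℕ) (g : ℕ → ℂ) (s : Fin 3) (j : ℕ) (h2 : 2 ≤ j) (hj : j ≤ 2 * N) :
    lay N (fun i t => g i * hf i t) s j = W N j * g j := by
  have h0 : j ≠ 0 := by omega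
  have h1 : j ≠ 1 := by omega
  rcases eq_or_lt_of_le hj with rfl | hlt
  · simp [lay, w, W]
  · have h3 : ¬ 2 * N ≤ j := by omega
    have h4 : j / 2 ≤ N := by omega
    simp only [lay, w, W, hf, Fin.sum_univ_three, h0, h1, h3]
    split_ifs <;> simp_all

theorem mulVec_S (N : ℕ) (g : ℕ → ℂ) : (G N).adjMatrix ℂ *ᵥ S N g = S N (T N g) := by
  funext x
  have h := mulVec_lab N (fun i t => g i * hf i t) x
  refine h.trans ?_
  obtain ⟨⟨⟨i, hi⟩, s⟩, ⟨k, hk⟩⟩ := x
  simp only [S, T]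
  simp only at hk
  have hN : 1 ≤ N := by omega
  have e1 : ¬ 2 * N ≤ 1 := by omega
  have e0 : ¬ 2 * N ≤ 0 := by omega
  have c8 : ((8 * N - 2 : ℕ) : ℂ) = 8 * N - 2 := by
    rw [Nat.cast_sub (by omega)]; push_cast; ring
  rcases i with _ | _ | _ | i
  · fin_cases s <;> simp [lay, w, W, hf, Fin.sum_univ_three, e1] <;> ring
  · rw [lay_big N g s _ (by omega) (by omega)]
    fin_cases s
    · simp [w, e1] at hk
    · simp [lay, w, W, hf, Fin.sum_univ_three, e0, c8, show N ≠ 0 by omega]; ring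
    · simp [lay, w, W, hf, Fin.sum_univ_three, e0, c8, show N ≠ 0 by omega]; ring
  · rw [lay_big N g s _ (by omega) (by omega)]
    have hs : s = 0 := by
      by_contra hs
      simp [w, hs] at hk
    subst hs
    simp [lay, w, W, hf, Fin.sum_univ_three, e1]
    ring
  · rw [lay_big N g s _ (by omega) (by omega), if_neg (by omega),
      lay_big N g s _ (by omega) (by omega)]
    simp [hf]

def xs (j i : ℕ) : ℂ := if i % 2 = 0 then (-1) ^ (i / 2) * ((i / 2).choose j : ℂ) else 0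
def ys (j i : ℕ) : ℂ := if i % 2 = 0 then 0 else (-1) ^ (i / 2) * ((i / 2).choose j : ℂ)

theorem ch1 (n j : ℕ) : ((n : ℂ) + 1) * (n.choose j : ℂ) = ((n + 1).choose (j + 1) : ℂ) * (j + 1) := by
  exact_mod_cast Nat.add_one_mul_choose_eq n j

theorem ch2 (n j : ℕ) : ((n + 1).choose (j + 1) : ℂ) = n.choose j + n.choose (j + 1) := by
  exact_mod_cast Nat.choose_succ_succ n j

theorem T_ys (N j : ℕ) : T N (ys j) = fun i => (2 * (j + 1) : ℂ) * xs j i := by
  funext i
  rcases Nat.even_or_odd' i with ⟨n, rfl | rfl⟩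
  · rcases n with _ | n
    · rcases j with _ | j <;> simp [T, W, xs, ys]
    · have a1 : (2 * (n + 1) + 1) % 2 = 1 := by omega
      have a2 : (2 * (n + 1) + 1) / 2 = n + 1 := by omega
      have a3 : (2 * (n + 1) - 1) % 2 = 1 := by omega
      have a4 : (2 * (n + 1) - 1) / 2 = n := by omega
      have a5 : (2 * (n + 1)) % 2 = 0 := by omega
      have a6 : (2 * (n + 1)) / 2 = n + 1 := by omega
      simp only [T, W, xs, ys, a1, a2, a3, a4, a5, a6]
      have b1 := ch1 n j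
      have b2 := ch1 (n + 1) j
      have b3 := ch2 (n + 1) j
      simp only [one_ne_zero, if_false, if_true, show 2 * (n + 1) ≠ 0 by omega, pow_succ]
      push_cast at *
      linear_combination (-1) ^ n * (2 * b1 - 2 * b2 - 2 * (j + 1) * b3)
  · have a1 : (2 * n + 1 + 1) % 2 = 0 := by omega
    have a3 : (2 * n + 1 - 1) % 2 = 0 := by omega
    have a5 : (2 * n + 1) % 2 = 1 := by omega
    simp [T, xs, ys, a1, a3, a5]

theorem T_xs0 (N : ℕ) : T N (xs 0) = fun i => (8 : ℂ) * ys 0 i := by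
  funext i
  rcases Nat.even_or_odd' i with ⟨n, rfl | rfl⟩
  · have a1 : (2 * n + 1) % 2 = 1 := by omega
    have a3 : n ≠ 0 → (2 * n - 1) % 2 = 1 := by omega
    by_cases h : n = 0 <;> simp [T, xs, ys, a1, a3, h]
  · have a1 : (2 * n + 1 + 1) % 2 = 0 := by omega
    have a2 : (2 * n + 1 + 1) / 2 = n + 1 := by omega
    have a5 : (2 * n + 1) % 2 = 1 := by omega
    have a6 : (2 * n + 1) / 2 = n := by omega
    simp [T, W, xs, ys, a1, a2, a5, a6, pow_succ]
    ring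

theorem T_xs (N j : ℕ) : T N (xs (j + 1)) =
    fun i => (8 * (j + 2) : ℂ) * ys (j + 1) i + (8 * (j + 1 - N) : ℂ) * ys j i := by
  funext i
  rcases Nat.even_or_odd' i with ⟨n, rfl | rfl⟩
  · have a1 : (2 * n + 1) % 2 = 1 := by omega
    have a3 : n ≠ 0 → (2 * n - 1) % 2 = 1 := by omega
    by_cases h : n = 0 <;> simp [T, xs, ys, a1, a3, h]
  · have a1 : (2 * n + 1 + 1) % 2 = 0 := by omega
    have a2 : (2 * n + 1 + 1) / 2 = n + 1 := by omega
    have a5 : (2 * n + 1) % 2 = 1 := by omega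
    have a6 : (2 * n + 1) / 2 = n := by omega
    have b1 := ch1 n j
    have b3 := ch2 n j
    simp [T, W, xs, ys, a1, a2, a5, a6, pow_succ]
    linear_combination (-1) ^ n * (8 * b1 - 8 * (N - n - 1) * b3 + 8 * (j + 1) * b3)

theorem S_mul (N : ℕ) (c : ℂ) (g : ℕ → ℂ) : S N (fun i => c * g i) = c • S N g := by
  funext y; simp [S, mul_assoc]

theorem S_add (N : ℕ) (f g : ℕ → ℂ) : S N (fun i => f i + g i) = S N f + S N g := by
  funext y; simp [S, add_mul]

def P (j : ℕ) (θ : ℂ) : Prop := ∃ k : ℕ, k ≤ j ∧ (θ = 4 * (k + 1) ∨ θ = -(4 * (k + 1)))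

theorem not_P (j : ℕ) : ¬ P j (4 * (j + 2)) ∧ ¬ P j (-(4 * (j + 2))) := by
  constructor
  · rintro ⟨k, hk, h | h⟩
    · have : (4 * (j + 2) : ℤ) = 4 * (k + 1) := by exact_mod_cast h
      omega
    · have : (4 * (j + 2) : ℤ) = -(4 * (k + 1)) := by exact_mod_cast h
      omega
  · rintro ⟨k, hk, h | h⟩
    · have : -(4 * (j + 2) : ℤ) = 4 * (k + 1) := by exact_mod_cast h
      omega
    · have : -(4 * (j + 2) : ℤ) = -(4 * (k + 1)) := by exact_mod_cast h
      omega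

theorem Y_mem (N j : ℕ) : S N (ys j) ∈ ES ((G N).adjMatrix ℂ) (P j) := by
  induction j with
  | zero =>
    have := ES_lift2 ((G N).adjMatrix ℂ) (fun _ => False) 4 (by norm_num) id id (S N (ys 0)) (by
      rw [mulVec_S, T_ys, S_mul, mulVec_smul, mulVec_S, T_xs0, S_mul, smul_smul, ← sub_smul]
      norm_num)
    refine ES_mono _ ?_ this
    rintro θ (h | h | h)
    · exact h.elim
    · exact ⟨0, le_rfl, Or.inl (by simp [h])⟩
    · exact ⟨0, le_rfl, Or.inr (by simp [h])⟩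
  | succ j ih =>
    have h0 : (4 * (j + 2) : ℂ) ≠ 0 := by exact_mod_cast (show 4 * (j + 2) ≠ 0 by omega)
    have := ES_lift2 ((G N).adjMatrix ℂ) (P j) (4 * (j + 2)) h0 (not_P j).1 (not_P j).2
      (S N (ys (j + 1))) (by
      rw [mulVec_S, T_ys, S_mul, mulVec_smul, mulVec_S, T_xs, S_add, S_mul, S_mul]
      convert Submodule.smul_mem _ (16 * (j + 2) * (j + 1 - N) : ℂ) ih using 1
      push_cast
      module)
    refine ES_mono _ ?_ this
    rintro θ (⟨k, hk, h⟩ | h | h)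
    · exact ⟨k, by omega, h⟩
    · exact ⟨j + 1, le_rfl, Or.inl (by rw [h]; push_cast; ring)⟩
    · exact ⟨j + 1, le_rfl, Or.inr (by rw [h]; push_cast; ring)⟩

theorem w1 (N : ℕ) (s : Fin 3) (hs : s ≠ 0) : w (N + 1) 1 s = 1 := by
  have e1 : ¬ 2 * (N + 1) ≤ 1 := by omega
  simp [w, hs, e1]

def u (N : ℕ) : V (N + 1) := ⟨(⟨1, by omega⟩, 1), ⟨0, (w1 N 1 (by decide)).symm ▸ Nat.one_pos⟩⟩
def v (N : ℕ) : V (N + 1) := ⟨(⟨1, by omega⟩, 2), ⟨0, (w1 N 2 (by decide)).symm ▸ Nat.one_pos⟩⟩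

theorem u_ne_v (N : ℕ) : u N ≠ v N := by
  intro h
  have := congrArg (fun x : V (N + 1) => x.1.2) h
  simp [u, v] at this

theorem eq_u (N : ℕ) (y : V (N + 1)) : y = u N ↔ (y.1.1 : ℕ) = 1 ∧ y.1.2 = 1 := by
  constructor
  · rintro rfl; exact ⟨rfl, rfl⟩
  · obtain ⟨⟨⟨i, hi⟩, s⟩, ⟨k, hk⟩⟩ := y
    rintro ⟨h1, h2⟩
    simp only at h1 h2 hk
    subst h1 h2
    have : k = 0 := by rw [w1 N _ (by decide)] at hk; omega
    subst this
    rfl

theorem eq_v (N : ℕ) (y : V (N + 1)) : y = v N ↔ (y.1.1 : ℕ) = 1 ∧ y.1.2 = 2 := by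
  constructor
  · rintro rfl; exact ⟨rfl, rfl⟩
  · obtain ⟨⟨⟨i, hi⟩, s⟩, ⟨k, hk⟩⟩ := y
    rintro ⟨h1, h2⟩
    simp only at h1 h2 hk
    subst h1 h2
    have : k = 0 := by rw [w1 N _ (by decide)] at hk; omega
    subst this
    rfl

theorem alt (n M : ℕ) (h : n < M) :
    ∑ j ∈ Finset.range M, (-1 : ℂ) ^ j * (n.choose j : ℂ) = if n = 0 then 1 else 0 := by
  have h1 : ∑ j ∈ Finset.range (n + 1), (-1 : ℂ) ^ j * (n.choose j : ℂ) = if n = 0 then 1 else 0 := by
    have := Int.alternating_sum_range_choose (n := n)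
    exact_mod_cast this
  rw [← h1]
  symm
  apply Finset.sum_subset (Finset.range_mono (by omega))
  intro j _ hj
  rw [Nat.choose_eq_zero_of_lt (by simpa using hj)]
  simp

theorem sym_eq (N : ℕ) : (Pi.single (u N) 1 + Pi.single (v N) 1 : V (N + 1) → ℂ) =
    ∑ j ∈ Finset.range (N + 1), (-1 : ℂ) ^ j • S (N + 1) (ys j) := by
  funext y
  simp only [Pi.add_apply, Pi.single_apply, eq_u, eq_v, Finset.sum_apply, Pi.smul_apply, S, ys,
    smul_eq_mul]
  obtain ⟨⟨⟨i, hi⟩, s⟩, ⟨k, hk⟩⟩ := y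
  simp only at hk ⊢
  rcases Nat.even_or_odd' i with ⟨n, rfl | rfl⟩
  · have : 2 * n ≠ 1 := by omega
    simp [this]
  · have a5 : (2 * n + 1) % 2 = 1 := by omega
    have a6 : (2 * n + 1) / 2 = n := by omega
    have e : ∀ j, (-1 : ℂ) ^ j * ((-1) ^ n * (n.choose j : ℂ) * hf (2 * n + 1) s) =
        (-1) ^ n * ((-1) ^ j * (n.choose j : ℂ)) := by
      intro j; simp [hf]; ring
    simp only [a5, a6, one_ne_zero, if_false, e, ← Finset.mul_sum, alt n (N + 1) (by omega)]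
    by_cases hn : n = 0
    · subst hn
      fin_cases s
      · simp [w] at hk
      · simp
      · simp
    · simp [hn]

def sg (s : Fin 3) : ℂ := if s = 1 then 1 else if s = 2 then -1 else 0

theorem anti_eq (N : ℕ) : (Pi.single (u N) 1 - Pi.single (v N) 1 : V (N + 1) → ℂ) =
    fun y => (fun (i : ℕ) (s : Fin 3) => if i = 1 then sg s else 0) y.1.1 y.1.2 := by
  funext y
  simp only [Pi.sub_apply, Pi.single_apply, eq_u, eq_v]
  obtain ⟨⟨⟨i, hi⟩, s⟩, k⟩ := y
  by_cases h : i = 1 <;> fin_cases s <;> simp [h, sg]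

theorem anti1 (N : ℕ) : ((G (N + 1)).adjMatrix ℂ *ᵥ
    fun y => (fun (i : ℕ) (s : Fin 3) => if i = 1 then sg s else 0) y.1.1 y.1.2) =
    fun y => (fun (i : ℕ) (s : Fin 3) => if i = 0 then sg s else 0) y.1.1 y.1.2 := by
  funext x
  refine (mulVec_lab (N + 1) (fun (i : ℕ) (s : Fin 3) => if i = 1 then sg s else 0) x).trans ?_
  obtain ⟨⟨⟨i, hi⟩, s⟩, ⟨k, hk⟩⟩ := x
  simp only at hk ⊢
  have e1 : ¬ 2 * (N + 1) ≤ 1 := by omega
  rcases i with _ | _ | _ | i
  · fin_cases s <;> simp [lay, w, sg, Fin.sum_univ_three, e1]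
  · simp [lay]
  · have hs : s = 0 := by
      by_contra hs
      simp [w, hs] at hk
    subst hs
    simp [lay, w, sg, Fin.sum_univ_three, e1]
  · simp [lay]

theorem anti2 (N : ℕ) : ((G (N + 1)).adjMatrix ℂ *ᵥ
    fun y => (fun (i : ℕ) (s : Fin 3) => if i = 0 then sg s else 0) y.1.1 y.1.2) =
    (4 : ℂ) • fun y => (fun (i : ℕ) (s : Fin 3) => if i = 1 then sg s else 0) y.1.1 y.1.2 := by
  funext x
  refine (mulVec_lab (N + 1) (fun (i : ℕ) (s : Fin 3) => if i = 0 then sg s else 0) x).trans ?_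
  obtain ⟨⟨⟨i, hi⟩, s⟩, ⟨k, hk⟩⟩ := x
  simp only at hk ⊢
  rcases i with _ | _ | i
  · simp [lay]
  · have e : 1 % (2 * (N + 1)) = 1 := Nat.mod_eq_of_lt (by omega)
    fin_cases s <;> simp [lay, w, sg, Fin.sum_univ_three, e]
  · simp [lay]

theorem pst (N : ℕ) (c : ℂ) (hc : Complex.exp (c * 2) = -1) :
    NormedSpace.exp (c • (G (N + 1)).adjMatrix ℂ) *ᵥ (Pi.single (u N) 1) = Pi.single (v N) 1 := by
  have h4 : ∀ k : ℕ, Complex.exp (c * (4 * (k + 1))) = 1 := by
    intro k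
    rw [show c * (4 * (k + 1)) = ((2 * (k + 1) : ℕ) : ℂ) * (c * 2) by push_cast; ring,
      Complex.exp_nat_mul, hc, pow_mul]
    simp
  apply transfer
  · apply ES_exp _ (P N) c 1
    · rintro θ ⟨k, -, rfl | rfl⟩
      · exact h4 k
      · rw [mul_neg, Complex.exp_neg, h4 k, inv_one]
    · rw [sym_eq]
      refine Submodule.sum_mem _ fun j hj => Submodule.smul_mem _ _ (ES_mono _ ?_ (Y_mem _ j))
      rintro θ ⟨k, hk, h⟩
      exact ⟨k, by simp at hj; omega, h⟩
  · apply ES_exp _ (fun θ => False ∨ θ = 2 ∨ θ = -2) c (-1)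
    · rintro θ (h | rfl | rfl)
      · exact h.elim
      · exact hc
      · rw [mul_neg, Complex.exp_neg, hc]; norm_num
    · apply ES_lift2 _ _ 2 (by norm_num) id id
      rw [anti_eq, anti1, anti2]
      norm_num

def c0 (N : ℕ) : V (N + 1) := ⟨(⟨0, by omega⟩, 0), ⟨0, by simp [w]; omega⟩⟩

theorem reach (N i : ℕ) : ∀ x : V (N + 1), (x.1.1 : ℕ) = i + 1 → (G (N + 1)).Reachable (c0 N) x := by
  induction i with
  | zero =>
    intro x hx
    exact SimpleGraph.Adj.reachable ⟨Or.inl (by simp [c0, hx]), Or.inl rfl⟩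
  | succ i ih =>
    intro x hx
    have hlt : (x.1.1 : ℕ) < 2 * (N + 1) := x.1.1.2
    have hs : x.1.2 = 0 := by
      by_contra hs
      have := x.2.2
      simp [w, hs, hx] at this
    by_cases h0 : i = 0
    · subst h0
      exact (ih (u N) rfl).trans
        (SimpleGraph.Adj.reachable ⟨Or.inl (by rw [hx]; rfl), Or.inr (Or.inl hs)⟩)
    · let y : V (N + 1) := ⟨(⟨i + 1, by omega⟩, 0), ⟨0, by
        simp only [w]
        split_ifs <;> omega⟩⟩
      exact (ih y rfl).trans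
        (SimpleGraph.Adj.reachable ⟨Or.inl (by simp [y, hx]), Or.inl rfl⟩)

theorem connected (N : ℕ) : (G (N + 1)).Connected := by
  have : Nonempty (V (N + 1)) := ⟨c0 N⟩
  have key : ∀ x : V (N + 1), (G (N + 1)).Reachable (c0 N) x := by
    intro x
    by_cases h : (x.1.1 : ℕ) = 0
    · by_cases h2 : x.1.2 = 2
      · exact (reach N 0 (v N) rfl).trans
          (SimpleGraph.Adj.reachable ⟨Or.inr (by rw [h]; rfl), Or.inr (Or.inr h2.symm)⟩)
      · refine (reach N 0 (u N) rfl).trans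
          (SimpleGraph.Adj.reachable ⟨Or.inr (by rw [h]; rfl), Or.inr ?_⟩)
        show x.1.2 = 0 ∨ 1 = x.1.2
        generalize x.1.2 = s at h2
        fin_cases s <;> simp_all
    · exact reach N (x.1.1 - 1) x (by omega)
  exact ⟨fun a b => (key a).symm.trans (key b)⟩

def top (N : ℕ) : V (N + 1) :=
  ⟨(⟨2 * N + 1, by omega⟩, if N = 0 then 1 else 0), ⟨0, by
    simp only [w]
    split_ifs <;> first | omega | simp_all⟩⟩

theorem lip (N : ℕ) (a b : V N) (h : (G N).Adj a b) : (b.1.1 : ℕ) ≤ a.1.1 + 1 := by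
  have := h.1
  omega

theorem w_le (N i : ℕ) (s : Fin 3) : w N i s ≤ 8 * N := by
  unfold w
  split_ifs <;> omega

theorem card_le (N : ℕ) : Fintype.card (V N) ≤ 48 * N ^ 2 := by
  rw [Fintype.card_sigma]
  calc _ ≤ ∑ _p : Fin (2 * N) × Fin 3, 8 * N :=
        Finset.sum_le_sum fun p _ => by simpa using w_le N p.1 p.2
    _ = _ := by simp; ring

theorem deg_le (N : ℕ) (x : V N) : (G N).degree x ≤ 48 * N := by
  have h := sum_adj (R := ℕ) N (fun _ _ => 1) x
  have h1 : ∀ j, lay (R := ℕ) N (fun _ _ => 1) x.1.2 j ≤ 24 * N := by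
    intro j
    unfold lay
    calc _ ≤ ∑ _t : Fin 3, 8 * N := Finset.sum_le_sum fun t _ => by
          split_ifs
          · simpa using w_le N j t
          · omega
      _ = _ := by simp; ring
  have h2 : (G N).degree x = ∑ y : V N, (if (G N).Adj x y then 1 else 0) := by
    rw [← SimpleGraph.card_neighborFinset_eq_degree, SimpleGraph.neighborFinset_eq_filter,
      Finset.card_filter]
  rw [h2, h]
  have := h1 (x.1.1 + 1)
  have := h1 (x.1.1 - 1)
  split_ifs <;> omega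

theorem edges_le (N : ℕ) : (G N).edgeFinset.card ≤ 1152 * N ^ 3 := by
  have h := (G N).sum_degrees_eq_twice_card_edges
  have h1 : ∑ x, (G N).degree x ≤ Fintype.card (V N) * (48 * N) := by
    calc _ ≤ ∑ _x : V N, 48 * N := Finset.sum_le_sum fun x _ => deg_le N x
      _ = _ := by simp
  have h2 := Nat.mul_le_mul_right (48 * N) (card_le N)
  nlinarith

end Pool.Agent.H3.Layer
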