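import Mathlib

set_option autoImplicit false

namespace Pool.Agent.H3.Markov

variable {I J K : ℕ}

abbrev Tab (I J K : ℕ) (α : Type) := Fin I → Fin J → Fin K → α

def IsMove (m : Tab I J K ℤ) : Prop :=
  (∀ i j, ∑ k, m i j k = 0) ∧ (∀ i k, ∑ j, m i j k = 0) ∧ (∀ j k, ∑ i, m i j k = 0)

def Same (u v : Tab I J K ℕ) : Prop :=
  (∀ i j, ∑ k, u i j k = ∑ k, v i j k) ∧ (∀ i k, ∑ j, u i j k = ∑ j, v i j k) ∧
    (∀ j k, ∑ i, u i j k = ∑ i, v i j k)

def Step (B : Finset (Tab I J K ℤ)) (w w' : Tab I J K ℕ) : Prop :=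
  ∃ m ∈ B, (∀ i j k, (w' i j k : ℤ) = (w i j k : ℤ) + m i j k) ∨
    (∀ i j k, (w' i j k : ℤ) = (w i j k : ℤ) - m i j k)

def MB (B : Finset (Tab I J K ℤ)) : Prop :=
  (∀ m ∈ B, IsMove m) ∧ ∀ u v, Same u v → Relation.ReflTransGen (Step B) u v

def dif (u v : Tab I J K ℕ) : Tab I J K ℤ := fun i j k => (u i j k : ℤ) - v i j k

theorem same_iff (u v : Tab I J K ℕ) : Same u v ↔ IsMove (dif u v) := by
  simp only [Same, IsMove, dif, Finset.sum_sub_distrib, sub_eq_zero, ← Nat.cast_sum, Nat.cast_inj]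

theorem IsMove.add {a b : Tab I J K ℤ} (ha : IsMove a) (hb : IsMove b) : IsMove (a + b) := by
  simp only [IsMove, Pi.add_apply, Finset.sum_add_distrib] at *
  simp [ha.1, ha.2.1, ha.2.2, hb.1, hb.2.1, hb.2.2]

theorem IsMove.neg {a : Tab I J K ℤ} (ha : IsMove a) : IsMove (-a) := by
  simp only [IsMove, Pi.neg_apply, Finset.sum_neg_distrib] at *
  simp [ha.1, ha.2.1, ha.2.2]

theorem Step.symm {B : Finset (Tab I J K ℤ)} {w w' : Tab I J K ℕ} (h : Step B w w') :
    Step B w' w := by
  obtain ⟨m, hm, h | h⟩ := h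
  · exact ⟨m, hm, Or.inr fun i j k => by rw [h]; ring⟩
  · exact ⟨m, hm, Or.inl fun i j k => by rw [h]; ring⟩

theorem path_symm {B : Finset (Tab I J K ℤ)} {w w' : Tab I J K ℕ}
    (h : Relation.ReflTransGen (Step B) w w') : Relation.ReflTransGen (Step B) w' w := by
  induction h with
  | refl => exact .refl
  | tail _ h ih => exact .head h.symm ih

theorem path_add {B : Finset (Tab I J K ℤ)} {w w' : Tab I J K ℕ} (z : Tab I J K ℕ)
    (h : Relation.ReflTransGen (Step B) w w') :
    Relation.ReflTransGen (Step B) (w + z) (w' + z) := by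
  induction h with
  | refl => exact .refl
  | tail _ h ih =>
    refine ih.tail ?_
    obtain ⟨m, hm, h | h⟩ := h
    · exact ⟨m, hm, Or.inl fun i j k => by simp only [Pi.add_apply, Nat.cast_add, h]; ring⟩
    · exact ⟨m, hm, Or.inr fun i j k => by simp only [Pi.add_apply, Nat.cast_add, h]; ring⟩

theorem exists_MB (I J K : ℕ) : ∃ B : Finset (Tab I J K ℤ), MB B := by
  classical
  let P : Tab I J K ℕ × Tab I J K ℕ → Prop := fun p => Same p.1 p.2 ∧ p.1 ≠ p.2
  have hfin : {p | Minimal P p}.Finite :=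
    WellQuasiOrderedLE.finite_of_isAntichain (setOfPred_minimal_antichain P)
  refine ⟨hfin.toFinset.image (fun p => dif p.1 p.2), ?_, ?_⟩
  · intro m hm
    obtain ⟨p, hp, rfl⟩ := Finset.mem_image.1 hm
    exact (same_iff _ _).1 (hfin.mem_toFinset.1 hp).1.1
  · have key : ∀ p : Tab I J K ℕ × Tab I J K ℕ, Same p.1 p.2 → Relation.ReflTransGen
        (Step (hfin.toFinset.image (fun p => dif p.1 p.2))) p.1 p.2 := by
      intro p
      induction p using WellFoundedLT.induction with
      | ind p ih =>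
        intro hs
        by_cases he : p.1 = p.2
        · rw [he]
        obtain ⟨q, hq, hmin⟩ := exists_minimal_le_of_wellFoundedLT P p ⟨hs, he⟩
        have h1 : ∀ i j k, q.1 i j k ≤ p.1 i j k := fun i j k => hq.1 i j k
        have h2 : ∀ i j k, q.2 i j k ≤ p.2 i j k := fun i j k => hq.2 i j k
        have hlt : (p.1 - q.1, p.2 - q.2) < p := by
          refine lt_of_le_of_ne ⟨fun i j k => Nat.sub_le _ _, fun i j k => Nat.sub_le _ _⟩ ?_
          intro e
          apply hmin.1.2
          funext i j k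
          have a1 : p.1 i j k - q.1 i j k = p.1 i j k := congrArg (fun r => r.1 i j k) e
          have a2 : p.2 i j k - q.2 i j k = p.2 i j k := congrArg (fun r => r.2 i j k) e
          have := h1 i j k
          have := h2 i j k
          omega
        have hs' : Same (p.1 - q.1) (p.2 - q.2) := by
          rw [same_iff]
          convert ((same_iff _ _).1 hs).add ((same_iff _ _).1 hmin.1.1).neg using 1
          funext i j k
          simp only [dif, Pi.sub_apply, Pi.add_apply, Pi.neg_apply, Nat.cast_sub (h1 i j k),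
            Nat.cast_sub (h2 i j k)]
          ring
        have hp := path_add q.2 (ih _ hlt hs')
        have e2 : p.2 - q.2 + q.2 = p.2 := by
          funext i j k
          exact Nat.sub_add_cancel (h2 i j k)
        simp only [e2] at hp
        refine .head ⟨dif q.1 q.2, Finset.mem_image.2 ⟨q, hfin.mem_toFinset.2 hmin, rfl⟩,
          Or.inr fun i j k => ?_⟩ hp
        simp only [dif, Pi.sub_apply, Pi.add_apply, Nat.cast_add, Nat.cast_sub (h1 i j k)]
        ring
    exact fun u v h => key (u, v) h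

theorem exists_min (B : Finset (Tab I J K ℤ)) (h : MB B) :
    ∃ B' ⊆ B, MB B' ∧ ∀ C, C ⊂ B' → ¬ MB C := by
  obtain ⟨B', h1, h2⟩ := exists_minimal_le_of_wellFoundedLT MB B h
  exact ⟨B', h1, h2.1, fun C hC hM => hC.2 (h2.2 hM hC.1)⟩

section
variable (T : Tab I J K ℕ)

def InM (m : Tab I J K ℤ) : Prop := ∃ X, Same T X ∧ X ≠ T ∧ (m = dif X T ∨ m = dif T X)

theorem has_InM (B : Finset (Tab I J K ℤ)) (h : MB B) (S : Tab I J K ℕ) (hS : Same T S)
    (hne : S ≠ T) : ∃ m ∈ B, InM T m := by
  have key : ∀ a, Relation.ReflTransGen (Step B) a S → a = T → ∃ m ∈ B, InM T m := by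
    intro a ha
    induction ha using Relation.ReflTransGen.head_induction_on with
    | refl => exact fun e => (hne e).elim
    | @head a c hac _ ih =>
      rintro rfl
      by_cases hc : c = a
      · exact ih hc
      obtain ⟨m, hm, e | e⟩ := hac
      · have e' : m = dif c a := by funext i j k; simp [dif, e]
        refine ⟨m, hm, c, ?_, hc, Or.inl e'⟩
        rw [same_iff]
        convert (h.1 m hm).neg using 1
        funext i j k; simp [dif, e]
      · have e' : m = dif a c := by funext i j k; simp [dif, e]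
        exact ⟨m, hm, c, (same_iff _ _).2 (e' ▸ h.1 m hm), hc, Or.inr e'⟩
  exact key T (h.2 _ _ hS) rfl

theorem special (hT : ∀ X, Same T X → X = T ∨ ∀ i j k, T i j k = 0 ∨ X i j k = 0)
    (h0 : ∃ i j k, T i j k ≠ 0) (S : Tab I J K ℕ) (hS : Same T S) (hne : S ≠ T) :
    ∃ B, MB B ∧ ∀ m ∈ B, InM T m → m = dif S T := by
  classical
  obtain ⟨B0, hB0⟩ := exists_MB I J K
  have hST : IsMove (dif S T) := by
    convert ((same_iff _ _).1 hS).neg using 1
    funext i j k; simp [dif]
  let ρ : Tab I J K ℤ → Tab I J K ℤ := fun m =>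
    if ∃ X, Same T X ∧ X ≠ T ∧ m = dif X T then m + -dif S T
    else if ∃ X, Same T X ∧ X ≠ T ∧ m = dif T X then m + dif S T else m
  have two : ∀ (X w w' : Tab I J K ℕ), Same T X → X ≠ T →
      (dif X T + -dif S T ∈ insert (dif S T) (B0.image ρ) ∨
        dif T X + dif S T ∈ insert (dif S T) (B0.image ρ)) →
      (∀ i j k, (w' i j k : ℤ) = w i j k + dif X T i j k) →
      Relation.ReflTransGen (Step (insert (dif S T) (B0.image ρ))) w w' := by
    intro X w w' hX hXT hmem e
    have hle : ∀ i j k, T i j k ≤ w i j k := by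
      intro i j k
      have := e i j k
      simp only [dif] at this
      rcases (hT X hX).resolve_left hXT i j k with h | h <;> omega
    refine .head (b := w - T + S) ⟨dif S T, Finset.mem_insert_self _ _, Or.inl fun i j k => ?_⟩
      (.single ?_)
    · simp only [dif, Pi.sub_apply, Pi.add_apply, Nat.cast_add, Nat.cast_sub (hle i j k)]
      ring
    · rcases hmem with hmem | hmem
      · refine ⟨_, hmem, Or.inl fun i j k => ?_⟩
        simp only [e, dif, Pi.sub_apply, Pi.add_apply, Pi.neg_apply, Nat.cast_add,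
          Nat.cast_sub (hle i j k)]
        ring
      · refine ⟨_, hmem, Or.inr fun i j k => ?_⟩
        simp only [e, dif, Pi.sub_apply, Pi.add_apply, Pi.neg_apply, Nat.cast_add,
          Nat.cast_sub (hle i j k)]
        ring
  have sim : ∀ w w', Step B0 w w' →
      Relation.ReflTransGen (Step (insert (dif S T) (B0.image ρ))) w w' := by
    rintro w w' ⟨m, hm, e⟩
    have hρ : ρ m ∈ insert (dif S T) (B0.image ρ) :=
      Finset.mem_insert_of_mem (Finset.mem_image_of_mem _ hm)
    by_cases h1 : ∃ X, Same T X ∧ X ≠ T ∧ m = dif X T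
    · simp only [ρ, if_pos h1] at hρ
      obtain ⟨X, x1, x2, rfl⟩ := h1
      rcases e with e | e
      · exact two X w w' x1 x2 (Or.inl hρ) e
      · exact path_symm (two X w' w x1 x2 (Or.inl hρ) fun i j k => by rw [e]; ring)
    by_cases h2 : ∃ X, Same T X ∧ X ≠ T ∧ m = dif T X
    · simp only [ρ, if_neg h1, if_pos h2] at hρ
      obtain ⟨X, x1, x2, rfl⟩ := h2
      rcases e with e | e
      · exact path_symm (two X w' w x1 x2 (Or.inr hρ) fun i j k => by rw [e]; simp only [dif]; ring)
      · exact two X w w' x1 x2 (Or.inr hρ) fun i j k => by rw [e]; simp only [dif]; ring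
    · simp only [ρ, if_neg h1, if_neg h2] at hρ
      exact .single ⟨m, hρ, e⟩
  refine ⟨insert (dif S T) (B0.image ρ), ⟨?_, fun u v huv => ?_⟩, ?_⟩
  · intro m hm
    rcases Finset.mem_insert.1 hm with rfl | hm
    · exact hST
    · obtain ⟨m', hm', rfl⟩ := Finset.mem_image.1 hm
      simp only [ρ]
      split_ifs
      · exact (hB0.1 m' hm').add hST.neg
      · exact (hB0.1 m' hm').add hST
      · exact hB0.1 m' hm'
  · have := hB0.2 u v huv
    clear huv
    induction this with
    | refl => exact .refl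
    | tail _ h ih => exact ih.trans (sim _ _ h)
  · intro m hm ⟨Y, y1, y2, y3⟩
    rcases Finset.mem_insert.1 hm with rfl | hm
    · rfl
    exfalso
    obtain ⟨m', hm', rfl⟩ := Finset.mem_image.1 hm
    obtain ⟨i, j, k, hk⟩ := h0
    have z : ∀ X, Same T X → X ≠ T → X i j k = 0 := fun X a b =>
      ((hT X a).resolve_left b i j k).resolve_left hk
    have zS := z S hS hne
    have zY := z Y y1 y2
    simp only [ρ] at y3
    split_ifs at y3 with h1 h2
    · obtain ⟨X, x1, x2, rfl⟩ := h1
      have zX := z X x1 x2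
      rcases y3 with e | e <;> have := congrFun (congrFun (congrFun e i) j) k <;>
        simp [dif, zX, zS, zY] at this <;> exact hk (by omega)
    · obtain ⟨X, x1, x2, rfl⟩ := h2
      have zX := z X x1 x2
      rcases y3 with e | e <;> have := congrFun (congrFun (congrFun e i) j) k <;>
        simp [dif, zX, zS, zY] at this <;> exact hk (by omega)
    · rcases y3 with e | e
      · exact h1 ⟨Y, y1, y2, e⟩
      · exact h2 ⟨Y, y1, y2, e⟩

theorem not_unique (hT : ∀ X, Same T X → X = T ∨ ∀ i j k, T i j k = 0 ∨ X i j k = 0)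
    (h0 : ∃ i j k, T i j k ≠ 0) (S S' : Tab I J K ℕ) (hS : Same T S) (hne : S ≠ T)
    (hS' : Same T S') (hne' : S' ≠ T) (hSS : S ≠ S') :
    ∃ B B' : Finset (Tab I J K ℤ), (MB B ∧ ∀ C, C ⊂ B → ¬ MB C) ∧ (MB B' ∧ ∀ C, C ⊂ B' → ¬ MB C) ∧
      ∃ m ∈ B, m ∉ B' ∧ -m ∉ B' := by
  obtain ⟨B1, b1, c1⟩ := special T hT h0 S hS hne
  obtain ⟨B2, b2, c2⟩ := special T hT h0 S' hS' hne'
  obtain ⟨B, s1, m1⟩ := exists_min B1 b1
  obtain ⟨B', s2, m2⟩ := exists_min B2 b2
  obtain ⟨m, hm, hM⟩ := has_InM T B m1.1 S hS hne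
  obtain rfl := c1 m (s1 hm) hM
  refine ⟨B, B', m1, m2, _, hm, fun h => hSS ?_, fun h => ?_⟩
  · have e := c2 _ (s2 h) hM
    funext i j k
    have := congrFun (congrFun (congrFun e i) j) k
    simpa [dif] using this
  · have e := c2 _ (s2 h) ⟨S, hS, hne, Or.inr (by funext i j k; simp [dif])⟩
    obtain ⟨i, j, k, hk⟩ := h0
    have := congrFun (congrFun (congrFun e i) j) k
    have z1 := ((hT S hS).resolve_left hne i j k).resolve_left hk
    have z2 := ((hT S' hS').resolve_left hne' i j k).resolve_left hk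
    simp [dif, z1, z2] at this
    exact hk (by omega)

end

end Pool.Agent.H3.Markov
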