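import Pool.Agent.H3.MedChk

set_option autoImplicit false

namespace Pool.Agent.H3.Med4

open Pool.Agent.H3.MedCore Pool.Agent.H3.MedChk

theorem g4 : Goal 4 := check_ok (B := 24) (D := 5) (W := 10000000000000000)
  (a0 := 1744538534993198) (a1 := -2408972197365256) (a2 := 961602888293922) (a4 := -21198285533664)
  (E := [⟨[-3, 0, 1], 337684956963014, [], true⟩,
    ⟨[-13, 16, 9, -9, -2, 1], 23738742271690, [([-6, -3, 2, 1], 46106257998670), ([-4, -2, 2, 1], 90295285572698), ([9, -12, -8, 8, 4], 119490671567837), ([18, 1, -10, -1, 1], 45594652132607), ([19, 3, -11, -2, 1], 76771383418600)], false⟩,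
    ⟨[7, -1, -6, 0, 1], 60463200160162, [([-4, -5, 4, 3], 65901018954323), ([1, -1, 1, 1], 64454973678084), ([12, -11, -4, 3], 204996553677210)], false⟩,
    ⟨[-1, -2, 1, 1], 25011508509241, [([-25, 6, 11], 315728465390574), ([-4, 5, 4], 123365772878548)], false⟩,
    ⟨[-11, 11, 6, -7, -1, 1], 75677600860055, [([23, -11, -19, 4, 4], 32480185841252), ([30, -4, -23, -1, 3], 119815858931678), ([70, -2, -44, -1, 6], 139387036983434)], false⟩,
    ⟨[-1, 8, -2, -7, 0, 1], 29188810344614, [([-5, -2, 4, 2], 163314416494032), ([-3, -46, -30, 6, 5], 36998906285702), ([41, -17, -38, 2, 6], 32145784399762), ([53, -21, -49, 1, 7], 209805071034472)], false⟩])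
  (rad := [6800000, 4900000, 3000000, 1500000, 780000, 400000, 200000, 64000, 46000, 230000, 100000,
    72000, 23000, 130000, 110000, 79000, 15000, 100000, 72000, 27000, 130000, 68000, 94000,
    110000, 660000, 3300000, 8700000, 2600000, 830000, 3000000, 1500000, 480000, 1000000, 38000,
    52000, 310000, 1100000, 490000, 800000, 97000, 110000, 660000, 470000, 67000, 100000, 600000,
    1300000, 2100000, 1200000, 1200000, 620000, 1100000, 300000, 570000, 670000, 69000, 50000,
    300000, 1500000, 2000000, 4200000, 3915865]) (by decide +kernel)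

end Pool.Agent.H3.Med4
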