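import Pool.Agent.H3.MedCore

set_option autoImplicit false

namespace Pool.Agent.H3.MedChk

open Pool.Agent.H3.MedCore

def padd : List ℤ → List ℤ → List ℤ
  | [], m => m
  | a :: l, [] => a :: l
  | a :: l, b :: m => (a + b) :: padd l m

def smul (c : ℤ) : List ℤ → List ℤ
  | [] => []
  | a :: l => c * a :: smul c l

/-- Taylor shift by `M`. -/
def sh (M : ℤ) : List ℤ → List ℤ
  | [] => []
  | a :: l => padd (a :: sh M l) (smul M (sh M l))

/-- Homogenisation: coefficients of `S ^ n * q (X / S)`. -/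
def scl (S : ℤ) : ℕ → List ℤ → List ℤ
  | _, [] => []
  | n, a :: l => a * S ^ n :: scl S (n - 1) l

def nb (R : ℤ) : List ℤ → ℤ
  | [] => 0
  | a :: l => (a.natAbs : ℤ) + R * nb R l

def nonneg (R : ℤ) : List ℤ → Bool
  | [] => true
  | a :: l => decide (R * nb R l ≤ a)

theorem ev_padd (l m : List ℤ) (x : ℝ) : ev (padd l m) x = ev l x + ev m x := by
  induction l generalizing m with
  | nil => simp [padd, ev]
  | cons a l ih => cases m with
    | nil => simp [padd, ev]
    | cons b m => simp only [padd, ev, ih, Int.cast_add]; ring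

theorem ev_smul (c : ℤ) (l : List ℤ) (x : ℝ) : ev (smul c l) x = c * ev l x := by
  induction l with
  | nil => simp [smul, ev]
  | cons a l ih => simp only [smul, ev, ih, Int.cast_mul]; ring

theorem ev_sh (M : ℤ) (l : List ℤ) (t : ℝ) : ev (sh M l) t = ev l (M + t) := by
  induction l with
  | nil => simp [sh, ev]
  | cons a l ih => simp only [sh, ev_padd, ev_smul, ev, ih]; ring

theorem ev_scl (S : ℤ) (l : List ℤ) (x : ℝ) : ∀ n : ℕ, l.length ≤ n + 1 →
    ev (scl S n l) (S * x) = S ^ n * ev l x := by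
  induction l with
  | nil => simp [scl, ev]
  | cons a l ih =>
    intro n hn
    cases n with
    | zero =>
      have : l = [] := List.length_eq_zero_iff.1 (by simpa using hn)
      subst this; simp [scl, ev]
    | succ n =>
      simp only [scl, ev, Nat.add_sub_cancel, ih n (by simpa using hn), Int.cast_mul, Int.cast_pow]
      ring

theorem nb_nonneg {R : ℤ} (hR : 0 ≤ R) (l : List ℤ) : 0 ≤ nb R l := by
  induction l with
  | nil => simp [nb]
  | cons a l ih => simp only [nb]; positivity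

theorem abs_ev_le {R : ℤ} {t : ℝ} (ht : |t| ≤ R) (l : List ℤ) : |ev l t| ≤ nb R l := by
  induction l with
  | nil => simp [nb, ev]
  | cons a l ih =>
    simp only [nb, ev, Int.cast_add, Int.cast_mul, Int.natCast_natAbs, Int.cast_abs]
    refine (abs_add_le _ _).trans (add_le_add le_rfl ?_)
    rw [abs_mul]
    exact mul_le_mul ht ih (abs_nonneg _) ((abs_nonneg _).trans ht)

theorem tail_le {R : ℤ} {t : ℝ} (ht : |t| ≤ R) (l : List ℤ) :
    |t * ev l t| ≤ ((R * nb R l : ℤ) : ℝ) := by
  rw [abs_mul, Int.cast_mul]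
  exact mul_le_mul ht (abs_ev_le ht l) (abs_nonneg _) ((abs_nonneg _).trans ht)

theorem nonneg_ok {R : ℤ} {t : ℝ} (ht : |t| ≤ R) {l : List ℤ} (h : nonneg R l = true) :
    0 ≤ ev l t := by
  cases l with
  | nil => simp [ev]
  | cons a l =>
    have h1 : ((R * nb R l : ℤ) : ℝ) ≤ a := by exact_mod_cast of_decide_eq_true h
    have h2 := (abs_le.1 (tail_le ht l)).1
    simp only [ev]; linarith

theorem log17 : (2.833213343 : ℝ) ≤ Real.log 17 := by
  have h := Real.abs_log_sub_add_sum_range_le (x := 1 / 17) (by norm_num [abs_of_pos]) 8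
  have e : Real.log (1 - 1 / 17) = 4 * Real.log 2 - Real.log 17 := by
    rw [show (1 - 1 / 17 : ℝ) = 2 ^ 4 / 17 by norm_num, Real.log_div (by norm_num) (by norm_num),
      Real.log_pow]
    norm_num
  rw [e] at h
  have h2 := Real.log_two_gt_d9
  have h3 := (abs_le.1 h).2
  norm_num [Finset.sum_range_succ, abs_of_pos] at h3
  linarith

/-- The exponent of `17` used for the tangent line of the logarithm. -/
def pi (v : ℕ) : ℕ := (77162920034142635 >>> (4 * (((v * 16) >>> v.log2) - 16))) % 16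

def cst (K K0 i A : ℕ) : ℤ :=
  2 ^ K * (K0 * 6931471808 - A * 6931471803 - i * 28332133430 - 10000000000)

theorem tangent (K0 N i A : ℕ) {y : ℝ} (hy : y ≠ 0) :
    10000000000 * 2 ^ (K0 + N) * Real.log |y| ≤
      cst (K0 + N) K0 i A + 10000000000 * (17 ^ i * 2 ^ A) * |2 ^ N * y| := by
  have hp : 0 < |y| := abs_pos.2 hy
  have h := Real.log_le_sub_one_of_pos (show 0 < 17 ^ i * 2 ^ A * |y| / 2 ^ K0 by positivity)
  rw [Real.log_div (by positivity) (by positivity), Real.log_mul (by positivity) hp.ne',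
    Real.log_mul (by positivity) (by positivity), Real.log_pow, Real.log_pow, Real.log_pow] at h
  have h1 := mul_le_mul_of_nonneg_left log17 (Nat.cast_nonneg (α := ℝ) i)
  have h2 := mul_le_mul_of_nonneg_left Real.log_two_gt_d9.le (Nat.cast_nonneg (α := ℝ) A)
  have h3 := mul_le_mul_of_nonneg_left Real.log_two_lt_d9.le (Nat.cast_nonneg (α := ℝ) K0)
  have h4 : 10000000000 * Real.log |y| ≤ (K0 * 6931471808 - A * 6931471803 - i * 28332133430 -
      10000000000) + 10000000000 * (17 ^ i * 2 ^ A * |y| / 2 ^ K0) := by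
    norm_num at h1 h2 h3; linarith
  have h5 := mul_le_mul_of_nonneg_left h4 (show (0 : ℝ) ≤ 2 ^ (K0 + N) by positivity)
  rw [abs_mul, abs_of_pos (show (0 : ℝ) < 2 ^ N by positivity)]
  simp only [cst]
  push_cast
  refine le_of_eq_of_le (by ring) (h5.trans (le_of_eq ?_))
  rw [pow_add]; field_simp

/-- Whether the shifted polynomial has no zero for `|t| ≤ R`, and a polynomial upper bound for
its scaled logarithm. -/
def bnd (K K0 : ℕ) (R : ℤ) : List ℤ → Bool × List ℤ
  | [] => (false, [])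
  | a :: l =>
    let n := R * nb R l
    if n < (a.natAbs : ℤ) then
      let v := a.natAbs
      let i := pi v
      let A := K - v.log2 - 1 - 4 * i
      (true, padd [cst K K0 i A] (smul (10000000000 * (17 ^ i * 2 ^ A) * a.sign) (a :: l)))
    else
      let v := a.natAbs + n.natAbs
      let i := pi v
      let A := K - v.log2 - 1 - 4 * i
      (false, [cst K K0 i A + 10000000000 * (17 ^ i * 2 ^ A) * (a.natAbs + n)])

theorem bnd_ok (K0 N : ℕ) {R : ℤ} {t y : ℝ} (ht : |t| ≤ R) (l : List ℤ)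
    (h : ev l t = 2 ^ N * y) : ((bnd (K0 + N) K0 R l).1 = true → y ≠ 0) ∧ (y ≠ 0 →
      10000000000 * 2 ^ (K0 + N) * Real.log |y| ≤ ev (bnd (K0 + N) K0 R l).2 t) := by
  have hN : (0 : ℝ) < 2 ^ N := by positivity
  cases l with
  | nil =>
    have : y = 0 := by simpa [ev] using h.symm
    simp [bnd, this]
  | cons a l =>
    have h1 := tail_le ht l
    have h2 : ((a.natAbs : ℤ) : ℝ) = |(a : ℝ)| := by simp
    simp only [bnd]
    split_ifs with hc
    · have h3 : ((R * nb R l : ℤ) : ℝ) < |(a : ℝ)| := by rw [← h2]; exact_mod_cast hc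
      have h4 : |2 ^ N * y| = (a.sign : ℤ) * ev (a :: l) t ∧ y ≠ 0 := by
        rw [← h]
        have hy : ev (a :: l) t ≠ 0 → y ≠ 0 := fun h0 h9 => h0 (by rw [h, h9, mul_zero])
        obtain ⟨h5, h6⟩ := abs_le.1 h1
        simp only [ev] at hy ⊢
        rcases lt_trichotomy a 0 with h7 | h7 | h7
        · have h8 : (a : ℝ) < 0 := by exact_mod_cast h7
          rw [abs_of_neg h8] at h3
          rw [Int.sign_eq_neg_one_of_neg h7, abs_of_neg (by linarith)]
          exact ⟨by push_cast; ring, hy (ne_of_lt (by linarith))⟩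
        · subst h7
          exfalso; simp only [Int.cast_zero, abs_zero] at h3; linarith
        · have h8 : (0 : ℝ) < a := by exact_mod_cast h7
          rw [abs_of_pos h8] at h3
          rw [Int.sign_eq_one_of_pos h7, abs_of_pos (by linarith)]
          exact ⟨by push_cast; ring, hy (ne_of_gt (by linarith))⟩
      generalize K0 + N - a.natAbs.log2 - 1 - 4 * pi a.natAbs = A
      generalize pi a.natAbs = i
      refine ⟨fun _ => h4.2, fun hy => (tangent K0 N i A hy).trans (le_of_eq ?_)⟩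
      rw [ev_padd, ev_smul, h4.1]
      simp only [ev]; push_cast; ring
    · generalize K0 + N - (a.natAbs + (R * nb R l).natAbs).log2 - 1 -
        4 * pi (a.natAbs + (R * nb R l).natAbs) = A
      generalize pi (a.natAbs + (R * nb R l).natAbs) = i
      refine ⟨fun h0 => by simp at h0, fun hy => (tangent K0 N i A hy).trans ?_⟩
      have h4 : |2 ^ N * y| ≤ |(a : ℝ)| + ((R * nb R l : ℤ) : ℝ) := by
        rw [← h]; exact (abs_add_le _ _).trans (add_le_add le_rfl h1)
      have := mul_le_mul_of_nonneg_left h4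
        (show (0 : ℝ) ≤ 10000000000 * (17 ^ i * 2 ^ A) by positivity)
      simp only [ev, mul_zero, add_zero, Int.cast_add, Int.cast_mul (10000000000 * _), h2]
      push_cast at this ⊢
      linarith

/-- Subtract the weighted bounds. -/
def comb (base : List ℤ) : List ((Bool × List ℤ) × ℕ) → List ℤ
  | [] => base
  | e :: L => padd (smul (-(e.2 : ℤ)) e.1.2) (comb base L)

/-- An auxiliary polynomial, its weight, the helpers used at its roots, and a flag. -/
structure Ent where
  q : List ℤ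
  c : ℕ
  H : List (List ℤ × ℕ)
  z : Bool

def bs (K K0 : ℕ) (M R : ℤ) (L : List (List ℤ × ℕ)) : List ((Bool × List ℤ) × ℕ) :=
  L.map fun h => (bnd K K0 R (sh M h.1), h.2)

def scL (S : ℤ) (D : ℕ) (L : List (List ℤ × ℕ)) : List (List ℤ × ℕ) :=
  L.map fun h => (scl S D h.1, h.2)

noncomputable def re (W : ℕ) (L : List (List ℤ × ℕ)) : List (List ℤ × ℝ) :=
  L.map fun h => (h.1, (h.2 : ℝ) / W)

theorem comb_ok (K0 B D W : ℕ) (hW : 0 < W) {M R : ℤ} {t x : ℝ} (ht : |t| ≤ R)
    (hx : M + t = ((2 : ℤ) ^ B : ℤ) * x) (base : List ℤ) (L : List (List ℤ × ℕ))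
    (hl : ∀ h ∈ L, h.1.length ≤ D + 1) (hn : ∀ h ∈ L, ev h.1 x ≠ 0) :
    ev (comb base (bs (K0 + B * D) K0 M R (scL (2 ^ B) D L))) t ≤
      ev base t - W * (10000000000 * 2 ^ (K0 + B * D)) * wl (re W L) x := by
  induction L with
  | nil => simp [comb, bs, scL, re, wl]
  | cons h L ih =>
    have h1 := ih (fun k hk => hl k (List.mem_cons_of_mem _ hk))
      fun k hk => hn k (List.mem_cons_of_mem _ hk)
    have h2 := (bnd_ok K0 (B * D) (y := ev h.1 x) ht (sh M (scl (2 ^ B) D h.1)) (by
      rw [ev_sh, hx, ev_scl _ _ _ _ (hl h List.mem_cons_self)]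
      push_cast; rw [← pow_mul])).2 (hn h List.mem_cons_self)
    have h3 := mul_le_mul_of_nonneg_left h2 (Nat.cast_nonneg (α := ℝ) h.2)
    have hW' : (W : ℝ) ≠ 0 := by positivity
    simp only [bs, scL, re, wl, List.map_cons, comb, ev_padd, ev_smul, List.sum_cons] at h1 ⊢
    have e : (W : ℝ) * (10000000000 * 2 ^ (K0 + B * D)) * (h.2 / W * Real.log |ev h.1 x|) =
        h.2 * (10000000000 * 2 ^ (K0 + B * D) * Real.log |ev h.1 x|) := by field_simp
    rw [mul_add, e]
    push_cast
    linarith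

theorem all_ok (K0 B D : ℕ) {M R : ℤ} {t x : ℝ} (ht : |t| ≤ R)
    (hx : M + t = ((2 : ℤ) ^ B : ℤ) * x) (L : List (List ℤ × ℕ))
    (hl : ∀ h ∈ L, h.1.length ≤ D + 1)
    (H : (bs (K0 + B * D) K0 M R (scL (2 ^ B) D L)).all (fun e => e.1.1) = true) :
    ∀ h ∈ L, ev h.1 x ≠ 0 := by
  intro h hh
  refine (bnd_ok K0 (B * D) (y := ev h.1 x) ht (sh M (scl (2 ^ B) D h.1)) (by
      rw [ev_sh, hx, ev_scl _ _ _ _ (hl h hh)]
      push_cast; rw [← pow_mul])).1 ?_
  simp only [bs, scL, List.map_map, List.all_map, List.all_eq_true] at H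
  exact H h hh

def secOk (K K0 : ℕ) (M R : ℤ) (pt base : List ℤ) :
    List ((Bool × List ℤ) × ℕ) → List (List (List ℤ × ℕ) × Bool) → Bool
  | e :: L, h :: H => (e.1.1 || ((bs K K0 M R h.1).all (fun e => e.1.1) &&
      nonneg R (comb (bif h.2 then pt else base) (bs K K0 M R h.1)))) && secOk K K0 M R pt base L H
  | _, _ => true

/-- The check on the interval of centre `M` and radius `R`. -/
def step (K K0 : ℕ) (T U : ℤ) (p : List ℤ) (Q : List (List ℤ × ℕ))
    (H : List (List (List ℤ × ℕ) × Bool)) (M R : ℤ) : Bool :=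
  let pt := smul (10000000000 * 2 ^ K0) (sh M p)
  let base := bif decide (0 ≤ M - R) || decide ((M - R) * (M - R) ≤ T) then pt else padd [-U] pt
  let b := bs K K0 M R Q
  nonneg R (comb base b) && secOk K K0 M R pt base b H

def loop (f : ℤ → ℤ → Bool) (hi : ℤ) : ℤ → List ℕ → Bool
  | lo, [] => decide (hi < lo)
  | lo, R :: l => f (lo + R) R && loop f hi (lo + R + R) l

theorem loop_ok (f : ℤ → ℤ → Bool) (hi : ℤ) (X : ℝ) (hX : X ≤ hi) (l : List ℕ) :
    ∀ lo : ℤ, loop f hi lo l = true → lo ≤ X →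
      ∃ M R : ℤ, f M R = true ∧ |X - M| ≤ R := by
  induction l with
  | nil =>
    intro lo h h1
    have : (hi : ℝ) < lo := by exact_mod_cast of_decide_eq_true h
    linarith
  | cons R l ih =>
    intro lo h h1
    simp only [loop, Bool.and_eq_true] at h
    by_cases h2 : ((lo + R + R : ℤ) : ℝ) ≤ X
    · exact ih _ h.2 h2
    · refine ⟨_, _, h.1, abs_le.2 ?_⟩
      push_cast at h2 ⊢
      constructor <;> linarith

/-- The whole certificate check. -/
def check (d B D W : ℕ) (a0 a1 a2 a4 : ℤ) (E : List Ent) (rad : List ℕ) : Bool :=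
  decide (0 < W) && decide (4 ≤ D) && decide (a4 ≤ 0) &&
  (List.range (d + 1)).all (fun k => decide (2 * (a0 + a2 * k + a4 * (2 * k * k - k)) < W)) &&
  E.all (fun e => decide (e.q.length ≤ D + 1) && e.H.all (fun h => decide (h.1.length ≤ D + 1)) &&
    (!e.z || (decide (e.q = [-((d - 1 : ℕ) : ℤ), 0, 1]) || (decide (e.q = [e.q.headD 0, 1]) &&
      decide (e.q.headD 0 * e.q.headD 0 = (d - 1 : ℕ)))))) &&
  loop (step (80 + B * D) 80 ((d - 1 : ℕ) * (2 ^ B * 2 ^ B)) (W * (10000000000 * 2 ^ (80 + B * D)))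
    (scl (2 ^ B) D [a0, a1, a2, 0, a4]) (scL (2 ^ B) D (E.map fun e => (e.q, e.c)))
    (E.map fun e => (scL (2 ^ B) D e.H, e.z))) (d * 2 ^ B) (-(d * 2 ^ B)) rad

theorem secOk_ok (K K0 : ℕ) (M R S : ℤ) (D : ℕ) (pt base : List ℤ) (E : List Ent)
    (h : secOk K K0 M R pt base (bs K K0 M R (scL S D (E.map fun e => (e.q, e.c))))
      (E.map fun e => (scL S D e.H, e.z)) = true) : ∀ e ∈ E,
    (bnd K K0 R (sh M (scl S D e.q))).1 = true ∨
      ((bs K K0 M R (scL S D e.H)).all (fun e => e.1.1) = true ∧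
      nonneg R (comb (bif e.z then pt else base) (bs K K0 M R (scL S D e.H))) = true) := by
  induction E with
  | nil => simp
  | cons e E ih =>
    simp only [List.map_cons, bs, scL, secOk, Bool.and_eq_true, Bool.or_eq_true] at h ih ⊢
    intro e' he'
    rcases List.mem_cons.1 he' with rfl | h'
    · exact h.1
    · exact ih h.2 e' h'

theorem check_ok {d B D W : ℕ} {a0 a1 a2 a4 : ℤ} {E : List Ent} {rad : List ℕ}
    (h : check d B D W a0 a1 a2 a4 E rad = true) : Goal d := by
  simp only [check, Bool.and_eq_true, decide_eq_true_eq, List.all_eq_true, List.mem_range,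
    Bool.or_eq_true, Bool.not_eq_true'] at h
  obtain ⟨⟨⟨⟨⟨hW, hD⟩, h4⟩, hk⟩, hE⟩, hl⟩ := h
  have hW' : (0 : ℝ) < W := by exact_mod_cast hW
  have hS : (0 : ℝ) < 2 ^ B := by positivity
  set s := Real.sqrt ((d - 1 : ℕ) : ℝ) with hs
  have hs2 : s * s = ((d - 1 : ℕ) : ℝ) := Real.mul_self_sqrt (Nat.cast_nonneg _)
  have hs0 : 0 ≤ s := Real.sqrt_nonneg _
  set U : ℝ := W * (10000000000 * 2 ^ (80 + B * D)) with hU
  have hU0 : 0 < U := by positivity
  have key : ∀ x ∈ Set.Icc (-(d : ℝ)) d, ∃ (M R : ℤ) (t : ℝ) (pt base : List ℤ), |t| ≤ R ∧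
      M + t = ((2 : ℤ) ^ B : ℤ) * x ∧
      ev pt t = U * (a0 / W + a1 / W * x + a2 / W * x ^ 2 + a4 / W * x ^ 4) ∧
      ev base t ≤ U * (a0 / W + a1 / W * x + a2 / W * x ^ 2 + a4 / W * x ^ 4 -
        if x < -s then 1 else 0) ∧
      nonneg R (comb base (bs (80 + B * D) 80 M R
        (scL (2 ^ B) D (E.map fun e => (e.q, e.c))))) = true ∧
      secOk (80 + B * D) 80 M R pt base (bs (80 + B * D) 80 M R
        (scL (2 ^ B) D (E.map fun e => (e.q, e.c)))) (E.map fun e => (scL (2 ^ B) D e.H, e.z))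
        = true := by
    intro x hx
    obtain ⟨M, R, h1, h2⟩ := loop_ok _ _ (2 ^ B * x) (by push_cast; nlinarith [hx.2]) _ _ hl
      (by push_cast; nlinarith [hx.1])
    simp only [step, Bool.and_eq_true] at h1
    have e0 : (M : ℝ) + (2 ^ B * x - M) = ((2 : ℤ) ^ B : ℤ) * x := by push_cast; ring
    have e1 : ev (smul (10000000000 * 2 ^ 80) (sh M (scl (2 ^ B) D [a0, a1, a2, 0, a4])))
        (2 ^ B * x - M) = U * (a0 / W + a1 / W * x + a2 / W * x ^ 2 + a4 / W * x ^ 4) := by
      rw [ev_smul, ev_sh, e0, ev_scl _ _ _ _ (by simpa using hD), hU]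
      simp only [ev]
      push_cast
      rw [← pow_mul, pow_add]; field_simp; ring
    refine ⟨M, R, _, _, _, h2, e0, e1, ?_, h1.1, h1.2⟩
    cases hc : (decide (0 ≤ M - R) || decide ((M - R) * (M - R) ≤
        (d - 1 : ℕ) * (2 ^ B * 2 ^ B)))
    · rw [cond_false, ev_padd, e1]
      simp only [ev]; push_cast; rw [← hU]
      split_ifs <;> nlinarith
    · rw [cond_true, e1, if_neg, sub_zero]
      intro hx1
      have h3 := (abs_le.1 h2).1
      have h5 : (M : ℝ) - R < -(2 ^ B * s) := by nlinarith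
      have h6 : 0 ≤ 2 ^ B * s := by positivity
      simp only [Bool.or_eq_true, decide_eq_true_eq] at hc
      rcases hc with hc | hc
      · have : (0 : ℝ) ≤ M - R := by exact_mod_cast hc
        linarith
      · have : ((M : ℝ) - R) * (M - R) ≤ (d - 1 : ℕ) * (2 ^ B * 2 ^ B) := by exact_mod_cast hc
        rw [← hs2] at this
        nlinarith
  refine goal_of d (a0 / W) (a1 / W) (a2 / W) (a4 / W)
    (div_nonpos_of_nonpos_of_nonneg (by exact_mod_cast h4) hW'.le) (fun k hk' => ?_)
    (re W (E.map fun e => (e.q, e.c))) (fun e he => ?_) (fun x hx hn => ?_) fun e he => ?_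
  · have h1 : (2 : ℝ) * (a0 + a2 * k + a4 * (2 * k * k - k)) < W := by
      exact_mod_cast hk k (by omega)
    rw [show (a0 : ℝ) / W + a2 / W * k + a4 / W * (2 * (k : ℝ) ^ 2 - k) =
      (a0 + a2 * k + a4 * (2 * k * k - k)) / W by ring, div_lt_iff₀ hW']
    linarith
  · obtain ⟨h, -, rfl⟩ := List.mem_map.1 he
    positivity
  · obtain ⟨M, R, t, pt, base, h1, h2, -, h5, h6, -⟩ := key x hx
    have h7 := comb_ok 80 B D W hW h1 h2 base (E.map fun e => (e.q, e.c)) (fun h hh => by
      obtain ⟨e, he, rfl⟩ := List.mem_map.1 hh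
      exact (hE e he).1.1) fun h hh => hn (h.1, (h.2 : ℝ) / W) (List.mem_map.2 ⟨h, hh, rfl⟩)
    have h8 := nonneg_ok h1 h6
    refine le_of_mul_le_mul_left ?_ hU0
    linarith
  · obtain ⟨h, hh, rfl⟩ := List.mem_map.1 he
    obtain ⟨e, he', rfl⟩ := List.mem_map.1 hh
    refine ⟨re W e.H, fun h hh => ?_, fun x hx h0 => ?_⟩
    · obtain ⟨h, -, rfl⟩ := List.mem_map.1 hh
      positivity
    obtain ⟨M, R, t, pt, base, h1, h2, h3, h5, -, h6⟩ := key x hx
    obtain ⟨⟨g1, g2⟩, g3⟩ := hE e he'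
    rcases secOk_ok _ _ _ _ _ _ _ _ _ h6 e he' with h7 | ⟨h7, h8⟩
    · exact absurd h0 ((bnd_ok 80 (B * D) (y := ev e.q x) h1 _ (by
        rw [ev_sh, h2, ev_scl _ _ _ _ g1]
        push_cast; rw [← pow_mul])).1 h7)
    have h9 := all_ok 80 B D h1 h2 e.H g2 h7
    refine ⟨fun h hh => ?_, ?_⟩
    · obtain ⟨h, hh', rfl⟩ := List.mem_map.1 hh
      exact h9 h hh'
    have h10 := comb_ok 80 B D W hW h1 h2 (bif e.z then pt else base) e.H g2 h9
    have h11 := nonneg_ok h1 h8
    refine le_of_mul_le_mul_left ?_ hU0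
    rcases g3 with g3 | g3
    · rw [g3, cond_false] at h10 h11
      linarith
    · cases hz : e.z
      · rw [hz, cond_false] at h10 h11
        linarith
      · rw [hz, cond_true] at h10 h11
        rw [if_neg, sub_zero]
        · linarith
        · intro hx1
          have hx2 : x * x = s * s := by
            rw [hs2]
            rcases g3 with g3 | ⟨g3, g4⟩
            · simp only [g3, ev] at h0
              push_cast at h0
              linarith
            · generalize e.q.headD 0 = r at g3 g4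
              simp only [g3, ev] at h0
              have g5 : (r : ℝ) * r = (d - 1 : ℕ) := by exact_mod_cast g4
              have : x = -r := by push_cast at h0; linarith
              rw [this, ← g5]; ring
          nlinarith

end Pool.Agent.H3.MedChk
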