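import Mathlib

set_option autoImplicit false

namespace Pool.Agent.H3.MedCore

open Polynomial

/-- Horner evaluation of an integer coefficient list (constant term first). -/
noncomputable def ev : List ℤ → ℝ → ℝ
  | [], _ => 0
  | a :: l, x => a + x * ev l x

noncomputable def toP : List ℤ → ℤ[X]
  | [] => 0
  | a :: l => C a + X * toP l

theorem aeval_toP (l : List ℤ) (x : ℝ) : aeval x (toP l) = ev l x := by
  induction l with
  | nil => simp [toP, ev]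
  | cons a l ih => simp [toP, ev, ih]

/-- `Λ` is the root multiset of a monic integer polynomial that splits over the reals. -/
def Good (Λ : Multiset ℝ) : Prop :=
  ∃ χ : ℤ[X], χ.Monic ∧ (χ.map (algebraMap ℤ ℝ)).Splits ∧ (χ.map (algebraMap ℤ ℝ)).roots = Λ

theorem logsum {Λ : Multiset ℝ} (hΛ : Good Λ) (l : List ℤ) (hne : ∀ r ∈ Λ, ev l r ≠ 0) :
    0 ≤ (Λ.map fun r => Real.log |ev l r|).sum := by
  obtain ⟨χ, hm, hs, rfl⟩ := hΛ
  have h1 := resultant_eq_prod_eval (χ.map (algebraMap ℤ ℝ)) ((toP l).map (algebraMap ℤ ℝ))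
    (toP l).natDegree natDegree_map_le hs
  rw [resultant_map_map, (hm.map _).leadingCoeff, one_pow, one_mul] at h1
  have h2 : ∀ r : ℝ, ((toP l).map (algebraMap ℤ ℝ)).eval r = ev l r := fun r => by
    rw [eval_map_algebraMap, aeval_toP]
  simp only [funext h2] at h1
  generalize (χ.map (algebraMap ℤ ℝ)).roots = Λ at h1 hne
  generalize resultant χ (toP l) _ _ = z at h1
  have h3 : ∀ y ∈ Λ.map (ev l), y ≠ 0 := fun y hy => by
    obtain ⟨r, hr, rfl⟩ := Multiset.mem_map.1 hy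
    exact hne r hr
  have h4 := Real.log_multiset_prod h3
  rw [Multiset.map_map] at h4
  have h5 : (Λ.map (ev l)).prod ≠ 0 := Multiset.prod_ne_zero fun h => h3 0 h rfl
  simp only [Real.log_abs]
  refine le_of_le_of_eq ?_ h4
  rw [← Real.log_abs]
  apply Real.log_nonneg
  have h6 : (Λ.map (ev l)).prod = (z : ℝ) := by simpa using h1.symm
  rw [h6] at h5 ⊢
  have : z ≠ 0 := by exact_mod_cast h5
  exact_mod_cast Int.one_le_abs this

theorem factor (F : ℝ → ℝ) (I : Set ℝ)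
    (H : ∀ Γ, Good Γ → (∀ r ∈ Γ, r ∈ I) →
      (∀ l : List ℤ, ∀ r ∈ Γ, ev l r = 0 → ∀ r' ∈ Γ, ev l r' = 0) → 0 ≤ (Γ.map F).sum) :
    ∀ (n : ℕ) (χ : ℤ[X]), χ.natDegree = n → χ.Monic → (χ.map (algebraMap ℤ ℝ)).Splits →
      (∀ r ∈ (χ.map (algebraMap ℤ ℝ)).roots, r ∈ I) →
      0 ≤ ((χ.map (algebraMap ℤ ℝ)).roots.map F).sum := by
  intro n
  induction n using Nat.strong_induction_on with
  | h n ih =>
  intro χ hn hm hs hI
  rcases Multiset.empty_or_exists_mem (χ.map (algebraMap ℤ ℝ)).roots with h0 | ⟨r, hr⟩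
  · rw [h0]; simp
  have hχ0 : χ.map (algebraMap ℤ ℝ) ≠ 0 := (hm.map _).ne_zero
  have hr0 : aeval r χ = 0 := by
    rw [← eval_map_algebraMap]; exact (mem_roots hχ0).1 hr
  have hint : IsIntegral ℤ r := ⟨χ, hm, hr0⟩
  obtain ⟨g, hg⟩ := minpoly.isIntegrallyClosed_dvd hint hr0
  have hf := minpoly.monic hint
  have hgm : g.Monic := hf.of_mul_monic_left (hg ▸ hm)
  have hirr := minpoly.irreducible hint
  have hpos := minpoly.natDegree_pos hint
  generalize minpoly ℤ r = f at hg hf hirr hpos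
  subst hg
  rw [Polynomial.map_mul] at hs hI hχ0 ⊢
  have hf0 := (hf.map (algebraMap ℤ ℝ)).ne_zero
  have hg0 := (hgm.map (algebraMap ℤ ℝ)).ne_zero
  obtain ⟨hs1, hs2⟩ := (splits_mul hf0 hg0).1 hs
  rw [roots_mul hχ0] at hI ⊢
  rw [Multiset.map_add, Multiset.sum_add]
  refine add_nonneg (H _ ⟨f, hf, hs1, rfl⟩ (fun y hy => hI y (Multiset.mem_add.2 (.inl hy))) ?_)
    (ih g.natDegree ?_ g rfl hgm hs2 fun y hy => hI y (Multiset.mem_add.2 (.inr hy)))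
  · intro l y hy hl y' hy'
    have e1 : aeval y f = 0 := by rw [← eval_map_algebraMap]; exact (mem_roots hf0).1 hy
    have e2 : aeval y' f = 0 := by rw [← eval_map_algebraMap]; exact (mem_roots hf0).1 hy'
    have i1 : IsIntegral ℤ y := ⟨f, hf, e1⟩
    have d1 := (minpoly.irreducible i1).dvd_symm hirr (minpoly.isIntegrallyClosed_dvd i1 e1)
    have d2 := minpoly.isIntegrallyClosed_dvd i1 (show aeval y (toP l) = 0 by rw [aeval_toP, hl])
    obtain ⟨k, hk⟩ := d1.trans d2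
    rw [← aeval_toP, hk, map_mul, e2, zero_mul]
  · rw [← hn, hf.natDegree_mul hgm]; omega

/-- Weighted sum of logarithms. -/
noncomputable def wl (L : List (List ℤ × ℝ)) (x : ℝ) : ℝ :=
  (L.map fun h => h.2 * Real.log |ev h.1 x|).sum

theorem wl_sum {Γ : Multiset ℝ} (hΓ : Good Γ) (L : List (List ℤ × ℝ))
    (hL : ∀ h ∈ L, 0 ≤ h.2 ∧ ∀ r ∈ Γ, ev h.1 r ≠ 0) : 0 ≤ (Γ.map (wl L)).sum := by
  induction L with
  | nil =>
    have e : wl [] = fun _ => 0 := by funext x; simp [wl]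
    simp [e]
  | cons h L ih =>
    have e : wl (h :: L) = fun x => h.2 * Real.log |ev h.1 x| + wl L x := by
      funext x; simp [wl]
    rw [e, Multiset.sum_map_add, Multiset.sum_map_mul_left]
    have := hL h List.mem_cons_self
    exact add_nonneg (mul_nonneg this.1 (logsum hΓ _ this.2))
      (ih fun k hk => hL k (List.mem_cons_of_mem _ hk))

theorem aux {Λ : Multiset ℝ} (hΛ : Good Λ) (F : ℝ → ℝ) (I : Set ℝ) (hI : ∀ r ∈ Λ, r ∈ I)
    (Q : List (List ℤ × ℝ)) (hQ : ∀ e ∈ Q, 0 ≤ e.2)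
    (main : ∀ x ∈ I, (∀ e ∈ Q, ev e.1 x ≠ 0) → wl Q x ≤ F x)
    (sec : ∀ e ∈ Q, ∃ L : List (List ℤ × ℝ), (∀ h ∈ L, 0 ≤ h.2) ∧ ∀ x ∈ I, ev e.1 x = 0 →
      (∀ h ∈ L, ev h.1 x ≠ 0) ∧ wl L x ≤ F x) : 0 ≤ (Λ.map F).sum := by
  obtain ⟨χ, hm, hs, rfl⟩ := hΛ
  refine factor F I (fun Γ hΓ hΓI hc => ?_) _ χ rfl hm hs hI
  by_cases h : ∃ e ∈ Q, ∃ r ∈ Γ, ev e.1 r = 0
  · obtain ⟨e, he, r, hr, h0⟩ := h
    obtain ⟨L, h1, h2⟩ := sec e he
    have h3 := fun y hy => h2 y (hΓI y hy) (hc e.1 r hr h0 y hy)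
    exact (wl_sum hΓ L fun k hk => ⟨h1 k hk, fun y hy => (h3 y hy).1 k hk⟩).trans
      (Multiset.sum_map_le_sum_map _ _ fun y hy => (h3 y hy).2)
  · push Not at h
    exact (wl_sum hΓ Q fun k hk => ⟨hQ k hk, h k hk⟩).trans
      (Multiset.sum_map_le_sum_map _ _ fun y hy => main y (hΓI y hy) fun e he => h e he y hy)

/-- The spectral facts that are used about a graph of maximum degree at most `d`. -/
def Mom (d : ℕ) (Λ : Multiset ℝ) : Prop :=
  Good Λ ∧ (∀ r ∈ Λ, r ∈ Set.Icc (-(d : ℝ)) d) ∧ Λ.sum = 0 ∧ ∃ K : Multiset ℕ,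
    K.card = Λ.card ∧ K ≠ 0 ∧ (∀ k ∈ K, k ≤ d) ∧
    (Λ.map fun x => x ^ 2).sum = (K.map fun k : ℕ => (k : ℝ)).sum ∧
    (K.map fun k : ℕ => 2 * (k : ℝ) ^ 2 - k).sum ≤ (Λ.map fun x => x ^ 4).sum

theorem Mom.neg {d : ℕ} {Λ : Multiset ℝ} (h : Mom d Λ) : Mom d (Λ.map fun x => -x) := by
  obtain ⟨⟨χ, hm, hs, hr⟩, h1, h2, K, h3, h4, h5, h6, h7⟩ := h
  have e : (χ.scaleRoots (-1)).map (algebraMap ℤ ℝ) = (χ.map (algebraMap ℤ ℝ)).scaleRoots (-1) := by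
    rw [map_scaleRoots _ _ _ (by simp [hm.leadingCoeff])]; simp
  refine ⟨⟨χ.scaleRoots (-1), (monic_scaleRoots_iff _).2 hm, e ▸ hs.scaleRoots _, ?_⟩,
    fun r hr => ?_, ?_, K, by simpa using h3, h4, h5, ?_, ?_⟩
  · rw [e, roots_scaleRoots _ isUnit_neg_one, hr]; simp
  · obtain ⟨y, hy, rfl⟩ := Multiset.mem_map.1 hr
    obtain ⟨a, b⟩ := h1 y hy
    exact ⟨by linarith, by linarith⟩
  · rw [Multiset.sum_map_neg', h2, neg_zero]
  · rw [Multiset.map_map, ← h6]; simp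
  · rw [Multiset.map_map]
    refine h7.trans (le_of_eq ?_)
    congr 2; funext x; simp only [Function.comp]; ring

/-- Fewer than half of the numbers lie below `-√(d-1)`. -/
def Goal (d : ℕ) : Prop :=
  ∀ Λ : Multiset ℝ, Mom d Λ →
    2 * (Λ.filter fun x => x < -Real.sqrt ((d - 1 : ℕ) : ℝ)).card < Λ.card

theorem goal_of (d : ℕ) (a0 a1 a2 a4 : ℝ) (h4 : a4 ≤ 0)
    (hk : ∀ k : ℕ, k ≤ d → a0 + a2 * k + a4 * (2 * (k : ℝ) ^ 2 - k) < 1 / 2)
    (Q : List (List ℤ × ℝ)) (hQ : ∀ e ∈ Q, 0 ≤ e.2)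
    (main : ∀ x ∈ Set.Icc (-(d : ℝ)) d, (∀ e ∈ Q, ev e.1 x ≠ 0) →
      wl Q x ≤ a0 + a1 * x + a2 * x ^ 2 + a4 * x ^ 4 -
        if x < -Real.sqrt ((d - 1 : ℕ) : ℝ) then 1 else 0)
    (sec : ∀ e ∈ Q, ∃ L : List (List ℤ × ℝ), (∀ h ∈ L, 0 ≤ h.2) ∧
      ∀ x ∈ Set.Icc (-(d : ℝ)) d, ev e.1 x = 0 → (∀ h ∈ L, ev h.1 x ≠ 0) ∧
      wl L x ≤ a0 + a1 * x + a2 * x ^ 2 + a4 * x ^ 4 -
        if x < -Real.sqrt ((d - 1 : ℕ) : ℝ) then 1 else 0) : Goal d := by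
  rintro Λ ⟨h0, h1, h2, K, h3, h5, h6, h7, h8⟩
  have h := aux h0 _ _ h1 Q hQ main sec
  have e1 : (Λ.map fun x => if x < -Real.sqrt ((d - 1 : ℕ) : ℝ) then (1 : ℝ) else 0).sum =
      (Λ.filter fun x => x < -Real.sqrt ((d - 1 : ℕ) : ℝ)).card := by
    clear h h0 h1 h2 h3 h7 h8
    induction Λ using Multiset.induction_on with
    | empty => simp
    | cons a s ih =>
      rw [Multiset.map_cons, Multiset.sum_cons, ih, Multiset.filter_cons]
      split_ifs <;> simp [add_comm]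
  have e2 : (Λ.map fun x => a1 * x).sum = 0 := by
    rw [Multiset.sum_map_mul_left, Multiset.map_id', h2, mul_zero]
  rw [Multiset.sum_map_sub, e1, Multiset.sum_map_add, Multiset.sum_map_add, Multiset.sum_map_add,
    e2] at h
  simp only [Multiset.sum_map_mul_left, h7,
    Multiset.map_const', Multiset.sum_replicate, nsmul_eq_mul] at h
  have h9 : (K.map fun k : ℕ => a0 + a2 * k + a4 * (2 * (k : ℝ) ^ 2 - k)).sum <
      (K.map fun _ => (1 / 2 : ℝ)).sum :=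
    Multiset.sum_lt_sum_of_nonempty h5 fun k hk' => hk k (h6 k hk')
  simp only [Multiset.sum_map_add, Multiset.sum_map_mul_left, Multiset.map_const',
    Multiset.sum_replicate, nsmul_eq_mul, h3] at h9
  have h10 := mul_le_mul_of_nonpos_left h8 h4
  have : (2 : ℝ) * (Λ.filter fun x => x < -Real.sqrt ((d - 1 : ℕ) : ℝ)).card < Λ.card := by
    linarith
  exact_mod_cast this

end Pool.Agent.H3.MedCore
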