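import Pool.Agent.H3.MedCore

set_option autoImplicit false

namespace Pool.Agent.H3.MedGraph

open Finset Matrix Pool.Agent.H3.MedCore

variable {V : Type} [Fintype V] [DecidableEq V]

theorem sum_pow (A : Matrix V V ℝ) (hA : A.IsHermitian) (k : ℕ) :
    ∑ i, hA.eigenvalues i ^ k = (A ^ k).trace := by
  obtain ⟨U, h1, h2, h3⟩ : ∃ U : Matrix V V ℝ,
      A = U * diagonal hA.eigenvalues * Uᵀ ∧ Uᵀ * U = 1 ∧ U * Uᵀ = 1 := by
    refine ⟨hA.eigenvectorUnitary, ?_, ?_, ?_⟩
    · have := hA.spectral_theorem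
      rw [Unitary.conjStarAlgAut_apply] at this
      simpa [star_eq_conjTranspose] using this
    · simpa [star_eq_conjTranspose] using Unitary.coe_star_mul_self hA.eigenvectorUnitary
    · simpa [star_eq_conjTranspose] using Unitary.coe_mul_star_self hA.eigenvectorUnitary
  generalize hA.eigenvalues = x at h1
  have : A ^ k = U * diagonal x ^ k * Uᵀ := by
    induction k with
    | zero => simp [h3]
    | succ k ih =>
      rw [pow_succ, ih, pow_succ]
      conv_lhs => rw [h1]
      calc _ = U * diagonal x ^ k * (Uᵀ * U) * diagonal x * Uᵀ := by simp only [Matrix.mul_assoc]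
        _ = _ := by rw [h2]; simp only [Matrix.mul_one, Matrix.mul_assoc]
  rw [this, trace_mul_cycle, h2, Matrix.one_mul, diagonal_pow, trace_diagonal]
  simp

theorem eig_le (G : SimpleGraph V) [DecidableRel G.Adj] (d : ℕ) (hd : G.maxDegree ≤ d)
    (hA : (G.adjMatrix ℝ).IsHermitian) (i : V) : |hA.eigenvalues i| ≤ d := by
  have h1 := hA.mulVec_eigenvectorBasis i
  have h0 : (hA.eigenvectorBasis i).ofLp ≠ 0 := by
    intro h
    exact hA.eigenvectorBasis.orthonormal.ne_zero i (by ext j; simpa using congrFun h j)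
  generalize (hA.eigenvectorBasis i).ofLp = v at h1 h0
  generalize hA.eigenvalues i = x at h1
  obtain ⟨j, -, hj⟩ := exists_max_image univ (fun j => |v j|) ⟨i, mem_univ _⟩
  obtain ⟨k, hk⟩ := Function.ne_iff.1 h0
  have hp : 0 < |v j| := (abs_pos.2 hk).trans_le (hj k (mem_univ _))
  have h2 := congrFun h1 j
  rw [SimpleGraph.adjMatrix_mulVec_apply, Pi.smul_apply, smul_eq_mul] at h2
  have h3 : |x| * |v j| ≤ d * |v j| := by
    rw [← abs_mul, ← h2]
    refine (abs_sum_le_sum_abs _ _).trans ((sum_le_card_nsmul _ _ _ fun u _ =>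
      hj u (mem_univ _)).trans ?_)
    rw [nsmul_eq_mul, SimpleGraph.card_neighborFinset_eq_degree]
    exact mul_le_mul_of_nonneg_right (by exact_mod_cast (G.degree_le_maxDegree j).trans hd) hp.le
  exact le_of_mul_le_mul_right h3 hp

theorem trace_four (G : SimpleGraph V) [DecidableRel G.Adj] :
    ∑ v, (2 * (G.degree v : ℝ) ^ 2 - G.degree v) ≤ (G.adjMatrix ℝ ^ 4).trace := by
  set A := G.adjMatrix ℝ with hA
  have hs : ∀ v w, (A * A) w v = (A * A) v w := fun v w => by
    simp only [mul_apply, hA, SimpleGraph.adjMatrix_apply, G.adj_comm, mul_comm]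
  have e1 : (A ^ 4).trace = ∑ v, ∑ w, (A * A) v w ^ 2 := by
    rw [show A ^ 4 = A * A * (A * A) by simp only [pow_succ, pow_zero, Matrix.one_mul,
      Matrix.mul_assoc]]
    simp only [trace, Matrix.diag]
    refine sum_congr rfl fun v _ => ?_
    rw [mul_apply]
    exact sum_congr rfl fun w _ => by rw [hs v w, sq]
  have e2 : ∑ v, ∑ w, (A * A) v w = ∑ v, (G.degree v : ℝ) ^ 2 := by
    have r : ∀ u, ∑ w, A u w = G.degree u := fun u => by
      simp [hA, SimpleGraph.adjMatrix_apply, sum_boole, ← SimpleGraph.card_neighborFinset_eq_degree,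
        SimpleGraph.neighborFinset_eq_filter]
    have r' : ∀ u, ∑ w, A w u = G.degree u := fun u => by
      rw [← r u]; simp only [hA, SimpleGraph.adjMatrix_apply, G.adj_comm]
    simp only [mul_apply]
    calc _ = ∑ v, ∑ u, A v u * G.degree u := sum_congr rfl fun v _ => by
          rw [sum_comm]; simp only [← mul_sum, r]
      _ = _ := by rw [sum_comm]; simp only [← sum_mul, r', sq]
  have e3 : ∀ v w, 0 ≤ (A * A) v w ^ 2 - (A * A) v w := fun v w => by
    have : (A * A) v w = ((G.adjMatrix ℤ * G.adjMatrix ℤ) v w : ℤ) := by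
      simp only [mul_apply, hA, SimpleGraph.adjMatrix_apply]
      push_cast; rfl
    rw [this]
    generalize (G.adjMatrix ℤ * G.adjMatrix ℤ) v w = z
    have : 0 ≤ z ^ 2 - z := by rcases le_or_gt z 0 with h | h <;> nlinarith
    exact_mod_cast this
  have e4 : ∑ v, ((G.degree v : ℝ) ^ 2 - G.degree v) ≤
      ∑ v, ∑ w, ((A * A) v w ^ 2 - (A * A) v w) := sum_le_sum fun v _ => by
    have := single_le_sum (f := fun w => (A * A) v w ^ 2 - (A * A) v w) (fun w _ => e3 v w)
      (mem_univ v)
    simpa only [hA, SimpleGraph.adjMatrix_mul_self_apply_self] using this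
  simp only [sum_sub_distrib, ← mul_sum] at e4 ⊢
  linarith

theorem mom [Nonempty V] (G : SimpleGraph V) [DecidableRel G.Adj] (d : ℕ)
    (hd : G.maxDegree ≤ d) : Mom d (G.adjMatrix ℝ).charpoly.roots := by
  have hA : (G.adjMatrix ℝ).IsHermitian := by
    ext i j; simp [SimpleGraph.adjMatrix_apply, G.adj_comm]
  have e : (G.adjMatrix ℤ).charpoly.map (algebraMap ℤ ℝ) = (G.adjMatrix ℝ).charpoly := by
    rw [← charpoly_map]
    congr 1
    ext i j; simp [SimpleGraph.adjMatrix_apply]
  have hr : (G.adjMatrix ℝ).charpoly.roots = univ.val.map hA.eigenvalues := by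
    rw [hA.roots_charpoly_eq_eigenvalues]; rfl
  have hp : ∀ k, ((G.adjMatrix ℝ).charpoly.roots.map fun x => x ^ k).sum =
      (G.adjMatrix ℝ ^ k).trace := fun k => by
    rw [hr, Multiset.map_map, ← sum_pow _ hA]; rfl
  refine ⟨⟨_, charpoly_monic _, e ▸ hA.splits_charpoly, by rw [e]⟩, fun r h => ?_, ?_,
    univ.val.map fun v => G.degree v, by simp [hr], by simp [univ_nonempty.ne_empty], fun k hk => ?_, ?_, ?_⟩
  · rw [hr] at h
    obtain ⟨i, -, rfl⟩ := Multiset.mem_map.1 h
    exact abs_le.1 (eig_le G d hd hA i)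
  · simpa using hp 1
  · obtain ⟨i, -, rfl⟩ := Multiset.mem_map.1 hk
    exact (G.degree_le_maxDegree i).trans hd
  · rw [hp, Multiset.map_map, sq]
    simp only [trace, Matrix.diag, SimpleGraph.adjMatrix_mul_self_apply_self]
    rfl
  · rw [hp, Multiset.map_map]
    exact trace_four G

theorem both [Nonempty V] (G : SimpleGraph V) [DecidableRel G.Adj] (d : ℕ) (h : Goal d)
    (hd : G.maxDegree ≤ d) :
    2 * ((G.adjMatrix ℝ).charpoly.roots.filter
      fun x : ℝ => Real.sqrt ((d - 1 : ℕ) : ℝ) < x).card < Fintype.card V ∧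
    2 * ((G.adjMatrix ℝ).charpoly.roots.filter
      fun x : ℝ => x < -Real.sqrt ((d - 1 : ℕ) : ℝ)).card < Fintype.card V := by
  have hA : (G.adjMatrix ℝ).IsHermitian := by
    ext i j; simp [SimpleGraph.adjMatrix_apply, G.adj_comm]
  have hc : (G.adjMatrix ℝ).charpoly.roots.card = Fintype.card V := by
    rw [hA.roots_charpoly_eq_eigenvalues]; simp
  have h1 := h _ (mom G d hd)
  have h2 := h _ (mom G d hd).neg
  rw [Multiset.filter_map, Multiset.card_map, Multiset.card_map] at h2
  rw [hc] at h1 h2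
  refine ⟨?_, h1⟩
  simpa only [Function.comp_def, neg_lt_neg_iff] using h2

end Pool.Agent.H3.MedGraph
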