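import Mathlib

set_option autoImplicit false

namespace Pool.Agent.H3.MonoAP

open Finset

/-- Pairs (first term, difference) of the `k`-term progressions in `[n]`. -/
def A (k n : ℕ) : Finset (ℕ × ℕ) :=
  (Icc 1 n ×ˢ Icc 1 n).filter fun p => p.1 + (k - 1) * p.2 ≤ n

/-- The number of monochromatic `k`-term progressions in `[n]`. -/
def M (k n : ℕ) {r : ℕ} (χ : ℕ → Fin r) : ℕ :=
  ((A k n).filter fun p => ∀ i ∈ range k, χ (p.1 + i * p.2) = χ p.1).card

theorem mem_A {k n : ℕ} (hk : 2 ≤ k) {p : ℕ × ℕ} :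
    p ∈ A k n ↔ 1 ≤ p.1 ∧ 1 ≤ p.2 ∧ p.1 + (k - 1) * p.2 ≤ n := by
  simp only [A, mem_filter, mem_product, mem_Icc]
  refine ⟨fun h => ⟨h.1.1.1, h.1.2.1, h.2⟩, fun h => ⟨⟨⟨h.1, by omega⟩, h.2.1, ?_⟩, h.2.2⟩⟩
  have : 1 * p.2 ≤ (k - 1) * p.2 := Nat.mul_le_mul_right _ (by omega)
  omega

theorem card_A (m n : ℕ) (hm : 1 ≤ m) : (A (m + 1) n).card = ∑ e ∈ range n, e / m := by
  have : ∑ e ∈ range n, e / m = ((range n).sigma fun e => Icc 1 (e / m)).card := by
    simp [card_sigma]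
  rw [this]
  refine card_nbij' (fun p => ⟨p.1 + m * p.2 - 1, p.2⟩) (fun q => (q.1 + 1 - m * q.2, q.2))
    ?_ ?_ ?_ ?_
  · intro p hp
    have := (mem_A (by omega)).1 (mem_coe.1 hp)
    simp only [Nat.add_sub_cancel] at this
    simp only [coe_sigma, Set.mem_sigma_iff, mem_coe, mem_range, mem_Icc]
    refine ⟨by omega, this.2.1, (Nat.le_div_iff_mul_le hm).2 ?_⟩
    rw [mul_comm]; omega
  · intro q hq
    simp only [coe_sigma, Set.mem_sigma_iff, mem_coe, mem_range, mem_Icc] at hq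
    have := (Nat.le_div_iff_mul_le hm).1 hq.2.2
    rw [mul_comm] at this
    refine mem_coe.2 ((mem_A (by omega)).2 ?_)
    simp only [Nat.add_sub_cancel]
    omega
  · intro p hp
    have := (mem_A (by omega)).1 (mem_coe.1 hp)
    refine Prod.ext ?_ rfl
    simp only
    omega
  · intro q hq
    simp only [coe_sigma, Set.mem_sigma_iff, mem_coe, mem_range, mem_Icc] at hq
    have := (Nat.le_div_iff_mul_le hm).1 hq.2.2
    rw [mul_comm] at this
    refine Sigma.ext ?_ HEq.rfl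
    simp only
    omega

theorem card_A_bounds (m n : ℕ) (hm : 1 ≤ m) :
    2 * m * ((A (m + 1) n).card : ℝ) ≤ n ^ 2 ∧
      (n : ℝ) ^ 2 - 2 * m * n ≤ 2 * m * ((A (m + 1) n).card : ℝ) := by
  rw [card_A m n hm]
  induction n with
  | zero => simp
  | succ n ih =>
    rw [sum_range_succ]
    have h1 : m * (n / m) ≤ n := Nat.mul_div_le n m
    have h2 : n < m * (n / m) + m := by
      have := Nat.div_add_mod n m
      have := Nat.mod_lt n hm
      omega
    have h1' : (m : ℝ) * (n / m : ℕ) ≤ n := by exact_mod_cast h1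
    have h2' : (n : ℝ) + 1 ≤ m * (n / m : ℕ) + m := by exact_mod_cast h2
    push_cast at ih ⊢
    constructor <;> nlinarith [ih.1, ih.2]

theorem lip {k n r : ℕ} (χ χ' : ℕ → Fin r) (x : ℕ) (h : ∀ y, y ≠ x → χ y = χ' y) (hk : 1 ≤ k) :
    M k n χ ≤ M k n χ' + k * n := by
  have hB : ((A k n).filter fun p => ∃ i ∈ range k, p.1 + i * p.2 = x).card ≤ k * n := by
    have : k * n = ((range k ×ˢ Icc 1 n)).card := by simp
    rw [this]
    refine le_trans (card_le_card ?_) (card_image_le (f := fun q : ℕ × ℕ => (x - q.1 * q.2, q.2)))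
    intro p hp
    obtain ⟨h1, i, hi, e⟩ := mem_filter.1 hp
    refine mem_image.2 ⟨(i, p.2), mem_product.2 ⟨hi, (mem_product.1 (mem_filter.1 h1).1).2⟩, ?_⟩
    refine Prod.ext ?_ rfl
    simp only
    omega
  unfold M
  refine le_trans (card_le_card ?_) (le_trans (card_union_le _ _) (Nat.add_le_add_left hB _))
  intro p hp
  obtain ⟨h1, h2⟩ := mem_filter.1 hp
  by_cases e : ∃ i ∈ range k, p.1 + i * p.2 = x
  · exact mem_union_right _ (mem_filter.2 ⟨h1, e⟩)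
  · refine mem_union_left _ (mem_filter.2 ⟨h1, fun i hi => ?_⟩)
    push Not at e
    have e0 := e 0 (mem_range.2 hk)
    simp only [zero_mul, add_zero] at e0
    rw [← h _ (e i hi), ← h _ e0, h2 i hi]

theorem ivt (u : ℕ → ℝ) (T L : ℝ) (n : ℕ) (h0 : u 0 ≤ T) (hn : T - L ≤ u n)
    (hs : ∀ t, u (t + 1) ≤ u t + L) : ∃ t, |u t - T| ≤ L := by
  by_contra hc
  push Not at hc
  have : ∀ t, u t < T - L := by
    intro t
    induction t with
    | zero =>
      have := hc 0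
      rw [abs_of_nonpos (by linarith)] at this
      linarith
    | succ t ih =>
      have := hc (t + 1)
      rw [abs_of_nonpos (by linarith [hs t])] at this
      linarith
  linarith [this n]

theorem exp_prod {X ι : Type} {r : ℕ} [Fintype X] [DecidableEq X] (f : X → Fin r → ℝ)
    (hf : ∀ x, ∑ c, f x c = 1) (s : Finset ι) (e : ι → X) (he : Set.InjOn e s) (c : Fin r) :
    ∑ χ : X → Fin r, (∏ x, f x (χ x)) * (if ∀ i ∈ s, χ (e i) = c then 1 else 0) =
      ∏ i ∈ s, f (e i) c := by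
  have h1 : ∏ i ∈ s, f (e i) c = ∏ x, ∑ c' ∈ univ, f x c' *
      (if x ∈ s.image e then (if c' = c then 1 else 0) else 1) := by
    rw [← prod_image (f := fun x => f x c) he, ← prod_ite_mem_eq]
    refine prod_congr rfl fun x _ => ?_
    split_ifs with hx
    · simp
    · simp [hf]
  rw [h1, prod_univ_sum, Fintype.piFinset_univ]
  refine sum_congr rfl fun χ _ => ?_
  rw [prod_mul_distrib, prod_ite_mem_eq, prod_image he, prod_boole]

theorem exists_le {k n r : ℕ} (hk : 2 ≤ k) (F : ℕ → Fin r → ℝ) (hF : ∀ x, ∑ c, F x c = 1)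
    (hp : ∀ x c, 0 < F x c) : ∃ χ : ℕ → Fin r,
      (M k n χ : ℝ) ≤ ∑ p ∈ A k n, ∑ c, ∏ i ∈ range k, F (p.1 + i * p.2) c := by
  let f : Fin (n + 1) → Fin r → ℝ := fun x => F x
  let w : (Fin (n + 1) → Fin r) → ℝ := fun χ => ∏ x, f x (χ x)
  have hw : ∀ χ, 0 < w χ := fun χ => prod_pos fun x _ => hp _ _
  have h1 : ∑ χ, w χ = 1 := by
    have := exp_prod f (fun x => hF x) (∅ : Finset ℕ) (fun _ => 0) (by simp)
    have hr : Nonempty (Fin r) := by
      by_contra hc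
      have := hF 0
      rw [not_nonempty_iff] at hc
      simp at this
    simpa using this hr.some
  have hne : (univ : Finset (Fin (n + 1) → Fin r)).Nonempty := by
    by_contra hc
    rw [not_nonempty_iff_eq_empty] at hc
    simp [hc] at h1
  set E := ∑ p ∈ A k n, ∑ c, ∏ i ∈ range k, F (p.1 + i * p.2) c with hE
  have key : ∑ χ, w χ * (M k n (fun x => χ (Fin.ofNat (n + 1) x)) : ℝ) ≤ ∑ χ, w χ * E := by
    rw [← sum_mul, h1, one_mul, hE]
    have : ∀ p ∈ A k n, ∑ c, ∏ i ∈ range k, F (p.1 + i * p.2) c = ∑ χ, w χ * ∑ c,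
        (if ∀ i ∈ range k, χ (Fin.ofNat (n + 1) (p.1 + i * p.2)) = c then 1 else 0) := by
      intro p hp
      obtain ⟨a1, a2, a3⟩ := (mem_A hk).1 hp
      have hv : ∀ i ∈ range k, (Fin.ofNat (n + 1) (p.1 + i * p.2) : ℕ) = p.1 + i * p.2 := by
        intro i hi
        have : i * p.2 ≤ (k - 1) * p.2 := Nat.mul_le_mul_right _ (by have := mem_range.1 hi; omega)
        exact Nat.mod_eq_of_lt (by omega)
      simp only [mul_sum]
      rw [sum_comm]
      refine sum_congr rfl fun c _ => ?_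
      rw [exp_prod f (fun x => hF x)]
      · exact prod_congr rfl fun i hi => by simp only [f, hv i hi]
      · intro i hi j hj e
        have := congrArg Fin.val e
        simp only [hv i hi, hv j hj] at this
        exact Nat.eq_of_mul_eq_mul_right a2 (by omega)
    rw [sum_congr rfl this, sum_comm]
    refine sum_le_sum fun χ _ => ?_
    rw [← mul_sum]
    refine mul_le_mul_of_nonneg_left ?_ (hw χ).le
    unfold M
    rw [card_filter]
    push_cast
    refine sum_le_sum fun p _ => ?_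
    split_ifs with h
    · refine le_trans ?_ (single_le_sum (fun c _ => by positivity)
        (mem_univ (χ (Fin.ofNat (n + 1) p.1))))
      rw [if_pos h]
    · positivity
  obtain ⟨χ, -, h⟩ := exists_le_of_sum_le hne key
  exact ⟨_, le_of_mul_le_mul_left h (hw χ)⟩

theorem tri_sum (g : ℕ → ℝ) (N : ℕ) :
    2 * ∑ p ∈ (range N ×ˢ range N).filter (fun p => p.1 < p.2), g p.1 * g p.2 ≤
      (∑ x ∈ range N, g x) ^ 2 := by
  have : ∑ p ∈ (range N ×ˢ range N).filter (fun p => p.1 < p.2), g p.1 * g p.2 =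
      ∑ t ∈ range N, (∑ s ∈ range t, g s) * g t := by
    rw [sum_filter, sum_product_right]
    refine sum_congr rfl fun t ht => ?_
    rw [← sum_filter, sum_mul]
    refine sum_congr ?_ fun _ _ => rfl
    ext s
    simp only [mem_filter, mem_range] at ht ⊢
    omega
  rw [this]
  clear this
  induction N with
  | zero => simp
  | succ N ih => rw [sum_range_succ, sum_range_succ g]; nlinarith [sq_nonneg (g N)]

theorem Q_le {k n : ℕ} (hk : 2 ≤ k) (g : ℕ → ℝ) (h0 : ∑ x ∈ range (n + 1), g x = 0) {i j : ℕ}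
    (hij : i < j) (hj : j < k)
    (hneg : ∀ s t, s < t → g s * g t < 0 → ∃ p ∈ A k n, p.1 + i * p.2 = s ∧ p.1 + j * p.2 = t)
    (D : Finset (ℕ × ℕ)) (hD : ∀ d ∈ D, d.1 < d.2 ∧ d.2 ≤ n ∧
      ¬ ∃ p ∈ A k n, p.1 + i * p.2 = d.1 ∧ p.1 + j * p.2 = d.2) :
    ∑ p ∈ A k n, g (p.1 + i * p.2) * g (p.1 + j * p.2) ≤ - ∑ d ∈ D, g d.1 * g d.2 := by
  let T := (range (n + 1) ×ˢ range (n + 1)).filter (fun p => p.1 < p.2)
  let e : ℕ × ℕ → ℕ × ℕ := fun p => (p.1 + i * p.2, p.1 + j * p.2)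
  have hinj : Set.InjOn e (A k n) := by
    intro p _ p' _ h
    have h1 : p.1 + i * p.2 = p'.1 + i * p'.2 := congrArg Prod.fst h
    have h2 : p.1 + j * p.2 = p'.1 + j * p'.2 := congrArg Prod.snd h
    obtain ⟨c, rfl⟩ := Nat.exists_eq_add_of_lt hij
    have h3 : (c + 1) * p.2 = (c + 1) * p'.2 := by nlinarith
    have h4 := Nat.eq_of_mul_eq_mul_left (Nat.succ_pos c) h3
    refine Prod.ext ?_ h4
    rw [h4] at h1
    omega
  have hV : (A k n).image e ⊆ T := by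
    intro d hd
    obtain ⟨p, hp, rfl⟩ := mem_image.1 hd
    obtain ⟨a1, a2, a3⟩ := (mem_A hk).1 hp
    have b1 : j * p.2 ≤ (k - 1) * p.2 := Nat.mul_le_mul_right _ (by omega)
    have b2 : i * p.2 < j * p.2 := Nat.mul_lt_mul_of_pos_right hij a2
    simp only [T, e, mem_filter, mem_product, mem_range]
    omega
  have h1 := tri_sum g (n + 1)
  rw [h0, ← sum_sdiff hV, sum_image hinj] at h1
  have h2 : ∑ d ∈ D, g d.1 * g d.2 ≤ ∑ d ∈ T \ (A k n).image e, g d.1 * g d.2 := by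
    refine sum_le_sum_of_subset_of_nonneg (fun d hd => ?_) fun d hd _ => ?_
    · obtain ⟨b1, b2, b3⟩ := hD d hd
      refine mem_sdiff.2 ⟨by simp only [T, mem_filter, mem_product, mem_range]; omega, fun h => ?_⟩
      obtain ⟨p, hp, rfl⟩ := mem_image.1 h
      exact b3 ⟨p, hp, rfl, rfl⟩
    · by_contra hc
      obtain ⟨p, hp, b1, b2⟩ := hneg _ _ (mem_filter.1 (mem_sdiff.1 hd).1).2 (not_le.1 hc)
      exact (mem_sdiff.1 hd).2 (mem_image.2 ⟨p, hp, Prod.ext b1 b2⟩)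
  simp only [e] at h1 h2
  linarith

def blk (H q z : ℕ) : Finset ℕ := (Ico (z * q) (z * q + q)).image (H * ·)

theorem mem_blk {H q z x : ℕ} : x ∈ blk H q z ↔ ∃ y, z * q ≤ y ∧ y < z * q + q ∧ H * y = x := by
  simp [blk, and_assoc]

theorem card_blk {H : ℕ} (hH : 0 < H) (q z : ℕ) : (blk H q z).card = q := by
  rw [blk, card_image_of_injective _ (mul_right_injective₀ hH.ne')]
  simp

theorem exists_g (μ : ℕ) (hμ : 1 ≤ μ) : ∃ W : ℕ, 0 < W ∧ ∀ n, ∃ g : ℕ → ℝ, (∀ x, |g x| ≤ 2) ∧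
    (∀ i j, i < j → j < μ + 2 →
      ∑ p ∈ A (μ + 2) n, g (p.1 + i * p.2) * g (p.1 + j * p.2) ≤ 0) ∧
    ∑ p ∈ A (μ + 2) n, g (p.1 + μ * p.2) * g (p.1 + (μ + 1) * p.2) ≤ - ((n / W : ℕ) : ℝ) ^ 2 := by
  obtain ⟨H, hH, hd⟩ : ∃ H : ℕ, 0 < H ∧ ∀ h, 0 < h → h ≤ μ + 1 → h ∣ H :=
    ⟨(μ + 1).factorial, Nat.factorial_pos _, fun h h1 h2 => Nat.dvd_factorial h1 h2⟩
  refine ⟨(μ + 2) * (H * (5 * μ + 9)), by positivity, fun n => ?_⟩
  set q := n / ((μ + 2) * (H * (5 * μ + 9))) with hq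
  have hqn : (μ + 2) * (H * (5 * (μ * q) + 9 * q)) ≤ n := by
    have := Nat.mul_div_le n ((μ + 2) * (H * (5 * μ + 9)))
    rw [← hq] at this
    nlinarith
  have mI : ∀ z x, x ∈ blk H q (5 * μ + z) ↔
      ∃ y, 5 * (μ * q) + z * q ≤ y ∧ y < 5 * (μ * q) + z * q + q ∧ H * y = x := by
    intro z x
    rw [mem_blk, show (5 * μ + z) * q = 5 * (μ * q) + z * q by ring]
  let g : ℕ → ℝ := fun x => (if x ∈ blk H q (5 * μ + 0) then 1 else 0) -
    2 * (if x ∈ blk H q (5 * μ + 4) then 1 else 0) + (if x ∈ blk H q (5 * μ + 8) then 1 else 0)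
  have hle : ∀ z x, z ≤ 8 → x ∈ blk H q (5 * μ + z) → x ≤ n := by
    intro z x hz hx
    obtain ⟨y, -, h2, rfl⟩ := (mI _ _).1 hx
    have : z * q ≤ 8 * q := Nat.mul_le_mul_right _ hz
    have : H * y ≤ H * (5 * (μ * q) + 9 * q) := Nat.mul_le_mul_left _ (by omega)
    nlinarith
  have h0 : ∑ x ∈ range (n + 1), g x = 0 := by
    have : ∀ z, z ≤ 8 → ∑ x ∈ range (n + 1), (if x ∈ blk H q (5 * μ + z) then (1 : ℝ) else 0)
        = q := by
      intro z hz
      rw [sum_ite_mem, inter_eq_right.2 fun x hx => mem_range.2 (Nat.lt_succ_of_le (hle z x hz hx))]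
      simp [card_blk hH]
    simp only [g, sum_add_distrib, sum_sub_distrib, ← mul_sum]
    rw [this 0 (by omega), this 4 (by omega), this 8 (by omega)]
    ring
  have hneg : ∀ i j, i < j → j < μ + 2 → ∀ s t, s < t → g s * g t < 0 →
      ∃ p ∈ A (μ + 2) n, p.1 + i * p.2 = s ∧ p.1 + j * p.2 = t := by
    intro i j hij hj s t hst hg
    have n1 : ∀ x, g x < 0 → x ∈ blk H q (5 * μ + 4) := by
      intro x hx
      by_contra hc
      simp only [g, if_neg hc] at hx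
      split_ifs at hx <;> linarith
    have p1 : ∀ x, 0 < g x → x ∈ blk H q (5 * μ + 0) ∨ x ∈ blk H q (5 * μ + 8) := by
      intro x hx
      by_contra hc
      push Not at hc
      simp only [g, if_neg hc.1, if_neg hc.2] at hx
      split_ifs at hx <;> linarith
    obtain ⟨y, y', rfl, rfl, b1, b2, b3⟩ : ∃ y y', H * y = s ∧ H * y' = t ∧ 5 * (μ * q) ≤ y ∧
        y' < y + 5 * q ∧ y' < 5 * (μ * q) + 9 * q := by
      rcases mul_neg_iff.1 hg with ⟨h1, h2⟩ | ⟨h1, h2⟩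
      · obtain ⟨y', c1, c2, c3⟩ := (mI _ _).1 (n1 _ h2)
        rcases p1 _ h1 with h | h <;> obtain ⟨y, d1, d2, d3⟩ := (mI _ _).1 h <;>
          exact ⟨y, y', d3, c3, by omega, by omega, by omega⟩
      · obtain ⟨y, c1, c2, c3⟩ := (mI _ _).1 (n1 _ h1)
        rcases p1 _ h2 with h | h <;> obtain ⟨y', d1, d2, d3⟩ := (mI _ _).1 h <;>
          exact ⟨y, y', c3, d3, by omega, by omega, by omega⟩
    have hy : y < y' := lt_of_mul_lt_mul_left hst (Nat.zero_le _)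
    obtain ⟨c, rfl⟩ := Nat.exists_eq_add_of_lt hij
    obtain ⟨u, rfl⟩ := Nat.exists_eq_add_of_lt hy
    obtain ⟨G, rfl⟩ := hd (c + 1) (by omega) (by omega)
    have hG : 0 < G := Nat.pos_of_mul_pos_left hH
    have e1 : i * (u + 1) < y := by
      have : i * (u + 1) ≤ μ * (u + 1) := Nat.mul_le_mul_right _ (by omega)
      have : μ * (u + 1) < μ * (5 * q) := Nat.mul_lt_mul_of_pos_left (by omega) hμ
      nlinarith
    have e2 : i * (G * (u + 1)) < (c + 1) * G * y := by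
      have : G * (i * (u + 1)) < G * y := Nat.mul_lt_mul_of_pos_left e1 hG
      nlinarith [Nat.zero_le (c * G * y)]
    have e3 : (c + 1) * G * (y + u + 1) ≤ (c + 1) * G * (5 * (μ * q) + 9 * q) :=
      Nat.mul_le_mul_left _ b3.le
    refine ⟨((c + 1) * G * y - i * (G * (u + 1)), G * (u + 1)), (mem_A (by omega)).2
      ⟨by simp only; omega, Nat.mul_pos hG (by omega), ?_⟩, by simp only; omega, ?_⟩
    · show (c + 1) * G * y - i * (G * (u + 1)) + (μ + 1) * (G * (u + 1)) ≤ n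
      have e4 : G * (u + 1) ≤ (c + 1) * G * (y + u + 1) := by
        nlinarith [Nat.zero_le (c * G * (y + u + 1)), Nat.zero_le (G * y)]
      have e5 : (c + 1) * G * y ≤ (c + 1) * G * (y + u + 1) := Nat.mul_le_mul_left _ (by omega)
      have e6 := Nat.mul_le_mul_left (μ + 1) (e4.trans e3)
      have e7 := Nat.sub_le ((c + 1) * G * y) (i * (G * (u + 1)))
      nlinarith
    · show (c + 1) * G * y - i * (G * (u + 1)) + (i + c + 1) * (G * (u + 1)) = _
      zify [e2.le]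
      ring
  refine ⟨g, fun x => ?_, fun i j hij hj => ?_, ?_⟩
  · simp only [g]
    split_ifs <;> norm_num
  · simpa using Q_le (by omega) g h0 hij hj (hneg i j hij hj) ∅ (by simp)
  · refine le_trans (Q_le (by omega) g h0 (Nat.lt_succ_self μ) (by omega)
      (hneg _ _ (Nat.lt_succ_self μ) (by omega)) (blk H q (5 * μ + 0) ×ˢ blk H q (5 * μ + 8)) ?_) ?_
    · rintro ⟨s, t⟩ hd
      obtain ⟨hs, ht⟩ := mem_product.1 hd
      obtain ⟨y, c1, c2, c3⟩ := (mI _ _).1 hs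
      obtain ⟨y', d1, d2, d3⟩ := (mI _ _).1 ht
      simp only at c3 d3 ⊢
      subst c3 d3
      refine ⟨Nat.mul_lt_mul_of_pos_left (by omega) hH, hle _ _ le_rfl ht, ?_⟩
      rintro ⟨⟨a, d⟩, -, e1, e2⟩
      simp only at e1 e2
      have f1 : q ≤ μ * q := Nat.le_mul_of_pos_left _ hμ
      have f2 : (μ + 1) * y < μ * y' := by nlinarith
      have f3 := Nat.mul_lt_mul_of_pos_left f2 hH
      nlinarith [Nat.zero_le a]
    · rw [neg_le_neg_iff]
      have : ((q : ℝ)) ^ 2 = ∑ d ∈ blk H q (5 * μ + 0) ×ˢ blk H q (5 * μ + 8), (1 : ℝ) := by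
        simp [card_blk hH, sq]
      rw [this]
      refine sum_le_sum fun d hd => ?_
      obtain ⟨hs, ht⟩ := mem_product.1 hd
      obtain ⟨y, c1, c2, c3⟩ := (mI _ _).1 hs
      obtain ⟨y', d1, d2, d3⟩ := (mI _ _).1 ht
      have g1 : d.1 ∉ blk H q (5 * μ + 4) := by
        intro h
        obtain ⟨z, e1, e2, e3⟩ := (mI _ _).1 h
        have := Nat.eq_of_mul_eq_mul_left hH (e3.trans c3.symm)
        omega
      have g2 : d.2 ∉ blk H q (5 * μ + 4) := by
        intro h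
        obtain ⟨z, e1, e2, e3⟩ := (mI _ _).1 h
        have := Nat.eq_of_mul_eq_mul_left hH (e3.trans d3.symm)
        omega
      simp only [g, if_pos hs, if_pos ht, if_neg g1, if_neg g2]
      split_ifs <;> norm_num

theorem expand (μ ρ n : ℕ) (g : ℕ → ℝ) (hg : ∀ x, |g x| ≤ 2) (ε Q : ℝ) (h0 : 0 < ε)
    (h1 : ε ≤ 1 / 4)
    (hQ : ∀ i j, i < j → j < μ + 2 →
      ∑ p ∈ A (μ + 2) n, g (p.1 + i * p.2) * g (p.1 + j * p.2) ≤ 0)
    (hQ' : ∑ p ∈ A (μ + 2) n, g (p.1 + μ * p.2) * g (p.1 + (μ + 1) * p.2) ≤ - Q) :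
    ∃ χ : ℕ → Fin (ρ + 2), (M (μ + 2) n χ : ℝ) * (ρ + 2) ^ (μ + 2) ≤
      (ρ + 2) * (A (μ + 2) n).card - 2 * ε ^ 2 * Q +
        2 ^ (μ + 2) * (16 * ε ^ 3 * (A (μ + 2) n).card) := by
  let σ : Fin (ρ + 2) → ℝ := Fin.cons 1 (Fin.cons (-1) fun _ => 0)
  have hσ : ∀ c, |σ c| ≤ 1 := by
    intro c
    refine Fin.cases (by simp [σ]) (fun c => Fin.cases (by simp [σ]) (fun c => by simp [σ]) c) c
  have hτ : ∀ j, j ≠ 0 → ∑ c, σ c ^ j = 1 + (-1) ^ j := by
    intro j hj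
    simp [σ, Fin.sum_univ_succ, hj]
  have hr : (0 : ℝ) < ρ + 2 := by positivity
  obtain ⟨χ, hχ⟩ := exists_le (k := μ + 2) (n := n) (by omega)
    (fun x c => (1 + σ c * (ε * g x)) / (ρ + 2)) (fun x => by
      have := hτ 1 one_ne_zero
      simp only [pow_one] at this
      rw [← sum_div, sum_add_distrib, ← sum_mul, this]
      simp [hr.ne']) (fun x c => by
      refine div_pos ?_ hr
      have : |σ c * (ε * g x)| ≤ 1 * (1 / 4 * 2) := by
        rw [abs_mul, abs_mul, abs_of_pos h0]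
        gcongr
        exacts [hσ c, hg x]
      linarith [(abs_le.1 this).1])
  refine ⟨χ, ?_⟩
  rw [← le_div_iff₀ (by positivity)]
  refine hχ.trans ?_
  simp only [prod_div_distrib, prod_const, card_range, ← sum_div]
  refine div_le_div_of_nonneg_right ?_ (by positivity)
  have e1 : ∑ p ∈ A (μ + 2) n, ∑ c, ∏ i ∈ range (μ + 2), (1 + σ c * (ε * g (p.1 + i * p.2))) =
      ∑ S ∈ (range (μ + 2)).powerset, (∑ c, σ c ^ S.card) *
        ∑ p ∈ A (μ + 2) n, ∏ i ∈ S, (ε * g (p.1 + i * p.2)) := by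
    simp only [prod_one_add, prod_mul_distrib (f := fun _ => σ _), prod_const, sum_mul_sum]
    rw [sum_congr rfl fun p _ => sum_comm, sum_comm]
    exact sum_congr rfl fun S _ => sum_comm
  rw [e1]
  have hA : (0 : ℝ) ≤ 16 * ε ^ 3 * (A (μ + 2) n).card := by positivity
  have e2 : ∀ S ∈ (range (μ + 2)).powerset, (∑ c, σ c ^ S.card) *
      ∑ p ∈ A (μ + 2) n, ∏ i ∈ S, (ε * g (p.1 + i * p.2)) ≤
      (if S = ∅ then (ρ + 2) * ((A (μ + 2) n).card : ℝ) else 0) -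
        (if S = {μ, μ + 1} then 2 * ε ^ 2 * Q else 0) + 16 * ε ^ 3 * (A (μ + 2) n).card := by
    intro S hS
    have hc : ({μ, μ + 1} : Finset ℕ).card = 2 := card_pair (by omega)
    by_cases c0 : S = ∅
    · subst c0
      rw [if_pos rfl, if_neg (by intro h; rw [← h] at hc; simp at hc)]
      simp
      positivity
    rw [if_neg c0, hτ _ (by simpa using c0)]
    by_cases c1 : S.card = 1
    · rw [c1, if_neg (by rintro rfl; omega)]
      simpa using hA
    by_cases c2 : S.card = 2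
    · have key : ∀ i j, i ≠ j → ∑ p ∈ A (μ + 2) n, ∏ l ∈ {i, j}, (ε * g (p.1 + l * p.2)) =
          ε ^ 2 * ∑ p ∈ A (μ + 2) n, g (p.1 + i * p.2) * g (p.1 + j * p.2) := by
        intro i j hij
        rw [mul_sum]
        exact sum_congr rfl fun p _ => by rw [prod_pair hij]; ring
      rw [c2]
      split_ifs with h
      · rw [h, key _ _ (by omega)]
        nlinarith [mul_le_mul_of_nonneg_left hQ' (sq_nonneg ε)]
      · obtain ⟨i, j, hij, rfl⟩ := card_eq_two.1 c2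
        have hi := mem_range.1 (mem_powerset.1 hS (mem_insert_self i {j}))
        have hj := mem_range.1 (mem_powerset.1 hS (mem_insert_of_mem (mem_singleton_self j)))
        rcases lt_or_gt_of_ne hij with h' | h'
        · rw [key _ _ hij]
          nlinarith [mul_le_mul_of_nonneg_left (hQ i j h' hj) (sq_nonneg ε)]
        · rw [pair_comm, key _ _ hij.symm]
          nlinarith [mul_le_mul_of_nonneg_left (hQ j i h' hi) (sq_nonneg ε)]
    · have c3 : 3 ≤ S.card := by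
        have := card_pos.2 (nonempty_iff_ne_empty.2 c0)
        omega
      rw [if_neg (by rintro rfl; omega)]
      have b1 : |∑ p ∈ A (μ + 2) n, ∏ i ∈ S, (ε * g (p.1 + i * p.2))| ≤
          (A (μ + 2) n).card * (2 * ε) ^ 3 := by
        refine (abs_sum_le_sum_abs _ _).trans ?_
        rw [← nsmul_eq_mul]
        refine sum_le_card_nsmul _ _ _ fun p _ => ?_
        rw [abs_prod]
        refine le_trans (prod_le_prod (g := fun _ => 2 * ε) (fun _ _ => abs_nonneg _) fun i _ => ?_)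
          (by rw [prod_const]; exact pow_le_pow_of_le_one (by positivity) (by linarith) c3)
        rw [abs_mul, abs_of_pos h0]
        nlinarith [hg (p.1 + i * p.2)]
      have b2 : |(1 : ℝ) + (-1) ^ S.card| ≤ 2 := by
        rcases neg_one_pow_eq_or ℝ S.card with h | h <;> rw [h] <;> norm_num
      have b3 := le_abs_self (((1 : ℝ) + (-1) ^ S.card) *
        ∑ p ∈ A (μ + 2) n, ∏ i ∈ S, (ε * g (p.1 + i * p.2)))
      rw [abs_mul] at b3
      nlinarith [mul_le_mul b2 b1 (abs_nonneg _) (by norm_num)]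
  refine (sum_le_sum e2).trans ?_
  rw [sum_add_distrib, sum_sub_distrib, sum_ite_eq', sum_ite_eq', if_pos (by simp),
    if_pos (by simp [insert_subset_iff]), sum_const, card_powerset, card_range]
  simp

theorem beat (μ ρ : ℕ) (hμ : 1 ≤ μ) : ∃ δ : ℝ, 0 ≤ δ ∧ δ < 1 / (2 * (μ + 1) * (ρ + 2) ^ (μ + 1)) ∧
    ∃ N : ℕ, ∀ n, N ≤ n → ∃ χ : ℕ → Fin (ρ + 2), (M (μ + 2) n χ : ℝ) ≤ δ * n ^ 2 := by
  obtain ⟨W, hW, h⟩ := exists_g μ hμ
  have hW' : (1 : ℝ) ≤ W := by exact_mod_cast hW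
  set K : ℝ := 2 ^ (μ + 2) with hK
  have hK1 : 1 ≤ K := one_le_pow₀ (by norm_num)
  obtain ⟨ε, h0, hε⟩ : ∃ ε : ℝ, 0 < ε ∧ ε * (64 * K * W ^ 2) = 1 :=
    ⟨1 / (64 * K * W ^ 2), by positivity, by field_simp⟩
  have h1 : ε ≤ 1 / 4 := by
    have : 1 ≤ K * W ^ 2 := one_le_mul_of_one_le_of_one_le hK1 (one_le_pow₀ hW')
    nlinarith
  have hr : (0 : ℝ) < (ρ + 2) ^ (μ + 2) := by positivity
  refine ⟨max 0 (((ρ + 2) / (2 * (μ + 1)) - 16 * K * ε ^ 3) / (ρ + 2) ^ (μ + 2)), le_max_left _ _,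
    max_lt (by positivity) ?_, W, fun n hn => ?_⟩
  · rw [div_lt_iff₀ hr]
    have : 1 / (2 * ((μ : ℝ) + 1) * (ρ + 2) ^ (μ + 1)) * (ρ + 2) ^ (μ + 2) =
        (ρ + 2) / (2 * (μ + 1)) := by
      rw [pow_succ _ (μ + 1)]; field_simp
    rw [this]
    have : 0 < 16 * K * ε ^ 3 := by positivity
    linarith
  · obtain ⟨g, g1, g2, g3⟩ := h n
    obtain ⟨χ, hχ⟩ := expand μ ρ n g g1 ε _ h0 h1 g2 g3
    refine ⟨χ, le_trans ?_ (mul_le_mul_of_nonneg_right (le_max_right _ _) (sq_nonneg _))⟩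
    rw [div_mul_eq_mul_div, le_div_iff₀ hr]
    refine hχ.trans ?_
    have a1 := (card_A_bounds (μ + 1) n (by omega)).1
    push_cast at a1
    have a0 : (0 : ℝ) ≤ (A (μ + 2) n).card := Nat.cast_nonneg _
    have a2 : ((A (μ + 2) n).card : ℝ) ≤ n ^ 2 / (2 * (μ + 1)) := by
      rw [le_div_iff₀ (by positivity)]; linarith
    have a3 : ((A (μ + 2) n).card : ℝ) ≤ n ^ 2 := by
      nlinarith [mul_nonneg (Nat.cast_nonneg (α := ℝ) μ) a0]
    have a4 : n ≤ 2 * W * (n / W) := by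
      have := Nat.div_add_mod n W
      have := Nat.mod_lt n hW
      have : 1 ≤ n / W := (Nat.le_div_iff_mul_le hW).2 (by omega)
      nlinarith
    have a5 : (n : ℝ) ≤ 2 * W * (n / W : ℕ) := by exact_mod_cast a4
    have a6 : (n : ℝ) ^ 2 ≤ (2 * W * (n / W : ℕ)) ^ 2 := by gcongr
    have a7 : 32 * K * ε ^ 3 * n ^ 2 ≤ 2 * ε ^ 2 * ((n / W : ℕ) : ℝ) ^ 2 := by
      calc 32 * K * ε ^ 3 * n ^ 2 ≤ 32 * K * ε ^ 3 * (2 * W * (n / W : ℕ)) ^ 2 := by gcongr
        _ = 2 * ε ^ 2 * ((n / W : ℕ) : ℝ) ^ 2 * (ε * (64 * K * W ^ 2)) := by ring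
        _ = _ := by rw [hε, mul_one]
    have a8 : K * (16 * ε ^ 3 * (A (μ + 2) n).card) ≤ K * (16 * ε ^ 3 * n ^ 2) := by gcongr
    have a9 : ((ρ : ℝ) + 2) * (A (μ + 2) n).card ≤ (ρ + 2) * (n ^ 2 / (2 * (μ + 1))) := by gcongr
    have a10 : ((ρ : ℝ) + 2) * (n ^ 2 / (2 * (μ + 1))) = (ρ + 2) / (2 * (μ + 1)) * n ^ 2 := by ring
    nlinarith

theorem main (μ ρ : ℕ) (hμ : 1 ≤ μ) : ∃ δ : ℝ, δ < 1 / (2 * (μ + 1) * (ρ + 2) ^ (μ + 1)) ∧
    ∃ C : ℝ, ∀ n, ∃ χ : ℕ → Fin (ρ + 2), |(M (μ + 2) n χ : ℝ) - δ * n ^ 2| ≤ C * n := by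
  obtain ⟨δ, d0, d1, N, h⟩ := beat μ ρ hμ
  have d2 : δ * (2 * (μ + 1)) ≤ 1 := by
    rw [lt_div_iff₀ (by positivity)] at d1
    have : (1 : ℝ) ≤ (ρ + 2) ^ (μ + 1) := one_le_pow₀ (by linarith [Nat.cast_nonneg (α := ℝ) ρ])
    have : 0 ≤ δ * (2 * (μ + 1)) := by positivity
    nlinarith
  refine ⟨δ, d1, μ + 2 + N, fun n => ?_⟩
  have hM : ∀ χ : ℕ → Fin (ρ + 2), (∀ x, 1 ≤ x → x ≤ n → χ x = 0) →
      |(M (μ + 2) n χ : ℝ) - n ^ 2 / (2 * (μ + 1))| ≤ (n : ℝ) := by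
    intro χ hχ
    have : M (μ + 2) n χ = (A (μ + 2) n).card := by
      unfold M
      rw [filter_true_of_mem]
      intro p hp i hi
      obtain ⟨a1, a2, a3⟩ := (mem_A (by omega)).1 hp
      have : i * p.2 ≤ (μ + 2 - 1) * p.2 :=
        Nat.mul_le_mul_right _ (by have := mem_range.1 hi; omega)
      rw [hχ _ (by omega) (by omega), hχ _ a1 (by omega)]
    rw [this]
    obtain ⟨a1, a2⟩ := card_A_bounds (μ + 1) n (by omega)
    push_cast at a1 a2
    have hn : (0 : ℝ) ≤ n := Nat.cast_nonneg _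
    rw [abs_sub_comm, abs_of_nonneg (by rw [sub_nonneg, le_div_iff₀ (by positivity)]; linarith),
      sub_le_iff_le_add, div_le_iff₀ (by positivity)]
    linarith
  have d3 : δ * n ^ 2 ≤ n ^ 2 / (2 * (μ + 1)) := by
    rw [le_div_iff₀ (by positivity)]
    nlinarith [sq_nonneg (n : ℝ)]
  have hn : (0 : ℝ) ≤ n := Nat.cast_nonneg _
  have hμ' : (0 : ℝ) ≤ μ * n := by positivity
  have hN' : (0 : ℝ) ≤ N * n := by positivity
  by_cases hN : N ≤ n
  · obtain ⟨χ, hχ⟩ := h n hN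
    obtain ⟨t, ht⟩ := ivt (fun t => (M (μ + 2) n (fun x => if 1 ≤ x ∧ x ≤ t then 0 else χ x) : ℝ))
      (δ * n ^ 2) ((μ + 2) * n) n (by
        have : (fun x => if 1 ≤ x ∧ x ≤ 0 then 0 else χ x) = χ := by
          funext x; rw [if_neg (by omega)]
        simp only [this, hχ]) (by
        have := (abs_le.1 (hM (fun x => if 1 ≤ x ∧ x ≤ n then 0 else χ x)
          fun x h1 h2 => if_pos ⟨h1, h2⟩)).1
        nlinarith) (fun t => by
        have := lip (k := μ + 2) (n := n) (fun x => if 1 ≤ x ∧ x ≤ t + 1 then 0 else χ x)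
          (fun x => if 1 ≤ x ∧ x ≤ t then 0 else χ x) (t + 1)
          (fun y hy => if_congr (by omega) rfl rfl) (by omega)
        exact_mod_cast this)
    exact ⟨_, ht.trans (by nlinarith)⟩
  · refine ⟨fun _ => 0, ?_⟩
    have a1 := abs_le.1 (hM (fun _ => 0) fun _ _ _ => rfl)
    have a2 : (n : ℝ) ≤ N := by exact_mod_cast (not_le.1 hN).le
    have a3 : (n : ℝ) ^ 2 / (2 * (μ + 1)) ≤ n ^ 2 :=
      div_le_self (sq_nonneg _) (by linarith [Nat.cast_nonneg (α := ℝ) μ])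
    have a4 : 0 ≤ δ * n ^ 2 := by positivity
    rw [abs_le]
    constructor <;> nlinarith

end Pool.Agent.H3.MonoAP
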