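import Pool.Agent.H3.Rup

set_option autoImplicit false

/-! Abstract setting: `N` is the relation equal-or-adjacent, `dom` the dominating vertex. -/

namespace Pool.Agent.H3.P6

open Pool.Agent.H3.Rup

structure Ctx (V : Type) where
  N : V → V → Prop
  dom : V → V
  refl : ∀ v, N v v
  symm : ∀ u v, N u v → N v u
  d1 : ∀ v, N (dom v) v
  d2 : ∀ u v w, N (dom u) w → N (dom v) w → dom u = dom v
  p6 : ∀ a b c d e f, N a b → N b c → N c d → N d e → N e f →
    N a c ∨ N a d ∨ N a e ∨ N a f ∨ N b d ∨ N b e ∨ N b f ∨ N c e ∨ N c f ∨ N d f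

variable {V : Type} (X : Ctx V)

def Ctx.Far (u v : V) : Prop := ¬ ∃ w, X.N u w ∧ X.N v w

open Classical in
noncomputable def Ctx.conn (u v : V) : V := if h : ∃ w, X.N u w ∧ X.N v w then h.choose else u

theorem Ctx.conn_spec {u v : V} (h : ¬ X.Far u v) : X.N u (X.conn u v) ∧ X.N v (X.conn u v) := by
  have h' : ∃ w, X.N u w ∧ X.N v w := not_not.1 h
  unfold Ctx.conn
  rw [dif_pos h']
  exact h'.choose_spec

def kd (TT x : ℕ) : ℕ := (TT >>> (12 * x)) % 4
def a1 (TT x : ℕ) : ℕ := (TT >>> (12 * x + 2)) % 32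
def a2 (TT x : ℕ) : ℕ := (TT >>> (12 * x + 7)) % 32
def lt (LET i : ℕ) : ℕ := (LET >>> (4 * i)) % 16
def dg (H k : ℕ) : ℕ := (H >>> (3 + 5 * k)) % 32

noncomputable def Ctx.tm (a : ℕ → V) (TT x : ℕ) : V :=
  if kd TT x = 0 then a (a1 TT x) else if kd TT x = 1 then X.conn (a (a1 TT x)) (a (a2 TT x))
  else X.dom (a (a1 TT x))

def ps (M s t : ℕ) : ℕ := 2 ^ (2 * (M * min s t + max s t))
def ng (M s t : ℕ) : ℕ := if s = t then 0 else 2 ^ (2 * (M * min s t + max s t) + 1)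

def rel (M : ℕ) (R : ℕ → ℕ → Prop) (v : ℕ) : Prop := R (v / M) (v % M)

theorem rel_iff {M : ℕ} {R : ℕ → ℕ → Prop} (hs : ∀ s t, R s t → R t s) {s t : ℕ} (h1 : s < M)
    (h2 : t < M) : rel M R (M * min s t + max s t) ↔ R s t := by
  have hm : max s t < M := max_lt h1 h2
  unfold rel
  rw [Nat.mul_add_div (by omega), Nat.div_eq_of_lt hm, Nat.mul_add_mod, Nat.mod_eq_of_lt hm,
    Nat.add_zero]
  rcases le_total s t with h | h
  · rw [min_eq_left h, max_eq_right h]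
  · rw [min_eq_right h, max_eq_left h]; exact ⟨hs _ _, hs _ _⟩

theorem sat_ps {M : ℕ} {R : ℕ → ℕ → Prop} (hs : ∀ s t, R s t → R t s) {s t : ℕ} (h1 : s < M)
    (h2 : t < M) (h : R s t) : Sat (lit (rel M R)) (ps M s t) :=
  sat_pos ((rel_iff hs h1 h2).2 h)

theorem sat_ng {M : ℕ} {R : ℕ → ℕ → Prop} (hs : ∀ s t, R s t → R t s) (hr : ∀ s, R s s) {s t : ℕ}
    (h1 : s < M) (h2 : t < M) (h : ¬ R s t) : Sat (lit (rel M R)) (ng M s t) := by
  unfold ng
  rw [if_neg (by rintro rfl; exact h (hr s))]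
  exact sat_neg fun h' => h ((rel_iff hs h1 h2).1 h')

theorem dg_lt (H k : ℕ) : dg H k < 32 := Nat.mod_lt _ (by norm_num)

def ok1 (L TT FAR LET C H : ℕ) : Bool :=
  if H % 8 = 0 then kd TT (dg H 0) == 0 && kd TT (dg H 1) == 0 && decide (a1 TT (dg H 0) < L) &&
    decide (a1 TT (dg H 1) < L) && FAR.testBit (16 * a1 TT (dg H 0) + a1 TT (dg H 1)) &&
    C == ng 32 (dg H 0) (dg H 2) ||| ng 32 (dg H 1) (dg H 2)
  else if H % 8 = 1 then kd TT (dg H 0) == 1 && kd TT (dg H 1) == 0 &&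
    decide (a1 TT (dg H 0) < L) && decide (a2 TT (dg H 0) < L) &&
    !FAR.testBit (16 * a1 TT (dg H 0) + a2 TT (dg H 0)) &&
    (a1 TT (dg H 1) == a1 TT (dg H 0) || a1 TT (dg H 1) == a2 TT (dg H 0)) &&
    C == ps 32 (dg H 1) (dg H 0)
  else if H % 8 = 2 then kd TT (dg H 0) == 2 && kd TT (dg H 1) == 2 &&
    decide (a1 TT (dg H 0) < L) && decide (a1 TT (dg H 1) < L) &&
    lt LET (a1 TT (dg H 0)) != lt LET (a1 TT (dg H 1)) &&
    C == ng 32 (dg H 0) (dg H 2) ||| ng 32 (dg H 1) (dg H 2)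
  else if H % 8 = 3 then kd TT (dg H 0) == 2 && kd TT (dg H 1) == 0 &&
    decide (a1 TT (dg H 0) < L) && decide (a1 TT (dg H 1) < L) &&
    lt LET (a1 TT (dg H 0)) == lt LET (a1 TT (dg H 1)) && C == ps 32 (dg H 1) (dg H 0)
  else C == ng 32 (dg H 0) (dg H 1) ||| ng 32 (dg H 1) (dg H 2) ||| ng 32 (dg H 2) (dg H 3) |||
    ng 32 (dg H 3) (dg H 4) ||| ng 32 (dg H 4) (dg H 5) ||| ps 32 (dg H 0) (dg H 2) |||
    ps 32 (dg H 0) (dg H 3) ||| ps 32 (dg H 0) (dg H 4) ||| ps 32 (dg H 0) (dg H 5) |||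
    ps 32 (dg H 1) (dg H 3) ||| ps 32 (dg H 1) (dg H 4) ||| ps 32 (dg H 1) (dg H 5) |||
    ps 32 (dg H 2) (dg H 4) ||| ps 32 (dg H 2) (dg H 5) ||| ps 32 (dg H 3) (dg H 5)

/-- The far pairs among `a 0, …, a (L-1)` are those listed in `FAR`. -/
def Ctx.Shape (a : ℕ → V) (L FAR : ℕ) : Prop :=
  ∀ i < L, ∀ j < L, (X.Far (a i) (a j) ↔ FAR.testBit (16 * i + j) = true)

/-- The configuration with far pairs `FAR` and dominator pattern `LET` does not occur. -/
def Ctx.Pat (L FAR LET : ℕ) : Prop :=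
  ∀ a : ℕ → V, X.Shape a L FAR →
    (∀ i < L, ∀ j < L, (X.dom (a i) = X.dom (a j) ↔ lt LET i = lt LET j)) → False

theorem lvl1 (db : T) (n L TT FAR LET : ℕ)
    (h : allR (chk db (ok1 L TT FAR LET)) (n + 1) 10 0 = true) (hn : n < 1024)
    (h0 : getC db n >>> 32 = 0) : X.Pat L FAR LET := by
  intro a hf hl
  let R : ℕ → ℕ → Prop := fun s t => X.N (X.tm a TT s) (X.tm a TT t)
  have hs : ∀ s t, R s t → R t s := fun s t => X.symm _ _
  have hr : ∀ s, R s s := fun s => X.refl _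
  have sp : ∀ H i j, R (dg H i) (dg H j) → Sat (lit (rel 32 R)) (ps 32 (dg H i) (dg H j)) :=
    fun H i j => sat_ps hs (dg_lt _ _) (dg_lt _ _)
  have sn : ∀ H i j, ¬ R (dg H i) (dg H j) → Sat (lit (rel 32 R)) (ng 32 (dg H i) (dg H j)) :=
    fun H i j => sat_ng hs hr (dg_lt _ _) (dg_lt _ _)
  refine refute db (ok1 L TT FAR LET) (rel 32 R) ?_ n
    (fun i hi => allR_sound _ _ _ _ h i (by omega) (by omega) hi) h0
  intro C H hok
  unfold ok1 at hok
  split_ifs at hok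
  · simp only [Bool.and_eq_true, beq_iff_eq, decide_eq_true_eq] at hok
    obtain ⟨⟨⟨⟨⟨k0, k1⟩, l0⟩, l1⟩, hF⟩, rfl⟩ := hok
    have hF' := (hf _ l0 _ l1).2 hF
    by_cases c : R (dg H 0) (dg H 2)
    · refine Sat.right _ (sn H 1 2 fun c' => hF' ⟨X.tm a TT (dg H 2), ?_, ?_⟩)
      · simpa only [R, Ctx.tm, if_pos k0] using c
      · simpa only [R, Ctx.tm, if_pos k1] using c'
    · exact Sat.left _ (sn H 0 2 c)
  · simp only [Bool.and_eq_true, beq_iff_eq, decide_eq_true_eq, Bool.or_eq_true,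
      Bool.not_eq_true'] at hok
    obtain ⟨⟨⟨⟨⟨⟨k0, k1⟩, l0⟩, l1⟩, hF⟩, he⟩, rfl⟩ := hok
    have hF' := X.conn_spec (u := a (a1 TT (dg H 0))) (v := a (a2 TT (dg H 0)))
      (fun c => by rw [(hf _ l0 _ l1).1 c] at hF; exact absurd hF (by simp))
    refine sp H 1 0 ?_
    have e0 : X.tm a TT (dg H 0) = X.conn (a (a1 TT (dg H 0))) (a (a2 TT (dg H 0))) := by
      unfold Ctx.tm; rw [if_neg (by omega), if_pos k0]
    have e1 : X.tm a TT (dg H 1) = a (a1 TT (dg H 1)) := by unfold Ctx.tm; rw [if_pos k1]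
    change X.N _ _
    rw [e0, e1]
    rcases he with he | he <;> rw [he]
    exacts [hF'.1, hF'.2]
  · simp only [Bool.and_eq_true, beq_iff_eq, decide_eq_true_eq, bne_iff_ne] at hok
    obtain ⟨⟨⟨⟨⟨k0, k1⟩, l0⟩, l1⟩, hF⟩, rfl⟩ := hok
    have e0 : X.tm a TT (dg H 0) = X.dom (a (a1 TT (dg H 0))) := by
      unfold Ctx.tm; rw [if_neg (by omega), if_neg (by omega)]
    have e1 : X.tm a TT (dg H 1) = X.dom (a (a1 TT (dg H 1))) := by
      unfold Ctx.tm; rw [if_neg (by omega), if_neg (by omega)]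
    by_cases c : R (dg H 0) (dg H 2)
    · refine Sat.right _ (sn H 1 2 fun c' => hF ((hl _ l0 _ l1).1
        (X.d2 _ _ (X.tm a TT (dg H 2)) ?_ ?_)))
      · rw [← e0]; exact c
      · rw [← e1]; exact c'
    · exact Sat.left _ (sn H 0 2 c)
  · simp only [Bool.and_eq_true, beq_iff_eq, decide_eq_true_eq] at hok
    obtain ⟨⟨⟨⟨⟨k0, k1⟩, l0⟩, l1⟩, hF⟩, rfl⟩ := hok
    have e0 : X.tm a TT (dg H 0) = X.dom (a (a1 TT (dg H 0))) := by
      unfold Ctx.tm; rw [if_neg (by omega), if_neg (by omega)]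
    have e1 : X.tm a TT (dg H 1) = a (a1 TT (dg H 1)) := by unfold Ctx.tm; rw [if_pos k1]
    refine sp H 1 0 ?_
    change X.N _ _
    rw [e0, e1, (hl _ l0 _ l1).2 hF]
    exact X.symm _ _ (X.d1 _)
  · rw [beq_iff_eq] at hok
    subst hok
    by_cases c0 : R (dg H 0) (dg H 1)
    swap
    · have := sn H 0 1 c0
      iterate 14 apply Sat.left
      exact this
    by_cases c1 : R (dg H 1) (dg H 2)
    swap
    · have := sn H 1 2 c1
      iterate 13 apply Sat.left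
      exact Sat.right _ this
    by_cases c2 : R (dg H 2) (dg H 3)
    swap
    · have := sn H 2 3 c2
      iterate 12 apply Sat.left
      exact Sat.right _ this
    by_cases c3 : R (dg H 3) (dg H 4)
    swap
    · have := sn H 3 4 c3
      iterate 11 apply Sat.left
      exact Sat.right _ this
    by_cases c4 : R (dg H 4) (dg H 5)
    swap
    · have := sn H 4 5 c4
      iterate 10 apply Sat.left
      exact Sat.right _ this
    rcases X.p6 _ _ _ _ _ _ c0 c1 c2 c3 c4 with c | c | c | c | c | c | c | c | c | c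
    · iterate 9 apply Sat.left
      exact Sat.right _ (sp H 0 2 c)
    · iterate 8 apply Sat.left
      exact Sat.right _ (sp H 0 3 c)
    · iterate 7 apply Sat.left
      exact Sat.right _ (sp H 0 4 c)
    · iterate 6 apply Sat.left
      exact Sat.right _ (sp H 0 5 c)
    · iterate 5 apply Sat.left
      exact Sat.right _ (sp H 1 3 c)
    · iterate 4 apply Sat.left
      exact Sat.right _ (sp H 1 4 c)
    · iterate 3 apply Sat.left
      exact Sat.right _ (sp H 1 5 c)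
    · iterate 2 apply Sat.left
      exact Sat.right _ (sp H 2 4 c)
    · exact Sat.left _ (Sat.right _ (sp H 2 5 c))
    · exact Sat.right _ (sp H 3 5 c)

def orL (f : ℕ → ℕ) : ℕ → ℕ
  | 0 => 0
  | n + 1 => f n ||| orL f n

theorem sat_orL {tr : ℕ → Prop} (f : ℕ → ℕ) (n i : ℕ) (hi : i < n) (h : Sat tr (f i)) :
    Sat tr (orL f n) := by
  induction n with
  | zero => omega
  | succ n ih =>
    by_cases e : i = n
    · subst e; exact Sat.left _ h
    · exact Sat.right _ (ih (by omega))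

def ok2 (pt : ℕ → ℕ × ℕ × ℕ) (n FAR : ℕ) (EX : List ℕ) (C H : ℕ) : Bool :=
  if H % 8 = 0 then decide (dg H 0 < 16) && decide (dg H 1 < 16) && decide (dg H 2 < 16) &&
    C == ng 16 (dg H 0) (dg H 1) ||| ng 16 (dg H 1) (dg H 2) ||| ps 16 (dg H 0) (dg H 2)
  else if H % 8 = 1 then decide (dg H 0 < n) && decide (dg H 1 < n) &&
    FAR.testBit (16 * dg H 0 + dg H 1) && C == ng 16 (dg H 0) (dg H 1)
  else if H % 8 = 2 then decide (∀ i < (pt (dg H 0)).1, dg H (i + 1) < n) &&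
    decide (∀ i < (pt (dg H 0)).1, ∀ j < (pt (dg H 0)).1,
      FAR.testBit (16 * dg H (i + 1) + dg H (j + 1)) = (pt (dg H 0)).2.1.testBit (16 * i + j)) &&
    C == orL (fun i => orL (fun j => if lt (pt (dg H 0)).2.2 i = lt (pt (dg H 0)).2.2 j then
      ng 16 (dg H (i + 1)) (dg H (j + 1)) else ps 16 (dg H (i + 1)) (dg H (j + 1)))
      (pt (dg H 0)).1) (pt (dg H 0)).1
  else decide (C ∈ EX)

def Ctx.E (b : ℕ → V) (s t : ℕ) : Prop := X.dom (b s) = X.dom (b t)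

theorem Ctx.sp (b : ℕ → V) (s t : ℕ) (h : X.dom (b s) = X.dom (b t)) (h1 : s < 16)
    (h2 : t < 16) : Sat (lit (rel 16 (X.E b))) (ps 16 s t) :=
  sat_ps (fun _ _ => Eq.symm) h1 h2 h

theorem Ctx.sn (b : ℕ → V) (s t : ℕ) (h : X.dom (b s) ≠ X.dom (b t)) (h1 : s < 16)
    (h2 : t < 16) : Sat (lit (rel 16 (X.E b))) (ng 16 s t) :=
  sat_ng (fun _ _ => Eq.symm) (fun _ => rfl) h1 h2 h

theorem Ctx.far_ne {u v : V} (h : X.Far u v) : X.dom u ≠ X.dom v := fun e =>
  h ⟨X.dom u, X.symm _ _ (X.d1 _), e ▸ X.symm _ _ (X.d1 _)⟩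

theorem lvl2 (pt : ℕ → ℕ × ℕ × ℕ) (hp : ∀ p, X.Pat (pt p).1 (pt p).2.1 (pt p).2.2) (db : T)
    (m n FAR : ℕ) (EX : List ℕ) (h : allR (chk db (ok2 pt n FAR EX)) (m + 1) 10 0 = true)
    (hm : m < 1024) (hn : n ≤ 16) (h0 : getC db m >>> 32 = 0) (b : ℕ → V) (hb : X.Shape b n FAR)
    (hx : ∀ C ∈ EX, Sat (lit (rel 16 (X.E b))) C) : False := by
  refine refute db (ok2 pt n FAR EX) (rel 16 (X.E b)) ?_ m
    (fun i hi => allR_sound _ _ _ _ h i (by omega) (by omega) hi) h0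
  intro C H hok
  unfold ok2 at hok
  split_ifs at hok
  · simp only [Bool.and_eq_true, beq_iff_eq, decide_eq_true_eq] at hok
    obtain ⟨⟨⟨l0, l1⟩, l2⟩, rfl⟩ := hok
    by_cases c0 : X.dom (b (dg H 0)) = X.dom (b (dg H 1))
    · by_cases c1 : X.dom (b (dg H 1)) = X.dom (b (dg H 2))
      · exact Sat.right _ (X.sp b _ _ (c0.trans c1) l0 l2)
      · exact Sat.left _ (Sat.right _ (X.sn b _ _ c1 l1 l2))
    · exact Sat.left _ (Sat.left _ (X.sn b _ _ c0 l0 l1))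
  · simp only [Bool.and_eq_true, beq_iff_eq, decide_eq_true_eq] at hok
    obtain ⟨⟨⟨l0, l1⟩, hF⟩, rfl⟩ := hok
    exact X.sn b _ _ (X.far_ne ((hb _ l0 _ l1).2 hF)) (by omega) (by omega)
  · simp only [Bool.and_eq_true, beq_iff_eq, decide_eq_true_eq] at hok
    obtain ⟨⟨l0, hF⟩, rfl⟩ := hok
    by_contra hc
    refine hp (dg H 0) (fun i => b (dg H (i + 1))) (fun i hi j hj => ?_) (fun i hi j hj => ?_)
    · rw [← hF i hi j hj]; exact hb _ (l0 i hi) _ (l0 j hj)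
    · have := l0 i hi
      have := l0 j hj
      constructor
      · intro e
        by_contra ne
        exact hc (sat_orL _ _ i hi (sat_orL _ _ j hj (by
          rw [if_neg ne]; exact X.sp b _ _ e (by omega) (by omega))))
      · intro e
        by_contra ne
        exact hc (sat_orL _ _ i hi (sat_orL _ _ j hj (by
          rw [if_pos e]; exact X.sn b _ _ ne (by omega) (by omega))))
  · exact hx C (by simpa using hok)

end Pool.Agent.H3.P6
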