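import Pool.Agent.H3.P6Data

set_option autoImplicit false

namespace Pool.Agent.H3.P6

open Pool.Agent.H3.Rup

variable {V : Type} (X : Ctx V)

/-- `a` runs periodically around a cycle of length `k` of far pairs. -/
def Ctx.Cyc (k : ℕ) (a : ℕ → V) : Prop :=
  ∀ m n, X.Far (a m) (a n) ↔ ((m + 1) % k = n % k ∨ (n + 1) % k = m % k)

theorem Ctx.Cyc.shift {k : ℕ} {a : ℕ → V} (h : X.Cyc k a) (s : ℕ) : X.Cyc k fun n => a (n + s) := by
  intro m n
  rw [h]
  have e : ∀ x y : ℕ, (x + s + 1) % k = (y + s) % k ↔ (x + 1) % k = y % k := fun x y => by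
    rw [show x + s + 1 = x + 1 + s by ring]
    exact ⟨Nat.ModEq.add_right_cancel' s, Nat.ModEq.add_right s⟩
  rw [e, e]

theorem Ctx.Cyc.lt {k : ℕ} {a : ℕ → V} (h : X.Cyc k a) {m n : ℕ} (hm : m < k) (hn : n < k) :
    X.Far (a m) (a n) ↔ (m + 1 = n ∨ n + 1 = m ∨ m + 1 = n + k ∨ n + 1 = m + k) := by
  rw [h, Nat.mod_eq_of_lt hm, Nat.mod_eq_of_lt hn]
  have e : ∀ x y : ℕ, x < k → y < k → ((x + 1) % k = y ↔ (x + 1 = y ∨ x + 1 = y + k)) := by
    intro x y hx hy
    rcases Nat.lt_or_ge (x + 1) k with c | c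
    · rw [Nat.mod_eq_of_lt c]; omega
    · rw [show x + 1 = k by omega, Nat.mod_self]; omega
  rw [e _ _ hm hn, e _ _ hn hm]
  tauto

theorem shape_of {k : ℕ} {a : ℕ → V} (h : X.Cyc k a) (σ : ℕ → ℕ) (n FAR : ℕ)
    (h1 : ∀ i < n, σ i < k)
    (h2 : ∀ i < n, ∀ j < n, ((σ i + 1 = σ j ∨ σ j + 1 = σ i ∨ σ i + 1 = σ j + k ∨
      σ j + 1 = σ i + k) ↔ FAR.testBit (16 * i + j) = true)) :
    X.Shape (fun i => a (σ i)) n FAR := fun i hi j hj =>
  (h.lt X (h1 i hi) (h1 j hj)).trans (h2 i hi j hj)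

theorem small {k : ℕ} {a : ℕ → V} (h : X.Cyc k a) (hk : k = 5 ∨ k = 7 ∨ k = 9 ∨ k = 11) :
    False := by
  rcases hk with rfl | rfl | rfl | rfl
  · exact noc5 X _ (shape_of X h id _ _ (fun _ h => h) (by decide)) (by simp)
  · exact noc7 X _ (shape_of X h id _ _ (fun _ h => h) (by decide)) (by simp)
  · exact noc9 X _ (shape_of X h id _ _ (fun _ h => h) (by decide)) (by simp)
  · exact noc11 X _ (shape_of X h id _ _ (fun _ h => h) (by decide)) (by simp)

def s7 (t u i : ℕ) : ℕ := if i < 3 then i else if i < 5 then t + (i - 3) else u + (i - 5)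

def s11 (k i : ℕ) : ℕ := if i < 4 then k - 4 + i else i - 4

theorem M1 {k : ℕ} {a : ℕ → V} (h : X.Cyc k a) (h0 : X.dom (a 0) ≠ X.dom (a 2)) {t u : ℕ}
    (ht : 4 ≤ t) (ht' : t + 3 ≤ k) (hu : 4 ≤ u) (hu' : u + 3 ≤ k) (htu : t + 3 ≤ u ∨ u + 3 ≤ t)
    (hB : X.dom (a 1) = X.dom (a t) ∨ X.dom (a 1) = X.dom (a (t + 1))) :
    X.dom (a 1) = X.dom (a u) ∨ X.dom (a 1) = X.dom (a (u + 1)) := by
  by_contra hc
  push Not at hc
  refine noM1 X _ (shape_of X h (s7 t u) _ _ ?_ ?_) ?_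
  · intro i hi
    unfold s7
    split_ifs <;> omega
  · intro i hi j hj
    have : ∀ i < 7, ∀ j < 7, (Nat.testBit 0x20004000080010000200050002 (16 * i + j) = true ↔
      ((i + 1 = j ∧ i ≠ 2 ∧ i ≠ 4) ∨ (j + 1 = i ∧ j ≠ 2 ∧ j ≠ 4))) := by decide
    rw [this i hi j hj]
    unfold s7
    split_ifs <;> omega
  · simp only [List.mem_cons, List.not_mem_nil, or_false, forall_eq_or_imp, forall_eq]
    refine ⟨X.sn _ 0 2 h0 (by omega) (by omega), ?_, X.sn _ 1 5 hc.1 (by omega) (by omega),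
      X.sn _ 1 6 hc.2 (by omega) (by omega)⟩
    rcases hB with e | e
    · exact Sat.left _ (X.sp _ 1 3 e (by omega) (by omega))
    · exact Sat.right _ (X.sp _ 1 4 e (by omega) (by omega))

theorem M2 {k : ℕ} {a : ℕ → V} (h : X.Cyc k a) (h0 : X.dom (a 0) ≠ X.dom (a 2)) {t : ℕ}
    (ht : 4 ≤ t) (ht' : t + 3 ≤ k)
    (hB : ¬ (X.dom (a 1) = X.dom (a t) ∨ X.dom (a 1) = X.dom (a (t + 1)))) :
    X.dom (a 0) = X.dom (a t) ∨ X.dom (a 0) = X.dom (a (t + 1)) := by
  by_contra hc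
  push Not at hc hB
  refine noM2 X _ (shape_of X h (s7 t 0) _ _ ?_ ?_) ?_
  · intro i hi
    unfold s7
    split_ifs <;> omega
  · intro i hi j hj
    have : ∀ i < 5, ∀ j < 5, (Nat.testBit 0x80010000200050002 (16 * i + j) = true ↔
      ((i + 1 = j ∧ i ≠ 2 ∧ i ≠ 4) ∨ (j + 1 = i ∧ j ≠ 2 ∧ j ≠ 4))) := by decide
    rw [this i hi j hj]
    unfold s7
    split_ifs <;> omega
  · simp only [List.mem_cons, List.not_mem_nil, or_false, forall_eq_or_imp, forall_eq]
    exact ⟨X.sn _ 0 2 h0 (by omega) (by omega), X.sn _ 1 3 hB.1 (by omega) (by omega),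
      X.sn _ 1 4 hB.2 (by omega) (by omega), X.sn _ 0 3 hc.1 (by omega) (by omega),
      X.sn _ 0 4 hc.2 (by omega) (by omega)⟩

theorem alt {k : ℕ} {a : ℕ → V} (h : X.Cyc k a) (hk : 13 ≤ k) (ho : Odd k) (x : V)
    (hx : ∀ t, 4 ≤ t → t + 3 ≤ k → x = X.dom (a t) ∨ x = X.dom (a (t + 1))) :
    (x = X.dom (a 4) ↔ x ≠ X.dom (a (k - 2))) := by
  have st : ∀ t, 4 ≤ t → t + 3 ≤ k → (x = X.dom (a (t + 1)) ↔ x ≠ X.dom (a t)) := by
    intro t h1 h2
    have := X.far_ne ((h.lt X (show t < k by omega) (show t + 1 < k by omega)).2 (Or.inl rfl))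
    constructor
    · intro e e'; exact this (e'.symm.trans e)
    · intro e; exact (hx t h1 h2).resolve_left e
  have : ∀ j, 4 + 2 * j + 2 ≤ k → (x = X.dom (a 4) ↔ x = X.dom (a (4 + 2 * j))) := by
    intro j
    induction j with
    | zero => intro _; rfl
    | succ j ih =>
      intro hj
      rw [ih (by omega), show 4 + 2 * (j + 1) = 4 + 2 * j + 1 + 1 by ring,
        st _ (by omega) (by omega), Ne, st _ (by omega) (by omega), not_not]
  obtain ⟨m, hm⟩ := ho
  rw [this (m - 3) (by omega), show k - 2 = 4 + 2 * (m - 3) + 1 by omega, Ne,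
    st _ (by omega) (by omega), not_not]

theorem large {k : ℕ} {a : ℕ → V} (h : X.Cyc k a) (hk : 13 ≤ k) (ho : Odd k)
    (h0 : X.dom (a 0) ≠ X.dom (a 2)) : False := by
  have key : X.dom (a (k - 2)) ≠ X.dom (a 4) ∧ (X.dom (a 1) = X.dom (a 4) ∨
      X.dom (a (k - 2)) = X.dom (a 1) ∨ X.dom (a 1) ≠ X.dom (a 5)) := by
    by_cases hB : X.dom (a 1) = X.dom (a 4) ∨ X.dom (a 1) = X.dom (a (4 + 1))
    · have := alt X h hk ho (X.dom (a 1)) fun t h1 h2 => by
        rcases Nat.lt_or_ge t 7 with c | c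
        · exact M1 X h h0 (t := k - 3) (by omega) (by omega) h1 h2 (by omega)
            (M1 X h h0 le_rfl (by omega) (by omega) (by omega) (by omega) hB)
        · exact M1 X h h0 le_rfl (by omega) h1 h2 (by omega) hB
      by_cases e : X.dom (a 1) = X.dom (a 4)
      · exact ⟨fun e' => this.1 e (e.trans e'.symm), Or.inl e⟩
      · have e2 : X.dom (a 1) = X.dom (a (k - 2)) := by
          by_contra e3; exact e (this.2 e3)
        exact ⟨fun e' => e (e2.trans e'), Or.inr (Or.inl e2.symm)⟩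
    · have := alt X h hk ho (X.dom (a 0)) fun t h1 h2 => M2 X h h0 h1 h2 fun hB' => hB (by
        rcases Nat.lt_or_ge t 7 with c | c
        · exact M1 X h h0 (t := k - 3) (by omega) (by omega) le_rfl (by omega) (by omega)
            (M1 X h h0 h1 h2 (by omega) (by omega) (by omega) hB')
        · exact M1 X h h0 h1 h2 le_rfl (by omega) (by omega) hB')
      refine ⟨fun e => ?_, Or.inr (Or.inr fun e => hB (Or.inr e))⟩
      rw [e] at this
      tauto
  refine noW X _ (shape_of X h (s11 k) _ _ ?_ ?_) ?_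
  · intro i hi
    unfold s11
    split_ifs <;> omega
  · intro i hi j hj
    have : ∀ i < 11, ∀ j < 11, (Nat.testBit 0x20005000280014000a0005000280014000a00050002
      (16 * i + j) = true ↔ (i + 1 = j ∨ j + 1 = i)) := by decide
    rw [this i hi j hj]
    unfold s11
    split_ifs <;> omega
  · simp only [List.mem_cons, List.not_mem_nil, or_false, forall_eq_or_imp, forall_eq]
    have e2 : s11 k 2 = k - 2 := by simp only [s11]; norm_num; omega
    refine ⟨X.sn _ 4 6 h0 (by omega) (by omega),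
      X.sn _ 2 8 (by rw [e2]; exact key.1) (by omega) (by omega), ?_⟩
    rcases key.2 with e | e | e
    · exact Sat.left _ (Sat.left _ (X.sp _ 5 8 e (by omega) (by omega)))
    · exact Sat.left _ (Sat.right _ (X.sp _ 2 5 (by rw [e2]; exact e) (by omega) (by omega)))
    · exact Sat.right _ (X.sn _ 5 9 e (by omega) (by omega))

theorem main {k : ℕ} {a : ℕ → V} (h : X.Cyc k a) (hk : 5 ≤ k) (ho : Odd k)
    (hp : ∀ n, a (n + k) = a n) : False := by
  rcases Nat.lt_or_ge k 13 with c | c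
  · obtain ⟨m, hm⟩ := ho
    exact small X h (by omega)
  by_cases hf : ∃ s, X.dom (a s) ≠ X.dom (a (2 + s))
  · obtain ⟨s, hs⟩ := hf
    exact large X (h.shift X s) c ho (by simpa using hs)
  · push Not at hf
    have : ∀ j, X.dom (a 0) = X.dom (a (2 * j)) := by
      intro j
      induction j with
      | zero => rfl
      | succ j ih => rw [ih, hf, show 2 + 2 * j = 2 * (j + 1) by ring]
    obtain ⟨m, hm⟩ := ho
    have e := this (m + 1)
    rw [show 2 * (m + 1) = 1 + k by omega, hp] at e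
    exact X.far_ne ((h.lt X (show 0 < k by omega) (show 1 < k by omega)).2 (Or.inl rfl)) e

end Pool.Agent.H3.P6
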