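import Mathlib

set_option autoImplicit false

namespace Pool.Agent.H3.PST

open Matrix

variable {V : Type} [Fintype V] [DecidableEq V]

theorem hasSum_exp (A : Matrix V V ℂ) (c : ℂ) :
    HasSum (fun m : ℕ => (c ^ m / (m.factorial : ℂ)) • A ^ m) (NormedSpace.exp (c • A)) := by
  open scoped Matrix.Norms.Operator in
  have h := NormedSpace.exp_series_hasSum_exp' (𝕂 := ℂ) (c • A)
  have e : (fun m : ℕ => (c ^ m / (m.factorial : ℂ)) • A ^ m) =
      fun m : ℕ => ((m.factorial : ℂ))⁻¹ • (c • A) ^ m := by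
    funext m
    rw [smul_pow, smul_smul]
    congr 1
    field_simp
  rw [e]
  exact h

theorem tsum_entry (A : Matrix V V ℂ) (c : ℂ) (u v : V) :
    ∑' m : ℕ, (c ^ m / (m.factorial : ℂ)) * (A ^ m) u v = NormedSpace.exp (c • A) u v := by
  have h := hasSum_exp A c
  have h2 := Pi.hasSum.1 (Pi.hasSum.1 h u) v
  exact h2.tsum_eq

theorem exp_eigen (A : Matrix V V ℂ) (c θ : ℂ) (y : V → ℂ) (h : A *ᵥ y = θ • y) :
    NormedSpace.exp (c • A) *ᵥ y = Complex.exp (c * θ) • y := by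
  have hp : ∀ m : ℕ, (A ^ m) *ᵥ y = θ ^ m • y := by
    intro m
    induction m with
    | zero => simp
    | succ m ih => rw [pow_succ', ← mulVec_mulVec, ih, mulVec_smul, h, smul_smul, pow_succ]
  let L : Matrix V V ℂ →ₗ[ℂ] (V → ℂ) :=
    { toFun := fun M => M *ᵥ y
      map_add' := fun a b => add_mulVec a b y
      map_smul' := fun r a => smul_mulVec r a y }
  have hL : Continuous L := L.continuous_of_finiteDimensional
  have h1 := (hasSum_exp A c).map L.toAddMonoidHom hL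
  have h2 : HasSum (fun m : ℕ => ((c * θ) ^ m / (m.factorial : ℂ)) • y)
      (Complex.exp (c * θ) • y) := by
    apply HasSum.smul_const
    rw [Complex.exp_eq_exp_ℂ]
    exact NormedSpace.expSeries_div_hasSum_exp (c * θ)
  refine h1.unique ?_
  convert h2 using 2 with m
  show ((c ^ m / (m.factorial : ℂ)) • A ^ m) *ᵥ y = _
  rw [smul_mulVec, hp, smul_smul, mul_pow]
  congr 1
  ring

/-- Span of the eigenvectors whose eigenvalue satisfies `P`. -/
def ES (A : Matrix V V ℂ) (P : ℂ → Prop) : Submodule ℂ (V → ℂ) :=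
  Submodule.span ℂ {y | ∃ θ, P θ ∧ A *ᵥ y = θ • y}

theorem ES_mono (A : Matrix V V ℂ) {P Q : ℂ → Prop} (h : ∀ θ, P θ → Q θ) : ES A P ≤ ES A Q :=
  Submodule.span_mono fun _ ⟨θ, h1, h2⟩ => ⟨θ, h θ h1, h2⟩

theorem ES_exp (A : Matrix V V ℂ) (P : ℂ → Prop) (c γ : ℂ)
    (h : ∀ θ, P θ → Complex.exp (c * θ) = γ) (y : V → ℂ) (hy : y ∈ ES A P) :
    NormedSpace.exp (c • A) *ᵥ y = γ • y := by
  induction hy using Submodule.span_induction with
  | mem y hy =>
    obtain ⟨θ, h1, h2⟩ := hy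
    rw [exp_eigen A c θ y h2, h θ h1]
  | zero => simp
  | add a b _ _ ha hb => rw [mulVec_add, ha, hb, smul_add]
  | smul r a _ ha => rw [mulVec_smul, ha, smul_comm]

theorem ES_solve (A : Matrix V V ℂ) (P : ℂ → Prop) (μ : ℂ) (hμ : ¬ P μ) (w : V → ℂ)
    (hw : w ∈ ES A P) : ∃ w' ∈ ES A P, A *ᵥ w' - μ • w' = w := by
  induction hw using Submodule.span_induction with
  | mem y hy =>
    obtain ⟨θ, h1, h2⟩ := hy
    have hne : θ - μ ≠ 0 := fun h => hμ (by rw [← sub_eq_zero.1 h]; exact h1)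
    refine ⟨(θ - μ)⁻¹ • y, Submodule.smul_mem _ _ (Submodule.subset_span ⟨θ, h1, h2⟩), ?_⟩
    rw [mulVec_smul, h2, smul_smul, smul_smul, ← sub_smul, mul_comm μ, ← mul_sub,
      inv_mul_cancel₀ hne, one_smul]
  | zero => exact ⟨0, Submodule.zero_mem _, by simp⟩
  | add a b _ _ ha hb =>
    obtain ⟨a', h1, h2⟩ := ha
    obtain ⟨b', h3, h4⟩ := hb
    refine ⟨a' + b', Submodule.add_mem _ h1 h3, ?_⟩
    rw [← h2, ← h4, mulVec_add, smul_add]
    abel
  | smul r a _ ha =>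
    obtain ⟨a', h1, h2⟩ := ha
    refine ⟨r • a', Submodule.smul_mem _ _ h1, ?_⟩
    rw [← h2, mulVec_smul, smul_sub, smul_comm]

theorem ES_lift (A : Matrix V V ℂ) (P : ℂ → Prop) (μ : ℂ) (hμ : ¬ P μ) (y : V → ℂ)
    (hy : A *ᵥ y - μ • y ∈ ES A P) : y ∈ ES A (fun θ => P θ ∨ θ = μ) := by
  obtain ⟨w', h1, h2⟩ := ES_solve A P μ hμ _ hy
  have e : y = w' + (y - w') := by abel
  rw [e]
  refine Submodule.add_mem _ (ES_mono A (fun θ h => Or.inl h) h1)
    (Submodule.subset_span ⟨μ, Or.inr rfl, ?_⟩)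
  rw [mulVec_sub, smul_sub, sub_eq_sub_iff_sub_eq_sub, h2]

theorem ES_lift2 (A : Matrix V V ℂ) (P : ℂ → Prop) (μ : ℂ) (h0 : μ ≠ 0) (h1 : ¬ P μ)
    (h2 : ¬ P (-μ)) (y : V → ℂ) (hy : A *ᵥ (A *ᵥ y) - (μ ^ 2) • y ∈ ES A P) :
    y ∈ ES A (fun θ => P θ ∨ θ = μ ∨ θ = -μ) := by
  have a1 : A *ᵥ y - (-μ) • y ∈ ES A (fun θ => P θ ∨ θ = μ) := by
    apply ES_lift A P μ h1
    convert hy using 1
    rw [mulVec_sub, mulVec_smul]
    module
  have a2 := ES_lift A (fun θ => P θ ∨ θ = μ) (-μ) (by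
    rintro (h | h)
    · exact h2 h
    · exact h0 (by linear_combination (-1 / 2 : ℂ) * h)) y a1
  exact ES_mono A (fun θ h => or_assoc.1 h) a2

/-- From the symmetric and antisymmetric parts to the transfer. -/
theorem transfer (U : Matrix V V ℂ) (u v : V) (γ : ℂ)
    (h1 : U *ᵥ (Pi.single u 1 + Pi.single v 1) = γ • (Pi.single u 1 + Pi.single v 1 : V → ℂ))
    (h2 : U *ᵥ (Pi.single u 1 - Pi.single v 1) = (-γ) • (Pi.single u 1 - Pi.single v 1 : V → ℂ)) :
    U *ᵥ (Pi.single u 1) = Pi.single v γ := by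
  have e : (Pi.single u 1 : V → ℂ) = (1 / 2 : ℂ) •
      ((Pi.single u 1 + Pi.single v 1 : V → ℂ) + (Pi.single u 1 - Pi.single v 1)) := by
    module
  have e2 : (Pi.single v γ : V → ℂ) = γ • (Pi.single v 1 : V → ℂ) := by
    rw [← Pi.single_smul]; simp
  rw [e, mulVec_smul, mulVec_add, h1, h2, e2]
  module

omit [DecidableEq V] in
theorem le_diam (G : SimpleGraph V) (hG : G.Connected) (ρ : V → ℕ)
    (h : ∀ a b, G.Adj a b → ρ b ≤ ρ a + 1) (a b : V) : ρ b ≤ ρ a + G.diam := by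
  have lb : ∀ (a b : V) (p : G.Walk a b), ρ b ≤ ρ a + p.length := by
    intro a b p
    induction p with
    | nil => simp
    | cons h' p ih =>
      have := h _ _ h'
      simp only [SimpleGraph.Walk.length_cons]
      omega
  obtain ⟨p, hp⟩ := hG.exists_walk_length_eq_dist a b
  have h1 := lb a b p
  have h2 : G.dist a b ≤ G.diam := by
    have : Nonempty V := ⟨a⟩
    exact G.dist_le_diam (SimpleGraph.connected_iff_ediam_ne_top.1 hG)
  omega

/-- Transport of the transfer along a bijection of vertex sets. -/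
theorem exp_comap {W : Type} [Fintype W] [DecidableEq W] (e : W ≃ V) (G : SimpleGraph V)
    [DecidableRel G.Adj] [DecidableRel (G.comap e).Adj] (c : ℂ) (a b : W) :
    NormedSpace.exp (c • (G.comap e).adjMatrix ℂ) a b =
      NormedSpace.exp (c • G.adjMatrix ℂ) (e a) (e b) := by
  rw [← tsum_entry, ← tsum_entry]
  congr 1
  funext m
  congr 1
  have h : (G.comap e).adjMatrix ℂ = Matrix.reindexAlgEquiv ℂ ℂ e.symm (G.adjMatrix ℂ) := by
    ext i j
    simp [SimpleGraph.adjMatrix_apply]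
  rw [h, ← map_pow]
  simp

end Pool.Agent.H3.PST
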