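import Mathlib

set_option autoImplicit false

/-! Evaluation of the edge-subset expansion `∑_A v^|A| x^c(A)` of a small graph. -/

namespace Pool.Agent.H3.Potts

open Finset

def upd {β : Type} (L : ℕ → β) (j : ℕ) (s : β) : ℕ → β := fun i => if i = j then s else L i

section ring
variable {α : Type} [CommRing α]

def wt (y d : α) (L : ℕ → ℕ) (nb : List ℕ) (s : ℕ) : α :=
  (nb.map fun i => if L i = s then y else d).prod

def R (y d x u : α) : List (Bool × List ℕ) → ℕ → (ℕ → ℕ) → ℕ → α
  | [], _, _, _ => 1
  | (true, nb) :: l, j, L, c =>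
      ((List.range c).map fun s => u * wt y d L nb s * R y d x u l (j + 1) (upd L j s) c).sum +
        (x - c * u) * d ^ nb.length * R y d x u l (j + 1) (upd L j c) (c + 1)
  | (false, nb) :: l, j, L, c =>
      (((List.range c).map fun s => u * wt y d L nb s).sum + (x - c * u) * d ^ nb.length) *
        R y d x u l (j + 1) L c

theorem map_wt {β : Type} [CommRing β] (f : α →+* β) (y d : α) (L : ℕ → ℕ) (nb : List ℕ) (s : ℕ) :
    f (wt y d L nb s) = wt (f y) (f d) L nb s := by
  unfold wt
  rw [map_list_prod, List.map_map]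
  congr 2
  funext i
  simp only [Function.comp, apply_ite f]

theorem map_R {β : Type} [CommRing β] (f : α →+* β) (y d x u : α) (l : List (Bool × List ℕ)) :
    ∀ j L c, f (R y d x u l j L c) = R (f y) (f d) (f x) (f u) l j L c := by
  induction l with
  | nil => intro j L c; simp [R]
  | cons p l ih =>
    obtain ⟨b, nb⟩ := p
    intro j L c
    cases b <;> simp [R, map_list_sum, Function.comp_def, map_wt, ih]

theorem wt_scale (t y d : α) (L : ℕ → ℕ) (nb : List ℕ) (s : ℕ) :
    wt (t * y) (t * d) L nb s = t ^ nb.length * wt y d L nb s := by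
  unfold wt
  induction nb with
  | nil => simp
  | cons i nb ih =>
    simp only [List.map_cons, List.prod_cons, ih, List.length_cons]
    split_ifs <;> ring

theorem R_scale (t y d x u : α) (l : List (Bool × List ℕ)) : ∀ j L c,
    R (t * y) (t * d) (t * x) (t * u) l j L c =
      t ^ (l.map fun p => p.2.length + 1).sum * R y d x u l j L c := by
  induction l with
  | nil => intro j L c; simp [R]
  | cons p l ih =>
    obtain ⟨b, nb⟩ := p
    intro j L c
    cases b
    · simp only [R, ih, wt_scale, List.map_cons, List.sum_cons]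
      have : ((List.range c).map fun s => t * u * (t ^ nb.length * wt y d L nb s)).sum =
          t ^ (nb.length + 1) * ((List.range c).map fun s => u * wt y d L nb s).sum := by
        rw [← List.sum_map_mul_left]
        congr 2; funext s; ring
      rw [this]
      ring
    · simp only [R, ih, wt_scale, List.map_cons, List.sum_cons]
      rw [mul_add, ← List.sum_map_mul_left]
      congr 1
      · congr 2; funext s; ring
      · ring

end ring

def valid : List (Bool × List ℕ) → ℕ → List ℕ → Bool
  | [], _, _ => true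
  | (b, nb) :: l, j, K => nb.all (fun i => K.contains i) && valid l (j + 1) (if b then j :: K else K)

variable {k : ℕ}

def Wt (y : ℝ) : List (Bool × List ℕ) → ℕ → (ℕ → Fin k) → ℝ
  | [], _, _ => 1
  | p :: l, j, σ => (p.2.map fun i => if σ i = σ j then y else 1).prod * Wt y l (j + 1) σ

def glue {r : ℕ} (σ : ℕ → Fin k) (j : ℕ) (τ : Fin r → Fin k) : ℕ → Fin k :=
  fun i => if h : j ≤ i ∧ i - j < r then τ ⟨i - j, h.2⟩ else σ i

theorem glue_cons {r : ℕ} (σ : ℕ → Fin k) (j : ℕ) (t : Fin k) (τ : Fin r → Fin k) :
    glue σ j (Fin.cons t τ : Fin (r + 1) → Fin k) = glue (upd σ j t) (j + 1) τ := by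
  funext i
  unfold glue upd
  by_cases h : i = j
  · subst h
    rw [dif_pos ⟨le_rfl, by omega⟩, dif_neg (by omega), if_pos rfl]
    simp
  · by_cases h' : j + 1 ≤ i ∧ i - (j + 1) < r
    · rw [dif_pos h', dif_pos ⟨by omega, by omega⟩]
      have : (⟨i - j, by omega⟩ : Fin (r + 1)) = Fin.succ ⟨i - (j + 1), h'.2⟩ := by
        ext; simp; omega
      rw [this, Fin.cons_succ]
    · rw [dif_neg h', dif_neg (by omega), if_neg h]

theorem sum_list_map_range (c : ℕ) (f : ℕ → ℝ) :
    ∑ s ∈ range c, f s = ((List.range c).map f).sum := by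
  induction c with
  | zero => simp
  | succ c ih => simp [List.range_succ, sum_range_succ, ih]

theorem sum_glue (y : ℝ) (l : List (Bool × List ℕ)) : ∀ (j : ℕ) (K : List ℕ) (L : ℕ → ℕ) (c : ℕ)
    (σ φ : ℕ → Fin k), valid l j K = true → Set.InjOn φ (range c) →
    (∀ i ∈ K, i < j ∧ L i < c ∧ σ i = φ (L i)) →
    ∑ τ : Fin l.length → Fin k, Wt y l j (glue σ j τ) = R y 1 (k : ℝ) 1 l j L c := by
  induction l with
  | nil => intro j K L c σ φ _ _ _; simp [Wt, R]
  | cons p l ih =>
    obtain ⟨b, nb⟩ := p
    intro j K L c σ φ hv hφ hK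
    simp only [valid, Bool.and_eq_true, List.all_eq_true, List.contains_iff_mem] at hv
    have hc : c ≤ k := by
      have := card_le_univ ((range c).image φ)
      rwa [card_image_of_injOn hφ, card_range, Fintype.card_fin] at this
    have e1 : ∑ τ : Fin (l.length + 1) → Fin k, Wt y ((b, nb) :: l) j (glue σ j τ) =
        ∑ t : Fin k, (nb.map fun i => if σ i = t then y else 1).prod *
          ∑ τ : Fin l.length → Fin k, Wt y l (j + 1) (glue (upd σ j t) (j + 1) τ) := by
      rw [← (Fin.consEquiv fun _ => Fin k).sum_comp, Fintype.sum_prod_type]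
      refine sum_congr rfl fun t _ => ?_
      rw [mul_sum]
      refine sum_congr rfl fun τ _ => ?_
      show Wt y _ j (glue σ j (Fin.cons t τ : Fin (l.length + 1) → Fin k)) = _
      rw [glue_cons, Wt]
      congr 2
      refine List.map_congr_left fun i hi => ?_
      have := (hK i (hv.1 i hi)).1
      simp only [glue, upd]
      rw [dif_neg (by omega), dif_neg (by omega), if_neg (by omega : ¬ i = j), if_pos trivial]
    have e2 : ∀ s ∈ range c, (nb.map fun i => if σ i = φ s then y else 1).prod = wt y 1 L nb s := by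
      intro s hs
      unfold wt
      congr 1
      refine List.map_congr_left fun i hi => ?_
      obtain ⟨-, h2, h3⟩ := hK i (hv.1 i hi)
      rw [h3]
      exact if_congr (hφ.eq_iff (mem_coe.2 (mem_range.2 h2)) (mem_coe.2 hs)) rfl rfl
    have e3 : ∀ t ∈ ((range c).image φ)ᶜ, (nb.map fun i => if σ i = t then y else 1).prod = 1 := by
      intro t ht
      refine List.prod_eq_one fun z hz => ?_
      obtain ⟨i, hi, rfl⟩ := List.mem_map.1 hz
      obtain ⟨-, h2, h3⟩ := hK i (hv.1 i hi)
      rw [if_neg]
      rintro rfl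
      exact mem_compl.1 ht (h3 ▸ mem_image_of_mem _ (mem_range.2 h2))
    have e4 : ((((range c).image φ)ᶜ).card : ℝ) = k - c := by
      rw [card_compl, card_image_of_injOn hφ, card_range, Fintype.card_fin, Nat.cast_sub hc]
    show ∑ τ : Fin (l.length + 1) → Fin k, _ = _
    rw [e1]
    cases b
    · have e5 : ∀ t : Fin k, ∑ τ : Fin l.length → Fin k, Wt y l (j + 1) (glue (upd σ j t) (j + 1) τ)
          = R y 1 (k : ℝ) 1 l (j + 1) L c := fun t =>
        ih _ K L c _ φ hv.2 hφ fun i hi => by
          obtain ⟨h1, h2, h3⟩ := hK i hi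
          exact ⟨by omega, h2, by rw [← h3]; exact if_neg (by omega)⟩
      simp only [e5, R]
      rw [← sum_mul, ← sum_add_sum_compl ((range c).image φ), sum_image hφ, sum_congr rfl e2,
        sum_congr rfl e3, sum_const, nsmul_eq_mul, e4, ← sum_list_map_range]
      simp
    · rw [← sum_add_sum_compl ((range c).image φ), sum_image hφ, R]
      congr 1
      · rw [← sum_list_map_range]
        refine sum_congr rfl fun s hs => ?_
        rw [e2 s hs, one_mul, ih _ (j :: K) (upd L j s) c _ φ hv.2 hφ]
        intro i hi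
        rcases List.mem_cons.1 hi with rfl | hi
        · simpa [upd] using hs
        · obtain ⟨h1, h2, h3⟩ := hK i hi
          simp only [upd, if_neg (by omega : ¬ i = j)]
          exact ⟨by omega, h2, h3⟩
      · rw [sum_congr rfl (g := fun _ => R y 1 (k : ℝ) 1 l (j + 1) (upd L j c) (c + 1)), sum_const,
          nsmul_eq_mul, e4]
        · simp
        intro t ht
        rw [e3 t ht, one_mul, ih _ (j :: K) (upd L j c) (c + 1) _ (upd φ c t) hv.2]
        · have hm : ∀ a, a < c → φ a ≠ t := fun a ha e =>
            mem_compl.1 ht (e ▸ mem_image_of_mem _ (mem_range.2 ha))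
          intro a ha a' ha' e
          simp only [coe_range, Set.mem_Iio] at ha ha'
          unfold upd at e
          split_ifs at e with h1 h2 h2
          · omega
          · exact absurd e.symm (hm _ (by omega))
          · exact absurd e (hm _ (by omega))
          · exact hφ (by simp; omega) (by simp; omega) e
        · intro i hi
          rcases List.mem_cons.1 hi with rfl | hi
          · simp [upd]
          · obtain ⟨h1, h2, h3⟩ := hK i hi
            simp only [upd, if_neg (by omega : ¬ i = j), if_neg (by omega : ¬ L i = c)]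
            exact ⟨by omega, by omega, h3⟩

theorem card_const {V : Type} [Fintype V] [DecidableEq V] (A : Finset (Sym2 V)) (k : ℕ) :
    (univ.filter fun τ : V → Fin k => ∀ e ∈ A, (e.map τ).IsDiag).card =
      k ^ Nat.card (SimpleGraph.fromEdgeSet (A : Set (Sym2 V))).ConnectedComponent := by
  set H := SimpleGraph.fromEdgeSet (A : Set (Sym2 V)) with hH
  have hr : ∀ τ : V → Fin k, (∀ e ∈ A, (e.map τ).IsDiag) → ∀ a b, H.Reachable a b → τ a = τ b := by
    rintro τ h a b ⟨p⟩
    induction p with
    | nil => rfl
    | cons h' _ ih =>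
      exact (show τ _ = τ _ from h _ ((SimpleGraph.fromEdgeSet_adj _).1 h').1).trans ih
  let e : {τ : V → Fin k // ∀ e ∈ A, (e.map τ).IsDiag} ≃ (H.ConnectedComponent → Fin k) :=
    { toFun := fun τ => Quot.lift τ.1 (hr τ.1 τ.2)
      invFun := fun f => ⟨fun v => f (H.connectedComponentMk v), by
        intro e he
        induction e using Sym2.ind with
        | _ a b =>
          show f _ = f _
          by_cases hab : a = b
          · rw [hab]
          · rw [SimpleGraph.ConnectedComponent.connectedComponentMk_eq_of_adj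
              ((SimpleGraph.fromEdgeSet_adj _).2 ⟨he, hab⟩)]⟩
      left_inv := fun τ => rfl
      right_inv := fun f => by
        funext c
        induction c using SimpleGraph.ConnectedComponent.ind
        rfl }
  rw [← Fintype.card_subtype, ← Nat.card_eq_fintype_card, Nat.card_congr e, Nat.card_fun]
  simp

theorem fk {V : Type} [Fintype V] [DecidableEq V] (E : Finset (Sym2 V)) (y : ℝ) (k : ℕ) :
    ∑ τ : V → Fin k, ∏ e ∈ E, (if (e.map τ).IsDiag then y else 1) = ∑ A ∈ E.powerset,
      (y - 1) ^ A.card *
        (k : ℝ) ^ Nat.card (SimpleGraph.fromEdgeSet (A : Set (Sym2 V))).ConnectedComponent := by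
  have : ∀ τ : V → Fin k, ∏ e ∈ E, (if (e.map τ).IsDiag then y else 1) = ∑ A ∈ E.powerset,
      (y - 1) ^ A.card * (if ∀ e ∈ A, (e.map τ).IsDiag then 1 else 0) := by
    intro τ
    rw [prod_congr rfl (g := fun e => 1 + (y - 1) * if (e.map τ).IsDiag then 1 else 0)
      fun e _ => by split_ifs <;> ring, prod_one_add]
    refine sum_congr rfl fun A _ => ?_
    rw [prod_mul_distrib, prod_const, prod_boole]
    split_ifs <;> rfl
  rw [sum_congr rfl fun τ _ => this τ, sum_comm]
  refine sum_congr rfl fun A _ => ?_
  rw [← mul_sum, sum_boole, card_const]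
  simp

/-- The edge-subset expansion equals the value computed by `R`. -/
theorem expansion (l : List (Bool × List ℕ)) (hv : valid l 0 [] = true)
    (E : Finset (Sym2 (Fin l.length)))
    (hE : ∀ (k : ℕ) (y : ℝ) (σ : ℕ → Fin k) (τ : Fin l.length → Fin k),
      Wt y l 0 (glue σ 0 τ) = ∏ e ∈ E, (if (e.map τ).IsDiag then y else 1)) (y x : ℝ) :
    ∑ A ∈ E.powerset, (y - 1) ^ A.card * x ^ Nat.card (SimpleGraph.fromEdgeSet
      (A : Set (Sym2 (Fin l.length)))).ConnectedComponent = R y 1 x 1 l 0 (fun _ => 0) 0 := by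
  have key : (∑ A ∈ E.powerset, Polynomial.C ((y - 1) ^ A.card) * Polynomial.X ^ Nat.card
      (SimpleGraph.fromEdgeSet (A : Set (Sym2 (Fin l.length)))).ConnectedComponent) =
      R (Polynomial.C y) 1 Polynomial.X 1 l 0 (fun _ => 0) 0 := by
    refine Polynomial.eq_of_infinite_eval_eq _ _ (Set.Infinite.mono ?_
      (Set.infinite_range_of_injective (f := fun k : ℕ => ((k + 1 : ℕ) : ℝ))
        fun a b h => by simpa using h))
    rintro _ ⟨k, rfl⟩
    have h1 := map_R (Polynomial.evalRingHom ((k + 1 : ℕ) : ℝ)) (Polynomial.C y) 1 Polynomial.X 1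
      l 0 (fun _ => 0) 0
    simp only [Polynomial.coe_evalRingHom, Polynomial.eval_C, Polynomial.eval_X,
      Polynomial.eval_one] at h1
    rw [Set.mem_ofPred_eq, h1, ← sum_glue y l 0 [] _ 0 (fun _ => 0) (fun _ => 0) hv (by simp)
      (by simp), sum_congr rfl fun τ _ => hE _ y _ τ, fk]
    simp [Polynomial.eval_finsetSum]
  have h2 := congrArg (Polynomial.evalRingHom x) key
  rw [map_R] at h2
  simpa [Polynomial.eval_finsetSum] using h2

theorem R_int (l : List (Bool × List ℕ)) (a b s : ℤ) (hb : b ≠ 0) :
    R ((s : ℝ) / b) 1 ((a : ℝ) / b) 1 l 0 (fun _ => 0) 0 * (b : ℝ) ^ (l.map fun p => p.2.length + 1).sum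
      = ((R s b a b l 0 (fun _ => 0) 0 : ℤ) : ℝ) := by
  have hb' : (b : ℝ) ≠ 0 := by exact_mod_cast hb
  have := map_R (Int.castRingHom ℝ) s b a b l 0 (fun _ => 0) 0
  simp only [eq_intCast] at this
  rw [this, mul_comm, ← R_scale, mul_div_cancel₀ _ hb', mul_div_cancel₀ _ hb', mul_one]

end Pool.Agent.H3.Potts
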