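import Mathlib

set_option autoImplicit false

namespace Pool.Agent.H3.RowSum

open Polynomial

/-- polynomials of Ramanujan type. -/
noncomputable def G (z : ℂ) : ℕ → ℂ[X]
  | 0 => 1
  | m + 1 => (C (m + z) + C (m + 1 : ℂ) * X) * G z m + X ^ 2 * derivative (G z m)

theorem G_shift (z : ℂ) (m : ℕ) :
    X * G z (m + 1) = (X - 1) * G (z + 1) (m + 1) + C (m + 1 + z) * G (z + 1) m := by
  induction m with
  | zero =>
    simp only [G, Nat.cast_zero, zero_add, map_add, map_one, derivative_one, mul_zero, add_zero,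
      mul_one]
    ring
  | succ m ih =>
    have ih' := congrArg derivative ih
    simp only [derivative_mul, derivative_X, derivative_add, derivative_sub, derivative_one,
      derivative_C, zero_mul, zero_add, sub_zero, one_mul] at ih'
    have hB : G (z + 1) (m + 1) = (C (m + (z + 1)) + C (m + 1 : ℂ) * X) * G (z + 1) m +
        X ^ 2 * derivative (G (z + 1) m) := rfl
    have e1 : G z (m + 1 + 1) = (C (((m + 1 : ℕ) : ℂ) + z) + C (((m + 1 : ℕ) : ℂ) + 1 : ℂ) * X) *
        G z (m + 1) + X ^ 2 * derivative (G z (m + 1)) := rfl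
    have e2 : G (z + 1) (m + 1 + 1) = (C (((m + 1 : ℕ) : ℂ) + (z + 1)) +
        C (((m + 1 : ℕ) : ℂ) + 1 : ℂ) * X) *
        G (z + 1) (m + 1) + X ^ 2 * derivative (G (z + 1) (m + 1)) := rfl
    rw [e1, e2]
    simp only [Nat.cast_add, Nat.cast_one, map_add, map_one] at ih ih' hB ⊢
    linear_combination (C (m : ℂ) + 1 + C z + (C (m : ℂ) + 1) * X) * ih + X ^ 2 * ih' -
      (C (m : ℂ) + 1 + C z) * hB

theorem G_eval (m : ℕ) : ∀ z : ℂ, (G z m).eval 1 = (m + z) ^ m := by
  induction m with
  | zero => intro z; simp [G]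
  | succ m ih =>
    intro z
    have h := congrArg (eval 1) (G_shift z m)
    simp only [eval_mul, eval_X, one_mul, eval_add, eval_sub, eval_one, sub_self, zero_mul,
      zero_add, eval_C, ih] at h
    rw [h]
    push_cast
    ring

theorem G_coeff_zero (m : ℕ) : (G 0 (m + 1)).coeff 0 = m * (G 0 m).coeff 0 := by
  simp [G, add_mul, mul_assoc, coeff_C_mul, pow_two]

theorem G_coeff_succ (m n : ℕ) : (G 0 (m + 1)).coeff (n + 1) =
    m * (G 0 m).coeff (n + 1) + (m + (n + 1)) * (G 0 m).coeff n := by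
  have e : G 0 (m + 1) = C (m : ℂ) * G 0 m + C (m + 1 : ℂ) * (X * G 0 m) +
      X * (X * derivative (G 0 m)) := by
    simp only [G, add_zero]; ring
  rw [e, coeff_add, coeff_add, coeff_C_mul, coeff_C_mul, coeff_X_mul, coeff_X_mul]
  cases n with
  | zero => simp
  | succ n =>
    rw [coeff_X_mul, coeff_derivative]
    push_cast
    ring

theorem shor (S : ℕ → ℕ → ℂ) (hA : S 0 0 = 1) (hB1 : ∀ n, 1 ≤ n → S 0 n = 0)
    (hB2 : ∀ m, 1 ≤ m → S m 0 = 0) (hZ : ∀ m n : ℕ, m < n → S m n = 0)
    (hC : ∀ m n : ℕ, 1 ≤ n → S (m + 1) n = m * S m n + (m + n) * S m (n - 1))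
    (m : ℕ) (hm : 1 ≤ m) : ∑ n ∈ Finset.Icc 1 m, S m n = (m : ℂ) ^ m := by
  have key : ∀ m n, (G 0 m).coeff n = S m n := by
    intro m
    induction m with
    | zero =>
      intro n
      cases n with
      | zero => simp [G, hA]
      | succ n => rw [hB1 _ (by omega)]; simp [G, coeff_one]
    | succ m ih =>
      intro n
      cases n with
      | zero =>
        rw [G_coeff_zero, ih, hB2 (m + 1) (by omega)]
        cases m with
        | zero => simp
        | succ m => rw [hB2 _ (by omega)]; simp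
      | succ n =>
        rw [G_coeff_succ, ih, ih, hC m (n + 1) (by omega)]
        simp
  have hdeg : (G 0 m).natDegree < m + 1 := by
    rw [Nat.lt_succ_iff, natDegree_le_iff_coeff_eq_zero]
    intro n hn
    rw [key, hZ m n hn]
  have h := G_eval m 0
  rw [eval_eq_sum_range' hdeg, add_zero, Finset.sum_range_succ'] at h
  simp only [one_pow, mul_one, key, hB2 m hm, add_zero] at h
  rw [← h, ← Finset.Ico_add_one_right_eq_Icc, Finset.sum_Ico_eq_sum_range]
  simp [add_comm]

end Pool.Agent.H3.RowSum
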