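import Mathlib

set_option autoImplicit false

namespace Pool.Agent.H3.RowSum

open Polynomial

theorem core (p s d b : ℂ) (S : ℕ → ℕ → ℂ)
    (hC : ∀ m n : ℕ, 1 ≤ n → S (m + 1) n =
      (p-s-1+(s-b)*m+(2*(4-p)-d)*n) * S m n + (1-(d-(4-p))+b*m+(d-(4-p))*n) * S m (n - 1))
    (hZ : ∀ m n : ℕ, m < n → S m n = 0) (h0 : ∀ m : ℕ, 1 ≤ m → S m 0 = 0) (s11 : S 1 1 = 1)
    (h2 : S 2 1 + S 2 2 = 4)
    (h3 : S 3 1 + S 3 2 + S 3 3 = 27)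
    (h4 : S 4 1 + S 4 2 + S 4 3 + S 4 4 = 256)
    (h5 : S 5 1 + S 5 2 + S 5 3 + S 5 4 + S 5 5 = 3125)
    (h6 : S 6 1 + S 6 2 + S 6 3 + S 6 4 + S 6 5 + S 6 6 = 46656)
    (h7 : S 7 1 + S 7 2 + S 7 3 + S 7 4 + S 7 5 + S 7 6 + S 7 7 = 823543)
    (h8 : S 8 1 + S 8 2 + S 8 3 + S 8 4 + S 8 5 + S 8 6 + S 8 7 + S 8 8 = 16777216) :
    p = 3 ∧ s = 2 ∧ d = 2 ∧ b = 1 := by
  have r_2_1 : S 2 1 = (p-s-1+(s-b)*1+(2*(4-p)-d)*1)*S 1 1 := by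
    have h := hC 1 1 (by norm_num)
    simp only [Nat.cast_ofNat, Nat.cast_one, Nat.reduceAdd, Nat.reduceSub] at h
    rw [h, h0 1 (by norm_num)] <;> ring
  have r_2_2 : S 2 2 = (1-(d-(4-p))+b*1+(d-(4-p))*2)*S 1 1 := by
    have h := hC 1 2 (by norm_num)
    simp only [Nat.cast_ofNat, Nat.cast_one, Nat.reduceAdd, Nat.reduceSub] at h
    rw [h, hZ 1 2 (by norm_num)] <;> ring
  have r_3_1 : S 3 1 = (p-s-1+(s-b)*2+(2*(4-p)-d)*1)*S 2 1 := by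
    have h := hC 2 1 (by norm_num)
    simp only [Nat.cast_ofNat, Nat.cast_one, Nat.reduceAdd, Nat.reduceSub] at h
    rw [h, h0 2 (by norm_num)] <;> ring
  have r_3_2 : S 3 2 = (p-s-1+(s-b)*2+(2*(4-p)-d)*2)*S 2 2 + (1-(d-(4-p))+b*2+(d-(4-p))*2)*S 2 1 := by
    have h := hC 2 2 (by norm_num)
    simp only [Nat.cast_ofNat, Nat.cast_one, Nat.reduceAdd, Nat.reduceSub] at h
    rw [h] <;> ring
  have r_3_3 : S 3 3 = (1-(d-(4-p))+b*2+(d-(4-p))*3)*S 2 2 := by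
    have h := hC 2 3 (by norm_num)
    simp only [Nat.cast_ofNat, Nat.cast_one, Nat.reduceAdd, Nat.reduceSub] at h
    rw [h, hZ 2 3 (by norm_num)] <;> ring
  have r_4_1 : S 4 1 = (p-s-1+(s-b)*3+(2*(4-p)-d)*1)*S 3 1 := by
    have h := hC 3 1 (by norm_num)
    simp only [Nat.cast_ofNat, Nat.cast_one, Nat.reduceAdd, Nat.reduceSub] at h
    rw [h, h0 3 (by norm_num)] <;> ring
  have r_4_2 : S 4 2 = (p-s-1+(s-b)*3+(2*(4-p)-d)*2)*S 3 2 + (1-(d-(4-p))+b*3+(d-(4-p))*2)*S 3 1 := by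
    have h := hC 3 2 (by norm_num)
    simp only [Nat.cast_ofNat, Nat.cast_one, Nat.reduceAdd, Nat.reduceSub] at h
    rw [h] <;> ring
  have r_4_3 : S 4 3 = (p-s-1+(s-b)*3+(2*(4-p)-d)*3)*S 3 3 + (1-(d-(4-p))+b*3+(d-(4-p))*3)*S 3 2 := by
    have h := hC 3 3 (by norm_num)
    simp only [Nat.cast_ofNat, Nat.cast_one, Nat.reduceAdd, Nat.reduceSub] at h
    rw [h] <;> ring
  have r_4_4 : S 4 4 = (1-(d-(4-p))+b*3+(d-(4-p))*4)*S 3 3 := by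
    have h := hC 3 4 (by norm_num)
    simp only [Nat.cast_ofNat, Nat.cast_one, Nat.reduceAdd, Nat.reduceSub] at h
    rw [h, hZ 3 4 (by norm_num)] <;> ring
  have r_5_1 : S 5 1 = (p-s-1+(s-b)*4+(2*(4-p)-d)*1)*S 4 1 := by
    have h := hC 4 1 (by norm_num)
    simp only [Nat.cast_ofNat, Nat.cast_one, Nat.reduceAdd, Nat.reduceSub] at h
    rw [h, h0 4 (by norm_num)] <;> ring
  have r_5_2 : S 5 2 = (p-s-1+(s-b)*4+(2*(4-p)-d)*2)*S 4 2 + (1-(d-(4-p))+b*4+(d-(4-p))*2)*S 4 1 := by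
    have h := hC 4 2 (by norm_num)
    simp only [Nat.cast_ofNat, Nat.cast_one, Nat.reduceAdd, Nat.reduceSub] at h
    rw [h] <;> ring
  have r_5_3 : S 5 3 = (p-s-1+(s-b)*4+(2*(4-p)-d)*3)*S 4 3 + (1-(d-(4-p))+b*4+(d-(4-p))*3)*S 4 2 := by
    have h := hC 4 3 (by norm_num)
    simp only [Nat.cast_ofNat, Nat.cast_one, Nat.reduceAdd, Nat.reduceSub] at h
    rw [h] <;> ring
  have r_5_4 : S 5 4 = (p-s-1+(s-b)*4+(2*(4-p)-d)*4)*S 4 4 + (1-(d-(4-p))+b*4+(d-(4-p))*4)*S 4 3 := by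
    have h := hC 4 4 (by norm_num)
    simp only [Nat.cast_ofNat, Nat.cast_one, Nat.reduceAdd, Nat.reduceSub] at h
    rw [h] <;> ring
  have r_5_5 : S 5 5 = (1-(d-(4-p))+b*4+(d-(4-p))*5)*S 4 4 := by
    have h := hC 4 5 (by norm_num)
    simp only [Nat.cast_ofNat, Nat.cast_one, Nat.reduceAdd, Nat.reduceSub] at h
    rw [h, hZ 4 5 (by norm_num)] <;> ring
  have r_6_1 : S 6 1 = (p-s-1+(s-b)*5+(2*(4-p)-d)*1)*S 5 1 := by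
    have h := hC 5 1 (by norm_num)
    simp only [Nat.cast_ofNat, Nat.cast_one, Nat.reduceAdd, Nat.reduceSub] at h
    rw [h, h0 5 (by norm_num)] <;> ring
  have r_6_2 : S 6 2 = (p-s-1+(s-b)*5+(2*(4-p)-d)*2)*S 5 2 + (1-(d-(4-p))+b*5+(d-(4-p))*2)*S 5 1 := by
    have h := hC 5 2 (by norm_num)
    simp only [Nat.cast_ofNat, Nat.cast_one, Nat.reduceAdd, Nat.reduceSub] at h
    rw [h] <;> ring
  have r_6_3 : S 6 3 = (p-s-1+(s-b)*5+(2*(4-p)-d)*3)*S 5 3 + (1-(d-(4-p))+b*5+(d-(4-p))*3)*S 5 2 := by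
    have h := hC 5 3 (by norm_num)
    simp only [Nat.cast_ofNat, Nat.cast_one, Nat.reduceAdd, Nat.reduceSub] at h
    rw [h] <;> ring
  have r_6_4 : S 6 4 = (p-s-1+(s-b)*5+(2*(4-p)-d)*4)*S 5 4 + (1-(d-(4-p))+b*5+(d-(4-p))*4)*S 5 3 := by
    have h := hC 5 4 (by norm_num)
    simp only [Nat.cast_ofNat, Nat.cast_one, Nat.reduceAdd, Nat.reduceSub] at h
    rw [h] <;> ring
  have r_6_5 : S 6 5 = (p-s-1+(s-b)*5+(2*(4-p)-d)*5)*S 5 5 + (1-(d-(4-p))+b*5+(d-(4-p))*5)*S 5 4 := by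
    have h := hC 5 5 (by norm_num)
    simp only [Nat.cast_ofNat, Nat.cast_one, Nat.reduceAdd, Nat.reduceSub] at h
    rw [h] <;> ring
  have r_6_6 : S 6 6 = (1-(d-(4-p))+b*5+(d-(4-p))*6)*S 5 5 := by
    have h := hC 5 6 (by norm_num)
    simp only [Nat.cast_ofNat, Nat.cast_one, Nat.reduceAdd, Nat.reduceSub] at h
    rw [h, hZ 5 6 (by norm_num)] <;> ring
  have r_7_1 : S 7 1 = (p-s-1+(s-b)*6+(2*(4-p)-d)*1)*S 6 1 := by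
    have h := hC 6 1 (by norm_num)
    simp only [Nat.cast_ofNat, Nat.cast_one, Nat.reduceAdd, Nat.reduceSub] at h
    rw [h, h0 6 (by norm_num)] <;> ring
  have r_7_2 : S 7 2 = (p-s-1+(s-b)*6+(2*(4-p)-d)*2)*S 6 2 + (1-(d-(4-p))+b*6+(d-(4-p))*2)*S 6 1 := by
    have h := hC 6 2 (by norm_num)
    simp only [Nat.cast_ofNat, Nat.cast_one, Nat.reduceAdd, Nat.reduceSub] at h
    rw [h] <;> ring
  have r_7_3 : S 7 3 = (p-s-1+(s-b)*6+(2*(4-p)-d)*3)*S 6 3 + (1-(d-(4-p))+b*6+(d-(4-p))*3)*S 6 2 := by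
    have h := hC 6 3 (by norm_num)
    simp only [Nat.cast_ofNat, Nat.cast_one, Nat.reduceAdd, Nat.reduceSub] at h
    rw [h] <;> ring
  have r_7_4 : S 7 4 = (p-s-1+(s-b)*6+(2*(4-p)-d)*4)*S 6 4 + (1-(d-(4-p))+b*6+(d-(4-p))*4)*S 6 3 := by
    have h := hC 6 4 (by norm_num)
    simp only [Nat.cast_ofNat, Nat.cast_one, Nat.reduceAdd, Nat.reduceSub] at h
    rw [h] <;> ring
  have r_7_5 : S 7 5 = (p-s-1+(s-b)*6+(2*(4-p)-d)*5)*S 6 5 + (1-(d-(4-p))+b*6+(d-(4-p))*5)*S 6 4 := by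
    have h := hC 6 5 (by norm_num)
    simp only [Nat.cast_ofNat, Nat.cast_one, Nat.reduceAdd, Nat.reduceSub] at h
    rw [h] <;> ring
  have r_7_6 : S 7 6 = (p-s-1+(s-b)*6+(2*(4-p)-d)*6)*S 6 6 + (1-(d-(4-p))+b*6+(d-(4-p))*6)*S 6 5 := by
    have h := hC 6 6 (by norm_num)
    simp only [Nat.cast_ofNat, Nat.cast_one, Nat.reduceAdd, Nat.reduceSub] at h
    rw [h] <;> ring
  have r_7_7 : S 7 7 = (1-(d-(4-p))+b*6+(d-(4-p))*7)*S 6 6 := by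
    have h := hC 6 7 (by norm_num)
    simp only [Nat.cast_ofNat, Nat.cast_one, Nat.reduceAdd, Nat.reduceSub] at h
    rw [h, hZ 6 7 (by norm_num)] <;> ring
  have r_8_1 : S 8 1 = (p-s-1+(s-b)*7+(2*(4-p)-d)*1)*S 7 1 := by
    have h := hC 7 1 (by norm_num)
    simp only [Nat.cast_ofNat, Nat.cast_one, Nat.reduceAdd, Nat.reduceSub] at h
    rw [h, h0 7 (by norm_num)] <;> ring
  have r_8_2 : S 8 2 = (p-s-1+(s-b)*7+(2*(4-p)-d)*2)*S 7 2 + (1-(d-(4-p))+b*7+(d-(4-p))*2)*S 7 1 := by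
    have h := hC 7 2 (by norm_num)
    simp only [Nat.cast_ofNat, Nat.cast_one, Nat.reduceAdd, Nat.reduceSub] at h
    rw [h] <;> ring
  have r_8_3 : S 8 3 = (p-s-1+(s-b)*7+(2*(4-p)-d)*3)*S 7 3 + (1-(d-(4-p))+b*7+(d-(4-p))*3)*S 7 2 := by
    have h := hC 7 3 (by norm_num)
    simp only [Nat.cast_ofNat, Nat.cast_one, Nat.reduceAdd, Nat.reduceSub] at h
    rw [h] <;> ring
  have r_8_4 : S 8 4 = (p-s-1+(s-b)*7+(2*(4-p)-d)*4)*S 7 4 + (1-(d-(4-p))+b*7+(d-(4-p))*4)*S 7 3 := by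
    have h := hC 7 4 (by norm_num)
    simp only [Nat.cast_ofNat, Nat.cast_one, Nat.reduceAdd, Nat.reduceSub] at h
    rw [h] <;> ring
  have r_8_5 : S 8 5 = (p-s-1+(s-b)*7+(2*(4-p)-d)*5)*S 7 5 + (1-(d-(4-p))+b*7+(d-(4-p))*5)*S 7 4 := by
    have h := hC 7 5 (by norm_num)
    simp only [Nat.cast_ofNat, Nat.cast_one, Nat.reduceAdd, Nat.reduceSub] at h
    rw [h] <;> ring
  have r_8_6 : S 8 6 = (p-s-1+(s-b)*7+(2*(4-p)-d)*6)*S 7 6 + (1-(d-(4-p))+b*7+(d-(4-p))*6)*S 7 5 := by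
    have h := hC 7 6 (by norm_num)
    simp only [Nat.cast_ofNat, Nat.cast_one, Nat.reduceAdd, Nat.reduceSub] at h
    rw [h] <;> ring
  have r_8_7 : S 8 7 = (p-s-1+(s-b)*7+(2*(4-p)-d)*7)*S 7 7 + (1-(d-(4-p))+b*7+(d-(4-p))*7)*S 7 6 := by
    have h := hC 7 7 (by norm_num)
    simp only [Nat.cast_ofNat, Nat.cast_one, Nat.reduceAdd, Nat.reduceSub] at h
    rw [h] <;> ring
  have r_8_8 : S 8 8 = (1-(d-(4-p))+b*7+(d-(4-p))*8)*S 7 7 := by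
    have h := hC 7 8 (by norm_num)
    simp only [Nat.cast_ofNat, Nat.cast_one, Nat.reduceAdd, Nat.reduceSub] at h
    rw [h, hZ 7 8 (by norm_num)] <;> ring
  have hb : (4-p)*b = ((23) + (-4)*d + (-4)*s + (-7)*p + (1)*p*d + (1)*p^2 : ℂ) := by
    have h := h3
    rw [r_3_1, r_3_2, r_3_3, r_2_1, r_2_2, s11] at h
    linear_combination h
  have t_0_1 : (4-p)^0*(1*S 1 1) = 1 := by rw [s11]; ring
  have t_1_1 : (4-p)^1*(1*S 1 1) = ((4) + (-1)*p : ℂ) := by rw [s11]; ring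
  have u_2 : (4-p)^0*(1*S 2 1 + 1*S 2 2) = ((4) : ℂ) := by
    rw [r_2_1, r_2_2]
    linear_combination ((1)*p : ℂ) * t_0_1 + 1 * t_1_1
  have t_0_2 : (4-p)^0*(1*S 2 1 + 1*S 2 2) = 4 := by linear_combination h2
  have t_1_2 : (4-p)^1*(1*S 2 1 + 2*S 2 2) = ((27) + (-4)*s + (-4)*p : ℂ) := by
    rw [r_2_1, r_2_2]
    linear_combination ((1)*d + (1)*p : ℂ) * t_1_1 + ((4-p) + 1*((4-p)*b)) * t_0_1 + 1 * ((1) : ℂ) * hb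
  have t_2_2 : (4-p)^2*(1*S 2 2) = ((44) + (-16)*s + (-11)*p + (4)*p*s : ℂ) := by
    rw [r_2_2]
    linear_combination ((4-p) + 1*((4-p)*b) + 1*((-16) + (4)*d + (8)*p + (-1)*p*d + (-1)*p^2 : ℂ)) * t_1_1 + 1 * ((4) + (-1)*p : ℂ) * hb
  have u_3 : (4-p)^0*(1*S 3 1 + 1*S 3 2 + 1*S 3 3) = ((27) : ℂ) := by
    rw [r_3_1, r_3_2, r_3_3]
    linear_combination ((1)*s + (1)*p : ℂ) * t_0_2 + 1 * t_1_2
  have t_0_3 : (4-p)^0*(1*S 3 1 + 1*S 3 2 + 1*S 3 3) = 27 := by linear_combination h3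
  have t_1_3 : (4-p)^1*(1*S 3 1 + 2*S 3 2 + 3*S 3 3) = ((288) + (-5)*d + (-37)*s + (-4)*s*d + (-4)*s^2 + (-55)*p + (4)*p*d + (4)*p^2 : ℂ) := by
    rw [r_3_1, r_3_2, r_3_3]
    linear_combination ((1)*d + (1)*s + (1)*p : ℂ) * t_1_2 + 2 * t_2_2 + ((4-p) + 2*((4-p)*b)) * t_0_2 + 2 * ((4) : ℂ) * hb
  have t_2_3 : (4-p)^2*(1*S 3 2 + 3*S 3 3) = ((918) + (-20)*d + (-308)*s + (-16)*s*d + (16)*s^2 + (-281)*p + (21)*p*d + (33)*p*s + (4)*p*s*d + (4)*p*s^2 + (44)*p^2 + (-4)*p^2*d + (-4)*p^3 : ℂ) := by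
    rw [r_3_2, r_3_3]
    linear_combination ((2)*d + (1)*s + (1)*p : ℂ) * t_2_2 + ((4-p) + 2*((4-p)*b) + 1*((-16) + (4)*d + (8)*p + (-1)*p*d + (-1)*p^2 : ℂ)) * t_1_2 + 2 * ((27) + (-4)*s + (-4)*p : ℂ) * hb
  have t_3_3 : (4-p)^3*(1*S 3 3) = ((792) + (-640)*s + (128)*s^2 + (-154)*p + (144)*p*s + (-32)*p*s^2 + (-11)*p^2 + (4)*p^2*s : ℂ) := by
    rw [r_3_3]
    linear_combination ((4-p) + 2*((4-p)*b) + 2*((-16) + (4)*d + (8)*p + (-1)*p*d + (-1)*p^2 : ℂ)) * t_2_2 + 2 * ((44) + (-16)*s + (-11)*p + (4)*p*s : ℂ) * hb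
  have u_4 : (4-p)^0*(1*S 4 1 + 1*S 4 2 + 1*S 4 3 + 1*S 4 4) = ((288) + (-5)*d + (17)*s + (-4)*s*d + (-4)*s^2 + (-28)*p + (4)*p*d + (4)*p^2 : ℂ) := by
    rw [r_4_1, r_4_2, r_4_3, r_4_4]
    linear_combination ((2)*s + (1)*p : ℂ) * t_0_3 + 1 * t_1_3
  have t_0_4 : (4-p)^0*(1*S 4 1 + 1*S 4 2 + 1*S 4 3 + 1*S 4 4) = 256 := by linear_combination h4
  have e4 : ((32) + (-5)*d + (17)*s + (-4)*s*d + (-4)*s^2 + (-28)*p + (4)*p*d + (4)*p^2 : ℂ) = 0 := by linear_combination t_0_4 - u_4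
  have t_1_4 : (4-p)^1*(1*S 4 1 + 2*S 4 2 + 3*S 4 3 + 4*S 4 4) = ((3807) + (-76)*d + (-5)*d^2 + (-364)*s + (-79)*s*d + (-4)*s*d^2 + (-42)*s^2 + (-12)*s^2*d + (-8)*s^3 + (-868)*p + (63)*p*d + (4)*p*d^2 + (-81)*p*s + (12)*p*s*d + (4)*p*s^2 + (114)*p^2 + (8)*p^2*s + (-4)*p^3 : ℂ) := by
    rw [r_4_1, r_4_2, r_4_3, r_4_4]
    linear_combination ((1)*d + (2)*s + (1)*p : ℂ) * t_1_3 + 2 * t_2_3 + ((4-p) + 3*((4-p)*b)) * t_0_3 + 3 * ((27) : ℂ) * hb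
  have t_2_4 : (4-p)^2*(1*S 4 2 + 3*S 4 3 + 6*S 4 4) = ((18792) + (-753)*d + (-5649)*s + (-528)*s*d + (-16)*s^2 + (80)*s^2*d + (80)*s^3 + (-6711)*p + (732)*p*d + (740)*p*s + (26)*p*s*d + (42)*p*s^2 + (8)*p*s^2*d + (8)*p*s^3 + (1260)*p^2 + (-99)*p^2*d + (11)*p^2*s + (-12)*p^2*s*d + (-4)*p^2*s^2 + (-122)*p^3 + (4)*p^3*d + (-8)*p^3*s + (4)*p^4 : ℂ) := by
    rw [r_4_2, r_4_3, r_4_4]
    linear_combination ((2)*d + (2)*s + (1)*p : ℂ) * t_2_3 + 3 * t_3_3 + ((4-p) + 3*((4-p)*b) + 1*((-16) + (4)*d + (8)*p + (-1)*p*d + (-1)*p^2 : ℂ)) * t_1_3 + 3 * ((288) + (-5)*d + (-37)*s + (-4)*s*d + (-4)*s^2 + (-55)*p + (4)*p*d + (4)*p^2 : ℂ) * hb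
  have t_3_4 : (4-p)^3*(1*S 4 3 + 4*S 4 4) = ((37638) + (-2116)*d + (80)*d^2 + (-22060)*s + (-1104)*s*d + (64)*s*d^2 + (3072)*s^2 + (512)*s^2*d + (64)*s^3 + (-16237)*p + (2561)*p*d + (-104)*p*d^2 + (5625)*p*s + (-32)*p*s*d^2 + (88)*p*s^2 + (-144)*p*s^2*d + (-112)*p*s^3 + (4254)*p^2 + (-800)*p^2*d + (37)*p^2*d^2 + (-912)*p^2*s + (53)*p^2*s*d + (4)*p^2*s*d^2 + (-32)*p^2*s^2 + (4)*p^2*s^2*d + (-720)*p^3 + (105)*p^3*d + (-4)*p^3*d^2 + (85)*p^3*s + (4)*p^3*s*d + (4)*p^3*s^2 + (68)*p^4 + (-8)*p^4*d + (-4)*p^5 : ℂ) := by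
    rw [r_4_3, r_4_4]
    linear_combination ((3)*d + (2)*s + (1)*p : ℂ) * t_3_3 + ((4-p) + 3*((4-p)*b) + 2*((-16) + (4)*d + (8)*p + (-1)*p*d + (-1)*p^2 : ℂ)) * t_2_3 + 3 * ((918) + (-20)*d + (-308)*s + (-16)*s*d + (16)*s^2 + (-281)*p + (21)*p*d + (33)*p*s + (4)*p*s*d + (4)*p*s^2 + (44)*p^2 + (-4)*p^2*d + (-4)*p^3 : ℂ) * hb
  have t_4_4 : (4-p)^4*(1*S 4 4) = ((19800) + (-25504)*s + (10880)*s^2 + (-1536)*s^3 + (-2266)*p + (4168)*p*s + (-2272)*p*s^2 + (384)*p*s^3 + (-583)*p^2 + (520)*p^2*s + (-112)*p^2*s^2 + (-22)*p^3 + (8)*p^3*s : ℂ) := by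
    rw [r_4_4]
    linear_combination ((4-p) + 3*((4-p)*b) + 3*((-16) + (4)*d + (8)*p + (-1)*p*d + (-1)*p^2 : ℂ)) * t_3_3 + 3 * ((792) + (-640)*s + (128)*s^2 + (-154)*p + (144)*p*s + (-32)*p*s^2 + (-11)*p^2 + (4)*p^2*s : ℂ) * hb
  have u_5 : (4-p)^0*(1*S 5 1 + 1*S 5 2 + 1*S 5 3 + 1*S 5 4 + 1*S 5 5) = ((3807) + (-76)*d + (-5)*d^2 + (404)*s + (-79)*s*d + (-4)*s*d^2 + (-42)*s^2 + (-12)*s^2*d + (-8)*s^3 + (-612)*p + (63)*p*d + (4)*p*d^2 + (-81)*p*s + (12)*p*s*d + (4)*p*s^2 + (114)*p^2 + (8)*p^2*s + (-4)*p^3 : ℂ) := by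
    rw [r_5_1, r_5_2, r_5_3, r_5_4, r_5_5]
    linear_combination ((3)*s + (1)*p : ℂ) * t_0_4 + 1 * t_1_4
  have t_0_5 : (4-p)^0*(1*S 5 1 + 1*S 5 2 + 1*S 5 3 + 1*S 5 4 + 1*S 5 5) = 3125 := by linear_combination h5
  have e5 : ((682) + (-76)*d + (-5)*d^2 + (404)*s + (-79)*s*d + (-4)*s*d^2 + (-42)*s^2 + (-12)*s^2*d + (-8)*s^3 + (-612)*p + (63)*p*d + (4)*p*d^2 + (-81)*p*s + (12)*p*s*d + (4)*p*s^2 + (114)*p^2 + (8)*p^2*s + (-4)*p^3 : ℂ) = 0 := by linear_combination t_0_5 - u_5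
  have t_1_5 : (4-p)^1*(1*S 5 1 + 2*S 5 2 + 3*S 5 3 + 4*S 5 4 + 5*S 5 5) = ((62160) + (-1795)*d + (-76)*d^2 + (-5)*d^3 + (-3973)*s + (-1648)*s*d + (-94)*s*d^2 + (-4)*s*d^3 + (-1124)*s^2 + (-119)*s^2*d + (-24)*s^2*d^2 + (34)*s^3 + (-44)*s^3*d + (-24)*s^4 + (-17039)*p + (1544)*p*d + (58)*p*d^2 + (4)*p*d^3 + (-1488)*p*s + (81)*p*s*d + (20)*p*s*d^2 + (-201)*p*s^2 + (44)*p*s^2*d + (20)*p*s^3 + (2676)*p^2 + (-21)*p^2*d + (4)*p^2*d^2 + (283)*p^2*s + (-4)*p^2*s*d + (20)*p^2*s^2 + (-130)*p^3 + (4)*p^3*d + (-20)*p^3*s + (4)*p^4 : ℂ) := by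
    rw [r_5_1, r_5_2, r_5_3, r_5_4, r_5_5]
    linear_combination ((1)*d + (3)*s + (1)*p : ℂ) * t_1_4 + 2 * t_2_4 + ((4-p) + 4*((4-p)*b)) * t_0_4 + 4 * ((256) : ℂ) * hb
  have t_2_5 : (4-p)^2*(1*S 5 2 + 3*S 5 3 + 6*S 5 4 + 10*S 5 5) = ((417474) + (-20528)*d + (-754)*d^2 + (60)*d^3 + (-99836)*s + (-17605)*s*d + (-156)*s*d^2 + (48)*s*d^3 + (-5267)*s^2 + (728)*s^2*d + (368)*s^2*d^2 + (176)*s^3 + (688)*s^3*d + (368)*s^4 + (-179306)*p + (21981)*p*d + (593)*p*d^2 + (-63)*p*d^3 + (6145)*p*s + (4639)*p*s*d + (-405)*p*s*d^2 + (-12)*p*s*d^3 + (4966)*p*s^2 + (-304)*p*s^2*d + (-20)*p*s^2*d^2 + (-26)*p*s^3 + (16)*p*s^3*d + (24)*p*s^4 + (44820)*p^2 + (-4671)*p^2*d + (3)*p^2*d^2 + (12)*p^2*d^3 + (1209)*p^2*s + (-918)*p^2*s*d + (12)*p^2*s*d^2 + (-359)*p^2*s^2 + (-48)*p^2*s^2*d + (-28)*p^2*s^3 + (-6218)*p^3 + (551)*p^3*d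 + (8)*p^3*d^2 + (-447)*p^3*s + (56)*p^3*s*d + (-4)*p^3*s^2 + (508)*p^4 + (-24)*p^4*d + (28)*p^4*s + (-20)*p^5 : ℂ) := by
    rw [r_5_2, r_5_3, r_5_4, r_5_5]
    linear_combination ((2)*d + (3)*s + (1)*p : ℂ) * t_2_4 + 3 * t_3_4 + ((4-p) + 4*((4-p)*b) + 1*((-16) + (4)*d + (8)*p + (-1)*p*d + (-1)*p^2 : ℂ)) * t_1_4 + 4 * ((3807) + (-76)*d + (-5)*d^2 + (-364)*s + (-79)*s*d + (-4)*s*d^2 + (-42)*s^2 + (-12)*s^2*d + (-8)*s^3 + (-868)*p + (63)*p*d + (4)*p*d^2 + (-81)*p*s + (12)*p*s*d + (4)*p*s^2 + (114)*p^2 + (8)*p^2*s + (-4)*p^3 : ℂ) * hb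
  have t_3_5 : (4-p)^3*(1*S 5 3 + 4*S 5 4 + 10*S 5 5) = ((1281888) + (-85614)*d + (-324)*d^2 + (240)*d^3 + (-651310)*s + (-49080)*s*d + (1152)*s*d^2 + (192)*s*d^3 + (66700)*s^2 + (19600)*s^2*d + (1088)*s^2*d^2 + (8448)*s^3 + (-192)*s^3*d + (-1088)*s^4 + (-645226)*p + (97082)*p*d + (401)*p*d^2 + (-312)*p*d^3 + (174074)*p*s + (3052)*p*s*d + (-1512)*p*s*d^2 + (-96)*p*s*d^3 + (1915)*p*s^2 + (-536)*p*s^2*d + (-432)*p*s^2*d^2 + (664)*p*s^3 + (-800)*p*s^3*d + (-464)*p*s^4 + (186898)*p^2 + (-25537)*p^2*d + (-248)*p^2*d^2 + (111)*p^2*d^3 + (-19907)*p^2*s + (-4322)*p^2*s*d + (386)*p^2*s*d^2 + (12)*p^2*s*d^3 + (-4106)*p^2*s^2 + (283)*p^2*s^2*d + (40)*p^2*s^2*d^2 + (-88)*p^2*s^3 + (28)*p^2*s^3*d + (-33444)*p^3 + (3543)*p^3*d + (122)*p^3*d^2 + (-12)*p^3*d^3 + (-263)*p^3*s + (853)*p^3*s*d + (-20)*p^3*s*d^2 + (487)*p^3*s^2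 + (36)*p^3*s^2*d + (28)*p^3*s^3 + (3642)*p^4 + (-217)*p^4*d + (-20)*p^4*d^2 + (351)*p^4*s + (-60)*p^4*s*d + (-4)*p^4*s^2 + (-228)*p^5 + (-4)*p^5*d + (-28)*p^5*s + (4)*p^6 : ℂ) := by
    rw [r_5_3, r_5_4, r_5_5]
    linear_combination ((3)*d + (3)*s + (1)*p : ℂ) * t_3_4 + 4 * t_4_4 + ((4-p) + 4*((4-p)*b) + 2*((-16) + (4)*d + (8)*p + (-1)*p*d + (-1)*p^2 : ℂ)) * t_2_4 + 4 * ((18792) + (-753)*d + (-5649)*s + (-528)*s*d + (-16)*s^2 + (80)*s^2*d + (80)*s^3 + (-6711)*p + (732)*p*d + (740)*p*s + (26)*p*s*d + (42)*p*s^2 + (8)*p*s^2*d + (8)*p*s^3 + (1260)*p^2 + (-99)*p^2*d + (11)*p^2*s + (-12)*p^2*s*d + (-4)*p^2*s^2 + (-122)*p^3 + (4)*p^3*d + (-8)*p^3*s + (4)*p^4 : ℂ) * hb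
  have u_6 : (4-p)^0*(1*S 6 1 + 1*S 6 2 + 1*S 6 3 + 1*S 6 4 + 1*S 6 5 + 1*S 6 6) = ((62160) + (-1795)*d + (-76)*d^2 + (-5)*d^3 + (8527)*s + (-1648)*s*d + (-94)*s*d^2 + (-4)*s*d^3 + (-1124)*s^2 + (-119)*s^2*d + (-24)*s^2*d^2 + (34)*s^3 + (-44)*s^3*d + (-24)*s^4 + (-13914)*p + (1544)*p*d + (58)*p*d^2 + (4)*p*d^3 + (-1488)*p*s + (81)*p*s*d + (20)*p*s*d^2 + (-201)*p*s^2 + (44)*p*s^2*d + (20)*p*s^3 + (2676)*p^2 + (-21)*p^2*d + (4)*p^2*d^2 + (283)*p^2*s + (-4)*p^2*s*d + (20)*p^2*s^2 + (-130)*p^3 + (4)*p^3*d + (-20)*p^3*s + (4)*p^4 : ℂ) := by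
    rw [r_6_1, r_6_2, r_6_3, r_6_4, r_6_5, r_6_6]
    linear_combination ((4)*s + (1)*p : ℂ) * t_0_5 + 1 * t_1_5
  have t_0_6 : (4-p)^0*(1*S 6 1 + 1*S 6 2 + 1*S 6 3 + 1*S 6 4 + 1*S 6 5 + 1*S 6 6) = 46656 := by linear_combination h6
  have e6 : ((15504) + (-1795)*d + (-76)*d^2 + (-5)*d^3 + (8527)*s + (-1648)*s*d + (-94)*s*d^2 + (-4)*s*d^3 + (-1124)*s^2 + (-119)*s^2*d + (-24)*s^2*d^2 + (34)*s^3 + (-44)*s^3*d + (-24)*s^4 + (-13914)*p + (1544)*p*d + (58)*p*d^2 + (4)*p*d^3 + (-1488)*p*s + (81)*p*s*d + (20)*p*s*d^2 + (-201)*p*s^2 + (44)*p*s^2*d + (20)*p*s^3 + (2676)*p^2 + (-21)*p^2*d + (4)*p^2*d^2 + (283)*p^2*s + (-4)*p^2*s*d + (20)*p^2*s^2 + (-130)*p^3 + (4)*p^3*d + (-20)*p^3*s + (4)*p^4 : ℂ) = 0 := by linear_combination t_0_6 - u_6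
  have t_1_6 : (4-p)^1*(1*S 6 1 + 2*S 6 2 + 3*S 6 3 + 4*S 6 4 + 5*S 6 5 + 6*S 6 6) = ((1206823) + (-41396)*d + (-3303)*d^2 + (44)*d^3 + (-5)*d^4 + (-13532)*s + (-46363)*s*d + (-2264)*s*d^2 + (-18)*s*d^3 + (-4)*s*d^4 + (-26426)*s^2 + (-6260)*s^2*d + (241)*s^2*d^2 + (-40)*s^2*d^3 + (-4144)*s^3 + (934)*s^3*d + (-140)*s^3*d^2 + (872)*s^4 + (-200)*s^4*d + (-96)*s^5 + (-408952)*p + (40753)*p*d + (2654)*p*d^2 + (-73)*p*d^3 + (4)*p*d^4 + (-59839)*p*s + (12318)*p*s*d + (-591)*p*s*d^2 + (8)*p*s*d^3 + (2856)*p*s^2 + (-604)*p*s^2*d + (60)*p*s^2*d^2 + (-822)*p*s^3 + (184)*p*s^3*d + (104)*p*s^4 + (88226)*p^2 + (-5122)*p^2*d + (43)*p^2*d^2 + (32)*p^2*d^3 + (11634)*p^2*s + (-1556)*p^2*s*d + (56)*p^2*s*d^2 + (213)*p^2*s^2 + (-48)*p^2*s^2*d + (44)*p^2*s^3 + (-9760)*p^3 + (951)*p^3*d + (24)*p^3*d^2 + (-1131)*p^3*s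 + (104)*p^3*s*d + (-68)*p^3*s^2 + (886)*p^4 + (-40)*p^4*d + (52)*p^4*s + (-36)*p^5 : ℂ) := by
    rw [r_6_1, r_6_2, r_6_3, r_6_4, r_6_5, r_6_6]
    linear_combination ((1)*d + (4)*s + (1)*p : ℂ) * t_1_5 + 2 * t_2_5 + ((4-p) + 5*((4-p)*b)) * t_0_5 + 5 * ((3125) : ℂ) * hb
  have t_2_6 : (4-p)^2*(1*S 6 2 + 3*S 6 3 + 6*S 6 4 + 10*S 6 5 + 15*S 6 6) = ((10248144) + (-601339)*d + (-21136)*d^2 + (-87)*d^3 + (200)*d^4 + (-1936453)*s + (-499300)*s*d + (-16564)*s*d^2 + (1696)*s*d^3 + (160)*s*d^4 + (-235556)*s^2 + (16533)*s^2*d + (5408)*s^2*d^2 + (1392)*s^2*d^3 + (30258)*s^3 + (-8)*s^3*d + (4032)*s^3*d^2 + (-5712)*s^4 + (4752)*s^4*d + (1952)*s^5 + (-5013701)*p + (642662)*p*d + (20629)*p*d^2 + (-370)*p*d^3 + (-210)*p*d^4 + (3922)*p*s + (123288)*p*s*d + (2602)*p*s*d^2 + (-1966)*p*s*d^3 + (-40)*p*s*d^4 + (65587)*p*s^2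 + (32572)*p*s^2*d + (-4064)*p*s^2*d^2 + (-184)*p*s^2*d^3 + (27160)*p*s^3 + (-2812)*p*s^3*d + (-224)*p*s^3*d^2 + (-856)*p*s^4 + (16)*p*s^4*d + (96)*p*s^5 + (1382748)*p^2 + (-128537)*p^2*d + (-4497)*p^2*d^2 + (312)*p^2*d^3 + (40)*p^2*d^4 + (127105)*p^2*s + (-43925)*p^2*s*d + (-1699)*p^2*s*d^2 + (160)*p^2*s*d^3 + (-4984)*p^2*s^2 + (-6597)*p^2*s^2*d + (132)*p^2*s^2*d^2 + (-2550)*p^2*s^3 + (-244)*p^2*s^3*d + (-184)*p^2*s^4 + (-211986)*p^3 + (13482)*p^3*d + (1443)*p^3*d^2 + (24)*p^3*d^3 + (-37788)*p^3*s + (4759)*p^3*s*d + (160)*p^3*s*d^2 + (-1650)*p^3*s^2 + (532)*p^3*s^2*d + (120)*p^3*s^3 + (19464)*p^4 + (136)*p^4*d + (-68)*p^4*d^2 + (4250)*p^4*s + (-260)*p^4*s*d + (176)*p^4*s^2 + (-808)*p^5 + (-44)*p^5*d + (-216)*p^5*s + (8)*p^6 : ℂ) := by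
    rw [r_6_2, r_6_3, r_6_4, r_6_5, r_6_6]
    linear_combination ((2)*d + (4)*s + (1)*p : ℂ) * t_2_5 + 3 * t_3_5 + ((4-p) + 5*((4-p)*b) + 1*((-16) + (4)*d + (8)*p + (-1)*p*d + (-1)*p^2 : ℂ)) * t_1_5 + 5 * ((62160) + (-1795)*d + (-76)*d^2 + (-5)*d^3 + (-3973)*s + (-1648)*s*d + (-94)*s*d^2 + (-4)*s*d^3 + (-1124)*s^2 + (-119)*s^2*d + (-24)*s^2*d^2 + (34)*s^3 + (-44)*s^3*d + (-24)*s^4 + (-17039)*p + (1544)*p*d + (58)*p*d^2 + (4)*p*d^3 + (-1488)*p*s + (81)*p*s*d + (20)*p*s*d^2 + (-201)*p*s^2 + (44)*p*s^2*d + (20)*p*s^3 + (2676)*p^2 + (-21)*p^2*d + (4)*p^2*d^2 + (283)*p^2*s + (-4)*p^2*s*d + (20)*p^2*s^2 + (-130)*p^3 + (4)*p^3*d + (-20)*p^3*s + (4)*p^4 : ℂ) * hb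
  have u_7 : (4-p)^0*(1*S 7 1 + 1*S 7 2 + 1*S 7 3 + 1*S 7 4 + 1*S 7 5 + 1*S 7 6 + 1*S 7 7) = ((1206823) + (-41396)*d + (-3303)*d^2 + (44)*d^3 + (-5)*d^4 + (219748)*s + (-46363)*s*d + (-2264)*s*d^2 + (-18)*s*d^3 + (-4)*s*d^4 + (-26426)*s^2 + (-6260)*s^2*d + (241)*s^2*d^2 + (-40)*s^2*d^3 + (-4144)*s^3 + (934)*s^3*d + (-140)*s^3*d^2 + (872)*s^4 + (-200)*s^4*d + (-96)*s^5 + (-362296)*p + (40753)*p*d + (2654)*p*d^2 + (-73)*p*d^3 + (4)*p*d^4 + (-59839)*p*s + (12318)*p*s*d + (-591)*p*s*d^2 + (8)*p*s*d^3 + (2856)*p*s^2 + (-604)*p*s^2*d + (60)*p*s^2*d^2 + (-822)*p*s^3 + (184)*p*s^3*d + (104)*p*s^4 + (88226)*p^2 + (-5122)*p^2*d + (43)*p^2*d^2 + (32)*p^2*d^3 + (11634)*p^2*s + (-1556)*p^2*s*d + (56)*p^2*s*d^2 + (213)*p^2*s^2 + (-48)*p^2*s^2*d + (44)*p^2*s^3 + (-9760)*p^3 + (951)*p^3*d + (24)*p^3*d^2 + (-1131)*p^3*s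 + (104)*p^3*s*d + (-68)*p^3*s^2 + (886)*p^4 + (-40)*p^4*d + (52)*p^4*s + (-36)*p^5 : ℂ) := by
    rw [r_7_1, r_7_2, r_7_3, r_7_4, r_7_5, r_7_6, r_7_7]
    linear_combination ((5)*s + (1)*p : ℂ) * t_0_6 + 1 * t_1_6
  have t_0_7 : (4-p)^0*(1*S 7 1 + 1*S 7 2 + 1*S 7 3 + 1*S 7 4 + 1*S 7 5 + 1*S 7 6 + 1*S 7 7) = 823543 := by linear_combination h7
  have e7 : ((383280) + (-41396)*d + (-3303)*d^2 + (44)*d^3 + (-5)*d^4 + (219748)*s + (-46363)*s*d + (-2264)*s*d^2 + (-18)*s*d^3 + (-4)*s*d^4 + (-26426)*s^2 + (-6260)*s^2*d + (241)*s^2*d^2 + (-40)*s^2*d^3 + (-4144)*s^3 + (934)*s^3*d + (-140)*s^3*d^2 + (872)*s^4 + (-200)*s^4*d + (-96)*s^5 + (-362296)*p + (40753)*p*d + (2654)*p*d^2 + (-73)*p*d^3 + (4)*p*d^4 + (-59839)*p*s + (12318)*p*s*d + (-591)*p*s*d^2 + (8)*p*s*d^3 + (2856)*p*s^2 + (-604)*p*s^2*d + (60)*p*s^2*d^2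 + (-822)*p*s^3 + (184)*p*s^3*d + (104)*p*s^4 + (88226)*p^2 + (-5122)*p^2*d + (43)*p^2*d^2 + (32)*p^2*d^3 + (11634)*p^2*s + (-1556)*p^2*s*d + (56)*p^2*s*d^2 + (213)*p^2*s^2 + (-48)*p^2*s^2*d + (44)*p^2*s^3 + (-9760)*p^3 + (951)*p^3*d + (24)*p^3*d^2 + (-1131)*p^3*s + (104)*p^3*s*d + (-68)*p^3*s^2 + (886)*p^4 + (-40)*p^4*d + (52)*p^4*s + (-36)*p^5 : ℂ) = 0 := by linear_combination t_0_7 - u_7
  have t_1_7 : (4-p)^1*(1*S 7 1 + 2*S 7 2 + 3*S 7 3 + 4*S 7 4 + 5*S 7 5 + 6*S 7 6 + 7*S 7 7) = ((27121440) + (-1115599)*d + (-83668)*d^2 + (-3477)*d^3 + (444)*d^4 + (-5)*d^5 + (1041465)*s + (-1219112)*s*d + (-96006)*s*d^2 + (1348)*s*d^3 + (277)*s*d^4 + (-4)*s*d^5 + (-538772)*s^2 + (-225175)*s^2*d + (-6764)*s^2*d^2 + (2935)*s^2*d^3 + (-60)*s^2*d^4 + (-71614)*s^3 + (-35460)*s^3*d + (10203)*s^3*d^2 + (-340)*s^3*d^3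 + (-32144)*s^4 + (15046)*s^4*d + (-900)*s^4*d^2 + (8264)*s^5 + (-1096)*s^5*d + (-480)*s^6 + (-10826787)*p + (1114912)*p*d + (78708)*p*d^2 + (1958)*p*d^3 + (-498)*p*d^4 + (4)*p*d^5 + (-2050448)*p*s + (344139)*p*s*d + (28528)*p*s*d^2 + (-4906)*p*s*d^3 + (-56)*p*s*d^4 + (-194447)*p*s^2 + (123330)*p*s^2*d + (-11446)*p*s^2*d^2 + (-308)*p*s^2*d^3 + (64456)*p*s^3 + (-8532)*p*s^3*d + (-104)*p*s^3*d^2 + (-4950)*p*s^4 + (856)*p*s^4*d + (616)*p*s^5 + (2636480)*p^2 + (-128095)*p^2*d + (-11462)*p^2*d^2 + (594)*p^2*d^3 + (116)*p^2*d^4 + (635501)*p^2*s + (-89508)*p^2*s*d + (-5330)*p^2*s*d^2 + (544)*p^2*s*d^3 + (51058)*p^2*s^2 + (-21365)*p^2*s^2*d + (556)*p^2*s^2*d^2 + (-4857)*p^2*s^3 + (-500)*p^2*s^3*d + (-44)*p^2*s^4 + (-335746)*p^3 + (12082)*p^3*d + (3880)*p^3*d^2 + (104)*p^3*d^3 + (-112742)*p^3*s + (11586)*p^3*s*d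 + (600)*p^3*s*d^2 + (-8742)*p^3*s^2 + (1468)*p^3*s^2*d + (-56)*p^3*s^3 + (29168)*p^4 + (2109)*p^4*d + (-152)*p^4*d^2 + (11799)*p^4*s + (-564)*p^4*s*d + (544)*p^4*s^2 + (-730)*p^5 + (-164)*p^5*d + (-560)*p^5*s + (-20)*p^6 : ℂ) := by
    rw [r_7_1, r_7_2, r_7_3, r_7_4, r_7_5, r_7_6, r_7_7]
    linear_combination ((1)*d + (5)*s + (1)*p : ℂ) * t_1_6 + 2 * t_2_6 + ((4-p) + 6*((4-p)*b)) * t_0_6 + 6 * ((46656) : ℂ) * hb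
  have u_8 : (4-p)^0*(1*S 8 1 + 1*S 8 2 + 1*S 8 3 + 1*S 8 4 + 1*S 8 5 + 1*S 8 6 + 1*S 8 7 + 1*S 8 8) = ((27121440) + (-1115599)*d + (-83668)*d^2 + (-3477)*d^3 + (444)*d^4 + (-5)*d^5 + (5982723)*s + (-1219112)*s*d + (-96006)*s*d^2 + (1348)*s*d^3 + (277)*s*d^4 + (-4)*s*d^5 + (-538772)*s^2 + (-225175)*s^2*d + (-6764)*s^2*d^2 + (2935)*s^2*d^3 + (-60)*s^2*d^4 + (-71614)*s^3 + (-35460)*s^3*d + (10203)*s^3*d^2 + (-340)*s^3*d^3 + (-32144)*s^4 + (15046)*s^4*d + (-900)*s^4*d^2 + (8264)*s^5 + (-1096)*s^5*d + (-480)*s^6 + (-10003244)*p + (1114912)*p*d + (78708)*p*d^2 + (1958)*p*d^3 + (-498)*p*d^4 + (4)*p*d^5 + (-2050448)*p*s + (344139)*p*s*d + (28528)*p*s*d^2 + (-4906)*p*s*d^3 + (-56)*p*s*d^4 + (-194447)*p*s^2 + (123330)*p*s^2*d + (-11446)*p*s^2*d^2 + (-308)*p*s^2*d^3 + (64456)*p*s^3 + (-8532)*p*s^3*d + (-104)*p*s^3*d^2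 + (-4950)*p*s^4 + (856)*p*s^4*d + (616)*p*s^5 + (2636480)*p^2 + (-128095)*p^2*d + (-11462)*p^2*d^2 + (594)*p^2*d^3 + (116)*p^2*d^4 + (635501)*p^2*s + (-89508)*p^2*s*d + (-5330)*p^2*s*d^2 + (544)*p^2*s*d^3 + (51058)*p^2*s^2 + (-21365)*p^2*s^2*d + (556)*p^2*s^2*d^2 + (-4857)*p^2*s^3 + (-500)*p^2*s^3*d + (-44)*p^2*s^4 + (-335746)*p^3 + (12082)*p^3*d + (3880)*p^3*d^2 + (104)*p^3*d^3 + (-112742)*p^3*s + (11586)*p^3*s*d + (600)*p^3*s*d^2 + (-8742)*p^3*s^2 + (1468)*p^3*s^2*d + (-56)*p^3*s^3 + (29168)*p^4 + (2109)*p^4*d + (-152)*p^4*d^2 + (11799)*p^4*s + (-564)*p^4*s*d + (544)*p^4*s^2 + (-730)*p^5 + (-164)*p^5*d + (-560)*p^5*s + (-20)*p^6 : ℂ) := by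
    rw [r_8_1, r_8_2, r_8_3, r_8_4, r_8_5, r_8_6, r_8_7, r_8_8]
    linear_combination ((6)*s + (1)*p : ℂ) * t_0_7 + 1 * t_1_7
  have t_0_8 : (4-p)^0*(1*S 8 1 + 1*S 8 2 + 1*S 8 3 + 1*S 8 4 + 1*S 8 5 + 1*S 8 6 + 1*S 8 7 + 1*S 8 8) = 16777216 := by linear_combination h8
  have e8 : ((10344224) + (-1115599)*d + (-83668)*d^2 + (-3477)*d^3 + (444)*d^4 + (-5)*d^5 + (5982723)*s + (-1219112)*s*d + (-96006)*s*d^2 + (1348)*s*d^3 + (277)*s*d^4 + (-4)*s*d^5 + (-538772)*s^2 + (-225175)*s^2*d + (-6764)*s^2*d^2 + (2935)*s^2*d^3 + (-60)*s^2*d^4 + (-71614)*s^3 + (-35460)*s^3*d + (10203)*s^3*d^2 + (-340)*s^3*d^3 + (-32144)*s^4 + (15046)*s^4*d + (-900)*s^4*d^2 + (8264)*s^5 + (-1096)*s^5*d + (-480)*s^6 + (-10003244)*p + (1114912)*p*d + (78708)*p*d^2 + (1958)*p*d^3 + (-498)*p*d^4 + (4)*p*d^5 + (-2050448)*p*s + (344139)*p*s*d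 + (28528)*p*s*d^2 + (-4906)*p*s*d^3 + (-56)*p*s*d^4 + (-194447)*p*s^2 + (123330)*p*s^2*d + (-11446)*p*s^2*d^2 + (-308)*p*s^2*d^3 + (64456)*p*s^3 + (-8532)*p*s^3*d + (-104)*p*s^3*d^2 + (-4950)*p*s^4 + (856)*p*s^4*d + (616)*p*s^5 + (2636480)*p^2 + (-128095)*p^2*d + (-11462)*p^2*d^2 + (594)*p^2*d^3 + (116)*p^2*d^4 + (635501)*p^2*s + (-89508)*p^2*s*d + (-5330)*p^2*s*d^2 + (544)*p^2*s*d^3 + (51058)*p^2*s^2 + (-21365)*p^2*s^2*d + (556)*p^2*s^2*d^2 + (-4857)*p^2*s^3 + (-500)*p^2*s^3*d + (-44)*p^2*s^4 + (-335746)*p^3 + (12082)*p^3*d + (3880)*p^3*d^2 + (104)*p^3*d^3 + (-112742)*p^3*s + (11586)*p^3*s*d + (600)*p^3*s*d^2 + (-8742)*p^3*s^2 + (1468)*p^3*s^2*d + (-56)*p^3*s^3 + (29168)*p^4 + (2109)*p^4*d + (-152)*p^4*d^2 + (11799)*p^4*s + (-564)*p^4*s*d + (544)*p^4*s^2 + (-730)*p^5 + (-164)*p^5*d + (-560)*p^5*s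 + (-20)*p^6 : ℂ) = 0 := by linear_combination t_0_8 - u_8
  have l1 : ((-8) + (1)*d + (3)*s : ℂ) = 0 := by linear_combination ((-4695731/36) + (321316559/8064)*d + (-256962257/68544)*d^2 + (-48955919/274176)*d^3 + (-1516213/1152)*s + (219345095/17136)*s*d + (-35275405/8064)*s*d^2 + (-11399683/68544)*s*d^3 + (1656395263/22848)*s^2 + (-1130951863/91392)*s^2*d + (-33265369/34272)*s^2*d^2 + (-101575261/137088)*s^3 + (-119794433/68544)*s^3*d + (-32331689/34272)*s^4 + (198551233/2016)*p + (-2106389791/68544)*p*d + (110408561/30464)*p*d^2 + (11399683/68544)*p*d^3 + (-7431725941/68544)*p*s + (53548669/4896)*p*s*d + (45917215/34272)*p*s*d^2 + (-509904441/30464)*p*s^2 + (8486921/3808)*p*s^2*d + (51397825/68544)*p*s^3 + (246350183/17136)*p^2 + (21375943/19584)*p^2*d + (-5994371/17136)*p^2*d^2 + (1155634285/45696)*p^2*s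 + (-6649039/34272)*p^2*s*d + (36389603/34272)*p^2*s^2 + (-237482491/34272)*p^3 + (-2679589/9792)*p^3*d + (-75904193/68544)*p^3*s + (582149/2448)*p^4 : ℂ) * e4 + ((3030163/13056)*d^2 + (-4/3)*d^3 + (73599437/137088)*s*d + (14278723/68544)*s*d^2 + (-1112947897/274176)*s^2 + (12994427/17136)*s^2*d + (28691753/68544)*s^3 + (7758883/34272)*p*d + (-14804227/68544)*p*d^2 + (76328947/11424)*p*s + (-20346023/22848)*p*s*d + (10319/336)*p*s^2 + (-37794749/17136)*p^2 + (6271369/68544)*p^2*d + (-2616005/3264)*p^2*s + (5166083/17136)*p^3 : ℂ) * e5 + ((-31051/357)*d + (16/9)*d^2 + (-5157/119)*s*d + (22766/1071)*s^2 + (-160940/1071)*p + (59146/1071)*p*d + (-5504/119)*p*s + (53672/1071)*p^2 : ℂ) * e6 + ((125/9) + (-1/3)*d + (-1/3)*s + (-13/9)*p : ℂ) * e7 + ((-1/9) : ℂ) * e8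
  have l2 : ((7) + (-4)*s + (1)*s^2 + (-1)*p : ℂ) = 0 := by linear_combination ((15497/8) + (-16311/32)*d + (8085/256)*d^2 + (17643/32)*s + (-36929/128)*s*d + (1617/64)*s*d^2 + (-109027/256)*s^2 + (1209/16)*s^2*d + (3219/64)*s^3 + (-13231/8)*p + (27095/64)*p*d + (-1617/64)*p*d^2 + (20357/64)*p*s + (-3091/64)*p*s*d + (2)*p*s^2 + (258)*p^2 + (-1745/64)*p^2*d + (-3219/64)*p^2*s + (-2)*p^3 : ℂ) * l1 + ((2945/256)*d^2 + (6843/128)*s*d + (15577/256)*s^2 + (-107/16)*p*d + (-161/16)*p*s : ℂ) * e4 + ((-99/16)*d + (-233/16)*s + (1)*p : ℂ) * e5 + ((1) : ℂ) * e6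
  have l3 : ((-18) + (21)*s + (-8)*s^2 + (1)*s^3 : ℂ) = 0 := by linear_combination ((269/28) + (-173/112)*d + (-407/112)*s : ℂ) * l2 + ((215/128)*d + (-10653/896)*s + (43/32)*s*d + (647/224)*s^2 + (1761/224)*p + (-43/32)*p*d + (-43/32)*p^2 : ℂ) * l1 + ((59/128)*d + (161/128)*s + (-1/8)*p : ℂ) * e4 + ((-1/8) : ℂ) * e5
  have hs : s = 2 := by
    by_contra hne
    have h1 : (s - 2) * (s - 3) ^ 2 = 0 := by linear_combination l3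
    have h2' : s - 3 = 0 := by
      rcases mul_eq_zero.1 h1 with h | h
      · exact absurd (sub_eq_zero.1 h) hne
      · exact pow_eq_zero_iff (by norm_num) |>.1 h
    have hs3 : s = 3 := sub_eq_zero.1 h2'
    have hp : p = 4 := by rw [hs3] at l2; linear_combination -l2
    have hd : d = -1 := by rw [hs3] at l1; linear_combination l1
    rw [hs3, hp, hd] at hb
    norm_num at hb
  have hp : p = 3 := by rw [hs] at l2; linear_combination -l2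
  have hd : d = 2 := by rw [hs] at l1; linear_combination l1
  refine ⟨hp, hs, hd, ?_⟩
  rw [hs, hp, hd] at hb
  linear_combination hb

end Pool.Agent.H3.RowSum
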