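import Mathlib

set_option autoImplicit false

/-! A small checker for clausal refutations with hints. A clause is a bit mask of literals;
literal `2v` is the variable `v`, literal `2v+1` its negation. The low 32 bits of the stored
numbers are arbitrary. -/

namespace Pool.Agent.H3.Rup

inductive T
  | leaf (c h : ℕ)
  | node (p : ℕ) (l r : T)

noncomputable def getC (t : T) (i : ℕ) : ℕ :=
  T.rec (motive := fun _ => ℕ) (fun c _ => c)
    (fun p _ _ a b => Bool.rec (motive := fun _ => ℕ) a b (Nat.ble p i)) t

noncomputable def getH (t : T) (i : ℕ) : ℕ :=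
  T.rec (motive := fun _ => ℕ) (fun _ h => h)
    (fun p _ _ a b => Bool.rec (motive := fun _ => ℕ) a b (Nat.ble p i)) t

noncomputable def force (e : ℕ) (k : ℕ → Bool) : Bool :=
  Nat.rec (motive := fun _ => Bool) (k 0) (fun n _ => k n.succ) e

theorem force_eq (e : ℕ) (k : ℕ → Bool) : force e k = k e := by cases e <;> rfl

noncomputable def loop (t : T) (i H : ℕ) (fuel : ℕ) : ℕ → ℕ → Bool :=
  Nat.rec (motive := fun _ => ℕ → ℕ → Bool) (fun _ _ => false)
    (fun _ ih A k => force (Nat.mod (Nat.shiftRight H k) 4294967296) fun g =>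
      force (Nat.mod g 1048576) fun h => force (Nat.div g 1048576) fun l =>
      Bool.rec (motive := fun _ => Bool) false
        (force (getC t h) fun D =>
          Bool.rec (motive := fun _ => Bool)
            (Bool.rec (motive := fun _ => Bool) false
              (force (Nat.xor (Nat.lor A (Nat.shiftLeft 1 (Nat.add (Nat.xor l 1) 32))) h) fun A' =>
                force (Nat.add k 32) fun k' => ih A' k')
              (Nat.beq (Nat.shiftRight (Nat.xor D (Nat.land D A)) 32) (Nat.shiftLeft 1 l)))
            (Nat.beq (Nat.shiftRight (Nat.xor D (Nat.land D A)) 32) 0) (Nat.beq l 0))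
        (Nat.ble h.succ i)) fuel

noncomputable def chk (t : T) (ok : ℕ → ℕ → Bool) (i : ℕ) : Bool :=
  force (getC t i) fun C => force (getH t i) fun H =>
    Bool.rec (motive := fun _ => Bool) (ok (Nat.shiftRight C 32) (Nat.shiftRight H 32))
      (loop t i H 100000 C 32) (Nat.beq (Nat.mod H 2) 1)

/-- `f` holds on `[a, a + 2 ^ d)` below `N`. -/
noncomputable def allR (f : ℕ → Bool) (N d : ℕ) : ℕ → Bool :=
  Nat.rec (motive := fun _ => ℕ → Bool) f
    (fun d ih a => Bool.rec (motive := fun _ => Bool) false
      (force (Nat.add a (Nat.pow 2 d)) fun b =>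
        Bool.rec (motive := fun _ => Bool) (ih b) true (Nat.ble N b)) (ih a)) d

theorem allR_sound (f : ℕ → Bool) (N d : ℕ) : ∀ a, allR f N d a = true →
    ∀ i, a ≤ i → i < a + 2 ^ d → i < N → f i = true := by
  induction d with
  | zero =>
    intro a h i h1 h2 _
    obtain rfl : i = a := by omega
    exact h
  | succ d ih =>
    intro a h i h1 h2 h3
    change Bool.rec (motive := fun _ => Bool) false (force (a + 2 ^ d) fun b =>
      Bool.rec (motive := fun _ => Bool) (allR f N d b) true (Nat.ble N b)) (allR f N d a)
        = true at h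
    rw [force_eq] at h
    cases e : allR f N d a with
    | false => rw [e] at h; exact absurd h (by simp)
    | true =>
      rw [e] at h
      by_cases c : i < a + 2 ^ d
      · exact ih a e i h1 c h3
      · cases e' : Nat.ble N (a + 2 ^ d) with
        | false =>
          rw [e'] at h
          exact ih _ h i (by omega) (by rw [pow_succ] at h2; omega) h3
        | true => have := Nat.le_of_ble_eq_true e'; omega

def Sat (tr : ℕ → Prop) (C : ℕ) : Prop := ∃ l, C.testBit l = true ∧ tr l

theorem not_sat_zero (tr : ℕ → Prop) : ¬ Sat tr 0 := by simp [Sat]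

theorem loop_sound (t : T) (i H : ℕ) (tr : ℕ → Prop) (htr : ∀ l, tr l → ¬ tr (l ^^^ 1))
    (hs : ∀ h, h < i → Sat tr (getC t h >>> 32)) (fuel : ℕ) :
    ∀ A k, loop t i H fuel A k = true → Sat tr (A >>> 32) := by
  induction fuel with
  | zero => intro A H h; exact absurd h (by simp [loop])
  | succ fuel ih =>
    intro A k h
    by_contra hA
    change (force ((H >>> k) % 4294967296) fun g =>
      force (g % 1048576) fun h => force (g / 1048576) fun l =>
      Bool.rec (motive := fun _ => Bool) false
        (force (getC t h) fun D =>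
          Bool.rec (motive := fun _ => Bool)
            (Bool.rec (motive := fun _ => Bool) false
              (force ((A ||| (1 <<< ((l ^^^ 1) + 32))) ^^^ h) fun A' =>
                force (k + 32) fun k' => loop t i H fuel A' k')
              (Nat.beq ((D ^^^ (D &&& A)) >>> 32) (1 <<< l)))
            (Nat.beq ((D ^^^ (D &&& A)) >>> 32) 0) (Nat.beq l 0))
        (Nat.ble h.succ i)) = true at h
    simp only [force_eq] at h
    have hg : (H >>> k) % 4294967296 % 1048576 < 2 ^ 32 := by omega
    generalize (H >>> k) % 4294967296 / 1048576 = l at h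
    generalize (H >>> k) % 4294967296 % 1048576 = g at h hg
    cases e1 : Nat.ble g.succ i with
    | false => rw [e1] at h; exact absurd h (by simp)
    | true =>
      rw [e1] at h
      obtain ⟨j, hj, hj'⟩ := hs g (Nat.le_of_ble_eq_true e1)
      generalize getC t g = D at h hj
      have hr : ((D ^^^ (D &&& A)) >>> 32).testBit j = true := by
        have : (A >>> 32).testBit j = false := by
          by_contra hc
          exact hA ⟨j, by simpa using hc, hj'⟩
        rw [Nat.testBit_shiftRight] at hj this ⊢
        simp [hj, this]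
      generalize (D ^^^ (D &&& A)) >>> 32 = r at h hr
      cases e2 : Nat.beq l 0 with
      | true =>
        rw [e2] at h
        rw [Nat.eq_of_beq_eq_true h] at hr
        simp at hr
      | false =>
        rw [e2] at h
        cases e3 : Nat.beq r (1 <<< l) with
        | false => rw [e3] at h; exact absurd h (by simp)
        | true =>
          rw [e3] at h
          rw [Nat.eq_of_beq_eq_true e3, Nat.one_shiftLeft] at hr
          obtain rfl : l = j := by simpa [Nat.testBit_two_pow] using hr
          obtain ⟨x, hx, hx'⟩ := ih _ _ h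
          have hx0 : g.testBit (32 + x) = false :=
            Nat.testBit_lt_two_pow (hg.trans_le (Nat.pow_le_pow_right two_pos (by omega)))
          rw [Nat.testBit_shiftRight, Nat.testBit_xor, hx0, Bool.xor_false, Nat.testBit_or,
            Bool.or_eq_true, Nat.one_shiftLeft] at hx
          rcases hx with hx | hx
          · exact hA ⟨x, by rw [Nat.testBit_shiftRight]; exact hx, hx'⟩
          · obtain rfl : l ^^^ 1 = x := by
              rw [Nat.testBit_two_pow, decide_eq_true_eq] at hx
              omega
            exact htr _ hj' hx'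

theorem sound (t : T) (ok : ℕ → ℕ → Bool) (tr : ℕ → Prop) (htr : ∀ l, tr l → ¬ tr (l ^^^ 1))
    (hok : ∀ C H, ok C H = true → Sat tr C) (N : ℕ) (h : ∀ i, i < N → chk t ok i = true) :
    ∀ i, i < N → Sat tr (getC t i >>> 32) := by
  intro i
  induction i using Nat.strong_induction_on with
  | _ i ih =>
    intro hi
    have h1 := h i hi
    unfold chk at h1
    simp only [force_eq] at h1
    cases e : Nat.beq (Nat.mod (getH t i) 2) 1 with
    | false => rw [e] at h1; exact hok _ _ h1
    | true =>
      rw [e] at h1
      exact loop_sound t i _ tr htr (fun g hg => ih g hg (hg.trans hi)) _ _ _ h1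

/-- The truth value of a literal under the assignment `P`. -/
def lit (P : ℕ → Prop) (l : ℕ) : Prop := if l % 2 = 0 then P (l / 2) else ¬ P (l / 2)

theorem lit_xor (P : ℕ → Prop) (l : ℕ) (h : lit P l) : ¬ lit P (l ^^^ 1) := by
  unfold lit at *
  rcases Nat.even_or_odd l with e | e
  · rw [Nat.xor_one_of_even e]
    obtain ⟨k, rfl⟩ := e
    rw [if_pos (by omega)] at h
    rw [if_neg (by omega), show (k + k + 1) / 2 = (k + k) / 2 by omega]
    exact not_not.2 h
  · rw [Nat.xor_one_of_odd e]
    obtain ⟨k, rfl⟩ := e
    rw [if_neg (by omega)] at h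
    rw [if_pos (by omega), show (2 * k + 1 - 1) / 2 = (2 * k + 1) / 2 by omega]
    exact h

theorem lit_pos (P : ℕ → Prop) (v : ℕ) : lit P (2 * v) ↔ P v := by
  unfold lit; rw [if_pos (by omega), show 2 * v / 2 = v by omega]

theorem lit_neg (P : ℕ → Prop) (v : ℕ) : lit P (2 * v + 1) ↔ ¬ P v := by
  unfold lit; rw [if_neg (by omega), show (2 * v + 1) / 2 = v by omega]

theorem Sat.left {tr : ℕ → Prop} {C : ℕ} (D : ℕ) (h : Sat tr C) : Sat tr (C ||| D) := by
  obtain ⟨l, h1, h2⟩ := h
  exact ⟨l, by simp [h1], h2⟩

theorem Sat.right {tr : ℕ → Prop} {D : ℕ} (C : ℕ) (h : Sat tr D) : Sat tr (C ||| D) := by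
  obtain ⟨l, h1, h2⟩ := h
  exact ⟨l, by simp [h1], h2⟩

theorem sat_pos {P : ℕ → Prop} {v : ℕ} (h : P v) : Sat (lit P) (2 ^ (2 * v)) :=
  ⟨2 * v, by simp, (lit_pos P v).2 h⟩

theorem sat_neg {P : ℕ → Prop} {v : ℕ} (h : ¬ P v) : Sat (lit P) (2 ^ (2 * v + 1)) :=
  ⟨2 * v + 1, by simp, (lit_neg P v).2 h⟩

/-- If all entries below `N` check and entry `N - 1` is the empty clause, no assignment satisfies
the clauses accepted by `ok`. -/
theorem refute (t : T) (ok : ℕ → ℕ → Bool) (P : ℕ → Prop)
    (hok : ∀ C H, ok C H = true → Sat (lit P) C) (N : ℕ) (h : ∀ i, i < N + 1 → chk t ok i = true)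
    (h0 : getC t N >>> 32 = 0) : False :=
  not_sat_zero _ (h0 ▸ sound t ok _ (lit_xor P) hok _ h N (Nat.lt_succ_self N))

end Pool.Agent.H3.Rup
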