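import Mathlib

set_option autoImplicit false

namespace Pool.Agent.H3.SatGame

open Finset

/-- a clause is a set of literals `(variable, sign)` -/
abbrev Clause (n : ℕ) := Finset (Fin n × Bool)

/-- all `k`-clauses on `n` variables -/
def Board (n k : ℕ) : Finset (Clause n) :=
  (powersetCard k univ).filter fun c => ∀ l ∈ c, ∀ l' ∈ c, l.1 = l'.1 → l = l'

/-- the conjunction of the clauses in `C` is satisfiable -/
def Sat {n : ℕ} (C : Finset (Clause n)) : Prop :=
  ∃ s : Fin n → Bool, ∀ c ∈ C, ∃ l ∈ c, s l.1 = l.2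

/-- Waiter wins the `(1:q)` Client-Waiter game from the position with unclaimed clauses `U` and
Client's clauses `C` -/
inductive WaiterWins {n : ℕ} (q : ℕ) : Finset (Clause n) → Finset (Clause n) → Prop
  | done (C : Finset (Clause n)) : Sat C → WaiterWins q ∅ C
  | step (U C O : Finset (Clause n)) : O ⊆ U → 1 ≤ O.card → O.card ≤ q + 1 →
      (∀ c ∈ O, WaiterWins q (U \ O) (insert c C)) → WaiterWins q U C

variable {n : ℕ}

lemma endgame (q : ℕ) (s : Fin n → Bool) (U : Finset (Clause n)) :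
    ∀ C : Finset (Clause n), (∀ c ∈ C, ∃ l ∈ c, s l.1 = l.2) → (∀ c ∈ U, ∃ l ∈ c, s l.1 = l.2) →
      WaiterWins q U C := by
  induction U using Finset.induction_on with
  | empty => intro C h _; exact .done C ⟨s, h⟩
  | insert a U ha ih =>
    intro C h1 h2
    refine .step _ C {a} (by simp) (by simp) (by simp) fun c hc => ?_
    rw [mem_singleton.mp hc, insert_sdiff_of_mem _ (mem_singleton_self a),
      sdiff_singleton_eq_erase, erase_eq_of_notMem ha]
    refine ih _ (fun c hc => ?_) fun c hc => h2 c (mem_insert_of_mem hc)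
    rcases mem_insert.mp hc with rfl | hc
    · exact h2 _ (mem_insert_self _ _)
    · exact h1 c hc

lemma offer_card (k : ℕ) (s : Fin n → Bool) (i : Fin n) (O : Finset (Clause n))
    (h : ∀ c ∈ O, c ∈ Board n k ∧ (∃ b, (i, b) ∈ c) ∧ ∀ l ∈ c, l.1 ≠ i → s l.1 ≠ l.2) :
    O.card ≤ 2 * (n - 1).choose (k - 1) := by
  have h1 : O ⊆ ((univ : Finset Bool) ×ˢ powersetCard (k - 1) (univ.erase i)).image
      fun p => insert (i, p.1) (p.2.image fun x => (x, !s x)) := by
    intro c hc
    obtain ⟨h1, ⟨b, hb⟩, h3⟩ := h c hc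
    rw [Board, mem_filter, mem_powersetCard] at h1
    refine mem_image.mpr ⟨(b, (c.image Prod.fst).erase i), mem_product.mpr ⟨mem_univ _, ?_⟩, ?_⟩
    · rw [mem_powersetCard]
      refine ⟨erase_subset_erase _ (subset_univ _), ?_⟩
      rw [card_erase_of_mem (mem_image.mpr ⟨(i, b), hb, rfl⟩),
        card_image_of_injOn (fun l hl l' hl' e => h1.2 l hl l' hl' e), h1.1.2]
    · ext ⟨x, y⟩
      simp only [mem_insert, mem_image, mem_erase, Prod.mk.injEq]
      constructor
      · rintro (⟨rfl, rfl⟩ | ⟨z, ⟨hz, ⟨l, hl, rfl⟩⟩, rfl, rfl⟩)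
        · exact hb
        · have := h3 l hl hz
          have e : (!s l.1) = l.2 := by
            revert this; cases s l.1 <;> cases l.2 <;> simp
          rw [e]; exact hl
      · intro hx
        by_cases e : x = i
        · left
          have := h1.2 _ hx _ hb e
          exact Prod.mk.inj this
        · right
          refine ⟨x, ⟨e, (x, y), hx, rfl⟩, rfl, ?_⟩
          have := h3 _ hx e
          revert this; cases s x <;> cases y <;> simp
  refine le_trans (card_le_card h1) (le_trans card_image_le ?_)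
  simp [card_erase_of_mem]

lemma waiter (k q : ℕ) (hq : 2 * (n - 1).choose (k - 1) ≤ q + 1) (j : ℕ) :
    ∀ (i : ℕ) (s : Fin n → Bool) (U C : Finset (Clause n)), i + j = n →
      (∀ c ∈ C, ∃ l ∈ c, l.1.val < i ∧ s l.1 = l.2) →
      (∀ c ∈ U, c ∈ Board n k ∧ ((∀ l ∈ c, l.1.val < i) → ∃ l ∈ c, s l.1 = l.2)) →
      WaiterWins q U C := by
  induction j with
  | zero =>
    intro i s U C hi h1 h2
    refine endgame q s U C (fun c hc => ?_) fun c hc => (h2 c hc).2 fun l _ => by omega
    obtain ⟨l, hl, -, h⟩ := h1 c hc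
    exact ⟨l, hl, h⟩
  | succ j ih =>
    intro i s U C hi h1 h2
    let v : Fin n := ⟨i, by omega⟩
    let O := U.filter fun c => (∀ l ∈ c, l.1.val < i + 1) ∧ ∀ l ∈ c, l.1.val < i → s l.1 ≠ l.2
    have hO : ∀ c ∈ O, c ∈ Board n k ∧ (∃ b, (v, b) ∈ c) ∧ ∀ l ∈ c, l.1 ≠ v → s l.1 ≠ l.2 := by
      intro c hc
      obtain ⟨hU, a1, a2⟩ := mem_filter.mp hc
      have a3 : ∀ l ∈ c, l.1 ≠ v → l.1.val < i := by
        intro l hl hne
        have := a1 l hl
        have : l.1.val ≠ i := fun e => hne (Fin.ext e)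
        omega
      refine ⟨(h2 c hU).1, ?_, fun l hl hne => a2 l hl (a3 l hl hne)⟩
      by_contra hn
      push Not at hn
      have a4 : ∀ l ∈ c, l.1.val < i := fun l hl => a3 l hl fun e => hn l.2 (e ▸ hl)
      obtain ⟨l, hl, h⟩ := (h2 c hU).2 a4
      exact a2 l hl (a4 l hl) h
    have next : ∀ b, ∀ c ∈ U \ O, c ∈ Board n k ∧ ((∀ l ∈ c, l.1.val < i + 1) →
        ∃ l ∈ c, Function.update s v b l.1 = l.2) := by
      intro b c hc
      rw [mem_sdiff] at hc
      refine ⟨(h2 c hc.1).1, fun h => ?_⟩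
      by_contra hn
      push Not at hn
      refine hc.2 (mem_filter.mpr ⟨hc.1, h, fun l hl hlt => ?_⟩)
      have := hn l hl
      rwa [Function.update_of_ne (fun e => by rw [e] at hlt; exact lt_irrefl _ hlt)] at this
    have keep : ∀ b, ∀ c ∈ C, ∃ l ∈ c, l.1.val < i + 1 ∧ Function.update s v b l.1 = l.2 := by
      intro b c hc
      obtain ⟨l, hl, a1, a2⟩ := h1 c hc
      refine ⟨l, hl, by omega, ?_⟩
      rwa [Function.update_of_ne (fun e => by rw [e] at a1; exact lt_irrefl _ a1)]
    rcases O.eq_empty_or_nonempty with h0 | h0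
    · refine ih (i + 1) (Function.update s v true) U C (by omega) (keep true) ?_
      have := next true
      rwa [h0, sdiff_empty] at this
    · refine .step U C O (filter_subset _ _) (card_pos.mpr h0)
        (le_trans (offer_card k s v O hO) hq) fun c hc => ?_
      obtain ⟨b, hb⟩ := (hO c hc).2.1
      refine ih (i + 1) (Function.update s v b) _ _ (by omega) (fun c' hc' => ?_) (next b)
      rcases mem_insert.mp hc' with rfl | hc'
      · exact ⟨(v, b), hb, by simp [v], by simp⟩
      · exact keep b c' hc'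

theorem upper (k q : ℕ) (hk : 1 ≤ k) (hq : 2 * (n - 1).choose (k - 1) ≤ q + 1) :
    WaiterWins q (Board n k) ∅ := by
  refine waiter k q hq n 0 (fun _ => true) _ _ (by omega) (by simp) fun c hc => ⟨hc, fun h => ?_⟩
  rw [Board, mem_filter, mem_powersetCard] at hc
  obtain ⟨l, hl⟩ := card_pos.mp (show 0 < c.card by omega)
  exact absurd (h l hl) (by omega)

/-- the potential -/
noncomputable def pot (q : ℕ) (U C : Finset (Clause n)) : ℝ :=
  ∑ s : Fin n → Bool, if ∀ c ∈ C, ∃ l ∈ c, s l.1 = l.2 then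
    (1 - 1 / ((q : ℝ) + 1)) ^ (U.filter fun c => ¬ ∃ l ∈ c, s l.1 = l.2).card else 0

lemma pot_ge (q : ℕ) (U C : Finset (Clause n)) (h : WaiterWins q U C) : 1 ≤ pot q U C := by
  have hq : (0 : ℝ) < (q : ℝ) + 1 := by positivity
  have hl : (0 : ℝ) ≤ 1 - 1 / ((q : ℝ) + 1) := by
    rw [sub_nonneg, div_le_one hq]; linarith [Nat.cast_nonneg (α := ℝ) q]
  induction h with
  | done C hC =>
    obtain ⟨s, hs⟩ := hC
    refine le_trans ?_ (single_le_sum (f := fun s : Fin n → Bool =>
      if ∀ c ∈ C, ∃ l ∈ c, s l.1 = l.2 then (1 - 1 / ((q : ℝ) + 1)) ^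
        ((∅ : Finset (Clause n)).filter fun c => ¬ ∃ l ∈ c, s l.1 = l.2).card else 0)
      (fun s _ => by positivity) (mem_univ s))
    rw [if_pos hs]
    simp
  | step U C O h1 h2 h3 _ ih =>
    have hO : (0 : ℝ) < O.card := by exact_mod_cast h2
    have hO' : (O.card : ℝ) ≤ q + 1 := by exact_mod_cast h3
    have e1 : (O.card : ℝ) ≤ ∑ c ∈ O, pot q (U \ O) (insert c C) := by
      have := sum_le_sum ih
      simpa using this
    have e2 : ∑ c ∈ O, pot q (U \ O) (insert c C) ≤ O.card * pot q U C := by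
      unfold pot
      rw [sum_comm, mul_sum]
      refine sum_le_sum fun s _ => ?_
      by_cases hs : ∀ c ∈ C, ∃ l ∈ c, s l.1 = l.2
      · rw [if_pos hs]
        have a1 : ∀ c ∈ O, (if ∀ c' ∈ insert c C, ∃ l ∈ c', s l.1 = l.2 then
            (1 - 1 / ((q : ℝ) + 1)) ^ ((U \ O).filter fun c => ¬ ∃ l ∈ c, s l.1 = l.2).card else 0) =
            if ∃ l ∈ c, s l.1 = l.2 then
            (1 - 1 / ((q : ℝ) + 1)) ^ ((U \ O).filter fun c => ¬ ∃ l ∈ c, s l.1 = l.2).card
            else 0 := by
          intro c _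
          refine if_congr ?_ rfl rfl
          rw [forall_mem_insert]
          exact and_iff_left hs
        rw [sum_congr rfl a1, ← sum_filter, sum_const, nsmul_eq_mul]
        have a2 := card_filter_add_card_filter_not (s := O) (fun c => ∃ l ∈ c, s l.1 = l.2)
        have a3 : (U.filter fun c => ¬ ∃ l ∈ c, s l.1 = l.2).card =
            (O.filter fun c => ¬ ∃ l ∈ c, s l.1 = l.2).card +
            ((U \ O).filter fun c => ¬ ∃ l ∈ c, s l.1 = l.2).card := by
          rw [← card_union_of_disjoint (disjoint_filter_filter disjoint_sdiff), ← filter_union,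
            union_sdiff_of_subset h1]
        rw [a3, pow_add, ← mul_assoc]
        refine mul_le_mul_of_nonneg_right ?_ (by positivity)
        set f := (O.filter fun c => ¬ ∃ l ∈ c, s l.1 = l.2).card
        have a4 := one_add_mul_le_pow (a := -(1 / ((q : ℝ) + 1))) (by linarith) f
        have a5 : (((O.filter fun c => ∃ l ∈ c, s l.1 = l.2).card : ℕ) : ℝ) = O.card - f := by
          rw [← a2]; push_cast; ring
        have a6 : (O.card : ℝ) * (1 / ((q : ℝ) + 1)) ≤ 1 := by
          rw [mul_one_div, div_le_one hq]; exact hO'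
        rw [a5]
        rw [← sub_eq_add_neg] at a4
        have a7 := mul_le_mul_of_nonneg_left a4 hO.le
        have a8 : (0 : ℝ) ≤ f := Nat.cast_nonneg _
        nlinarith
      · rw [if_neg hs, mul_zero]
        refine le_of_eq (sum_eq_zero fun c _ => if_neg fun h => hs fun c' hc' => ?_)
        exact h c' (mem_insert_of_mem hc')
    exact le_of_mul_le_mul_left (by linarith) hO

theorem lower (k q : ℕ) (h : ((q : ℝ) + 1) * n * Real.log 2 < n.choose k) :
    ¬ WaiterWins q (Board n k) ∅ := by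
  intro hw
  have hq : (0 : ℝ) < (q : ℝ) + 1 := by positivity
  have hl : (0 : ℝ) ≤ 1 - 1 / ((q : ℝ) + 1) := by
    rw [sub_nonneg, div_le_one hq]; linarith [Nat.cast_nonneg (α := ℝ) q]
  have h1 := pot_ge q _ _ hw
  have h2 : ∀ s : Fin n → Bool, n.choose k ≤
      ((Board n k).filter fun c => ¬ ∃ l ∈ c, s l.1 = l.2).card := by
    intro s
    have hinj : Function.Injective fun x : Fin n => (x, !s x) := fun x y e => (Prod.mk.inj e).1
    have := card_le_card_of_injOn (s := powersetCard k (univ : Finset (Fin n)))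
      (t := (Board n k).filter fun c => ¬ ∃ l ∈ c, s l.1 = l.2)
      (fun T => T.image fun x => (x, !s x)) (fun T hT => ?_) (image_injective hinj).injOn
    · simpa using this
    · rw [mem_coe, mem_powersetCard] at hT
      simp only [Board, coe_filter, mem_filter, mem_powersetCard, Set.mem_ofPred_eq]
      refine ⟨⟨⟨subset_univ _, by rw [card_image_of_injective _ hinj, hT.2]⟩, ?_⟩, ?_⟩
      · intro l hl l' hl' e
        obtain ⟨x, -, rfl⟩ := mem_image.mp hl
        obtain ⟨y, -, rfl⟩ := mem_image.mp hl'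
        simp only at e
        rw [e]
      · rintro ⟨l, hl, e⟩
        obtain ⟨x, -, rfl⟩ := mem_image.mp hl
        simp at e
  have h3 : pot q (Board n k) ∅ ≤ 2 ^ n * Real.exp (-(1 / ((q : ℝ) + 1))) ^ n.choose k := by
    unfold pot
    refine le_trans (sum_le_card_nsmul _ _ (Real.exp (-(1 / ((q : ℝ) + 1))) ^ n.choose k)
      fun s _ => ?_) (by simp)
    rw [if_pos (by simp)]
    refine le_trans (pow_le_pow_of_le_one hl (by
      have : 0 ≤ 1 / ((q : ℝ) + 1) := by positivity
      linarith) (h2 s)) (pow_le_pow_left₀ hl ?_ _)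
    have := Real.add_one_le_exp (-(1 / ((q : ℝ) + 1)))
    linarith
  have h4 : (2 : ℝ) ^ n * Real.exp (-(1 / ((q : ℝ) + 1))) ^ n.choose k < 1 := by
    rw [← Real.exp_log (show (0 : ℝ) < 2 by norm_num), ← Real.exp_nat_mul, ← Real.exp_nat_mul,
      ← Real.exp_add, Real.exp_lt_one_iff]
    have : (n : ℝ) * Real.log 2 < n.choose k * (1 / ((q : ℝ) + 1)) := by
      rw [mul_one_div, lt_div_iff₀ hq]; linarith
    linarith
  linarith

end Pool.Agent.H3.SatGame
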