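import Pool.Agent.H3.PST

set_option autoImplicit false

namespace Pool.Agent.H3.SparsePST

open Matrix Pool.Agent.H3.PST

variable (s : ℕ) (h : Fin (2 * s) → ℕ)

abbrev V := Bool ⊕ (Fin (3 * s) ⊕ ((Fin (2 * s) × Bool) ⊕
  ((Σ j : Fin (2 * s), Fin (h j)) ⊕ (Σ q : Fin (2 * s) × Bool, Fin (6 * s - 2 * h q.1)))))

noncomputable instance : DecidableEq (V s h) := Classical.decEq _

def R : V s h → V s h → Bool
  | .inl _, .inr (.inl _) => true
  | .inl _, .inr (.inr (.inl _)) => true
  | .inr (.inr (.inl q)), .inr (.inr (.inr (.inl l))) => decide (q.1 = l.1)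
  | .inr (.inr (.inl q)), .inr (.inr (.inr (.inr l))) => decide (q = l.1)
  | _, _ => false

def G : SimpleGraph (V s h) where
  Adj x y := R s h x y = true ∨ R s h y x = true
  symm := ⟨fun _ _ h => h.symm⟩
  loopless := ⟨fun x hx => by rcases x with _ | _ | _ | _ | _ <;> simp [R] at hx⟩

instance : DecidableRel (G s h).Adj := fun x y => by unfold G; infer_instance

def F {K : Type} (a p q d e : K) : V s h → K :=
  Sum.elim (fun _ => a) (Sum.elim (fun _ => p) (Sum.elim (fun _ => q)
    (Sum.elim (fun _ => d) (fun _ => e))))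

theorem sum_adj {K : Type} [CommSemiring K] (a p q d e : K) (x : V s h) :
    ∑ y, (if (G s h).Adj x y then F s h a p q d e y else 0) =
      Sum.elim (fun _ => 3 * s * p + 4 * s * q) (Sum.elim (fun _ => 2 * a)
        (Sum.elim (fun r => 2 * a + (h r.1 * d + ((6 * s - 2 * h r.1 : ℕ) : K) * e))
          (Sum.elim (fun _ => 2 * q) (fun _ => q)))) x := by
  rcases x with b | i | r | l | l
  · simp [G, R, F, Fintype.sum_sum_type]
    ring
  · simp [G, R, F, Fintype.sum_sum_type, two_mul]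
  · have e1 : ∀ (ι : Type) [Fintype ι] [DecidableEq ι] (g : ι → ℕ) (t : ι) (z : K),
        ∑ l : (Σ j : ι, Fin (g j)), (if t = l.1 then z else 0) = (g t : K) * z := by
      intro ι _ _ g t z
      rw [Fintype.sum_sigma, Finset.sum_eq_single t]
      · simp
      · intro b _ hb
        simp [hb.symm]
      · simp
    simp [G, R, F, Fintype.sum_sum_type, e1, two_mul]
  · simp [G, R, F, Fintype.sum_sum_type, Fintype.sum_prod_type, two_mul, Finset.sum_add_distrib]
  · simp [G, R, F, Fintype.sum_sum_type]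

theorem mulVec_F (hh : ∀ j, h j ≤ 3 * s) (a p q d : ℂ) :
    (G s h).adjMatrix ℂ *ᵥ F s h a p q (2 * d) d =
      F s h (3 * s * p + 4 * s * q) (2 * a) (2 * a + 6 * s * d) (2 * q) q := by
  funext x
  have e : ((G s h).adjMatrix ℂ *ᵥ F s h a p q (2 * d) d) x =
      ∑ y, (if (G s h).Adj x y then F s h a p q (2 * d) d y else 0) := by
    simp [mulVec, dotProduct, SimpleGraph.adjMatrix_apply]
  rw [e, sum_adj]
  rcases x with b | i | r | l | l <;> simp [F]
  rw [Nat.cast_sub (by have := hh r.1; omega)]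
  push_cast
  ring

theorem F_sub (c a p q d a' p' q' d' : ℂ) :
    F s h a p q (2 * d) d - c • F s h a' p' q' (2 * d') d' =
      F s h (a - c * a') (p - c * p') (q - c * q') (2 * (d - c * d')) (d - c * d') := by
  funext x
  rcases x with b | i | r | l | l <;> simp [F]
  ring

theorem pst (hs : 0 < s) (hh : ∀ j, h j ≤ 3 * s) :
    NormedSpace.exp ((Complex.I * ((Real.pi / Real.sqrt (2 * s) : ℝ) : ℂ)) • (G s h).adjMatrix ℂ) *ᵥ
      (Pi.single (.inl true) 1) = Pi.single (.inl false) (-1) := by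
  have hpos : 0 < Real.sqrt (2 * s) := Real.sqrt_pos.2 (by positivity)
  set μ : ℂ := ((Real.sqrt (2 * s) : ℝ) : ℂ) with hμ
  have h0 : μ ≠ 0 := by rw [hμ]; exact_mod_cast hpos.ne'
  have hsq : μ ^ 2 = 2 * s := by
    rw [hμ]
    exact_mod_cast Real.sq_sqrt (show (0 : ℝ) ≤ 2 * s by positivity)
  set c : ℂ := Complex.I * ((Real.pi / Real.sqrt (2 * s) : ℝ) : ℂ) with hc
  have e1 : Complex.exp (c * μ) = -1 := by
    rw [← Complex.exp_pi_mul_I]
    congr 1
    rw [hc]
    push_cast
    rw [← hμ]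
    field_simp
  have e3 : Complex.exp (c * (3 * μ)) = -1 := by
    rw [show c * (3 * μ) = ((3 : ℕ) : ℂ) * (c * μ) by push_cast; ring, Complex.exp_nat_mul, e1]
    norm_num
  apply transfer
  · have hY : (Pi.single (.inl true) 1 + Pi.single (.inl false) 1 : V s h → ℂ) =
        F s h 1 0 0 (2 * 0) 0 := by
      funext x
      rcases x with (_ | _) | i | r | l | l <;> simp [F]
    rw [hY]
    have hZ : F s h (-4 * s : ℂ) 0 0 (2 * 2) 2 ∈
        ES ((G s h).adjMatrix ℂ) (fun θ => False ∨ θ = μ ∨ θ = -μ) := by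
      apply ES_lift2 _ _ μ h0 id id
      rw [mulVec_F s h hh, mulVec_F s h hh, F_sub, hsq]
      convert Submodule.zero_mem _
      funext x
      rcases x with b | i | r | l | l <;> simp [F] <;> ring
    have hY2 := ES_lift2 ((G s h).adjMatrix ℂ) (fun θ => False ∨ θ = μ ∨ θ = -μ) (3 * μ)
      (mul_ne_zero (by norm_num) h0)
      (by rintro (h | h | h)
          · exact h
          · exact h0 (by linear_combination (1 / 2 : ℂ) * h)
          · exact h0 (by linear_combination (1 / 4 : ℂ) * h))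
      (by rintro (h | h | h)
          · exact h
          · exact h0 (by linear_combination (-1 / 4 : ℂ) * h)
          · exact h0 (by linear_combination (-1 / 2 : ℂ) * h))
      (F s h 1 0 0 (2 * 0) 0) (by
        rw [mulVec_F s h hh, mulVec_F s h hh, F_sub, mul_pow, hsq]
        convert hZ using 2 <;> ring)
    refine ES_exp _ _ c (-1) ?_ _ hY2
    rintro θ ((h | rfl | rfl) | rfl | rfl)
    · exact h.elim
    · exact e1
    · rw [mul_neg, Complex.exp_neg, e1]; norm_num
    · exact e3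
    · rw [mul_neg, Complex.exp_neg, e3]; norm_num
  · rw [exp_eigen _ c 0]
    · simp
    · funext x
      rw [mulVec_sub, mulVec_single_one, mulVec_single_one]
      rcases x with (_ | _) | i | r | l | l <;> simp [G, R, SimpleGraph.adjMatrix_apply]

theorem connected (hs : 0 < s) : (G s h).Connected := by
  have : Nonempty (V s h) := ⟨.inl true⟩
  have a1 : ∀ b q, (G s h).Reachable (.inl b) (.inr (.inr (.inl q))) := fun b q =>
    SimpleGraph.Adj.reachable (Or.inl rfl)
  have key : ∀ x, (G s h).Reachable (.inl true) x := by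
    intro x
    rcases x with b | i | r | l | l
    · exact (a1 true (⟨0, by omega⟩, true)).trans (a1 b _).symm
    · exact SimpleGraph.Adj.reachable (Or.inl rfl)
    · exact a1 _ _
    · exact (a1 true (l.1, true)).trans (SimpleGraph.Adj.reachable (Or.inl (by simp [R])))
    · exact (a1 true l.1).trans (SimpleGraph.Adj.reachable (Or.inl (by simp [R])))
  exact ⟨fun a b => (key a).symm.trans (key b)⟩

theorem priv_sum (hh : ∀ j, h j ≤ 3 * s) :
    ∑ j, (6 * s - 2 * h j) + 2 * ∑ j, h j = 12 * s ^ 2 := by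
  rw [Finset.mul_sum, ← Finset.sum_add_distrib,
    Finset.sum_congr rfl (g := fun _ => 6 * s) (fun j _ => by have := hh j; omega)]
  simp; ring

theorem card_V (hh : ∀ j, h j ≤ 3 * s) :
    Fintype.card (V s h) + 3 * ∑ j, h j = 2 + 7 * s + 24 * s ^ 2 := by
  have := priv_sum s h hh
  simp only [Fintype.card_sum, Fintype.card_sigma, Fintype.card_fin, Fintype.card_prod,
    Fintype.card_bool, Fintype.sum_prod_type, Finset.sum_const, Finset.card_univ, smul_eq_mul,
    ← Finset.mul_sum]
  omega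

theorem card_E (hh : ∀ j, h j ≤ 3 * s) :
    (G s h).edgeFinset.card + 2 * ∑ j, h j = 14 * s + 24 * s ^ 2 := by
  have h1 := (G s h).sum_degrees_eq_twice_card_edges
  have h2 : ∀ x, (G s h).degree x = ∑ y, (if (G s h).Adj x y then F s h 1 1 1 1 1 y else 0) := by
    intro x
    rw [← SimpleGraph.card_neighborFinset_eq_degree, SimpleGraph.neighborFinset_eq_filter,
      Finset.card_filter]
    refine Finset.sum_congr rfl fun y _ => ?_
    rcases y with b | i | r | l | l <;> simp [F]
  have := priv_sum s h hh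
  simp only [h2, sum_adj] at h1
  simp only [Fintype.sum_sum_type, Sum.elim_inl, Sum.elim_inr, Fintype.card_sigma,
    Fintype.card_fin, Fintype.card_bool, Fintype.sum_prod_type, Finset.sum_const,
    Finset.card_univ, smul_eq_mul, ← Finset.mul_sum, Finset.sum_add_distrib, mul_one,
    Nat.cast_id, Fintype.card_prod] at h1
  omega

theorem exists_h (k M : ℕ) : ∀ H ≤ k * M, ∃ h : Fin k → ℕ, (∀ j, h j ≤ M) ∧ ∑ j, h j = H := by
  induction k with
  | zero => intro H hH; exact ⟨fun _ => 0, fun _ => Nat.zero_le _, by simp; omega⟩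
  | succ k ih =>
    intro H hH
    rw [Nat.succ_mul] at hH
    obtain ⟨g, hg, e⟩ := ih (H - M) (by omega)
    refine ⟨Fin.cons (min H M) g, fun j => ?_, ?_⟩
    · refine Fin.cases ?_ (fun j => ?_) j
      · simp
      · simpa using hg j
    · rw [Fin.sum_cons, e]; omega

theorem choose_s (n : ℕ) (hn : 1944 ≤ n) : ∃ s H, 0 < s ∧ H ≤ 2 * s * (3 * s) ∧
    n + 3 * H = 2 + 7 * s + 24 * s ^ 2 ∧ 7 * s + H ≤ 70 * Nat.sqrt n := by
  set k := Nat.sqrt (n / 24) with hk
  have h1 : k * k ≤ n / 24 := Nat.sqrt_le _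
  have h2 : n / 24 < (k + 1) * (k + 1) := Nat.lt_succ_sqrt _
  have h3 : k ≤ Nat.sqrt n := Nat.sqrt_le_sqrt (Nat.div_le_self _ _)
  have h4 : 9 ≤ k := Nat.le_sqrt.2 (by omega)
  obtain ⟨d, hd, hm⟩ : ∃ d ≤ 2, (k + 1 + d + 2) % 3 = n % 3 :=
    ⟨(n + 2 * k) % 3, by omega, by omega⟩
  have e : (k + 1 + d) ^ 2 = k * k + 2 * k + 1 + 2 * (k * d) + 2 * d + d * d := by ring
  have e1 : (k + 1) * (k + 1) = k * k + 2 * k + 1 := by ring
  have e2 : 2 * (k + 1 + d) * (3 * (k + 1 + d)) = 6 * (k + 1 + d) ^ 2 := by ring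
  have b1 : k * d ≤ 2 * k := by nlinarith
  have b2 : d * d ≤ 4 := by nlinarith
  have b3 : 9 * k ≤ k * k := by nlinarith
  refine ⟨k + 1 + d, (2 + 7 * (k + 1 + d) + 24 * (k + 1 + d) ^ 2 - n) / 3, by omega, ?_, ?_, ?_⟩
  · rw [e2, e]; omega
  · rw [e]; omega
  · rw [e]; omega

end Pool.Agent.H3.SparsePST
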