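import Mathlib

set_option autoImplicit false

namespace Pool.Agent.H3.SubProd
open Finset

variable {G : Type*} [Group G] [DecidableEq G]

def lam (B : Finset G) (y : G) : ℕ := (B.filter (fun b => b * y ∉ B)).card

theorem lam_add (B : Finset G) (y : G) : (B.filter (fun b => b * y ∈ B)).card + lam B y = B.card :=
  card_filter_add_card_filter_not _

theorem lam_one (B : Finset G) : lam B 1 = 0 := by
  simp [lam]

theorem lam_mul (B : Finset G) (y z : G) : lam B (y * z) ≤ lam B y + lam B z := by
  have h : B.filter (fun b => b * (y * z) ∉ B) ⊆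
      B.filter (fun b => b * y ∉ B) ∪ (B.filter (fun b => b * z ∉ B)).image (fun b => b * y⁻¹) := by
    intro b hb
    rw [mem_filter] at hb
    by_cases h1 : b * y ∈ B
    · refine mem_union_right _ (mem_image.2 ⟨b * y, mem_filter.2 ⟨h1, by rw [mul_assoc]; exact hb.2⟩, by simp⟩)
    · exact mem_union_left _ (mem_filter.2 ⟨hb.1, h1⟩)
  exact (card_le_card h).trans ((card_union_le _ _).trans (Nat.add_le_add_left card_image_le _))

theorem lam_inv (B : Finset G) (y : G) : lam B y⁻¹ = lam B y := by
  have h1 := lam_add B y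
  have h2 := lam_add B y⁻¹
  have h3 : (B.filter (fun b => b * y ∈ B)).card = (B.filter (fun b => b * y⁻¹ ∈ B)).card := by
    refine card_bij (fun b _ => b * y) ?_ ?_ ?_
    · intro b hb
      rw [mem_filter] at hb ⊢
      exact ⟨hb.2, by simpa using hb.1⟩
    · intro a _ b _ h
      exact mul_right_cancel h
    · intro b hb
      rw [mem_filter] at hb
      exact ⟨b * y⁻¹, mem_filter.2 ⟨hb.2, by simpa using hb.1⟩, by simp⟩
  omega

theorem card_union_lam (B : Finset G) (y : G) : (B ∪ B.image (fun b => b * y)).card = B.card + lam B y := by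
  have h : B ∪ B.image (fun b => b * y) = B ∪ (B.filter (fun b => b * y ∉ B)).image (fun b => b * y) := by
    ext a
    simp only [mem_union, mem_image, mem_filter]
    constructor
    · rintro (h | ⟨b, hb, rfl⟩)
      · exact Or.inl h
      · by_cases h1 : b * y ∈ B
        · exact Or.inl h1
        · exact Or.inr ⟨b, ⟨hb, h1⟩, rfl⟩
    · rintro (h | ⟨b, hb, rfl⟩)
      · exact Or.inl h
      · exact Or.inr ⟨b, hb.1, rfl⟩
  rw [h, card_union_of_disjoint, card_image_of_injective _ (mul_left_injective y)]
  · rfl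
  · rw [disjoint_left]
    intro a ha hb
    obtain ⟨b, hb', rfl⟩ := mem_image.1 hb
    exact (mem_filter.1 hb').2 ha

theorem count (B C : Finset G) (r m : ℕ) (hC : ∀ y ∈ C, lam B y ≤ r)
    (hm : ∀ b ∈ B, 4 * (C.filter (fun y => b * y ∈ B)).card ≤ m) :
    4 * (C.card * B.card) ≤ B.card * m + 4 * (C.card * r) := by
  have h1 : ∑ y ∈ C, (B.filter (fun b => b * y ∈ B)).card = ∑ b ∈ B, (C.filter (fun y => b * y ∈ B)).card := by
    simp only [card_filter]
    exact sum_comm
  have h2 : C.card * B.card ≤ ∑ y ∈ C, ((B.filter (fun b => b * y ∈ B)).card + r) := by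
    rw [← smul_eq_mul, ← sum_const]
    refine sum_le_sum fun y hy => ?_
    have := lam_add B y
    have := hC y hy
    omega
  rw [sum_add_distrib, h1, sum_const, smul_eq_mul] at h2
  have h3 : ∑ b ∈ B, 4 * (C.filter (fun y => b * y ∈ B)).card ≤ B.card * m := by
    rw [← smul_eq_mul, ← sum_const]
    exact sum_le_sum hm
  rw [← mul_sum] at h3
  omega

theorem small (B C : Finset G) (r : ℕ) (hr : 4 * r < B.card) (hC : ∀ y ∈ C, lam B y ≤ r) :
    3 * C.card < 4 * B.card := by
  have h := count B C r (4 * B.card) hC (fun b _ => by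
    have : (C.filter (fun y => b * y ∈ B)).card ≤ B.card := by
      refine card_le_card_of_injOn (fun y => b * y) (fun y hy => ?_) (fun x _ y _ h => mul_left_cancel h)
      exact (mem_filter.1 (mem_coe.1 hy)).2
    omega)
  rcases Nat.eq_zero_or_pos C.card with h0 | h0
  · omega
  · have h1 : C.card * (4 * r) < C.card * B.card := Nat.mul_lt_mul_of_pos_left hr h0
    by_contra hh
    have h2 : 4 * B.card * B.card ≤ 3 * C.card * B.card := Nat.mul_le_mul_right _ (by omega)
    nlinarith

/-- some left coset of `K` is more than three quarters full -/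
def Stop (B : Finset G) (K : Subgroup G) : Prop :=
  ∃ F : Finset G, (∀ y, y ∈ F ↔ y ∈ K) ∧ ∃ b ∈ B, 3 * F.card < 4 * (F.filter (fun y => b * y ∈ B)).card

theorem notall (B : Finset G) (K : Subgroup G) (hs : ¬ Stop B K) (r : ℕ) (hr : 4 * r < B.card) :
    ∃ y ∈ K, r < lam B y := by
  by_contra h
  push Not at h
  have hf : (K : Set G).Finite := by
    by_contra hi
    obtain ⟨C, hC, hc⟩ := Set.Infinite.exists_subset_card_eq hi (2 * B.card)
    have := small B C r hr (fun y hy => h y (hC hy))
    omega
  have h1 := count B hf.toFinset r (3 * hf.toFinset.card) (fun y hy => h y (by simpa using hy)) (fun b hb => by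
    by_contra hh
    exact hs ⟨hf.toFinset, by simp, b, hb, by omega⟩)
  have h0 : 0 < hf.toFinset.card := card_pos.2 ⟨1, by simp⟩
  have h2 : hf.toFinset.card * (4 * r) < hf.toFinset.card * B.card := Nat.mul_lt_mul_of_pos_left hr h0
  nlinarith

theorem grow (B T : Finset G) (μ : ℕ) (hμ : 1 ≤ μ) (hB : 32 * μ ≤ B.card) (hT : 32 * μ ≤ T.card)
    (hs : ¬ Stop B (Subgroup.closure (T : Set G))) : ∃ x ∈ T, μ < lam B x := by
  by_contra h
  push Not at h
  have key : ∀ j : ℕ, 12 * (j * μ) < B.card →
      ∃ C : Finset G, (∀ y ∈ C, lam B y ≤ 3 * (j * μ)) ∧ j * T.card ≤ C.card := by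
    intro j
    induction j with
    | zero => exact fun _ => ⟨∅, by simp, by simp⟩
    | succ j ih =>
      intro hj
      have ej : (j + 1) * μ = j * μ + μ := by ring
      have ek : (j + 1) * T.card = j * T.card + T.card := by ring
      rw [ej] at hj
      obtain ⟨C, hC, hc⟩ := ih (by omega)
      have ex : ∃ g, 3 * (j * μ) + μ < lam B g ∧ lam B g ≤ 3 * (j * μ) + 2 * μ := by
        by_contra hn
        push Not at hn
        obtain ⟨y, hy, hy2⟩ := notall B _ hs (3 * (j * μ) + μ) (by omega)
        have : ∀ y ∈ Subgroup.closure (T : Set G), lam B y ≤ 3 * (j * μ) + μ := by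
          intro y hy
          induction hy using Subgroup.closure_induction_right with
          | one => rw [lam_one]; omega
          | mul_right x _ t ht ih2 =>
            have h1 := lam_mul B x t
            have h2 := h t ht
            by_contra h3
            have := hn (x * t) (by omega)
            omega
          | mul_inv_cancel x _ t ht ih2 =>
            have h1 := lam_mul B x t⁻¹
            have h2 := h t ht
            rw [lam_inv] at h1
            by_contra h3
            have := hn (x * t⁻¹) (by omega)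
            omega
        have := this y hy
        omega
      obtain ⟨g, g1, g2⟩ := ex
      refine ⟨C ∪ T.image (fun t => g * t), ?_, ?_⟩
      · intro y hy
        rw [ej]
        rcases mem_union.1 hy with hy | hy
        · have := hC y hy
          omega
        · obtain ⟨t, ht, rfl⟩ := mem_image.1 hy
          have h1 := lam_mul B g t
          have h2 := h t ht
          omega
      · rw [card_union_of_disjoint, card_image_of_injective _ (mul_right_injective g), ek]
        · omega
        · rw [disjoint_left]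
          intro a ha hb
          obtain ⟨t, ht, rfl⟩ := mem_image.1 hb
          have h1 := lam_mul B (g * t) t⁻¹
          rw [lam_inv, mul_inv_cancel_right] at h1
          have h2 := h t ht
          have := hC _ ha
          omega
  have hd := Nat.div_add_mod (B.card - 1) (12 * μ)
  have hm := Nat.mod_lt (B.card - 1) (show 0 < 12 * μ by omega)
  generalize (B.card - 1) / (12 * μ) = j at hd
  generalize (B.card - 1) % (12 * μ) = e at hd hm
  have e1 : 12 * μ * j = 12 * (j * μ) := by ring
  rw [e1] at hd
  obtain ⟨C, hC, hc⟩ := key j (by omega)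
  have h1 := small B C _ (by omega) hC
  have hj : 1 ≤ j := by
    by_contra hh
    have : j = 0 := by omega
    subst this
    omega
  have h2 : μ ≤ j * μ := Nat.le_mul_of_pos_left _ hj
  have h3 : j * (32 * μ) ≤ j * T.card := Nat.mul_le_mul_left _ hT
  have e2 : j * (32 * μ) = 32 * (j * μ) := by ring
  omega

omit [DecidableEq G] in
theorem fin (U : Finset G) : {g : G | ∃ l : List G, l.Nodup ∧ (∀ x ∈ l, x ∈ U) ∧ l.prod = g}.Finite := by
  classical
  refine ((U.powerset.biUnion (fun V => V.toList.permutations.toFinset)).image List.prod).finite_toSet.subset ?_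
  rintro g ⟨l, h1, h2, rfl⟩
  refine mem_coe.2 (mem_image.2 ⟨l, mem_biUnion.2 ⟨l.toFinset, mem_powerset.2 fun x hx => h2 x (List.mem_toFinset.1 hx), ?_⟩, rfl⟩)
  rw [List.mem_toFinset, List.mem_permutations]
  exact (List.toFinset_toList h1).symm

noncomputable def PP (U : Finset G) : Finset G := (fin U).toFinset

omit [DecidableEq G] in
theorem mem_PP {U : Finset G} {g : G} : g ∈ PP U ↔ ∃ l : List G, l.Nodup ∧ (∀ x ∈ l, x ∈ U) ∧ l.prod = g := by
  simp [PP]

omit [DecidableEq G] in
theorem one_mem (U : Finset G) : (1 : G) ∈ PP U := mem_PP.2 ⟨[], by simp, by simp, rfl⟩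

omit [DecidableEq G] in
theorem sub_PP (U : Finset G) : U ⊆ PP U := fun x hx => mem_PP.2 ⟨[x], by simp, by simpa using hx, by simp⟩

omit [DecidableEq G] in
theorem PP_mono {U V : Finset G} (h : U ⊆ V) : PP U ⊆ PP V := by
  intro g hg
  obtain ⟨l, h1, h2, h3⟩ := mem_PP.1 hg
  exact mem_PP.2 ⟨l, h1, fun x hx => h (h2 x hx), h3⟩

omit [DecidableEq G] in
theorem mul_mem {U V S : Finset G} (hd : Disjoint U V) (hU : U ⊆ S) (hV : V ⊆ S) {a b : G}
    (ha : a ∈ PP U) (hb : b ∈ PP V) : a * b ∈ PP S := by
  obtain ⟨l, h1, h2, rfl⟩ := mem_PP.1 ha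
  obtain ⟨m, h3, h4, rfl⟩ := mem_PP.1 hb
  refine mem_PP.2 ⟨l ++ m, ?_, ?_, List.prod_append⟩
  · refine List.Nodup.append h1 h3 ?_
    intro x hx hy
    exact disjoint_left.1 hd (h2 x hx) (h4 x hy)
  · intro x hx
    rcases List.mem_append.1 hx with h | h
    · exact hU (h2 x h)
    · exact hV (h4 x h)

omit [DecidableEq G] in
theorem PP_sub {U : Finset G} {K : Subgroup G} (h : ∀ x ∈ U, x ∈ K) {a : G} (ha : a ∈ PP U) : a ∈ K := by
  obtain ⟨l, -, h2, rfl⟩ := mem_PP.1 ha
  exact K.list_prod_mem fun x hx => h x (h2 x hx)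

theorem proc (S : Finset G) (N : ℕ) (hN : 2 * N ≤ S.card) :
    ∃ U ⊆ S, U.card ≤ N ∧ U.card ^ 2 ≤ 96 * (PP U).card ∧
      (U.card = N ∨ Stop (PP U) (Subgroup.closure ((S \ U : Finset G) : Set G))) := by
  induction N with
  | zero => exact ⟨∅, by simp, by simp, by simp, Or.inl rfl⟩
  | succ N ih =>
    obtain ⟨U, hU, h1, h2, h3⟩ := ih (by omega)
    by_cases hs : Stop (PP U) (Subgroup.closure ((S \ U : Finset G) : Set G))
    · exact ⟨U, hU, by omega, h2, Or.inr hs⟩
    have h4 : U.card = N := h3.resolve_right hs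
    have hT : (S \ U).card = S.card - N := by rw [card_sdiff_of_subset hU, h4]
    have hB : N ≤ (PP U).card := h4 ▸ card_le_card (sub_PP U)
    have hB1 : 1 ≤ (PP U).card := card_pos.2 ⟨1, one_mem U⟩
    have ex : ∃ x ∈ S \ U, (N + 1) ^ 2 ≤ 96 * ((PP U).card + lam (PP U) x) := by
      by_cases hN32 : N < 32
      · obtain ⟨x, hx⟩ : (S \ U).Nonempty := card_pos.1 (by omega)
        refine ⟨x, hx, ?_⟩
        rcases Nat.eq_zero_or_pos N with h0 | h0
        · subst h0; omega
        · nlinarith
      · obtain ⟨x, hx, hl⟩ := grow (PP U) (S \ U) (N / 32) (by omega) (by omega) (by omega) hs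
        refine ⟨x, hx, ?_⟩
        rw [h4] at h2
        have : (N + 1) ^ 2 = N ^ 2 + (2 * N + 1) := by ring
        omega
    obtain ⟨x, hx, hl⟩ := ex
    rw [mem_sdiff] at hx
    have hc : (insert x U).card = N + 1 := by rw [card_insert_of_notMem hx.2, h4]
    refine ⟨insert x U, insert_subset hx.1 hU, hc.le, ?_, Or.inl hc⟩
    rw [hc]
    refine hl.trans (Nat.mul_le_mul_left _ ?_)
    rw [← card_union_lam]
    refine card_le_card (union_subset (PP_mono (subset_insert _ _)) ?_)
    intro a ha
    obtain ⟨b, hb, rfl⟩ := mem_image.1 ha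
    exact mul_mem (V := {x}) (by simpa using hx.2) (subset_insert _ _) (by simp) hb (sub_PP _ (by simp))

end Pool.Agent.H3.SubProd
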