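import Mathlib

set_option autoImplicit false

namespace Pool.Agent.H3.Tad

open Finset

variable {n : ℕ} {a : ℕ → ℕ → ℤ}
  (hr : ∀ i j, 1 ≤ i → 1 ≤ j → i + j ≤ n → a (i + 1) j = |a i j - a i (j + 1)|)

include hr in
lemma path (t : ℕ) : ∀ j, 1 ≤ j → j + t ≤ n → ∃ (c : ℕ) (T : Finset (ℕ × ℕ)), T.card = t ∧
    a (t + 1) j + ∑ p ∈ T, a p.1 p.2 = a 1 c ∧ j ≤ c ∧ c ≤ j + t ∧
    ∀ p ∈ T, 1 ≤ p.1 ∧ p.1 ≤ t ∧ j ≤ p.2 ∧ p.2 + p.1 ≤ j + t + 1 ∧ p.2 ≤ c + 1 ∧ c ≤ p.2 + p.1 := by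
  induction t with
  | zero => intro j _ _; exact ⟨j, ∅, rfl, by simp, le_rfl, le_rfl, by simp⟩
  | succ t ih =>
    intro j h1 h2
    have e := hr (t + 1) j (by omega) h1 (by omega)
    rcases le_total (a (t + 1) (j + 1)) (a (t + 1) j) with h | h
    · obtain ⟨c, T, a1, a2, a3, a4, a5⟩ := ih j h1 (by omega)
      have hn : (t + 1, j + 1) ∉ T := fun hm => by have := a5 _ hm; simp only at this; omega
      refine ⟨c, insert (t + 1, j + 1) T, by rw [card_insert_of_notMem hn, a1], ?_, a3, by omega,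
        fun p hp => ?_⟩
      · rw [sum_insert hn, e, abs_of_nonneg (by omega)]
        simp only
        omega
      · rcases mem_insert.mp hp with rfl | hp
        · simp only; omega
        · have := a5 p hp; omega
    · obtain ⟨c, T, a1, a2, a3, a4, a5⟩ := ih (j + 1) (by omega) (by omega)
      have hn : (t + 1, j) ∉ T := fun hm => by have := a5 _ hm; simp only at this; omega
      refine ⟨c, insert (t + 1, j) T, by rw [card_insert_of_notMem hn, a1], ?_, by omega, by omega,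
        fun p hp => ?_⟩
      · rw [sum_insert hn, e, abs_of_nonpos (by omega)]
        simp only
        omega
      · rcases mem_insert.mp hp with rfl | hp
        · simp only; omega
        · have := a5 p hp; omega

include hr in
lemma tri {M : ℤ} (hM : ∀ j, 1 ≤ j → j ≤ n → a 1 j ≤ M) (t j : ℕ) (h1 : 1 ≤ j) (h2 : j + t ≤ n) :
    ∃ (c : ℕ) (S : Finset (ℕ × ℕ)), S.card = t + 1 ∧ ∑ p ∈ S, a p.1 p.2 ≤ M ∧ j ≤ c ∧ c ≤ j + t ∧
    ∀ p ∈ S, 1 ≤ p.1 ∧ j ≤ p.2 ∧ p.2 + p.1 ≤ j + t + 1 ∧ p.2 ≤ c + 1 ∧ c ≤ p.2 + p.1 := by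
  obtain ⟨c, T, a1, a2, a3, a4, a5⟩ := path hr t j h1 h2
  have hn : (t + 1, j) ∉ T := fun hm => by have := a5 _ hm; simp only at this; omega
  refine ⟨c, insert (t + 1, j) T, by rw [card_insert_of_notMem hn, a1], ?_, a3, a4, fun p hp => ?_⟩
  · rw [sum_insert hn]
    exact a2.le.trans (hM c (by omega) (by omega))
  · rcases mem_insert.mp hp with rfl | hp
    · simp only; omega
    · have := a5 p hp; omega

include hr in
lemma tri' {M : ℤ} (hM0 : 0 ≤ M) (hM : ∀ j, 1 ≤ j → j ≤ n → a 1 j ≤ M) (t j : ℕ) (h1 : 1 ≤ j)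
    (h2 : t = 0 ∨ j + t ≤ n + 1) :
    ∃ S : Finset (ℕ × ℕ), S.card = t ∧ ∑ p ∈ S, a p.1 p.2 ≤ M ∧
    ∀ p ∈ S, 1 ≤ p.1 ∧ j ≤ p.2 ∧ p.2 + p.1 ≤ j + t ∧ p.2 + p.1 ≤ n + 1 := by
  rcases t with _ | t
  · exact ⟨∅, rfl, by simpa, by simp⟩
  · obtain ⟨c, S, a1, a2, -, -, a5⟩ := tri hr hM t j h1 (by omega)
    exact ⟨S, a1, a2, fun p hp => by have := a5 p hp; omega⟩

include hr in
theorem bound (hn : 1 ≤ n) {M : ℤ} (hpos : ∀ i j, 1 ≤ i → 1 ≤ j → i + j ≤ n + 1 → 0 < a i j)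
    (hinj : ∀ i j i' j', 1 ≤ i → 1 ≤ j → i + j ≤ n + 1 → 1 ≤ i' → 1 ≤ j' → i' + j' ≤ n + 1 →
      a i j = a i' j' → i = i' ∧ j = j')
    (hM : ∀ j, 1 ≤ j → j ≤ n → a 1 j ≤ M) : ((n : ℤ) - 1) * (2 * n - 3) ≤ 3 * M := by
  have hM0 : 0 ≤ M := le_trans (hpos 1 1 le_rfl le_rfl (by omega)).le (hM 1 le_rfl hn)
  obtain ⟨c, S, a1, a2, a3, a4, a5⟩ := tri hr hM (n - 1) 1 le_rfl (by omega)
  obtain ⟨L, b1, b2, b3⟩ := tri' hr hM0 hM (c - 2) 1 le_rfl (by omega)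
  obtain ⟨R, c1, c2, c3⟩ := tri' hr hM0 hM (n - c - 1) (c + 2) (by omega) (by omega)
  have d1 : Disjoint S L := disjoint_left.mpr fun p h1 h2 => by
    have := a5 p h1; have := b3 p h2; omega
  have d2 : Disjoint (S ∪ L) R := disjoint_left.mpr fun p h1 h2 => by
    have := c3 p h2
    rcases mem_union.mp h1 with h1 | h1
    · have := a5 p h1; omega
    · have := b3 p h1; omega
  have hin : ∀ p ∈ S ∪ L ∪ R, 1 ≤ p.1 ∧ 1 ≤ p.2 ∧ p.1 + p.2 ≤ n + 1 := by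
    intro p hp
    rcases mem_union.mp hp with hp | hp
    · rcases mem_union.mp hp with hp | hp
      · have := a5 p hp; omega
      · have := b3 p hp; omega
    · have := c3 p hp; omega
  have hI : Set.InjOn (fun p : ℕ × ℕ => a p.1 p.2) (S ∪ L ∪ R : Finset (ℕ × ℕ)) := by
    intro p hp q hq e
    have h1 := hin p hp
    have h2 := hin q hq
    have := hinj _ _ _ _ h1.1 h1.2.1 h1.2.2 h2.1 h2.2.1 h2.2.2 e
    exact Prod.ext this.1 this.2
  have e1 := sum_range_le_sum (s := (S ∪ L ∪ R).image fun p : ℕ × ℕ => a p.1 p.2) (c := 1)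
    (fun x hx => by
      obtain ⟨p, hp, rfl⟩ := mem_image.mp hx
      have h1 := hin p hp
      exact hpos _ _ h1.1 h1.2.1 h1.2.2)
  rw [sum_image hI, card_image_of_injOn hI, sum_union d2, sum_union d1, card_union_of_disjoint d2,
    card_union_of_disjoint d1, a1, b1, c1] at e1
  have e2 : ∀ N : ℕ, 2 * ∑ k ∈ range N, ((1 : ℤ) + k) = N * (N + 1) := by
    intro N
    induction N with
    | zero => simp
    | succ N ih => rw [sum_range_succ, mul_add, ih]; push_cast; ring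
  have e3 := e2 (n - 1 + 1 + (c - 2) + (n - c - 1))
  obtain ⟨N, hN⟩ : ∃ N : ℕ, N = n - 1 + 1 + (c - 2) + (n - c - 1) := ⟨_, rfl⟩
  rw [← hN] at e1 e3
  have e4 : 2 * (n : ℤ) - 3 ≤ N := by omega
  have e5 : (1 : ℤ) ≤ n := by omega
  have e6 : (0 : ℤ) ≤ N := by omega
  nlinarith

end Pool.Agent.H3.Tad
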