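import Mathlib

set_option autoImplicit false

namespace Pool.Agent.H3.TensorDefs

/-- A 3-tensor over `F` of arbitrary format, given by its coordinates. -/
structure Tensor (F : Type*) where
  n₁ : ℕ
  n₂ : ℕ
  n₃ : ℕ
  val : Fin n₁ → Fin n₂ → Fin n₃ → F

variable {F : Type*} [Field F]

/-- Restriction: `S = (A ⊗ B ⊗ C) T` for some linear maps `A, B, C`. -/
def Restr (S T : Tensor F) : Prop :=
  ∃ (A : Matrix (Fin S.n₁) (Fin T.n₁) F) (B : Matrix (Fin S.n₂) (Fin T.n₂) F)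
    (C : Matrix (Fin S.n₃) (Fin T.n₃) F),
    ∀ i j k, S.val i j k = ∑ a, ∑ b, ∑ c, A i a * B j b * C k c * T.val a b c

/-- Direct sum. -/
def dsum (S T : Tensor F) : Tensor F where
  n₁ := S.n₁ + T.n₁
  n₂ := S.n₂ + T.n₂
  n₃ := S.n₃ + T.n₃
  val i j k :=
    match finSumFinEquiv.symm i, finSumFinEquiv.symm j, finSumFinEquiv.symm k with
    | Sum.inl a, Sum.inl b, Sum.inl c => S.val a b c
    | Sum.inr a, Sum.inr b, Sum.inr c => T.val a b c
    | _, _, _ => 0

/-- Kronecker product. -/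
def kron (S T : Tensor F) : Tensor F where
  n₁ := S.n₁ * T.n₁
  n₂ := S.n₂ * T.n₂
  n₃ := S.n₃ * T.n₃
  val i j k :=
    S.val (finProdFinEquiv.symm i).1 (finProdFinEquiv.symm j).1 (finProdFinEquiv.symm k).1 *
      T.val (finProdFinEquiv.symm i).2 (finProdFinEquiv.symm j).2 (finProdFinEquiv.symm k).2

open Classical in
/-- The unit tensor of size `r`. -/
noncomputable def unit (F : Type*) [Field F] (r : ℕ) : Tensor F where
  n₁ := r
  n₂ := r
  n₃ := r
  val i j k := if i = j ∧ j = k then 1 else 0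

/-- The asymptotic spectrum: monotone semiring homomorphisms to the nonnegative reals. -/
def InSpectrum (f : Tensor F → NNReal) : Prop :=
  (∀ S T, Restr S T → f S ≤ f T) ∧ (∀ S T, f (dsum S T) = f S + f T) ∧
    (∀ S T, f (kron S T) = f S * f T) ∧ f (unit F 0) = 0 ∧ f (unit F 1) = 1

/-- Condition (b). -/
def CondB (F : Type*) [Field F] : Prop :=
  ∃ (c : ℚ → Tensor F) (b : Tensor F) (s t : ℝ), 1 < s ∧ s < t ∧
    (∀ q r : ℚ, 2 ≤ q → q ≤ r → Restr (c q) (c r)) ∧
    ∀ l : ℝ, s ≤ l → l ≤ t → ∃ f : Tensor F → NNReal, InSpectrum f ∧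
      (∀ q : ℚ, 2 ≤ q → (f (c q) : ℝ) = q) ∧ (f b : ℝ) = l

/-- Every countable preorder order-embeds into the restriction preorder. -/
def CountablyUniversal (F : Type*) [Field F] : Prop :=
  ∀ (P : Type) [Countable P] [Preorder P],
    ∃ φ : P → Tensor F, ∀ x y, x ≤ y ↔ Restr (φ x) (φ y)

end Pool.Agent.H3.TensorDefs
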