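import Pool.Agent.H3.TensorDefs

set_option autoImplicit false

namespace Pool.Agent.H3.TensorWF

open Pool.Agent.H3.TensorDefs Matrix

variable {F : Type*} [Field F]

def vec (T : Tensor F) : Fin T.n₁ × Fin T.n₂ × Fin T.n₃ → F := fun p => T.val p.1 p.2.1 p.2.2

theorem restr_iff (S T : Tensor F) : Restr S T ↔
    ∃ (A : Matrix (Fin S.n₁) (Fin T.n₁) F) (B : Matrix (Fin S.n₂) (Fin T.n₂) F)
      (C : Matrix (Fin S.n₃) (Fin T.n₃) F),
      vec S = (kroneckerMap (· * ·) A (kroneckerMap (· * ·) B C)).mulVec (vec T) := by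
  unfold Restr
  refine exists_congr fun A => exists_congr fun B => exists_congr fun C => ?_
  constructor
  · intro h
    funext p
    simp [vec, h, mulVec, dotProduct, Fintype.sum_prod_type, mul_assoc]
  · intro h i j k
    have := congrFun h (i, j, k)
    simpa [vec, mulVec, dotProduct, Fintype.sum_prod_type, mul_assoc] using this

theorem restr_refl (T : Tensor F) : Restr T T := by
  rw [restr_iff]
  refine ⟨1, 1, 1, ?_⟩
  rw [one_kronecker_one, one_kronecker_one, one_mulVec]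

theorem restr_trans {S T U : Tensor F} (h1 : Restr S T) (h2 : Restr T U) : Restr S U := by
  rw [restr_iff] at *
  obtain ⟨A, B, C, h1⟩ := h1
  obtain ⟨A', B', C', h2⟩ := h2
  refine ⟨A * A', B * B', C * C', ?_⟩
  rw [h1, h2, mulVec_mulVec, mul_kronecker_mul, mul_kronecker_mul]

theorem factor {m n : ℕ} (A : Matrix (Fin m) (Fin n) F) :
    ∃ (r : ℕ) (P : Matrix (Fin m) (Fin r) F) (Q : Matrix (Fin r) (Fin n) F)
      (L : Matrix (Fin r) (Fin m) F), r ≤ n ∧ A = P * Q ∧ L * P = 1 ∧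
      (r = n → ∃ L' : Matrix (Fin n) (Fin m) F, L' * A = 1) := by
  let f := Matrix.toLin' A
  let r := Module.finrank F (LinearMap.range f)
  let e : LinearMap.range f ≃ₗ[F] (Fin r → F) := (Module.finBasis F (LinearMap.range f)).equivFun
  let p : (Fin r → F) →ₗ[F] (Fin m → F) := (LinearMap.range f).subtype ∘ₗ e.symm.toLinearMap
  let q : (Fin n → F) →ₗ[F] (Fin r → F) := e.toLinearMap ∘ₗ f.rangeRestrict
  have hp : LinearMap.ker p = ⊥ := by
    rw [LinearMap.ker_eq_bot]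
    exact (Submodule.injective_subtype _).comp e.symm.injective
  obtain ⟨l, hl⟩ := LinearMap.exists_leftInverse_of_injective p hp
  have hrank := LinearMap.finrank_range_add_finrank_ker f
  rw [Module.finrank_fin_fun] at hrank
  refine ⟨r, LinearMap.toMatrix' p, LinearMap.toMatrix' q, LinearMap.toMatrix' l, by omega, ?_,
    ?_, ?_⟩
  · rw [← LinearMap.toMatrix'_comp]
    have : p ∘ₗ q = f := by
      ext1 x
      ext1
      simp [p, q]
    rw [this, LinearMap.toMatrix'_toLin']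
  · rw [← LinearMap.toMatrix'_comp, hl, LinearMap.toMatrix'_id]
  · intro hr
    have hk : LinearMap.ker f = ⊥ := Submodule.finrank_eq_zero.1 (by omega)
    obtain ⟨l', hl'⟩ := LinearMap.exists_leftInverse_of_injective f hk
    refine ⟨LinearMap.toMatrix' l', ?_⟩
    have : A = LinearMap.toMatrix' f := (LinearMap.toMatrix'_toLin' A).symm
    rw [this, ← LinearMap.toMatrix'_comp, hl', LinearMap.toMatrix'_id]

theorem shrink {S T : Tensor F} (h : Restr S T) (hn : ¬ Restr T S) :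
    ∃ S' : Tensor F, Restr S S' ∧ Restr S' S ∧ S'.n₁ + S'.n₂ + S'.n₃ < T.n₁ + T.n₂ + T.n₃ := by
  rw [restr_iff] at h
  obtain ⟨A, B, C, h⟩ := h
  obtain ⟨r1, P1, Q1, L1, k1, e1, l1, z1⟩ := factor A
  obtain ⟨r2, P2, Q2, L2, k2, e2, l2, z2⟩ := factor B
  obtain ⟨r3, P3, Q3, L3, k3, e3, l3, z3⟩ := factor C
  let S' : Tensor F := ⟨r1, r2, r3, fun i j k =>
    (kroneckerMap (· * ·) Q1 (kroneckerMap (· * ·) Q2 Q3)).mulVec (vec T) (i, j, k)⟩
  have hv : vec S' = (kroneckerMap (· * ·) Q1 (kroneckerMap (· * ·) Q2 Q3)).mulVec (vec T) := rfl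
  have hS : vec S = (kroneckerMap (· * ·) P1 (kroneckerMap (· * ·) P2 P3)).mulVec (vec S') := by
    rw [hv, mulVec_mulVec, ← mul_kronecker_mul, ← mul_kronecker_mul, ← e1, ← e2, ← e3, h]
  refine ⟨S', (restr_iff _ _).2 ⟨P1, P2, P3, hS⟩, (restr_iff _ _).2 ⟨L1, L2, L3, ?_⟩, ?_⟩
  · rw [hS, mulVec_mulVec, ← mul_kronecker_mul, ← mul_kronecker_mul, l1, l2, l3,
      one_kronecker_one, one_kronecker_one, one_mulVec]
  · by_contra hc
    have hc' : ¬ r1 + r2 + r3 < T.n₁ + T.n₂ + T.n₃ := hc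
    obtain ⟨M1, m1⟩ := z1 (by omega)
    obtain ⟨M2, m2⟩ := z2 (by omega)
    obtain ⟨M3, m3⟩ := z3 (by omega)
    apply hn
    rw [restr_iff]
    refine ⟨M1, M2, M3, ?_⟩
    rw [h, mulVec_mulVec, ← mul_kronecker_mul, ← mul_kronecker_mul, m1, m2, m3,
      one_kronecker_one, one_kronecker_one, one_mulVec]

theorem no_chain_aux (N : ℕ) : ∀ (g : ℕ → Tensor F) (T : Tensor F),
    T.n₁ + T.n₂ + T.n₃ < N → Restr (g 0) T → Restr T (g 0) →
    (∀ n, Restr (g (n + 1)) (g n)) → (∀ n, ¬ Restr (g n) (g (n + 1))) → False := by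
  induction N with
  | zero => intro g T h; omega
  | succ N ih =>
    intro g T hT h1 h2 hg hn
    obtain ⟨S', s1, s2, s3⟩ := shrink (restr_trans (hg 0) h1)
      (fun h => hn 0 (restr_trans h1 h))
    exact ih (fun n => g (n + 1)) S' (by omega) s1 s2 (fun n => hg _) (fun n => hn _)

theorem no_chain (g : ℕ → Tensor F) (hg : ∀ n, Restr (g (n + 1)) (g n))
    (hn : ∀ n, ¬ Restr (g n) (g (n + 1))) : False :=
  no_chain_aux _ g (g 0) (Nat.lt_succ_self _) (restr_refl _) (restr_refl _) hg hn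

end Pool.Agent.H3.TensorWF
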