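import Mathlib

set_option autoImplicit false

namespace Pool.Agent.H3.Ttt

/-- no local winning set (bit mask in `L`) lies inside the mask `m`. -/
def noLine (k : ℕ) (L : List ℕ) (m : ℕ) : Bool :=
  L.all fun s => (List.range k).any fun i => s.testBit i && !m.testBit i

/-- Breaker (replying) survives in the local game on cells `0..k-1`. -/
def W (k : ℕ) (L : List ℕ) : ℕ → ℕ → ℕ → Bool
  | 0, m, b => noLine k L m && (List.range k).all fun x => m.testBit x || b.testBit x
  | n + 1, m, b => noLine k L m && (List.range k).all fun x => m.testBit x || b.testBit x ||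
      (List.range k).any fun y => !(m ||| 2 ^ x).testBit y &&
        (!b.testBit y || Nat.beq ((m ||| 2 ^ x) ||| b) (2 ^ k - 1)) &&
        W k L n (m ||| 2 ^ x) (b ||| 2 ^ y)

theorem W_noLine {k : ℕ} {L : List ℕ} {n m b : ℕ} (h : W k L n m b = true) :
    noLine k L m = true := by
  cases n <;> simp only [W, Bool.and_eq_true] at h <;> exact h.1

theorem W_step {k : ℕ} {L : List ℕ} {n m b x : ℕ} (h : W k L n m b = true) (hx : x < k)
    (hm : m.testBit x = false) (hb : b.testBit x = false) :
    ∃ n' y, y < k ∧ (m ||| 2 ^ x).testBit y = false ∧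
      W k L n' (m ||| 2 ^ x) (b ||| 2 ^ y) = true := by
  cases n with
  | zero =>
    simp only [W, Bool.and_eq_true, List.all_eq_true, List.mem_range] at h
    have := h.2 x hx
    simp [hm, hb] at this
  | succ n =>
    simp only [W, Bool.and_eq_true, List.all_eq_true, List.mem_range] at h
    have := h.2 x hx
    simp only [hm, hb, Bool.false_or, List.any_eq_true, List.mem_range, Bool.and_eq_true,
      Bool.not_eq_true'] at this
    obtain ⟨y, hy, ⟨h1, -⟩, h2⟩ := this
    exact ⟨n, y, hy, h1, h2⟩

section Regions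

variable {α ι : Type} (k : ι → ℕ) (L : ι → List ℕ) (c : ι → ℕ → α)

/-- the global invariant. -/
def G (M B : Set α) : Prop :=
  ∀ r, ∃ n m b, W (k r) (L r) n m b = true ∧ (∀ i < k r, c r i ∈ M → m.testBit i = true) ∧
    (∀ i < k r, b.testBit i = true → c r i ∈ B)

/-- Maker owns a local winning set. -/
def Bad (M : Set α) : Prop :=
  ∃ r, ∃ s ∈ L r, ∀ i < k r, s.testBit i = true → c r i ∈ M

theorem G_notBad {M B : Set α} (h : G k L c M B) : ¬ Bad k L c M := by
  rintro ⟨r, s, hs, hM⟩
  obtain ⟨n, m, b, hW, h1, -⟩ := h r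
  have := W_noLine hW
  simp only [noLine, List.all_eq_true, List.any_eq_true, List.mem_range, Bool.and_eq_true,
    Bool.not_eq_true'] at this
  obtain ⟨i, hi, h2, h3⟩ := this s hs
  have := h1 i hi (hM i hi h2)
  simp [h3] at this

theorem G_mono {M B B' : Set α} (h : G k L c M B) (hB : B ⊆ B') : G k L c M B' := by
  intro r
  obtain ⟨n, m, b, hW, h1, h2⟩ := h r
  exact ⟨n, m, b, hW, h1, fun i hi hb => hB (h2 i hi hb)⟩

theorem G_step (hinj : ∀ r s i j, i < k r → j < k s → c r i = c s j → r = s ∧ i = j)
    {M B : Set α} (h : G k L c M B) {x : α} (hx : x ∉ B) :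
    G k L c (insert x M) B ∨ ∃ y, y ∉ M ∧ y ≠ x ∧ G k L c (insert x M) (insert y B) := by
  classical
  by_cases h0 : ∃ r i, i < k r ∧ c r i = x
  · obtain ⟨r0, i0, hi0, rfl⟩ := h0
    obtain ⟨n, m, b, hW, h1, h2⟩ := h r0
    by_cases hm : m.testBit i0 = true
    · left
      intro r
      by_cases hr : r = r0
      · subst hr
        refine ⟨n, m, b, hW, fun i hi hc => ?_, h2⟩
        rcases hc with hc | hc
        · rw [(hinj _ _ _ _ hi hi0 hc).2]; exact hm
        · exact h1 i hi hc
      · obtain ⟨n', m', b', hW', h1', h2'⟩ := h r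
        refine ⟨n', m', b', hW', fun i hi hc => ?_, h2'⟩
        rcases hc with hc | hc
        · exact absurd (hinj _ _ _ _ hi hi0 hc).1 hr
        · exact h1' i hi hc
    · right
      have hb : b.testBit i0 = false := by
        by_contra hb
        exact hx (h2 i0 hi0 (by simpa using hb))
      obtain ⟨n', y, hy, hy1, hW'⟩ := W_step hW hi0 (by simpa using hm) hb
      rw [Nat.testBit_or, Bool.or_eq_false_iff] at hy1
      refine ⟨c r0 y, fun hc => ?_, fun hc => ?_, fun r => ?_⟩
      · have := h1 y hy hc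
        simp [hy1.1] at this
      · have := (hinj _ _ _ _ hy hi0 hc).2
        subst this
        simp [Nat.testBit_two_pow_self] at hy1
      · by_cases hr : r = r0
        · subst hr
          refine ⟨n', _, _, hW', fun i hi hc => ?_, fun i hi hc => ?_⟩
          · rw [Nat.testBit_or]
            rcases hc with hc | hc
            · rw [(hinj _ _ _ _ hi hi0 hc).2]; simp [Nat.testBit_two_pow_self]
            · simp [h1 i hi hc]
          · rw [Nat.testBit_or, Bool.or_eq_true] at hc
            rcases hc with hc | hc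
            · exact Or.inr (h2 i hi hc)
            · have : y = i := by
                rw [Nat.testBit_two_pow] at hc
                simpa using hc
              subst this
              exact Or.inl rfl
        · obtain ⟨n', m', b', hW', h1', h2'⟩ := h r
          refine ⟨n', m', b', hW', fun i hi hc => ?_, fun i hi hc => Or.inr (h2' i hi hc)⟩
          rcases hc with hc | hc
          · exact absurd (hinj _ _ _ _ hi hi0 hc).1 hr
          · exact h1' i hi hc
  · left
    intro r
    obtain ⟨n', m', b', hW', h1', h2'⟩ := h r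
    refine ⟨n', m', b', hW', fun i hi hc => ?_, h2'⟩
    rcases hc with hc | hc
    · exact absurd ⟨r, i, hi, hc⟩ h0
    · exact h1' i hi hc

end Regions

section Play

variable {α : Type}

/-- cells of the first player. -/
def Mk (l : List α) : Set α := {x | ∃ m : ℕ, Even m ∧ l[m]? = some x}

/-- cells of the second player. -/
def Br (l : List α) : Set α := {x | ∃ m : ℕ, Odd m ∧ l[m]? = some x}

theorem snoc_get (l : List α) (x z : α) (m : ℕ) :
    (l ++ [x])[m]? = some z ↔ l[m]? = some z ∨ (m = l.length ∧ z = x) := by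
  rcases lt_trichotomy m l.length with h | h | h
  · rw [List.getElem?_append_left h]
    constructor
    · exact Or.inl
    · rintro (h1 | h1)
      · exact h1
      · omega
  · subst h
    simp [eq_comm]
  · have h1 : (l ++ [x])[m]? = none := by
      rw [List.getElem?_eq_none_iff]; simp; omega
    have h2 : l[m]? = none := by
      rw [List.getElem?_eq_none_iff]; omega
    rw [h1, h2]
    simp; omega

theorem Mk_even (l : List α) (x : α) (h : Even l.length) : Mk (l ++ [x]) = insert x (Mk l) := by
  ext z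
  simp only [Mk, Set.mem_ofPred_eq, Set.mem_insert_iff, snoc_get]
  constructor
  · rintro ⟨m, hm, h1 | h1⟩
    · exact Or.inr ⟨m, hm, h1⟩
    · exact Or.inl h1.2
  · rintro (h1 | ⟨m, hm, h1⟩)
    · exact ⟨l.length, h, Or.inr ⟨rfl, h1⟩⟩
    · exact ⟨m, hm, Or.inl h1⟩

theorem Mk_odd (l : List α) (x : α) (h : Odd l.length) : Mk (l ++ [x]) = Mk l := by
  ext z
  simp only [Mk, Set.mem_ofPred_eq, snoc_get]
  constructor
  · rintro ⟨m, hm, h1 | h1⟩
    · exact ⟨m, hm, h1⟩
    · rw [h1.1] at hm
      exact absurd hm (Nat.not_even_iff_odd.2 h)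
  · rintro ⟨m, hm, h1⟩
    exact ⟨m, hm, Or.inl h1⟩

theorem Br_odd (l : List α) (x : α) (h : Odd l.length) : Br (l ++ [x]) = insert x (Br l) := by
  ext z
  simp only [Br, Set.mem_ofPred_eq, Set.mem_insert_iff, snoc_get]
  constructor
  · rintro ⟨m, hm, h1 | h1⟩
    · exact Or.inr ⟨m, hm, h1⟩
    · exact Or.inl h1.2
  · rintro (h1 | ⟨m, hm, h1⟩)
    · exact ⟨l.length, h, Or.inr ⟨rfl, h1⟩⟩
    · exact ⟨m, hm, Or.inl h1⟩

theorem Br_even (l : List α) (x : α) (h : Even l.length) : Br (l ++ [x]) = Br l := by
  ext z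
  simp only [Br, Set.mem_ofPred_eq, snoc_get]
  constructor
  · rintro ⟨m, hm, h1 | h1⟩
    · exact ⟨m, hm, h1⟩
    · rw [h1.1] at hm
      exact absurd hm (Nat.not_odd_iff_even.2 h)
  · rintro ⟨m, hm, h1⟩
    exact ⟨m, hm, Or.inl h1⟩

theorem mem_iff (l : List α) (x : α) : x ∈ l ↔ x ∈ Mk l ∨ x ∈ Br l := by
  rw [List.mem_iff_getElem?]
  constructor
  · rintro ⟨m, hm⟩
    rcases Nat.even_or_odd m with h | h
    · exact Or.inl ⟨m, h, hm⟩
    · exact Or.inr ⟨m, h, hm⟩
  · rintro (⟨m, -, hm⟩ | ⟨m, -, hm⟩) <;> exact ⟨m, hm⟩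

theorem play [Nonempty α] (Gd : Set α → Set α → Prop) (Bd : Set α → Prop)
    (h0 : Gd ∅ ∅) (hbad : ∀ M B, Gd M B → ¬ Bd M)
    (hmono : ∀ M B B', Gd M B → B ⊆ B' → Gd M B')
    (hstep : ∀ M B x, Gd M B → x ∉ B →
      Gd (insert x M) B ∨ ∃ y, y ∉ M ∧ y ≠ x ∧ Gd (insert x M) (insert y B)) :
    ∃ σ : List α → α, ∀ l : List α, l.Nodup →
      (∀ k : ℕ, Odd k → ∀ c : α, l[k]? = some c → c = σ (l.take k)) →
      (Odd l.length → (∃ c, c ∉ l) → σ l ∉ l) ∧ ¬ Bd (Mk l) := by
  classical
  let σ : List α → α := fun l =>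
    if h : ∃ y, y ∉ l ∧ Gd (Mk l) (insert y (Br l)) then h.choose else Classical.arbitrary α
  have hσ : ∀ l, (∃ y, y ∉ l ∧ Gd (Mk l) (insert y (Br l))) →
      σ l ∉ l ∧ Gd (Mk l) (insert (σ l) (Br l)) := by
    intro l h
    have : σ l = h.choose := dif_pos h
    rw [this]
    exact h.choose_spec
  have key : ∀ l : List α, l.Nodup →
      (∀ k : ℕ, Odd k → ∀ c : α, l[k]? = some c → c = σ (l.take k)) →
      (Even l.length → Gd (Mk l) (Br l)) ∧ ¬ Bd (Mk l) ∧
      (Odd l.length → (∃ c, c ∉ l) → ∃ y, y ∉ l ∧ Gd (Mk l) (insert y (Br l))) := by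
    intro l
    induction l using List.reverseRecOn with
    | nil =>
      intro _ _
      have e1 : Mk ([] : List α) = ∅ := by ext z; simp [Mk]
      have e2 : Br ([] : List α) = ∅ := by ext z; simp [Br]
      rw [e1, e2]
      exact ⟨fun _ => h0, hbad _ _ h0, fun h => absurd h (by simp)⟩
    | append_singleton l x ih =>
      intro hnd hf
      have hnd' : l.Nodup := (List.nodup_append.1 hnd).1
      have hxl : x ∉ l := by
        intro hx
        exact (List.nodup_append.1 hnd).2.2 x hx x (by simp) rfl
      have hf' : ∀ k : ℕ, Odd k → ∀ c : α, l[k]? = some c → c = σ (l.take k) := by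
        intro k hk c hc
        have hlt : k < l.length := by
          by_contra hh
          rw [List.getElem?_eq_none_iff.2 (by omega)] at hc
          cases hc
        have := hf k hk c ((snoc_get l x c k).2 (Or.inl hc))
        rwa [List.take_append_of_le_length hlt.le] at this
      obtain ⟨ih1, ih2, ih3⟩ := ih hnd' hf'
      have hlen : (l ++ [x]).length = l.length + 1 := by simp
      rcases Nat.even_or_odd l.length with he | ho
      · have hG := ih1 he
        have hxB : x ∉ Br l := fun h => hxl ((mem_iff l x).2 (Or.inr h))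
        rw [Mk_even l x he, Br_even l x he, hlen]
        have hs := hstep _ _ x hG hxB
        refine ⟨fun h => absurd h (by
          rw [Nat.even_add_one]; exact not_not.2 he), ?_, fun _ hc => ?_⟩
        · rcases hs with hs | ⟨y, -, -, hs⟩
          · exact hbad _ _ hs
          · exact hbad _ _ hs
        · obtain ⟨z, hz⟩ := hc
          rcases hs with hs | ⟨y, hy1, hy2, hs⟩
          · exact ⟨z, hz, hmono _ _ _ hs (Set.subset_insert _ _)⟩
          · by_cases hyB : y ∈ Br l
            · rw [Set.insert_eq_of_mem hyB] at hs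
              exact ⟨z, hz, hmono _ _ _ hs (Set.subset_insert _ _)⟩
            · refine ⟨y, ?_, hs⟩
              intro hy
              rcases List.mem_append.1 hy with hy | hy
              · rcases (mem_iff l y).1 hy with h | h
                · exact hy1 h
                · exact hyB h
              · exact hy2 (by simpa using hy)
      · have hx : x = σ l := by
          have := hf l.length ho x ((snoc_get l x x _).2 (Or.inr ⟨rfl, rfl⟩))
          rwa [List.take_left'  rfl] at this
        have hG := (hσ l (ih3 ho ⟨x, hxl⟩)).2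
        rw [Mk_odd l x ho, Br_odd l x ho, hlen]
        refine ⟨fun _ => hx ▸ hG, ih2, fun h => absurd h ?_⟩
        rw [Nat.odd_add_one]
        exact not_not.2 ho
  refine ⟨σ, fun l hnd hf => ?_⟩
  obtain ⟨-, h2, h3⟩ := key l hnd hf
  exact ⟨fun ho hc => (hσ l (h3 ho hc)).1, h2⟩

end Play

theorem grid_W : W 9 [7, 56, 448, 73, 146, 292] 5 0 0 = true := by decide +kernel

theorem pair_W : W 2 [3] 2 0 0 = true := by decide +kernel

end Pool.Agent.H3.Ttt
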