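import Pool.Agent.H3.FoldDefs

set_option autoImplicit false

namespace Pool.Agent.H3.TwoHeawood

open Pool.Agent.H3.FoldDefs

abbrev V := Bool × Bool × ZMod 7

def D : Finset (ZMod 7) := {1, 2, 4}

def adj (x y : V) : Prop :=
  x.1 = y.1 ∧ x.2.1 ≠ y.2.1 ∧ (if x.2.1 = false then y.2.2 - x.2.2 else x.2.2 - y.2.2) ∈ D

instance : DecidableRel adj := fun x y => by unfold adj; infer_instance

theorem adj_symm : ∀ x y, adj x y → adj y x := by decide +kernel

def G : SimpleGraph V where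
  Adj := adj
  symm := ⟨adj_symm⟩
  loopless := ⟨fun _ h => h.2.1 rfl⟩

instance : DecidableRel G.Adj := inferInstanceAs (DecidableRel adj)

def side (x : V) : Bool := x.2.1

def sw (a t : ZMod 7) (x : V) : V :=
  if x.1 = true then (false, x.2.1, a * a * (x.2.2 - t)) else (true, x.2.1, a * x.2.2 + t)

theorem sw_sw : ∀ a ∈ D, ∀ t x, sw a t (sw a t x) = x := by decide +kernel

theorem sw_adj : ∀ a ∈ D, ∀ t x y, adj (sw a t x) (sw a t y) ↔ adj x y := by decide +kernel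

theorem sw_fst (a t : ZMod 7) (x : V) : (sw a t x).1 = !x.1 := by
  unfold sw
  split_ifs with h <;> simp [h]

theorem sw_side (a t : ZMod 7) (x : V) : side (sw a t x) = side x := by
  unfold sw side
  split_ifs <;> rfl

theorem sw_trans : ∀ x y, adj x y → ∀ x' y', adj x' y' → x.2.1 = x'.2.1 → x.1 ≠ x'.1 →
    ∃ a ∈ D, ∃ t, sw a t x = x' ∧ sw a t y = y' := by decide +kernel

def swp (a : ZMod 7) (ha : a ∈ D) (t : ZMod 7) : Equiv.Perm V :=
  ⟨sw a t, sw a t, sw_sw a ha t, sw_sw a ha t⟩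

theorem reach_fst {s : Set V} (x y : s) (h : (G.induce s).Reachable x y) : x.1.1 = y.1.1 := by
  obtain ⟨p⟩ := h
  induction p with
  | nil => rfl
  | cons h _ ih => exact h.1.trans ih

theorem sw_ne (a t : ZMod 7) (x : V) : sw a t x ≠ x := fun h => by
  have := sw_fst a t x
  rw [h] at this
  simp at this

theorem swp_fold (a : ZMod 7) (ha : a ∈ D) (t : ZMod 7) :
    IsFold G side (swp a ha t) {x | x.1 = false} := by
  refine ⟨⟨⟨sw_adj a ha t, sw_side a t⟩, Equiv.ext (sw_sw a ha t), fun h => ?_, fun h => ?_⟩,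
    fun x _ => sw_ne a t x, fun x y h hx => (reach_fst x y h).symm.trans hx, ?_, ?_⟩
  · exact sw_ne a t (false, false, 0) (congrArg (fun φ : Equiv.Perm V => φ (false, false, 0)) h)
  · have := reach_fst _ _ (h.preconnected ⟨(false, false, 0), sw_ne a t (false, false, 0)⟩
      ⟨(true, false, 0), sw_ne a t (true, false, 0)⟩)
    simp at this
  · rw [Set.disjoint_left]
    rintro x hx ⟨y, hy, rfl⟩
    have h1 : (sw a t y).1 = false := hx
    have h2 : y.1 = false := hy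
    rw [sw_fst, h2] at h1
    simp at h1
  · refine Set.eq_univ_of_forall fun x => ?_
    by_cases hx : x.1 = false
    · exact Or.inl (Or.inl hx)
    · refine Or.inr ⟨sw a t x, ?_, sw_sw a ha t x⟩
      show (sw a t x).1 = false
      rw [sw_fst]; simpa using hx

theorem transitive : FoldEdgeTransitive G side := by
  have mem : ∀ a ha t, swp a ha t ∈ foldGroup G side := fun a ha t =>
    Subgroup.subset_closure ⟨_, swp_fold a ha t⟩
  refine ⟨⟨((false, false, 0), (false, true, 1)), rfl, rfl, by decide⟩, ?_⟩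
  rintro ⟨x, y⟩ ⟨h1, -, h3⟩ ⟨x', y'⟩ ⟨h4, -, h6⟩
  by_cases hc : x.1 = x'.1
  · have h1D : (1 : ZMod 7) ∈ D := by decide
    obtain ⟨a, ha, t, e1, e2⟩ := sw_trans (sw 1 0 x) (sw 1 0 y) ((sw_adj 1 h1D 0 x y).2 h3) x' y' h6
      ((sw_side 1 0 x).trans (h1.trans h4.symm)) (by rw [sw_fst, hc]; simp)
    exact ⟨swp a ha t * swp 1 h1D 0, mul_mem (mem _ _ _) (mem _ _ _), Prod.ext e1 e2⟩
  · obtain ⟨a, ha, t, e1, e2⟩ := sw_trans x y h3 x' y' h6 (h1.trans h4.symm) hc
    exact ⟨swp a ha t, mem _ _ _, Prod.ext e1 e2⟩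

theorem common : ∀ x y : V, x.1 = y.1 → x.2.1 = y.2.1 → x ≠ y → ∃ p, adj x p ∧ adj y p := by
  decide +kernel

theorem uniq : ∀ x p, adj x p → ∀ y, adj y p → ∀ q, adj x q → adj y q → x = y ∨ p = q := by
  decide +kernel

theorem three : ∀ x y : V, x ≠ y →
    ∃ m, adj x m ∧ ¬ adj y m ∧ ∃ m', adj x m' ∧ ¬ adj y m' ∧ m ≠ m' := by decide +kernel

theorem same_side : ∀ x m, adj x m → ∀ y m', adj y m' → x.2.1 = y.2.1 → m.2.1 = m'.2.1 := by
  decide +kernel

theorem const {α : Type} (f : V → α) (h : ∀ x y, adj x y → f x = f y) (x y : V) (hc : x.1 = y.1) :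
    f x = f y := by
  have h2 : ∀ x y : V, x.1 = y.1 → x.2.1 = y.2.1 → f x = f y := by
    intro x y h1 h2
    by_cases e : x = y
    · rw [e]
    · obtain ⟨p, p1, p2⟩ := common x y h1 h2 e
      rw [h _ _ p1, h _ _ p2]
  by_cases hs : x.2.1 = y.2.1
  · exact h2 x y hc hs
  · obtain ⟨m, hm, -⟩ := three x (!x.1, x.2) (fun e => by simpa using congrArg Prod.fst e)
    rw [h _ _ hm]
    refine h2 m y (hm.1.symm.trans hc) ?_
    have := hm.2.1
    revert this hs
    cases x.2.1 <;> cases m.2.1 <;> cases y.2.1 <;> simp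

theorem fold_inj (φ : Equiv.Perm V) (L : Set V) (h : IsFold G side φ L) (x y : V)
    (hc : x.1 = y.1) :
    (foldMap φ L x).1 = (foldMap φ L y).1 ∧ (foldMap φ L x = foldMap φ L y → x = y) := by
  obtain ⟨⟨⟨ha, hs⟩, hinv, -, -⟩, hL, hcl, hdis, -⟩ := h
  have ha' : ∀ x y, adj (φ x) (φ y) ↔ adj x y := ha
  have inv : ∀ x, φ (φ x) = x := fun x => congrArg (fun ψ : Equiv.Perm V => ψ x) hinv
  have cl : ∀ x ∈ L, ∀ y, φ y ≠ y → adj x y → y ∈ L := fun x hx y hy hxy =>
    hcl ⟨x, hL hx⟩ ⟨y, hy⟩ (SimpleGraph.Adj.reachable hxy) hx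
  have dis : ∀ x ∈ L, φ x ∉ L := fun x hx hx' => Set.disjoint_left.1 hdis hx' ⟨x, hx, rfl⟩
  have swap : ∀ x ∈ L, (φ x).1 ≠ x.1 := by
    intro x hx hcopy
    obtain ⟨m, m1, m2, m', m3, m4, m5⟩ := three x (φ x) (hL hx).symm
    have n1 : φ m ≠ m := fun e => m2 (by rw [← e]; exact (ha' _ _).2 m1)
    have n2 : φ m' ≠ m' := fun e => m4 (by rw [← e]; exact (ha' _ _).2 m3)
    have l1 := cl x hx m n1 m1
    have l2 := cl x hx m' n2 m3
    have a2 := (ha' _ _).2 m3
    obtain ⟨p, p1, p2⟩ := common m (φ m') (m1.1.symm.trans (hcopy.symm.trans a2.1))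
      (same_side x m m1 (φ x) (φ m') a2 (hs x).symm) (fun e => dis m' l2 (e ▸ l1))
    by_cases hp : φ p = p
    · have p3 : adj m' p := by
        rw [← ha', hp]; exact p2
      rcases uniq m p p1 m' p3 x (adj_symm _ _ m1) (adj_symm _ _ m3) with e | e
      · exact m5 e
      · exact hL hx (e ▸ hp)
    · exact dis m' l2 (cl p (cl m l1 p hp p1) (φ m') (by rw [inv]; exact n2.symm)
        (adj_symm _ _ p2))
  have cl2 : ∀ x ∈ L, ∀ y, adj x y → y ∈ L := by
    intro x hx y hxy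
    refine cl x hx y (fun e => swap x hx ?_) hxy
    have := ((ha' _ _).2 hxy).1
    rw [this, e, hxy.1]
  have hm : (x ∈ L) = (y ∈ L) := const (fun z => z ∈ L)
    (fun a b hab => propext ⟨fun h => cl2 a h b hab, fun h => cl2 b h a (adj_symm _ _ hab)⟩) x y hc
  unfold foldMap
  by_cases hx : x ∈ L
  · rw [if_pos hx, if_pos (hm ▸ hx)]
    exact ⟨hc, id⟩
  · rw [if_neg hx, if_neg (hm ▸ hx)]
    exact ⟨const (fun z => (φ z).1) (fun a b hab => ((ha' _ _).2 hab).1) x y hc,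
      fun e => φ.injective e⟩

theorem not_percolating : ¬ CutPercolating G side := by
  rintro ⟨e, -, h⟩
  have key : ∀ F, Relation.ReflTransGen (Step G side) {e} F →
      ∀ a ∈ F, ∀ b ∈ F, a.1.1 = b.1.1 → a.1 = b.1 := by
    intro F hF
    induction hF with
    | refl => rintro a rfl b rfl _; rfl
    | tail _ hs ih =>
      obtain ⟨φ, L, hf, rfl⟩ := hs
      intro a ha b hb hc
      obtain ⟨h1, h2⟩ := fold_inj φ L hf a.1 b.1 hc
      exact h2 (ih _ ha.2 _ hb.2 h1)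
  have := key _ h ((false, false, 0), (false, true, 1)) ⟨rfl, rfl, by decide⟩
    ((false, false, 1), (false, true, 2)) ⟨rfl, rfl, by decide⟩ rfl
  revert this
  decide

end Pool.Agent.H3.TwoHeawood
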