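import Mathlib

set_option autoImplicit false

namespace Pool.Agent.H3.WLDefs

variable {V C : Type} [Fintype V] (G : SimpleGraph V) (col : V → C) (k : ℕ)

/-- The type of colours used in round `t`. -/
def Col (C : Type) (k : ℕ) : ℕ → Type
  | 0 => (Fin k → Fin k → Prop) × (Fin k → Fin k → Prop) × (Fin k → C)
  | t + 1 => Col C k t × Multiset (Fin k → Col C k t)

/-- The colour of the `k`-tuple `S` after `t` rounds of the `k`-dim WL method. -/
noncomputable def wl : (t : ℕ) → (Fin k → V) → Col C k t
  | 0, S => (fun i j => S i = S j, fun i j => G.Adj (S i) (S j), fun i => col (S i))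
  | t + 1, S => (wl t S, Finset.univ.val.map fun x : V => fun i => wl t (Function.update S i x))

/-- Colours of tuples of length `k - j`. -/
def Down (C : Type) (k : ℕ) : ℕ → Type
  | 0 => (t : ℕ) → Col C k t
  | j + 1 => Multiset (Down C k j)

/-- The stable colour of a `k`-tuple is the record of its colours in all rounds; a shorter tuple
gets the multiset of the colours of its one-point extensions. -/
noncomputable def down : (j m : ℕ) → m + j = k → (Fin m → V) → Down C k j
  | 0, _, h, S => fun t => wl G col k t (fun i => S (Fin.cast h.symm i))
  | j + 1, m, h, S => Finset.univ.val.map fun y : V =>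
      down j (m + 1) (by omega) (Fin.snoc (α := fun _ => V) S y)

/-- The colour of a vertex under the `(j+1)`-dim WL method. -/
noncomputable def vertexColour (j : ℕ) (v : V) : Down C (j + 1) j :=
  down G col (j + 1) j 1 (by omega) (fun _ => v)

/-- The `(j+1)`-dim WL method refines the coloured graph to its orbits. -/
def RefinesToOrbits (j : ℕ) : Prop :=
  ∀ u v : V, vertexColour G col j u = vertexColour G col j v ↔
    ∃ φ : G ≃g G, (∀ x, col (φ x) = col x) ∧ φ u = v

open Classical in
/-- The colouring of the vertex-stabilised graph: `v` gets a new colour. -/
noncomputable def stabilise {V C : Type} (col : V → C) (v : V) : V → Option C :=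
  fun x => if x = v then none else some (col x)

end Pool.Agent.H3.WLDefs
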