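import Pool.Agent.H3.WLDefs

set_option autoImplicit false

namespace Pool.Agent.H3.WLProof

open Pool.Agent.H3.WLDefs

section general
variable {V C : Type} [Fintype V] (G : SimpleGraph V) (col : V → C) (k : ℕ)

theorem map_univ_eq {β : Type} (f g : V → β) (π : V ≃ V) (h : ∀ x, f x = g (π x)) :
    Finset.univ.val.map f = Finset.univ.val.map g := by
  conv_rhs => rw [← Finset.univ_map_equiv_to_embedding π]
  rw [Finset.map_val, Multiset.map_map]
  exact Multiset.map_congr rfl fun x _ => h x

theorem down_eq (R : (m : ℕ) → (Fin m → V) → (Fin m → V) → Prop)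
    (h0 : ∀ S S', R k S S' → wl G col k 0 S = wl G col k 0 S')
    (h1 : ∀ S S', R k S S' → ∃ π : V ≃ V, ∀ x i,
      R k (Function.update S i x) (Function.update S' i (π x)))
    (h2 : ∀ m, m < k → ∀ S S', R m S S' → ∃ π : V ≃ V, ∀ y,
      R (m + 1) (Fin.snoc (α := fun _ => V) S y) (Fin.snoc (α := fun _ => V) S' (π y)))
    (j : ℕ) : ∀ (m : ℕ) (h : m + j = k) (S S' : Fin m → V), R m S S' →
      down G col k j m h S = down G col k j m h S' := by
  have key : ∀ t S S', R k S S' → wl G col k t S = wl G col k t S' := by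
    intro t
    induction t with
    | zero => exact h0
    | succ t ih =>
      intro S S' hR
      obtain ⟨π, hπ⟩ := h1 S S' hR
      exact Prod.ext (ih S S' hR) (map_univ_eq _ _ π fun x => funext fun i => ih _ _ (hπ x i))
  induction j with
  | zero =>
    intro m h S S' hR
    obtain rfl : m = k := h
    exact funext fun t => key t _ _ hR
  | succ j ih =>
    intro m h S S' hR
    obtain ⟨π, hπ⟩ := h2 m (by omega) S S' hR
    exact map_univ_eq _ _ π fun y => ih _ _ _ _ (hπ y)

theorem col_of_down (j : ℕ) : ∀ (m : ℕ) (h : m + j = k) (S S' : Fin m → V),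
    down G col k j m h S = down G col k j m h S' → ∀ i, col (S i) = col (S' i) := by
  induction j with
  | zero =>
    intro m h S S' e i
    obtain rfl : m = k := h
    exact congrFun (congrArg (fun c => c.2.2) (congrFun e 0)) i
  | succ j ih =>
    intro m h S S' e i
    have hm : down G col k j (m + 1) (by omega) (Fin.snoc (α := fun _ => V) S (S i)) ∈
        (Finset.univ.val.map fun y : V =>
          down G col k j (m + 1) (by omega) (Fin.snoc (α := fun _ => V) S' y)) := by
      have e' : (Finset.univ.val.map fun y : V =>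
          down G col k j (m + 1) (by omega) (Fin.snoc (α := fun _ => V) S y)) =
          (Finset.univ.val.map fun y : V =>
          down G col k j (m + 1) (by omega) (Fin.snoc (α := fun _ => V) S' y)) := e
      rw [← e']
      exact Multiset.mem_map_of_mem _ (Finset.mem_univ _)
    obtain ⟨y, -, hy⟩ := Multiset.mem_map.1 hm
    simpa using ih _ _ _ _ hy.symm i.castSucc

theorem vc_of_aut (j : ℕ) (φ : G ≃g G) (hφ : ∀ x, col (φ x) = col x) (u : V) :
    vertexColour G col j u = vertexColour G col j (φ u) := by
  refine down_eq G col (j + 1) (fun _ S S' => ∀ i, S' i = φ (S i)) ?_ ?_ ?_ j 1 _ _ _ fun _ => rfl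
  · intro S S' h
    simp only [wl, h, hφ, φ.map_adj_iff, EmbeddingLike.apply_eq_iff_eq]
  · intro S S' h
    refine ⟨φ.toEquiv, fun x i l => ?_⟩
    by_cases e : l = i
    · subst e; simp
    · simp [e, h]
  · intro m _ S S' h
    refine ⟨φ.toEquiv, fun y l => ?_⟩
    refine Fin.lastCases ?_ (fun l => ?_) l
    · simp
    · simp [h]

end general

variable (k : ℕ)

abbrev B := Fin (k + 3)
abbrev V := B k × (B k → ZMod 2)

def G : SimpleGraph (V k) where
  Adj a b := a.1 ≠ b.1 ∧ a.2 b.1 = b.2 a.1
  symm := ⟨fun _ _ h => ⟨h.1.symm, h.2.symm⟩⟩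
  loopless := ⟨fun _ h => h.1 rfl⟩

def par (x : B k) (S : B k → ZMod 2) : ZMod 2 := ∑ y ∈ Finset.univ.erase x, S y

def pi (x : B k) (S : B k → ZMod 2) : ZMod 2 := if x = 0 ∨ x = 1 then 0 else par k x S

def col (a : V k) : B k × ZMod 2 := (a.1, pi k a.1 a.2)

theorem pi_add (x : B k) (S T : B k → ZMod 2) : pi k x (S + T) = pi k x S + pi k x T := by
  unfold pi par
  split_ifs
  · simp
  · simp [Finset.sum_add_distrib]

theorem two (a : ZMod 2) : a + a = 0 := by revert a; decide

theorem val_two : ((2 : B k) : ℕ) = 2 := Nat.mod_eq_of_lt (show 2 < k + 3 by omega)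

theorem two_ne_zero' : (2 : B k) ≠ 0 := by
  intro h
  have := congrArg Fin.val h
  rw [val_two] at this
  simp at this

theorem two_ne_one' : (2 : B k) ≠ 1 := by
  intro h
  have := congrArg Fin.val h
  rw [val_two] at this
  simp at this

def flip (f : B k → B k → ZMod 2) : V k ≃ V k where
  toFun a := (a.1, a.2 + f a.1)
  invFun a := (a.1, a.2 - f a.1)
  left_inv a := by simp
  right_inv a := by simp

theorem flip_apply (f : B k → B k → ZMod 2) (a : V k) : flip k f a = (a.1, a.2 + f a.1) := rfl

theorem flip_adj (f : B k → B k → ZMod 2) (a b : V k) (h : a.1 ≠ b.1 → f a.1 b.1 = f b.1 a.1) :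
    (G k).Adj (flip k f a) (flip k f b) ↔ (G k).Adj a b := by
  simp only [G, flip_apply, Pi.add_apply]
  exact and_congr_right fun hne => by rw [h hne, add_left_inj]

theorem flip_col (f : B k → B k → ZMod 2) (hf : ∀ x, pi k x (f x) = 0) (a : V k) :
    col k (flip k f a) = col k a := by
  simp [col, flip_apply, pi_add, hf]

theorem refines (j : ℕ) : RefinesToOrbits (G k) (col k) j := by
  intro u v
  refine ⟨fun h => ?_, ?_⟩
  · have hc : col k u = col k v := col_of_down _ _ _ j 1 _ _ _ h 0
    obtain ⟨x, S⟩ := u
    obtain ⟨x', T⟩ := v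
    obtain ⟨rfl, h2⟩ := Prod.ext_iff.1 hc
    simp only [col] at h2
    obtain ⟨r, hr, hrx⟩ : ∃ r : B k, (r = 0 ∨ r = 1) ∧ r ≠ x := by
      by_cases e : x = 0
      · exact ⟨1, Or.inr rfl, by rw [e]; exact one_ne_zero⟩
      · exact ⟨0, Or.inl rfl, Ne.symm e⟩
    let D := T - S
    let f : B k → B k → ZMod 2 := fun a b =>
      if a = x then D b else if b = x then D a else if a = r then D b else if b = r then D a else 0
    have hsym : ∀ a b, a ≠ b → f a b = f b a := by
      intro a b hab
      by_cases h1 : a = x
      · have h2 : b ≠ x := fun e => hab (h1.trans e.symm)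
        simp only [f, if_pos h1, if_neg h2]
      · by_cases h2 : b = x
        · simp only [f, if_neg h1, if_pos h2]
        · by_cases h3 : a = r
          · have h4 : b ≠ r := fun e => hab (h3.trans e.symm)
            simp only [f, if_neg h1, if_neg h2, if_pos h3, if_neg h4]
          · by_cases h4 : b = r
            · simp only [f, if_neg h1, if_neg h2, if_neg h3, if_pos h4]
            · simp only [f, if_neg h1, if_neg h2, if_neg h3, if_neg h4]
    have hpi : ∀ a, pi k a (f a) = 0 := by
      intro a
      by_cases e : a = x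
      · have : f a = D := by funext b; simp [f, e]
        rw [this, e]
        have h3 := pi_add k x S D
        rw [show S + D = T by simp [D], ← h2] at h3
        simpa using h3
      · unfold pi
        split_ifs with h4
        · rfl
        · have har : a ≠ r := by rintro rfl; exact h4 hr
          unfold par
          rw [Finset.sum_eq_add_of_mem x r (by simp [Ne.symm e]) (by simp [har.symm]) hrx.symm]
          · simp [f, e, har, hrx, two]
          · intro c _ hc
            simp [f, e, har, hc.1, hc.2]
    refine ⟨⟨flip k f, fun {a b} => flip_adj k f a b (hsym _ _)⟩, flip_col k f hpi, ?_⟩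
    show flip k f (x, S) = (x, T)
    have : f x = D := by funext b; simp [f]
    simp [flip_apply, this, D]
  · rintro ⟨φ, hφ, rfl⟩
    exact vc_of_aut _ _ j φ hφ u

def Good (f : B k → B k → ZMod 2) (z : B k) : Prop :=
  z ≠ 0 ∧ f 0 = 0 ∧ (∀ x, pi k x (f x) = 0) ∧ ∀ x y, x ≠ z → y ≠ z → x ≠ y → f x y = f y x

def Rel (m : ℕ) (S S' : Fin m → V k) : Prop :=
  ∃ f z, Good k f z ∧ (∀ i, (S i).1 ≠ z) ∧ ∀ i, S' i = flip k f (S i)

theorem move {m : ℕ} (hm : m ≤ k) (S S' : Fin m → V k) (h : Rel k m S S') :
    ∃ f, (∀ i, S' i = flip k f (S i)) ∧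
      ∀ x : V k, ∃ z, Good k f z ∧ x.1 ≠ z ∧ ∀ i, (S i).1 ≠ z := by
  obtain ⟨f, z, ⟨g1, g2, g3, g4⟩, hz, hS⟩ := h
  obtain ⟨z', hz'⟩ : ∃ z' : B k, z' ∉ insert 0 (insert z (Finset.univ.image fun i => (S i).1)) := by
    by_contra hc
    push Not at hc
    have h1 := Finset.card_le_card (fun y _ => hc y : Finset.univ ⊆ _)
    have h2 := Finset.card_insert_le (0 : B k) (insert z (Finset.univ.image fun i => (S i).1))
    have h3 := Finset.card_insert_le z (Finset.univ.image fun i => (S i).1)
    have h4 := Finset.card_image_le (s := Finset.univ) (f := fun i => (S i).1)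
    simp only [Finset.card_univ, Fintype.card_fin] at h1 h4
    omega
  simp only [Finset.mem_insert, Finset.mem_image, Finset.mem_univ, true_and, not_or,
    not_exists] at hz'
  obtain ⟨a1, a2, a3⟩ := hz'
  let g : B k → ZMod 2 := fun y =>
    if y = z' then ∑ y ∈ (Finset.univ.erase z).erase z', f y z else f y z
  have b0 : Function.update f z g 0 = 0 := by rw [Function.update_of_ne g1.symm, g2]
  have b1 : ∀ x, pi k x (Function.update f z g x) = 0 := by
    intro x
    by_cases e : x = z
    · subst e
      rw [Function.update_self]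
      unfold pi
      split_ifs
      · rfl
      · unfold par
        rw [← Finset.add_sum_erase _ _ (show z' ∈ Finset.univ.erase x by simp [a2]),
          Finset.sum_congr rfl (g := fun y => f y x)
            (fun y hy => if_neg (Finset.mem_erase.1 hy).1)]
        simp [g, two]
    · rw [Function.update_of_ne e, g3]
  refine ⟨Function.update f z g, fun i => ?_, fun x => ?_⟩
  · rw [hS, flip_apply, flip_apply, Function.update_of_ne (hz i)]
  · by_cases e : x.1 = z
    · refine ⟨z', ⟨a1, b0, b1, fun a b ha hb hab => ?_⟩, e ▸ Ne.symm a2, a3⟩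
      by_cases ea : a = z
      · subst ea
        rw [Function.update_self, Function.update_of_ne hab.symm]
        exact if_neg hb
      · by_cases eb : b = z
        · subst eb
          rw [Function.update_self, Function.update_of_ne hab]
          exact (if_neg ha).symm
        · rw [Function.update_of_ne ea, Function.update_of_ne eb, g4 a b ea eb hab]
    · refine ⟨z, ⟨g1, b0, b1, fun a b ha hb hab => ?_⟩, e, hz⟩
      rw [Function.update_of_ne ha, Function.update_of_ne hb, g4 a b ha hb hab]

theorem same_colour (j : ℕ) :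
    vertexColour (G (j + 1)) (stabilise (col (j + 1)) (0, 0)) j (1, 0) =
      vertexColour (G (j + 1)) (stabilise (col (j + 1)) (0, 0)) j (1, Pi.single 2 1) := by
  refine down_eq _ _ (j + 1) (Rel (j + 1)) ?_ ?_ ?_ j 1 _ _ _ ?_
  · rintro S S' ⟨f, z, ⟨g1, g2, g3, g4⟩, hz, hS⟩
    refine Prod.ext ?_ (Prod.ext ?_ ?_)
    · funext a b
      simp only [wl, hS, EmbeddingLike.apply_eq_iff_eq]
    · funext a b
      simp only [wl, hS]
      exact propext (flip_adj _ f _ _ (g4 _ _ (hz a) (hz b))).symm
    · funext a
      simp only [wl, hS, stabilise, flip_col _ f g3]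
      have : flip (j + 1) f (0, 0) = (0, 0) := by simp [flip_apply, g2]
      by_cases e : S a = (0, 0)
      · rw [if_pos e, if_pos (by rw [e, this])]
      · rw [if_neg e, if_neg (fun e' => e ((flip (j + 1) f).injective (e'.trans this.symm)))]
  · intro S S' h
    obtain ⟨f, h1, h2⟩ := move _ le_rfl S S' h
    refine ⟨flip _ f, fun x i => ?_⟩
    obtain ⟨z, z1, z2, z3⟩ := h2 x
    refine ⟨f, z, z1, fun l => ?_, fun l => ?_⟩
    · by_cases e : l = i
      · subst e; simpa using z2
      · simpa [e] using z3 l
    · by_cases e : l = i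
      · subst e; simp
      · simp [e, h1]
  · intro m hm S S' h
    obtain ⟨f, h1, h2⟩ := move _ hm.le S S' h
    refine ⟨flip _ f, fun x => ?_⟩
    obtain ⟨z, z1, z2, z3⟩ := h2 x
    refine ⟨f, z, z1, fun l => ?_, fun l => ?_⟩
    · refine Fin.lastCases ?_ (fun l => ?_) l
      · simpa using z2
      · simpa using z3 l
    · refine Fin.lastCases ?_ (fun l => ?_) l
      · simp
      · simp [h1]
  · have n01 : (0 : B (j + 1)) ≠ 1 := zero_ne_one
    have n20 : (2 : B (j + 1)) ≠ 0 := two_ne_zero' _
    have n12 : (1 : B (j + 1)) ≠ 2 := (two_ne_one' _).symm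
    refine ⟨fun x => if x = 1 then Pi.single 2 1 else 0, 2, ⟨n20, if_neg n01, fun x => ?_,
      fun x y hx hy _ => ?_⟩, fun _ => n12, fun _ => by simp [flip_apply]⟩
    · by_cases e : x = 1
      · simp [pi, e]
      · simp [pi, par, e]
    · beta_reduce
      split_ifs <;> simp [hx, hy]

theorem not_orbit (φ : G k ≃g G k)
    (hφ : ∀ x, stabilise (col k) (0, 0) (φ x) = stabilise (col k) (0, 0) x) :
    φ (1, 0) ≠ (1, Pi.single 2 1) := by
  intro h1
  have h0 : φ (0, 0) = (0, 0) := by
    have := hφ (0, 0)
    simp only [stabilise, if_true] at this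
    by_contra hc
    simp [hc] at this
  have hc : ∀ x, col k (φ x) = col k x := by
    intro x
    by_cases e : x = (0, 0)
    · rw [e, h0]
    · have := hφ x
      simp only [stabilise] at this
      rw [if_neg e, if_neg (fun e' => e (φ.injective (e'.trans h0.symm)))] at this
      exact Option.some.inj this
  let s : B k → B k → ZMod 2 := fun x => (φ (x, 0)).2
  have f1 : ∀ x, (φ (x, 0)).1 = x := fun x => congrArg Prod.fst (hc (x, 0))
  have sy : ∀ x y, x ≠ y → s x y = s y x := by
    intro x y hxy
    have := (φ.map_adj_iff.2 (show (G k).Adj (x, 0) (y, 0) from ⟨hxy, rfl⟩)).2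
    rwa [f1, f1] at this
  have tot : ∑ x, par k x (s x) = 0 := by
    unfold par
    rw [Finset.sum_sigma']
    refine Finset.sum_involution (fun p _ => ⟨p.2, p.1⟩) ?_ ?_ ?_ ?_
    · intro p hp
      have : p.2 ≠ p.1 := by simpa using hp
      simp only
      rw [sy _ _ this]
      exact two _
    · intro p hp _ e
      have : p.2 ≠ p.1 := by simpa using hp
      exact this (congrArg Sigma.fst e)
    · intro p hp
      have : p.2 ≠ p.1 := by simpa using hp
      simpa using this.symm
    · intro p _
      rfl
  rw [Finset.sum_eq_single 1] at tot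
  · have n12 : (2 : B k) ≠ 1 := two_ne_one' _
    simp [s, h1, par, Finset.sum_pi_single', n12] at tot
  · intro b _ hb
    by_cases e : b = 0
    · simp [e, s, h0, par]
    · have := congrArg Prod.snd (hc (b, 0))
      simp only [col, f1, pi, e, hb, or_self, if_false] at this
      rw [this]
      simp [par]
  · simp

end Pool.Agent.H3.WLProof
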